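import Pool.Agent.ZB.Basic

/-!
# ZB, row A1 (helper41): number of walks, connective constant, masses of bridges

* `muLe : MuLe`; `c_mul_le : c (m + n) ≤ c m * c n`; `ms_sa_lt_top : 0 < lam → Ms lam {SA} < ⊤`;
* `uSup : USup`; **`uLe1 : ULe1`**.
-/

open MeasureTheory Set Filter
open scoped ENNReal Topology

namespace ZB

/-! ## Numbers of words -/

/-- the self-avoiding words with `n` letters -/
def SAn (n : ℕ) : Set Wd := {w | w.length = n ∧ SA w}

theorem finite_len (n : ℕ) : {w : Wd | w.length = n}.Finite := List.finite_length_eq St n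

theorem SAn_finite (n : ℕ) : (SAn n).Finite := (finite_len n).subset fun _ h => h.1

theorem c_eq (n : ℕ) : c n = (SAn n).ncard := rfl

theorem ncard_len (n : ℕ) : {w : Wd | w.length = n}.ncard = 4 ^ n := by
  have h1 : {w : Wd | w.length = n}.ncard = Nat.card (List.Vector St n) := rfl
  rw [h1, Nat.card_eq_fintype_card, card_vector]
  rfl

theorem c_le (n : ℕ) : c n ≤ 4 ^ n := by
  rw [c_eq, ← ncard_len]
  exact ncard_le_ncard (fun _ h => h.1) (finite_len n)

/-- the straight word -/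
theorem Y_rep (n : ℕ) : Y (List.replicate n St.U) = n := by
  induction n with
  | zero => rfl
  | succ n ih =>
    rw [List.replicate_succ, Y_cons, ih]
    simp [dy]
    ring

theorem SA_rep (n : ℕ) : SA (List.replicate n St.U) := by
  intro v hv h0 h1
  have h2 : v = List.replicate v.length St.U := by
    rw [List.eq_replicate_iff]
    exact ⟨rfl, fun b hb => List.eq_of_mem_replicate (hv.subset hb)⟩
  rw [h2, Y_rep] at h1
  have h3 : v.length = 0 := by exact_mod_cast h1.2
  exact h0 (List.length_eq_zero_iff.1 h3)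

theorem c_pos (n : ℕ) : 1 ≤ c n := by
  rw [c_eq, Nat.one_le_iff_ne_zero]
  intro h
  rw [ncard_eq_zero (SAn_finite n)] at h
  have h1 : List.replicate n St.U ∈ SAn n := ⟨List.length_replicate, SA_rep n⟩
  rw [h] at h1
  exact h1

/-- submultiplicativity -/
theorem c_mul_le (m n : ℕ) : c (m + n) ≤ c m * c n := by
  rw [c_eq, c_eq, c_eq, ← ncard_prod]
  refine ncard_le_ncard_of_injOn (fun w => (w.take m, w.drop m)) ?_ ?_ ((SAn_finite m).prod (SAn_finite n))
  · rintro w ⟨h1, h2⟩
    refine ⟨⟨?_, h2.ifx (List.take_prefix _ _).isInfix⟩, ⟨?_, h2.ifx (List.drop_suffix _ _).isInfix⟩⟩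
    · simp [h1]
    · simp [h1]
  · intro w _ w' _ h
    simp only [Prod.mk.injEq] at h
    rw [← List.take_append_drop m w, h.1, h.2, List.take_append_drop]

/-! ## mu -/

theorem log_c_nonneg (n : ℕ) : 0 ≤ Real.log (c n) := Real.log_nonneg (by exact_mod_cast c_pos n)

theorem bdd_mu : BddBelow (range fun n : ℕ => Real.log (c (n + 1)) / ((n : ℝ) + 1)) := by
  refine ⟨0, ?_⟩
  rintro _ ⟨n, rfl⟩
  exact div_nonneg (log_c_nonneg _) (by positivity)

theorem mu_pow_le (n : ℕ) : mu ^ n ≤ (c n : ℝ) := by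
  rcases n with _ | n
  · rw [pow_zero]
    exact_mod_cast c_pos 0
  · have h1 : sInf (range fun n : ℕ => Real.log (c (n + 1)) / ((n : ℝ) + 1)) ≤ Real.log (c (n + 1)) / ((n : ℝ) + 1) :=
      csInf_le bdd_mu ⟨n, rfl⟩
    have h2 : (0 : ℝ) < (n : ℝ) + 1 := by positivity
    rw [le_div_iff₀ h2] at h1
    have h3 : (0 : ℝ) < c (n + 1) := by exact_mod_cast c_pos (n + 1)
    unfold mu
    rw [← Real.exp_nat_mul, ← Real.exp_log h3]
    apply Real.exp_le_exp.2
    push_cast
    linarith

theorem one_le_mu : 1 ≤ mu := by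
  unfold mu
  apply Real.one_le_exp
  refine le_csInf (range_nonempty _) ?_
  rintro _ ⟨n, rfl⟩
  exact div_nonneg (log_c_nonneg _) (by positivity)

theorem mu_le_four : mu ≤ 4 := by
  have h1 := mu_pow_le 1
  rw [pow_one] at h1
  refine h1.trans ?_
  exact_mod_cast c_le 1

theorem muLe : MuLe := ⟨mu_pow_le, one_le_mu, mu_le_four⟩

/-- above `mu` -/
theorem c_le_of (b : ℝ) (hb : mu < b) : ∃ C : ℝ, 0 < C ∧ ∀ n : ℕ, (c n : ℝ) ≤ C * b ^ n := by
  have hb0 : 0 < b := mu_pos.trans hb
  have h1 : sInf (range fun n : ℕ => Real.log (c (n + 1)) / ((n : ℝ) + 1)) < Real.log b := by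
    rw [Real.lt_log_iff_exp_lt hb0]
    exact hb
  obtain ⟨_, ⟨n0, rfl⟩, h2⟩ := exists_lt_of_csInf_lt (range_nonempty _) h1
  have h3 : (0 : ℝ) < (n0 : ℝ) + 1 := by positivity
  rw [div_lt_iff₀ h3] at h2
  have h4 : (c (n0 + 1) : ℝ) ≤ b ^ (n0 + 1) := by
    have h5 : (0 : ℝ) < c (n0 + 1) := by exact_mod_cast c_pos (n0 + 1)
    rw [← Real.exp_log h5, ← Real.exp_log (show 0 < b ^ (n0 + 1) by positivity), Real.log_pow]
    apply Real.exp_le_exp.2
    push_cast
    linarith
  have hb1 : 1 ≤ b := one_le_mu.trans hb.le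
  refine ⟨4 ^ (n0 + 1), by positivity, fun n => ?_⟩
  induction n using Nat.strong_induction_on with
  | _ n ih =>
    rcases Nat.lt_or_ge n (n0 + 1) with h | h
    · have h5 : (c n : ℝ) ≤ 4 ^ n := by exact_mod_cast c_le n
      have h6 : (4 : ℝ) ^ n ≤ 4 ^ (n0 + 1) := pow_le_pow_right₀ (by norm_num) h.le
      have h7 : 1 ≤ b ^ n := one_le_pow₀ hb1
      nlinarith [show (0 : ℝ) < 4 ^ (n0 + 1) by positivity]
    · obtain ⟨k, rfl⟩ := Nat.exists_eq_add_of_le h
      have h5 : (c (n0 + 1 + k) : ℝ) ≤ c (n0 + 1) * c k := by exact_mod_cast c_mul_le (n0 + 1) k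
      refine h5.trans ?_
      rw [pow_add]
      calc (c (n0 + 1) : ℝ) * c k ≤ b ^ (n0 + 1) * (4 ^ (n0 + 1) * b ^ k) :=
            mul_le_mul h4 (ih k (by omega)) (by positivity) (by positivity)
        _ = _ := by ring

/-! ## The susceptibility is finite below `x_c` -/

theorem Ms_len (lam : ℝ) (n : ℕ) : Ms lam (SAn n) = ENNReal.ofReal (c n * (xc * Real.exp (-lam)) ^ n) := by
  have h0 : 0 ≤ xc * Real.exp (-lam) := by
    have := xc_pos
    positivity
  rw [Ms_eq_tsum_subtype]
  have h1 : ∀ w : SAn n, wt lam w = ENNReal.ofReal ((xc * Real.exp (-lam)) ^ n) := by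
    intro w
    unfold wt
    rw [w.2.1]
  rw [tsum_congr h1, ENNReal.tsum_set_const, ENNReal.ofReal_mul (by positivity), ENNReal.ofReal_natCast, c_eq,
    ← (SAn_finite n).cast_ncard_eq]
  rfl

theorem ms_sa_lt_top {lam : ℝ} (h : 0 < lam) : Ms lam {w | SA w} < ⊤ := by
  have h1 : {w : Wd | SA w} = ⋃ n, SAn n := by
    ext w
    rw [mem_iUnion]
    exact ⟨fun h => ⟨w.length, rfl, h⟩, fun ⟨_, _, h⟩ => h⟩
  have h2 : mu < mu * Real.exp (lam / 2) := by
    have := Real.one_lt_exp_iff.2 (show 0 < lam / 2 by positivity)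
    nlinarith [mu_pos]
  obtain ⟨C, hC, hc⟩ := c_le_of _ h2
  have hxm : xc * mu = 1 := by
    unfold xc
    exact inv_mul_cancel₀ mu_pos.ne'
  rw [h1]
  refine (Ms_iUnion_le lam _).trans_lt ?_
  have h3 : ∀ n, Ms lam (SAn n) ≤ ENNReal.ofReal (C * Real.exp (-lam / 2) ^ n) := by
    intro n
    rw [Ms_len]
    apply ENNReal.ofReal_le_ofReal
    calc (c n : ℝ) * (xc * Real.exp (-lam)) ^ n ≤ C * (mu * Real.exp (lam / 2)) ^ n * (xc * Real.exp (-lam)) ^ n := by
          have := xc_pos
          exact mul_le_mul_of_nonneg_right (hc n) (by positivity)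
      _ = C * ((mu * Real.exp (lam / 2)) * (xc * Real.exp (-lam))) ^ n := by
          rw [mul_pow (mu * Real.exp (lam / 2))]
          ring
      _ = _ := by
          congr 2
          calc (mu * Real.exp (lam / 2)) * (xc * Real.exp (-lam)) =
              (xc * mu) * (Real.exp (lam / 2) * Real.exp (-lam)) := by ring
            _ = Real.exp (-lam / 2) := by
              rw [hxm, one_mul, ← Real.exp_add]
              congr 1
              ring
  refine (ENNReal.tsum_le_tsum h3).trans_lt ?_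
  rw [← ENNReal.ofReal_tsum_of_nonneg (fun n => by positivity)]
  · exact ENNReal.ofReal_lt_top
  · refine (summable_geometric_of_lt_one (Real.exp_pos _).le ?_).mul_left C
    rw [Real.exp_lt_one_iff]
    linarith

/-! ## Masses of bridges -/

/-- two bridges of the same height which start one word are equal -/
theorem BrS_pre {S : ℕ} {a b a' b' : Wd} (ha : a ∈ BrS S) (hb : Br b) (ha' : a' ∈ BrS S) (hb' : Br b')
    (h : a ++ b = a' ++ b') : a = a' := by
  rcases List.append_eq_append_iff.1 h with ⟨as, h1, h2⟩ | ⟨bs, h1, h2⟩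
  · by_contra h0
    have h3 : as ≠ [] := by
      rintro rfl
      rw [List.append_nil] at h1
      exact h0 h1.symm
    have h4 := hb.2.1 as ⟨b', h2.symm⟩ h3
    have h5 := congrArg Y h1
    rw [Y_append, ha.2, ha'.2] at h5
    omega
  · by_contra h0
    have h3 : bs ≠ [] := by
      rintro rfl
      rw [List.append_nil] at h1
      exact h0 h1
    have h4 := hb'.2.1 bs ⟨b, h2.symm⟩ h3
    have h5 := congrArg Y h1
    rw [Y_append, ha.2, ha'.2] at h5
    omega

theorem uSup : USup := by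
  intro lam S T
  refine Ms_mul_le lam (fun a ha b hb => ?_) fun a ha b hb a' ha' b' hb' h => BrS_pre ha hb.1 ha' hb'.1 h
  refine ⟨ha.1.append hb.1, ?_⟩
  rw [Y_append, ha.2, hb.2]
  push_cast
  rfl

theorem uSup_pow (lam : ℝ) (T n : ℕ) : u lam T ^ n ≤ u lam (n * T) := by
  induction n with
  | zero =>
    rw [pow_zero, Nat.zero_mul]
    have h1 : ({([] : Wd)} : Set Wd) ⊆ BrS 0 := by
      rintro w rfl
      exact ⟨Br_nil, rfl⟩
    have h2 := Ms_mono lam h1
    rw [Ms_singleton, wt_nil] at h2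
    exact h2
  | succ n ih =>
    rw [pow_succ, Nat.succ_mul]
    exact (mul_le_mul' ih le_rfl).trans (uSup lam (n * T) T)

/-- `u` is at most one below the critical point -/
theorem u_le_one_of_pos {lam : ℝ} (h : 0 < lam) (T : ℕ) (hT : 1 ≤ T) : u lam T ≤ 1 := by
  by_contra h0
  rw [not_le] at h0
  have h1 : ∑' n, u lam (n * T) ≤ Ms lam {w | SA w} := by
    have h2 : ∑' n, u lam (n * T) = Ms lam (⋃ n, BrS (n * T)) := by
      refine (Ms_iUnion lam _ fun i j hij => ?_).symm
      rw [Function.onFun, disjoint_left]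
      rintro w ⟨-, h3⟩ ⟨-, h4⟩
      rw [h3] at h4
      have h5 : i * T = j * T := by exact_mod_cast h4
      exact hij (Nat.eq_of_mul_eq_mul_right (by omega) h5)
    rw [h2]
    refine Ms_mono lam ?_
    intro w hw
    obtain ⟨n, hn⟩ := mem_iUnion.1 hw
    exact hn.1.1
  have h2 : ∑' n : ℕ, (1 : ℝ≥0∞) ≤ ∑' n, u lam (n * T) :=
    ENNReal.tsum_le_tsum fun n => (one_le_pow₀ h0.le).trans (uSup_pow lam T n)
  rw [ENNReal.tsum_const_eq_top_of_ne_zero one_ne_zero] at h2
  exact absurd (h2.trans h1) (not_le.2 (ms_sa_lt_top h))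

theorem BrS_zero : BrS 0 = {([] : Wd)} := by
  ext w
  constructor
  · rintro ⟨h1, h2⟩
    by_contra h0
    have := h1.Y_pos h0
    rw [h2] at this
    simp at this
  · rintro rfl
    exact ⟨Br_nil, rfl⟩

theorem u_zero (lam : ℝ) : u lam 0 = 1 := by
  unfold u
  rw [BrS_zero, Ms_singleton, wt_nil]

/-- **ULe1** -/
theorem uLe1 : ULe1 := by
  intro T
  rcases Nat.eq_zero_or_pos T with rfl | hT
  · exact (u_zero 0).le
  · unfold u Ms
    rw [ENNReal.tsum_eq_iSup_sum]
    refine iSup_le fun s => ?_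
    -- a finite sum is continuous in lam
    have h1 : ∀ lam : ℝ, 0 < lam → ∑ w ∈ s, (BrS T).indicator (wt lam) w ≤ 1 := fun lam hl =>
      (ENNReal.sum_le_tsum s).trans (u_le_one_of_pos hl T hT)
    have h2 : Tendsto (fun lam : ℝ => ∑ w ∈ s, (BrS T).indicator (wt lam) w) (𝓝[>] 0)
        (𝓝 (∑ w ∈ s, (BrS T).indicator (wt 0) w)) := by
      refine tendsto_finsetSum _ fun w _ => ?_
      by_cases hw : w ∈ BrS T
      · simp only [indicator_of_mem hw]
        unfold wt
        refine (ENNReal.continuous_ofReal.tendsto _).comp ?_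
        have h3 : Continuous fun lam : ℝ => (xc * Real.exp (-lam)) ^ w.length := by fun_prop
        exact (h3.tendsto 0).mono_left nhdsWithin_le_nhds
      · simp only [indicator_of_notMem hw]
        exact tendsto_const_nhds
    exact le_of_tendsto h2 (eventually_nhdsWithin_of_forall fun lam hl => h1 lam hl)

end ZB
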