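import Pool.Agent.ZB.A3

/-!
# ZB, rows A3: the irreducible bridges have total mass 1 (Kesten's relation) (helper59)
-/

open MeasureTheory Set Filter
open scoped ENNReal Topology

namespace ZB

namespace A3

lemma Y_replicate (k : ℕ) : Y (List.replicate k St.U) = k := by
  unfold Y
  simp [dy]

lemma br_replicate (k : ℕ) : Br (List.replicate k St.U) := by
  have key : ∀ v : Wd, v <:+: List.replicate k St.U → Y v = v.length := by
    intro v hv
    have h1 := (List.infix_replicate_iff.1 hv).2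
    conv_lhs => rw [h1]
    exact Y_replicate _
  refine ⟨fun v hv hn hc => ?_, fun v hv hn => ?_, fun v hv => ?_⟩
  · have h1 := key v hv
    have h2 := List.length_pos_iff.2 hn
    have h3 := hc.2
    omega
  · have h1 := key v hv.isInfix
    have h2 := List.length_pos_iff.2 hn
    omega
  · have h1 := key v hv.isInfix
    omega

lemma u_ge (T : ℕ) : ENNReal.ofReal (xc ^ T) ≤ u 0 T := by
  have h1 : Ms 0 {List.replicate T St.U} ≤ Ms 0 (BrS T) := by
    refine Ms_mono (Set.singleton_subset_iff.2 ⟨br_replicate T, Y_replicate T⟩)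
  rw [Ms_singleton] at h1
  refine le_trans (le_of_eq ?_) h1
  simp [wt]

lemma brS_zero : BrS 0 = {[]} := by
  ext w
  constructor
  · rintro ⟨h1, h2⟩
    by_contra hn
    have := Br.Y_pos h1 hn
    push_cast at h2
    omega
  · intro h
    rw [Set.mem_singleton_iff.1 h]
    exact ⟨br_nil, rfl⟩

lemma u_zero (lam : ℝ) : u lam 0 = 1 := by
  unfold u
  rw [brS_zero, Ms_singleton, wt_nil]

/-- the total mass of the pieces is the sum over the heights -/
lemma P_univ : P Set.univ = ∑' s : ℕ, a 0 (s + 1) := by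
  classical
  have h1 : P Set.univ = ∑' w, {w | Ir w}.indicator (wt 0) w := by
    have h := pInt (fun _ => 1)
    rw [lintegral_one] at h
    rw [h]
    refine tsum_congr fun w => mul_one _
  rw [h1]
  unfold a Ms
  rw [ENNReal.tsum_comm]
  refine tsum_congr fun w => ?_
  by_cases hw : Ir w
  · have hpos := Br.Y_pos hw.2.1 hw.1
    obtain ⟨s, hs⟩ : ∃ s : ℕ, Y w = (s : ℤ) + 1 := ⟨(Y w - 1).toNat, by omega⟩
    rw [Set.indicator_of_mem (show w ∈ {w | Ir w} from hw), tsum_eq_single s]
    · rw [Set.indicator_of_mem]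
      exact ⟨hw, by rw [hs]; push_cast; rfl⟩
    · intro s' hs'
      rw [Set.indicator_of_notMem]
      rintro ⟨-, hY⟩
      apply hs'
      push_cast at hY
      omega
  · rw [Set.indicator_of_notMem (show w ∉ {w | Ir w} from hw)]
    symm
    rw [ENNReal.tsum_eq_zero]
    intro s
    rw [Set.indicator_of_notMem]
    rintro ⟨h, -⟩
    exact hw h

/-- the finite renewal inequality -/
lemma sum_le (N : ℕ) : ∑ T ∈ Finset.range N, u 0 (T + 1) ≤
    (∑ s ∈ Finset.range N, a 0 (s + 1)) * ∑ t ∈ Finset.range N, u 0 t := by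
  have h1 : ∀ T ∈ Finset.range N, u 0 (T + 1) = ∑ s ∈ Finset.range (T + 1), a 0 (s + 1) * u 0 (T - s) := by
    intro T _
    rw [ren 0 (T + 1) (by omega)]
    refine Finset.sum_congr rfl fun s _ => ?_
    rw [Nat.add_sub_cancel]
  rw [Finset.sum_congr rfl h1, Finset.sum_comm' (t' := Finset.range N) (s' := fun s => Finset.Ico s N)
    (fun T s => by simp only [Finset.mem_range, Finset.mem_Ico]; omega), Finset.sum_mul]
  refine Finset.sum_le_sum fun s _ => ?_
  rw [← Finset.mul_sum, Finset.sum_Ico_eq_sum_range]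
  refine mul_le_mul' le_rfl ?_
  have h2 : ∀ i ∈ Finset.range (N - s), u 0 (s + i - s) = u 0 i := fun i _ => by rw [Nat.add_sub_cancel_left]
  rw [Finset.sum_congr rfl h2]
  exact Finset.sum_le_sum_of_subset (Finset.range_mono (Nat.sub_le _ _))

end A3

open A3

/-- **Kesten's relation: the irreducible bridges have total mass 1** -/
theorem prob_of (hU : ULe1) (hW : HW1) : Prob := by
  unfold Prob
  rw [P_univ]
  refine le_antisymm ?_ ?_
  · by_contra hc
    rw [not_le, ENNReal.tsum_eq_iSup_nat, lt_iSup_iff] at hc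
    obtain ⟨N, hN⟩ := hc
    have hN1 : 1 ≤ N := by
      by_contra h
      have : N = 0 := by omega
      rw [this] at hN
      simp at hN
    obtain ⟨b, hb0, hb1, hb2⟩ : ∃ b : ℝ, 0 ≤ b ∧ 1 < b ∧ ENNReal.ofReal b ≤ ∑ s ∈ Finset.range N, a 0 (s + 1) := by
      obtain ⟨b, hb1, hb2⟩ := ENNReal.lt_iff_exists_nnreal_btwn.1 hN
      refine ⟨b, b.2, by exact_mod_cast hb1, ?_⟩
      rw [ENNReal.ofReal_coe_nnreal]
      exact hb2.le
    obtain ⟨r, hr1, hrN⟩ : ∃ r : ℝ, 1 < r ∧ r ^ N = b := by
      refine ⟨b ^ ((1 : ℝ) / N), Real.one_lt_rpow hb1 (by positivity), ?_⟩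
      rw [← Real.rpow_natCast, ← Real.rpow_mul hb0, one_div, inv_mul_cancel₀ (by positivity), Real.rpow_one]
    have hr0 : 0 < r := by linarith
    have hxc : 0 < xc := inv_pos.2 (Real.exp_pos _)
    obtain ⟨c, hc⟩ : ∃ c : ℝ, c = (min xc 1 / r) ^ N := ⟨_, rfl⟩
    have hmin : 0 < min xc 1 := lt_min hxc one_pos
    have hc0 : 0 < c := by rw [hc]; positivity
    have key : ∀ T, ENNReal.ofReal (c * r ^ T) ≤ u 0 T := by
      intro T
      induction T using Nat.strong_induction_on with
      | _ T ih =>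
        by_cases hT : T < N
        · refine le_trans (ENNReal.ofReal_le_ofReal ?_) (u_ge T)
          rw [hc, div_pow]
          calc min xc 1 ^ N / r ^ N * r ^ T ≤ min xc 1 ^ N / r ^ N * r ^ N :=
                mul_le_mul_of_nonneg_left (pow_le_pow_right₀ hr1.le hT.le) (by positivity)
            _ = min xc 1 ^ N := by field_simp
            _ ≤ min xc 1 ^ T := pow_le_pow_of_le_one hmin.le (min_le_right _ _) hT.le
            _ ≤ xc ^ T := pow_le_pow_left₀ hmin.le (min_le_left _ _) _
        · have hT' : N ≤ T := not_lt.1 hT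
          rw [ren 0 T (by omega)]
          calc ENNReal.ofReal (c * r ^ T) = ENNReal.ofReal b * ENNReal.ofReal (c * r ^ (T - N)) := by
                rw [← ENNReal.ofReal_mul hb0]
                congr 1
                rw [← hrN, show r ^ T = r ^ N * r ^ (T - N) by rw [← pow_add]; congr 1; omega]
                ring
            _ ≤ (∑ s ∈ Finset.range N, a 0 (s + 1)) * ENNReal.ofReal (c * r ^ (T - N)) := mul_le_mul' hb2 le_rfl
            _ = ∑ s ∈ Finset.range N, a 0 (s + 1) * ENNReal.ofReal (c * r ^ (T - N)) := Finset.sum_mul _ _ _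
            _ ≤ ∑ s ∈ Finset.range N, a 0 (s + 1) * u 0 (T - 1 - s) := by
                refine Finset.sum_le_sum fun s hs => mul_le_mul' le_rfl ?_
                rw [Finset.mem_range] at hs
                refine le_trans (ENNReal.ofReal_le_ofReal ?_) (ih (T - 1 - s) (by omega))
                exact mul_le_mul_of_nonneg_left (pow_le_pow_right₀ hr1.le (by omega)) hc0.le
            _ ≤ ∑ s ∈ Finset.range T, a 0 (s + 1) * u 0 (T - 1 - s) :=
                Finset.sum_le_sum_of_subset (Finset.range_mono hT')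
    obtain ⟨T, hT⟩ := pow_unbounded_of_one_lt (1 / c) hr1
    have h1 := (key T).trans (hU T)
    have h2 : 1 < c * r ^ T := by
      rw [div_lt_iff₀ hc0] at hT
      linarith
    rw [ENNReal.ofReal_le_one] at h1
    linarith
  · by_contra hc
    rw [not_le] at hc
    obtain ⟨al, hal⟩ : ∃ al : ℝ≥0∞, al = ∑' s : ℕ, a 0 (s + 1) := ⟨_, rfl⟩
    rw [← hal] at hc
    have hfin : ∀ N, ∑ t ∈ Finset.range N, u 0 t ≠ ⊤ := fun N =>
      ENNReal.sum_ne_top.2 fun t _ => ne_top_of_le_ne_top ENNReal.one_ne_top (hU t)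
    have key : ∀ N, ∑ t ∈ Finset.range N, u 0 t ≤ (1 - al)⁻¹ := by
      intro N
      have h1 : ∑ t ∈ Finset.range N, u 0 t ≤ 1 + al * ∑ t ∈ Finset.range N, u 0 t := by
        calc ∑ t ∈ Finset.range N, u 0 t ≤ ∑ t ∈ Finset.range (N + 1), u 0 t :=
              Finset.sum_le_sum_of_subset (Finset.range_mono (Nat.le_succ _))
          _ = ∑ t ∈ Finset.range N, u 0 (t + 1) + 1 := by rw [Finset.sum_range_succ', u_zero]
          _ ≤ (∑ s ∈ Finset.range N, a 0 (s + 1)) * (∑ t ∈ Finset.range N, u 0 t) + 1 := add_le_add (sum_le N) le_rfl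
          _ ≤ al * (∑ t ∈ Finset.range N, u 0 t) + 1 := by
              refine add_le_add (mul_le_mul' ?_ le_rfl) le_rfl
              rw [hal]
              exact ENNReal.sum_le_tsum _
          _ = _ := add_comm _ _
      obtain ⟨V, hV⟩ : ∃ V, V = ∑ t ∈ Finset.range N, u 0 t := ⟨_, rfl⟩
      have hVf := hfin N
      rw [← hV] at h1 hVf ⊢
      have h2 : (1 - al) * V ≤ 1 := by
        rw [ENNReal.sub_mul (fun _ _ => hVf), one_mul]
        exact tsub_le_iff_right.2 h1
      rw [ENNReal.le_inv_iff_mul_le, mul_comm]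
      exact h2
    have h3 : ∑' T, u 0 T ≤ (1 - al)⁻¹ := by
      rw [ENNReal.tsum_eq_iSup_nat]
      exact iSup_le key
    have h4 : (1 - al)⁻¹ ≠ ⊤ := by
      rw [ENNReal.inv_ne_top]
      exact (tsub_pos_iff_lt.2 hc).ne'
    rw [hW] at h3
    exact h4 (top_le_iff.1 h3)

end ZB
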