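import Pool.Agent.ZB.Basic

/-!
# ZB, row C0: the concrete base (law of an irreducible bridge)
-/

open MeasureTheory Set Filter
open scoped ENNReal Topology

namespace ZB

theorem wt_zero_shift (lam : ℝ) (w : Wd) :
    wt 0 w * ENNReal.ofReal (Real.exp (- lam * w.length)) = wt lam w := by
  rw [wt_shift lam 0 w, mul_comm]
  congr 3; ring

theorem P_ae (hI : PInt) : ∀ᵐ w ∂P, Ir w := by
  rw [ae_iff]
  have h1 : P {w | ¬ Ir w} = ∫⁻ w, {w | ¬ Ir w}.indicator 1 w ∂P := by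
    rw [lintegral_indicator_one (MeasurableSet.of_discrete)]
  rw [h1, hI]
  refine ENNReal.tsum_eq_zero.2 fun w => ?_
  by_cases h : Ir w <;> simp [h]

theorem P_apply (hI : PInt) (A : Set Wd) : P A = Ms 0 (A ∩ {w | Ir w}) := by
  have h1 : P A = ∫⁻ w, A.indicator 1 w ∂P := by
    rw [lintegral_indicator_one (MeasurableSet.of_discrete)]
  rw [h1, hI]
  unfold Ms
  refine tsum_congr fun w => ?_
  by_cases h : Ir w <;> by_cases hA : w ∈ A <;> simp [h, hA]

/-- integrals over pieces, sliced by the height -/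
theorem lint_slice (hI : PInt) (f : Wd → ℝ≥0∞) :
    ∫⁻ w, f w ∂P = ∑' T : ℕ, ∑' w, (IrS T).indicator (fun w => wt 0 w * f w) w := by
  rw [hI, ENNReal.tsum_comm]
  refine tsum_congr fun w => ?_
  by_cases h : Ir w
  · rw [tsum_eq_single (Y w).toNat]
    · have h1 : w ∈ IrS (Y w).toNat := ⟨h, by have := h.one_le; omega⟩
      simp [h, h1]
    · intro T hT
      refine indicator_of_notMem (fun h2 => hT ?_) _
      have := h2.2; omega
  · have : ∀ T, w ∉ IrS T := fun T h2 => h h2.1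
    simp [h, this]

theorem eZ_int (hI : PInt) (hE : EZ) (j : ℕ) :
    ∫⁻ w, ENNReal.ofReal (Real.exp (mj j * Hf w - (1 / 2) ^ j * Lf w)) ∂P = 1 := by
  rw [lint_slice hI, ← hE (lj j) (by unfold lj; positivity)]
  refine tsum_congr fun T => ?_
  unfold a Ms
  rw [← ENNReal.tsum_mul_left]
  refine tsum_congr fun w => ?_
  by_cases h : w ∈ IrS T
  · rw [indicator_of_mem h, indicator_of_mem h, ← wt_zero_shift (lj j) w]
    have hH : Hf w = T := by unfold Hf; rw [h.2]; simp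
    rw [hH, sub_eq_add_neg, Real.exp_add, ENNReal.ofReal_mul (by positivity)]
    unfold Lf lj mj
    rw [mul_left_comm]
    congr 4
    · ring
  · rw [indicator_of_notMem h, indicator_of_notMem h, mul_zero]

/-- the law of a piece is invariant under `L <-> R` -/
theorem P_fL (hI : PInt) (f : Wd → ℝ≥0∞) : ∫⁻ w, f (w.map fL) ∂P = ∫⁻ w, f w ∂P := by
  rw [hI, hI]
  have e : Wd ≃ Wd := ⟨fun w => w.map fL, fun w => w.map fL, map_fL_fL, map_fL_fL⟩
  rw [← (⟨fun w => w.map fL, fun w => w.map fL, map_fL_fL, map_fL_fL⟩ : Wd ≃ Wd).tsum_eq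
    (fun w => {w | Ir w}.indicator (wt 0) w * f w)]
  refine tsum_congr fun w => ?_
  simp only [Equiv.coe_fn_mk]
  congr 1
  by_cases h : Ir w
  · have h' : Ir (w.map fL) := Ir_fL.2 h
    rw [indicator_of_mem (show w ∈ {w | Ir w} from h),
      indicator_of_mem (show w.map fL ∈ {w | Ir w} from h')]
    exact wt_congr 0 (by simp)
  · have h' : ¬ Ir (w.map fL) := fun h2 => h (Ir_fL.1 h2)
    rw [indicator_of_notMem (show w ∉ {w | Ir w} from h),
      indicator_of_notMem (show w.map fL ∉ {w | Ir w} from h')]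

theorem sym_of (hI : PInt) (s : ℝ) : ∫ w in {w | Wf w < s}, Df w ∂P = 0 := by
  have hmp : MeasurePreserving (fun w : Wd => w.map fL) P P := by
    refine ⟨Measurable.of_discrete, ?_⟩
    ext A hA
    rw [Measure.map_apply Measurable.of_discrete hA]
    have h1 : ∀ B : Set Wd, P B = ∫⁻ w, B.indicator 1 w ∂P := fun B => by
      rw [lintegral_indicator_one (MeasurableSet.of_discrete)]
    rw [h1 A, ← P_fL hI, h1]
    rfl
  have h2 : ∫ w in {w | Wf w < s}, Df w ∂P = ∫ w, {w | Wf w < s}.indicator Df w ∂P := by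
    rw [integral_indicator MeasurableSet.of_discrete]
  rw [h2]
  set g : Wd → ℝ := {w | Wf w < s}.indicator Df with hg
  have h3 : ∀ w : Wd, g (w.map fL) = - g w := by
    intro w
    by_cases h : Wf w < s
    · have h' : Wf (w.map fL) < s := by unfold Wf at *; rwa [wid_fL]
      rw [hg, indicator_of_mem (show w ∈ {w | Wf w < s} from h),
        indicator_of_mem (show w.map fL ∈ {w | Wf w < s} from h')]
      unfold Df; simp
    · have h' : ¬ Wf (w.map fL) < s := by unfold Wf at *; rwa [wid_fL]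
      rw [hg, indicator_of_notMem (show w ∉ {w | Wf w < s} from h),
        indicator_of_notMem (show w.map fL ∉ {w | Wf w < s} from h')]
      simp
  have h4 : ∫ w, g (w.map fL) ∂P = ∫ w, g w ∂P := by
    have hme : MeasurableEmbedding (fun w : Wd => w.map fL) := by
      refine ⟨?_, Measurable.of_discrete, fun _ _ => MeasurableSet.of_discrete⟩
      intro v w h
      have h1 := congrArg (List.map fL) h
      simp only [map_fL_fL] at h1
      exact h1
    exact hmp.integral_comp hme g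
  have h5 : ∫ w, g (w.map fL) ∂P = - ∫ w, g w ∂P := by
    rw [← integral_neg]
    exact integral_congr_ae (ae_of_all _ h3)
  linarith

theorem ae_of_P (hI : PInt) :
    ∀ᵐ w ∂P, 1 ≤ Hf w ∧ Hf w ≤ Lf w ∧ |Df w| ≤ Wf w ∧ Wf w ≤ Lf w := by
  filter_upwards [P_ae hI] with w hw
  unfold Hf Lf Df Wf
  refine ⟨by exact_mod_cast hw.one_le, by exact_mod_cast hw.len, ?_, ?_⟩
  · have := abs_le_wid (List.infix_refl w)
    exact_mod_cast this
  · exact_mod_cast wid_le_length w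

/-- numbers: tail of the stretched exponential -/
theorem tail_aux : ∃ s0 : ℝ, 1 ≤ s0 ∧ ∀ s, s0 ≤ s →
    ∑' S : ℕ, (if s ≤ (S : ℝ) then ENNReal.ofReal ((S : ℝ) *
      Real.exp (- (S : ℝ) ^ (1 / 30 : ℝ))) else 0) ≤
      ENNReal.ofReal (Real.exp (- s ^ (1 / 40 : ℝ))) := by
  have h1 : Tendsto (fun t : ℝ => t ^ 360 * Real.exp (-t)) atTop (𝓝 0) :=
    Real.tendsto_pow_mul_exp_neg_atTop_nhds_zero 360
  have h2 : Tendsto (fun x : ℝ => x ^ (1 / 120 : ℝ)) atTop atTop :=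
    tendsto_rpow_atTop (by norm_num)
  have h3 := (h1.comp h2).eventually_lt_const (show (0:ℝ) < 1 / 2 by norm_num)
  have h4 := h2.eventually_ge_atTop 2
  obtain ⟨s0, hs0⟩ := (h3.and h4).exists_forall_of_atTop
  refine ⟨max s0 1, le_max_right _ _, fun s hs => ?_⟩
  have key : ∀ S : ℕ, s ≤ (S : ℝ) → (S : ℝ) * Real.exp (- (S : ℝ) ^ (1 / 30 : ℝ)) ≤
      (1 / 2) * (1 / (S : ℝ) ^ 2) * Real.exp (- s ^ (1 / 40 : ℝ)) := by
    intro S hS
    have hS1 : (1 : ℝ) ≤ S := (le_max_right s0 1).trans (hs.trans hS)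
    have hS0 : s0 ≤ (S : ℝ) := (le_max_left s0 1).trans (hs.trans hS)
    obtain ⟨a1, a2⟩ := hs0 _ hS0
    simp only [Function.comp_apply] at a1
    set t := (S : ℝ) ^ (1 / 120 : ℝ) with ht
    have e1 : (S : ℝ) ^ (1 / 30 : ℝ) = t ^ 4 := by
      rw [ht, ← Real.rpow_natCast, ← Real.rpow_mul (by positivity)]; norm_num
    have e2 : (S : ℝ) ^ (1 / 40 : ℝ) = t ^ 3 := by
      rw [ht, ← Real.rpow_natCast, ← Real.rpow_mul (by positivity)]; norm_num
    have e3 : (S : ℝ) ^ 3 = t ^ 360 := by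
      rw [ht, ← Real.rpow_natCast, ← Real.rpow_natCast, ← Real.rpow_mul (by positivity)]
      norm_num
    have e4 : s ^ (1 / 40 : ℝ) ≤ (S : ℝ) ^ (1 / 40 : ℝ) :=
      Real.rpow_le_rpow (by linarith [le_max_right s0 1]) hS (by norm_num)
    have e5 : t + t ^ 3 ≤ t ^ 4 := by nlinarith [pow_pos (show (0:ℝ) < t by linarith) 3, sq_nonneg (t - 1), sq_nonneg (t*t - t)]
    have e6 : Real.exp (- (S : ℝ) ^ (1 / 30 : ℝ)) ≤ Real.exp (-t) * Real.exp (- s ^ (1 / 40 : ℝ)) := by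
      rw [← Real.exp_add, e1]
      apply Real.exp_le_exp.2
      rw [e2] at e4; linarith
    have e7 : (S : ℝ) ^ 3 * Real.exp (-t) ≤ 1 / 2 := by rw [e3]; exact a1.le
    have hp := Real.exp_pos (- s ^ (1 / 40 : ℝ))
    calc (S : ℝ) * Real.exp (- (S : ℝ) ^ (1 / 30 : ℝ))
        ≤ (S : ℝ) * (Real.exp (-t) * Real.exp (- s ^ (1 / 40 : ℝ))) := by gcongr
      _ = (1 / (S : ℝ) ^ 2) * ((S : ℝ) ^ 3 * Real.exp (-t)) * Real.exp (- s ^ (1 / 40 : ℝ)) := by
          field_simp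
      _ ≤ (1 / (S : ℝ) ^ 2) * (1 / 2) * Real.exp (- s ^ (1 / 40 : ℝ)) := by gcongr
      _ = _ := by ring
  have hz : Summable (fun S : ℕ => 1 / (S : ℝ) ^ 2) := Real.summable_one_div_nat_pow.2 (by norm_num)
  have hz2 : ∑' S : ℕ, 1 / (S : ℝ) ^ 2 ≤ 2 := by
    rw [hasSum_zeta_two.tsum_eq]
    have := Real.pi_lt_d2
    have := Real.pi_pos
    nlinarith
  calc ∑' S : ℕ, (if s ≤ (S : ℝ) then ENNReal.ofReal ((S : ℝ) *
      Real.exp (- (S : ℝ) ^ (1 / 30 : ℝ))) else 0)
      ≤ ∑' S : ℕ, ENNReal.ofReal ((1 / 2) * (1 / (S : ℝ) ^ 2) * Real.exp (- s ^ (1 / 40 : ℝ))) := by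
        refine ENNReal.tsum_le_tsum fun S => ?_
        split_ifs with h
        · exact ENNReal.ofReal_le_ofReal (key S h)
        · exact bot_le
    _ = ENNReal.ofReal (∑' S : ℕ, (1 / 2) * (1 / (S : ℝ) ^ 2) * Real.exp (- s ^ (1 / 40 : ℝ))) := by
        rw [ENNReal.ofReal_tsum_of_nonneg (fun S => by positivity)]
        exact (hz.mul_left _).mul_right _
    _ ≤ _ := by
        refine ENNReal.ofReal_le_ofReal ?_
        rw [tsum_mul_right, tsum_mul_left]
        have hp := Real.exp_pos (- s ^ (1 / 40 : ℝ))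
        nlinarith

theorem tT_of (hI : PInt) (hT : TRow) (h0 : M0) (hL : MLim) (hlo : MLo) (d : ℝ) (hd : 0 < d)
    (hd1 : d ≤ 1 / 100) : ∃ k0 : ℕ, ∀ k, k0 ≤ k → ∀ s : ℝ, (1 / mj k) ^ 7 ≤ s →
    ∀ M lam : ℝ, (M = 0 ∧ lam = 0 ∨ ∃ j, M = mj j ∧ lam = (1 / 2) ^ j ∧ mj j ≤ d / 2 * mj k) →
    ∫⁻ w in {w | s ≤ Hf w ∧ Lf w < 2.9 * (2 ^ k * mj k) * Hf w},
      ENNReal.ofReal (Hf w * Real.exp (M * Hf w - lam * Lf w)) ∂P ≤
      ENNReal.ofReal (Real.exp (- s ^ (1 / 40 : ℝ))) := by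
  obtain ⟨S0, hS0⟩ := hT d hd hd1
  obtain ⟨s0, hs1, hs0⟩ := tail_aux
  have hpos : ∀ k, 0 < mj k := fun k => lt_of_lt_of_le (by unfold lj; positivity)
    (hlo (lj k) (by unfold lj; positivity))
  have hlim : Tendsto (fun k => (1 / mj k) ^ 7) atTop atTop := by
    have h1 : Tendsto (fun k => (mj k)⁻¹) atTop atTop :=
      tendsto_inv_nhdsGT_zero.comp (tendsto_nhdsWithin_iff.2 ⟨hL, Eventually.of_forall hpos⟩)
    have h2 := (tendsto_pow_atTop (α := ℝ) (n := 7) (by norm_num)).comp h1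
    simpa [Function.comp_def] using h2
  obtain ⟨k0, hk0⟩ := (hlim.eventually_ge_atTop (max s0 S0)).exists_forall_of_atTop
  refine ⟨k0, fun k hk s hs M lam hM => ?_⟩
  have hss0 : s0 ≤ s := (le_max_left _ _).trans ((hk0 k hk).trans hs)
  have hsS0 : (S0 : ℝ) ≤ s := (le_max_right _ _).trans ((hk0 k hk).trans hs)
  have hlam : 0 ≤ lam ∧ M = m lam ∧ m lam ≤ d / 2 * mj k := by
    rcases hM with ⟨rfl, rfl⟩ | ⟨j, rfl, rfl, h3⟩
    · exact ⟨le_rfl, h0.symm, by rw [h0]; have := hpos k; positivity⟩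
    · exact ⟨by positivity, rfl, h3⟩
  obtain ⟨hl0, rfl, hml⟩ := hlam
  rw [← lintegral_indicator MeasurableSet.of_discrete, lint_slice hI]
  refine le_trans ?_ (hs0 s hss0)
  refine ENNReal.tsum_le_tsum fun S => ?_
  split_ifs with hsS
  · have h4 := hS0 k S (by exact_mod_cast hsS0.trans hsS) (hs.trans hsS) lam hl0 hml
    calc ∑' w, (IrS S).indicator (fun w => wt 0 w *
          {w | s ≤ Hf w ∧ Lf w < 2.9 * (2 ^ k * mj k) * Hf w}.indicator
            (fun w => ENNReal.ofReal (Hf w * Real.exp (m lam * Hf w - lam * Lf w))) w) w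
        ≤ ENNReal.ofReal S * (ENNReal.ofReal (Real.exp (m lam * S)) *
          Ms lam {w | w ∈ IrS S ∧ (w.length : ℝ) < 2.9 * rj k * S}) := by
          unfold Ms
          rw [← ENNReal.tsum_mul_left, ← ENNReal.tsum_mul_left]
          refine ENNReal.tsum_le_tsum fun w => ?_
          by_cases h5 : w ∈ IrS S
          · rw [indicator_of_mem h5]
            have hH : Hf w = S := by unfold Hf; rw [h5.2]; simp
            by_cases h6 : Lf w < 2.9 * (2 ^ k * mj k) * Hf w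
            · have h7 : w ∈ {w | w ∈ IrS S ∧ (w.length : ℝ) < 2.9 * rj k * S} := by
                refine ⟨h5, ?_⟩
                rw [hH] at h6; exact h6
              rw [indicator_of_mem h7, indicator_of_mem (show w ∈ {w | s ≤ Hf w ∧
                Lf w < 2.9 * (2 ^ k * mj k) * Hf w} from ⟨by rw [hH]; exact hsS, h6⟩), hH,
                ← wt_zero_shift lam w, ENNReal.ofReal_mul (by positivity), sub_eq_add_neg,
                Real.exp_add, ENNReal.ofReal_mul (by positivity)]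
              unfold Lf
              rw [neg_mul]
              refine le_of_eq ?_
              ring
            · rw [indicator_of_notMem (show w ∉ {w | s ≤ Hf w ∧
                Lf w < 2.9 * (2 ^ k * mj k) * Hf w} from fun h => h6 h.2), mul_zero]
              exact bot_le
          · rw [indicator_of_notMem h5]; exact bot_le
      _ ≤ ENNReal.ofReal S * ENNReal.ofReal (Real.exp (- (S : ℝ) ^ (1 / 30 : ℝ))) := by
          gcongr
      _ = _ := by rw [ENNReal.ofReal_mul (by positivity)]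
  · refine le_of_eq ?_
    rw [ENNReal.tsum_eq_zero]
    intro w
    by_cases h5 : w ∈ IrS S
    · rw [indicator_of_mem h5]
      have hH : Hf w = S := by unfold Hf; rw [h5.2]; simp
      rw [indicator_of_notMem (show w ∉ {w | s ≤ Hf w ∧
        Lf w < 2.9 * (2 ^ k * mj k) * Hf w} from fun h => hsS (by rw [← hH]; exact h.1)),
        mul_zero]
    · rw [indicator_of_notMem h5]

/-- walks of horizontal extent `>= N` have the same mass as those of vertical extent `>= N` -/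
theorem Ms_X_eq_Y (lam : ℝ) (N : ℕ) :
    Ms lam {w | SA w ∧ ∃ v, v <:+: w ∧ (N : ℤ) ≤ |X v|} =
      Ms lam {w | SA w ∧ ∃ v, v <:+: w ∧ (N : ℤ) ≤ |Y v|} := by
  refine Ms_invol lam rho ?_ ?_ rho_length rho_rho
  · rintro w ⟨hw, v, hv, h⟩
    exact ⟨SA_rho.2 hw, rho v, hv.map fD, by simpa using h⟩
  · rintro w ⟨hw, v, hv, h⟩
    exact ⟨SA_rho.2 hw, rho v, hv.map fD, by simpa using h⟩

theorem tW_of (hI : PInt) (hH : HW2) (hL : MLim) (hlo : MLo) (d : ℝ) (hd : 0 < d)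
    (_hd1 : d ≤ 1 / 100) : ∃ k0 : ℕ, ∀ k, k0 ≤ k → ∀ s : ℝ, (1 / mj k) ^ 4 ≤ s →
    P {w | s ≤ Wf w ∧ Lf w < (1 - d) * (2 ^ k * mj k) * s} ≤
      ENNReal.ofReal (Real.exp (- s ^ (1 / 2 : ℝ))) := by
  obtain ⟨C, hC, hC2⟩ := hH
  have hpos : ∀ k, 0 < mj k := fun k => lt_of_lt_of_le (by unfold lj; positivity)
    (hlo (lj k) (by unfold lj; positivity))
  have hlim : Tendsto (fun k => (1 / mj k) ^ 4) atTop atTop := by
    have h1 : Tendsto (fun k => (mj k)⁻¹) atTop atTop :=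
      tendsto_inv_nhdsGT_zero.comp (tendsto_nhdsWithin_iff.2 ⟨hL, Eventually.of_forall hpos⟩)
    have h2 := (tendsto_pow_atTop (α := ℝ) (n := 4) (by norm_num)).comp h1
    simpa [Function.comp_def] using h2
  -- numbers
  have hnum : ∀ᶠ s : ℝ in atTop, C * Real.exp (3 * s ^ (1 / 4 : ℝ) - d * s ^ (3 / 4 : ℝ)) ≤
      Real.exp (- s ^ (1 / 2 : ℝ)) := by
    have h2 : Tendsto (fun x : ℝ => x ^ (1 / 4 : ℝ)) atTop atTop :=
      tendsto_rpow_atTop (by norm_num)
    have h3 : ∀ᶠ t : ℝ in atTop, Real.log C + 3 * t + t ^ 2 ≤ d * t ^ 3 := by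
      have h4 : ∀ᶠ t : ℝ in atTop, (|Real.log C| + 5) / d ≤ t := eventually_ge_atTop _
      filter_upwards [h4, eventually_ge_atTop 1] with t ht ht1
      have h5 : |Real.log C| + 5 ≤ d * t := by
        rw [div_le_iff₀ hd] at ht; linarith
      have h6 := le_abs_self (Real.log C)
      have h7 := abs_nonneg (Real.log C)
      have h8 : Real.log C + 3 * t + t ^ 2 ≤ (|Real.log C| + 5) * t ^ 2 := by nlinarith
      nlinarith [sq_nonneg t]
    filter_upwards [h2.eventually h3, eventually_ge_atTop 1] with s hs hs1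
    set t := s ^ (1 / 4 : ℝ) with ht
    have e1 : s ^ (3 / 4 : ℝ) = t ^ 3 := by
      rw [ht, ← Real.rpow_natCast, ← Real.rpow_mul (by positivity)]; norm_num
    have e2 : s ^ (1 / 2 : ℝ) = t ^ 2 := by
      rw [ht, ← Real.rpow_natCast, ← Real.rpow_mul (by positivity)]; norm_num
    rw [e1, e2, ← Real.exp_log hC, ← Real.exp_add]
    apply Real.exp_le_exp.2
    linarith
  obtain ⟨s1, hs1⟩ := hnum.exists_forall_of_atTop
  obtain ⟨k0, hk0⟩ := (hlim.eventually_ge_atTop (max s1 1)).exists_forall_of_atTop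
  refine ⟨k0, fun k hk s hs => ?_⟩
  have hss1 : s1 ≤ s := (le_max_left _ _).trans ((hk0 k hk).trans hs)
  have hs1' : 1 ≤ s := (le_max_right _ _).trans ((hk0 k hk).trans hs)
  have hm := hpos k
  have hl0 : 0 < lj k := by unfold lj; positivity
  have hl1 : lj k ≤ 1 := by unfold lj; exact pow_le_one₀ (by norm_num) (by norm_num)
  have hinv : (2 : ℝ) ^ k * lj k = 1 := by unfold lj; rw [← mul_pow]; norm_num
  rw [P_apply hI]
  have h1 : Ms 0 ({w | s ≤ Wf w ∧ Lf w < (1 - d) * (2 ^ k * mj k) * s} ∩ {w | Ir w}) ≤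
      ENNReal.ofReal (Real.exp ((1 - d) * mj k * s)) *
        Ms (lj k) {w | SA w ∧ ∃ v, v <:+: w ∧ (⌈s⌉₊ : ℤ) ≤ |X v|} := by
    unfold Ms
    rw [← ENNReal.tsum_mul_left]
    refine ENNReal.tsum_le_tsum fun w => ?_
    by_cases h2 : w ∈ ({w | s ≤ Wf w ∧ Lf w < (1 - d) * (2 ^ k * mj k) * s} ∩ {w | Ir w})
    · have h3 : w ∈ {w | SA w ∧ ∃ v, v <:+: w ∧ (⌈s⌉₊ : ℤ) ≤ |X v|} := by
        obtain ⟨v, hv, hv2⟩ := exists_wid w
        refine ⟨h2.2.sa, v, hv, ?_⟩
        have h4 : s ≤ (wid w : ℝ) := h2.1.1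
        have h5 : ⌈s⌉₊ ≤ wid w := Nat.ceil_le.2 h4
        rw [Int.abs_eq_natAbs, hv2]
        exact_mod_cast h5
      rw [indicator_of_mem h2, indicator_of_mem h3, wt_shift 0 (lj k)]
      refine mul_le_mul' (ENNReal.ofReal_le_ofReal (Real.exp_le_exp.2 ?_)) le_rfl
      have h6 : (w.length : ℝ) < (1 - d) * (2 ^ k * mj k) * s := h2.1.2
      calc (lj k - 0) * (w.length : ℝ) ≤ lj k * ((1 - d) * (2 ^ k * mj k) * s) := by
            rw [sub_zero]; gcongr
        _ = (2 ^ k * lj k) * ((1 - d) * mj k * s) := by ring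
        _ = _ := by rw [hinv, one_mul]
    · rw [indicator_of_notMem h2]; exact bot_le
  refine h1.trans ?_
  rw [Ms_X_eq_Y]
  have h7 := hC2 (lj k) hl0 hl1 ⌈s⌉₊
  calc _ ≤ ENNReal.ofReal (Real.exp ((1 - d) * mj k * s)) *
        ENNReal.ofReal (C * Real.exp (3 / m (lj k) - m (lj k) * (⌈s⌉₊ : ℝ))) := by
        gcongr
    _ = ENNReal.ofReal (C * Real.exp ((1 - d) * mj k * s + (3 / mj k - mj k * (⌈s⌉₊ : ℝ)))) := by
        rw [← ENNReal.ofReal_mul (by positivity), Real.exp_add]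
        congr 1
        unfold mj; ring
    _ ≤ ENNReal.ofReal (C * Real.exp (3 * s ^ (1 / 4 : ℝ) - d * s ^ (3 / 4 : ℝ))) := by
        refine ENNReal.ofReal_le_ofReal (mul_le_mul_of_nonneg_left (Real.exp_le_exp.2 ?_) hC.le)
        have h8 : s ≤ (⌈s⌉₊ : ℝ) := Nat.le_ceil s
        have h9 : 1 / mj k ≤ s ^ (1 / 4 : ℝ) := by
          have := Real.rpow_le_rpow (by positivity) hs (show (0:ℝ) ≤ 1 / 4 by norm_num)
          rwa [← Real.rpow_natCast, ← Real.rpow_mul (by positivity),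
            show ((4 : ℕ) : ℝ) * (1 / 4) = 1 by norm_num, Real.rpow_one] at this
        have h10 : s ^ (3 / 4 : ℝ) ≤ mj k * s := by
          have e : s = s ^ (1 / 4 : ℝ) * s ^ (3 / 4 : ℝ) := by
            rw [← Real.rpow_add (by linarith)]; norm_num
          have h11 : 1 ≤ mj k * s ^ (1 / 4 : ℝ) := by
            rw [div_le_iff₀ hm] at h9; linarith
          calc s ^ (3 / 4 : ℝ) = 1 * s ^ (3 / 4 : ℝ) := (one_mul _).symm
            _ ≤ (mj k * s ^ (1 / 4 : ℝ)) * s ^ (3 / 4 : ℝ) := by gcongr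
            _ = mj k * (s ^ (1 / 4 : ℝ) * s ^ (3 / 4 : ℝ)) := by ring
            _ = mj k * s := by rw [← e]
        have h12 : 3 / mj k ≤ 3 * s ^ (1 / 4 : ℝ) := by
          rw [show 3 / mj k = 3 * (1 / mj k) by ring]; gcongr
        have h13 : mj k * s ≤ mj k * (⌈s⌉₊ : ℝ) := by gcongr
        nlinarith
    _ ≤ _ := ENNReal.ofReal_le_ofReal (hs1 s hss1)

/-- row C0 -/
theorem baseP (hI : PInt) (hP : Prob) (hlo : MLo) (hmono : MMono) (hdbl : MDbl) (hL : MLim)
    (h0 : M0) (hE : EZ) (hT : TRow) (hH : HW2) : BaseP where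
  prob := hP
  ae := ae_of_P hI
  m_lo j := hlo (lj j) (by unfold lj; positivity)
  m_dec j := hmono _ _ (by unfold lj; positivity) (by
    unfold lj; exact pow_le_pow_of_le_one (by norm_num) (by norm_num) (Nat.le_succ j))
  m_dbl j := by
    have := hdbl (lj j) (by unfold lj; positivity)
    unfold mj
    rwa [show lj j / 2 = lj (j + 1) by unfold lj; rw [pow_succ]; ring] at this
  m_lim := hL
  eZ := eZ_int hI hE
  sym := sym_of hI
  tT := tT_of hI hT h0 hL hlo
  tW := tW_of hI hH hL hlo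

end ZB
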