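import Pool.Agent.ZB.Basic

/-!
# ZB, row B5 (helper16): the tilted irreducible bridges have mass one

77's argument, no mass gap: `Ph T` (words of height `T` that end at their maximum) is submultiplicative, and
`u T ≤ phi T ≤ chi * sum over S ≥ T of u S`; so the tilted renewal sequence is recurrent.

* `renewal` : the abstract renewal lemma;
* **`eZ_of : Ren → MU → MBest → MLo → HW2 → EZ`**.
-/

open MeasureTheory Set Filter
open scoped ENNReal Topology

namespace ZB

namespace EZP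

/-! ### 1. Renewal sequences -/

lemma conv (f g : ℕ → ℝ≥0∞) : ∑' n : ℕ, ∑ p ∈ Finset.HasAntidiagonal.antidiagonal n, f p.1 * g p.2 = (∑' i, f i) * ∑' j, g j := by
  have h1 : ∀ n : ℕ, ∑ p ∈ Finset.HasAntidiagonal.antidiagonal n, f p.1 * g p.2 =
      ∑' p : Finset.HasAntidiagonal.antidiagonal n, f p.1.1 * g p.1.2 := by
    intro n
    rw [Finset.tsum_subtype (Finset.HasAntidiagonal.antidiagonal n) fun p : ℕ × ℕ => f p.1 * g p.2]
  simp_rw [h1]
  rw [← ENNReal.tsum_sigma' fun x : (n : ℕ) × Finset.HasAntidiagonal.antidiagonal n => f x.2.1.1 * g x.2.1.2]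
  have h2 := (Finset.HasAntidiagonal.sigmaAntidiagonalEquivProd (A := ℕ)).tsum_eq fun p : ℕ × ℕ => f p.1 * g p.2
  have h3 : ∑' x : (n : ℕ) × Finset.HasAntidiagonal.antidiagonal n, f x.2.1.1 * g x.2.1.2 = ∑' p : ℕ × ℕ, f p.1 * g p.2 := by
    rw [← h2]
    rfl
  rw [h3, ENNReal.tsum_prod', ← ENNReal.tsum_mul_right]
  refine tsum_congr fun i => ?_
  exact ENNReal.tsum_mul_left (a := f i) (f := g)

/-- a sequence that tends to 1 from below -/
noncomputable def xs (k : ℕ) : ℝ≥0∞ := ENNReal.ofReal (1 - 1 / ((k : ℝ) + 2))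

lemma xs_lt (k : ℕ) : xs k < 1 := by
  unfold xs
  rw [← ENNReal.ofReal_one]
  refine (ENNReal.ofReal_lt_ofReal_iff one_pos).2 ?_
  have : (0 : ℝ) < 1 / ((k : ℝ) + 2) := by positivity
  linarith

lemma xs_tendsto : Tendsto xs atTop (𝓝 1) := by
  have h : Tendsto (fun k : ℕ => 1 - 1 / ((k : ℝ) + 2)) atTop (𝓝 (1 - 0)) := by
    refine tendsto_const_nhds.sub ?_
    have h1 : Tendsto (fun k : ℕ => (k : ℝ) + 2) atTop atTop :=
      tendsto_atTop_add_const_right _ _ tendsto_natCast_atTop_atTop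
    have h2 := h1.inv_tendsto_atTop
    refine h2.congr fun k => ?_
    rw [Pi.inv_apply, one_div]
  rw [sub_zero] at h
  have := ENNReal.tendsto_ofReal h
  rwa [ENNReal.ofReal_one] at this

/-- limits of finite sums -/
lemma lim_sum {f : ℕ → ℝ≥0∞} {e : ℕ → ℕ} {C : ℝ≥0∞} (h : ∀ x : ℝ≥0∞, x < 1 → ∑' n, f n * x ^ e n ≤ C) : ∑' n, f n ≤ C := by
  rw [ENNReal.tsum_eq_iSup_nat]
  refine iSup_le fun N => ?_
  have ht : Tendsto (fun k : ℕ => ∑ n ∈ Finset.range N, f n * xs k ^ e n) atTop (𝓝 (∑ n ∈ Finset.range N, f n * 1)) := by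
    refine tendsto_finsetSum _ fun n _ => ?_
    have h1 : Tendsto (fun k => xs k ^ e n) atTop (𝓝 1) := by
      have := ENNReal.Tendsto.pow (n := e n) xs_tendsto
      rwa [one_pow] at this
    exact ENNReal.Tendsto.const_mul h1 (Or.inl one_ne_zero)
  simp only [mul_one] at ht
  refine le_of_tendsto ht (Eventually.of_forall fun k => ?_)
  exact (ENNReal.sum_le_tsum _).trans (h _ (xs_lt k))

/-- **the renewal lemma** -/
theorem renewal {v b : ℕ → ℝ≥0∞} (h0 : v 0 = 1) (hv : ∀ n, v n ≤ 1)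
    (hr : ∀ n, v (n + 1) = ∑ p ∈ Finset.HasAntidiagonal.antidiagonal n, b p.1 * v p.2) (hV : ∑' n, v n = ⊤) : ∑' n, b n = 1 := by
  have hx : ∀ x : ℝ≥0∞, ∑' n, v n * x ^ n = 1 + (∑' n, b n * x ^ (n + 1)) * ∑' n, v n * x ^ n := by
    intro x
    have h1 : ∑' n, v n * x ^ n = v 0 * x ^ 0 + ∑' n, v (n + 1) * x ^ (n + 1) :=
      tsum_eq_zero_add' (f := fun n => v n * x ^ n) ENNReal.summable
    rw [h0, pow_zero, one_mul] at h1
    refine h1.trans ?_
    congr 1
    rw [← conv]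
    refine tsum_congr fun n => ?_
    rw [hr, Finset.sum_mul]
    refine Finset.sum_congr rfl fun p hp => ?_
    have : n = p.1 + p.2 := (Finset.HasAntidiagonal.mem_antidiagonal.1 hp).symm
    rw [this]
    ring
  have hfin : ∀ x : ℝ≥0∞, x < 1 → ∑' n, v n * x ^ n ≠ ⊤ := by
    intro x hx1
    refine ne_top_of_le_ne_top ?_ (ENNReal.tsum_le_tsum fun n => mul_le_mul_left (hv n) (x ^ n))
    simp only [one_mul]
    rw [ENNReal.tsum_geometric]
    exact ENNReal.inv_ne_top.2 (tsub_pos_of_lt hx1).ne'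
  have hB : ∀ x : ℝ≥0∞, x < 1 → ∑' n, b n * x ^ (n + 1) ≤ 1 := by
    intro x hx1
    by_contra hcon
    push Not at hcon
    have h1 := hx x
    have h2 : (1 : ℝ≥0∞) * ∑' n, v n * x ^ n ≤ (∑' n, b n * x ^ (n + 1)) * ∑' n, v n * x ^ n := mul_le_mul_left hcon.le _
    rw [one_mul] at h2
    have h3 : 1 + ∑' n, v n * x ^ n ≤ ∑' n, v n * x ^ n := le_trans (add_le_add le_rfl h2) h1.symm.le
    rw [add_comm] at h3
    exact absurd h3 (not_le.2 (ENNReal.lt_add_right (hfin x hx1) one_ne_zero))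
  refine le_antisymm (lim_sum hB) ?_
  by_contra hcon
  push Not at hcon
  have hVx : ∀ x : ℝ≥0∞, x < 1 → ∑' n, v n * x ^ n ≤ (1 - ∑' n, b n)⁻¹ := by
    intro x hx1
    have h1 := hx x
    have h2 : ∑' n, b n * x ^ (n + 1) ≤ ∑' n, b n := by
      refine ENNReal.tsum_le_tsum fun n => ?_
      calc b n * x ^ (n + 1) ≤ b n * 1 := mul_le_mul_right (pow_le_one₀ bot_le hx1.le) _
        _ = b n := mul_one _
    obtain ⟨V, hV'⟩ : ∃ V, V = ∑' n, v n * x ^ n := ⟨_, rfl⟩
    obtain ⟨B, hB'⟩ : ∃ B, B = ∑' n, b n := ⟨_, rfl⟩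
    have hf := hfin x hx1
    rw [← hV'] at h1 hf ⊢
    rw [← hB'] at h2 hcon ⊢
    have h3 : V ≤ 1 + B * V := le_trans h1.le (add_le_add le_rfl (mul_le_mul_left h2 _))
    have hBt : B ≠ ⊤ := (hcon.trans ENNReal.one_lt_top).ne
    rw [ENNReal.le_inv_iff_mul_le, ENNReal.mul_sub fun _ _ => hf, mul_one, mul_comm V B]
    exact tsub_le_iff_right.2 h3
  have := lim_sum hVx
  rw [hV, top_le_iff, ENNReal.inv_eq_top] at this
  exact absurd this (tsub_pos_of_lt hcon).ne'

/-! ### 2. Words that end at their maximum -/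

/-- words of height `T` that end at their maximum -/
def Ph (T : ℕ) : Set Wd := {w | SA w ∧ Tp w ∧ Y w = T}

lemma Ms_le_mul (lam : ℝ) {A B C : Set Wd} (h : ∀ w ∈ A, ∃ p ∈ B, ∃ q ∈ C, w = p ++ q) : Ms lam A ≤ Ms lam B * Ms lam C := by
  rw [Ms_mul, Ms_eq_tsum_subtype]
  choose! f hf g hg hfg using h
  have h1 : ∀ w : A, wt lam w.1 = (fun q : B × C => wt lam (q.1.1 ++ q.2.1)) (⟨f w.1, hf w.1 w.2⟩, ⟨g w.1, hg w.1 w.2⟩) := by
    intro w
    show wt lam w.1 = wt lam (f w.1 ++ g w.1)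
    rw [← hfg w.1 w.2]
  rw [tsum_congr h1]
  refine ENNReal.tsum_comp_le_tsum_of_injective (f := fun w : A => ((⟨f w.1, hf w.1 w.2⟩ : B), (⟨g w.1, hg w.1 w.2⟩ : C))) ?_ _
  intro v w hvw
  have h2 : f v.1 = f w.1 := congrArg (fun q : B × C => q.1.1) hvw
  have h3 : g v.1 = g w.1 := congrArg (fun q : B × C => q.2.1) hvw
  exact Subtype.ext (by rw [hfg v.1 v.2, hfg w.1 w.2, h2, h3])

lemma dy_le (s : St) : dy s ≤ 1 := by cases s <;> decide

/-- the first visit to a height -/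
lemma first {S : ℤ} : ∀ {w : Wd}, 0 ≤ S → S ≤ Y w → ∃ p q, w = p ++ q ∧ Y p = S ∧ ∀ x, x <+: p → Y x ≤ S := by
  intro w
  induction w generalizing S with
  | nil =>
    intro h0 hS
    refine ⟨[], [], rfl, ?_, ?_⟩
    · simp at hS ⊢
      omega
    · intro x hx
      rw [List.prefix_nil.1 hx]
      simpa using h0
  | cons a w ih =>
    intro h0 hS
    rcases eq_or_lt_of_le h0 with h1 | h1
    · refine ⟨[], a :: w, rfl, ?_, ?_⟩
      · simp [h1]
      · intro x hx
        rw [List.prefix_nil.1 hx]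
        simp [h1]
    · have h2 : Y (a :: w) = dy a + Y w := by simp
      rw [h2] at hS
      have h3 := dy_le a
      obtain ⟨p, q, rfl, hp, hx⟩ := ih (S := S - dy a) (by omega) (by omega)
      refine ⟨a :: p, q, rfl, ?_, ?_⟩
      · have : Y (a :: p) = dy a + Y p := by simp
        omega
      · intro x hx'
        rcases List.prefix_cons_iff.1 hx' with rfl | ⟨y, rfl, hy⟩
        · simpa using h0
        · have : Y (a :: y) = dy a + Y y := by simp
          have := hx y hy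
          omega

/-- the last visit to the minimum -/
lemma lastmin : ∀ w : Wd, ∃ p q, w = p ++ q ∧ Up q ∧ Y p ≤ 0 ∧ ∀ x, x <+: p → Y p ≤ Y x := by
  intro w
  induction w with
  | nil =>
    refine ⟨[], [], rfl, ?_, ?_, ?_⟩
    · intro v hv h0
      exact absurd (List.prefix_nil.1 hv) h0
    · simp
    · intro x hx
      rw [List.prefix_nil.1 hx]
  | cons a w ih =>
    obtain ⟨p, q, rfl, hq, hp, hx⟩ := ih
    have h1 : Y (a :: p) = dy a + Y p := by simp
    rcases le_or_gt (Y (a :: p)) 0 with h | h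
    · refine ⟨a :: p, q, rfl, hq, h, ?_⟩
      intro x hx'
      rcases List.prefix_cons_iff.1 hx' with rfl | ⟨y, rfl, hy⟩
      · simpa using h
      · have h2 : Y (a :: y) = dy a + Y y := by simp
        have := hx y hy
        omega
    · have h3 := dy_le a
      refine ⟨[], a :: (p ++ q), rfl, ?_, ?_, ?_⟩
      · intro v hv h0
        rcases List.prefix_cons_iff.1 hv with rfl | ⟨y, rfl, hy⟩
        · exact absurd rfl h0
        · have h4 : Y (a :: y) = dy a + Y y := by simp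
          rcases prefix_append_cases hy with h5 | ⟨z, hz, h5, rfl⟩
          · have := hx y h5
            omega
          · have := hq z h5 hz
            have h6 : Y (p ++ z) = Y p + Y z := by simp
            omega
      · simp
      · intro x hx'
        rw [List.prefix_nil.1 hx']

lemma Ph_mul (lam : ℝ) (S T : ℕ) : Ms lam (Ph (S + T)) ≤ Ms lam (Ph S) * Ms lam (Ph T) := by
  refine Ms_le_mul lam fun w hw => ?_
  obtain ⟨h1, h2, h3⟩ := hw
  obtain ⟨p, q, rfl, hp, hx⟩ := first (S := (S : ℤ)) (w := w) (by positivity) (by rw [h3]; push_cast; omega)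
  have h4 : Y (p ++ q) = Y p + Y q := by simp
  refine ⟨p, ⟨h1.left, ?_, hp⟩, q, ⟨h1.right, h2.right, ?_⟩, rfl⟩
  · intro v hv
    obtain ⟨t, rfl⟩ := hv
    have h5 := hx t (List.prefix_append t v)
    have h6 : Y (t ++ v) = Y t + Y v := by simp
    omega
  · push_cast at h3
    omega

lemma Br_sub_Ph (T : ℕ) : BrS T ⊆ Ph T := fun _ hw => ⟨hw.1.1, hw.1.2.2, hw.2⟩

lemma Ph_le (lam : ℝ) (T : ℕ) : Ms lam (Ph T) ≤ Ms lam {w | SA w} * ∑' k : ℕ, u lam (T + k) := by
  have h1 : Ms lam (Ph T) ≤ Ms lam {w | SA w} * Ms lam (⋃ k : ℕ, BrS (T + k)) := by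
    refine Ms_le_mul lam fun w hw => ?_
    obtain ⟨h1, h2, h3⟩ := hw
    obtain ⟨p, q, rfl, hq, hp, -⟩ := lastmin w
    have h4 : Y (p ++ q) = Y p + Y q := by simp
    refine ⟨p, h1.left, q, ?_, rfl⟩
    rw [mem_iUnion]
    refine ⟨(Y q - T).toNat, ⟨h1.right, hq, h2.right⟩, ?_⟩
    push_cast
    omega
  exact h1.trans (mul_le_mul_right (Ms_iUnion_le lam _) _)

/-! ### 3. Numbers -/

lemma chi_fin (hH : HW2) {lam : ℝ} (hlam : 0 < lam) : Ms lam {w | SA w} ≠ ⊤ := by
  obtain ⟨C, hC, h⟩ := hH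
  have h1 := h (min lam 1) (lt_min hlam one_pos) (min_le_right _ _) 0
  refine ne_top_of_le_ne_top ENNReal.ofReal_ne_top ((Ms_anti (min_le_left lam 1) _).trans ((Ms_mono _ ?_).trans h1))
  intro w hw
  exact ⟨hw, [], List.nil_infix, by simp⟩

lemma phi_ge (hBest : MBest) (hLo : MLo) (hH : HW2) {lam : ℝ} (hlam : 0 < lam) {T : ℕ} (hT : 1 ≤ T) :
    ENNReal.ofReal (Real.exp (-(m lam * T))) ≤ Ms lam (Ph T) := by
  by_contra hcon
  push Not at hcon
  have hchi := chi_fin hH hlam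
  have hT0 : (0 : ℝ) < T := by exact_mod_cast hT
  have hm0 : 0 ≤ m lam := hlam.le.trans (hLo lam hlam.le)
  obtain ⟨q, hq⟩ : ∃ q, q = Ms lam (Ph T) := ⟨_, rfl⟩
  rw [← hq] at hcon
  have hqt : q ≠ ⊤ := (hcon.trans ENNReal.ofReal_lt_top).ne
  obtain ⟨y, hy⟩ : ∃ y : ℝ, y = max q.toReal (Real.exp (-(m lam * T)) / 2) := ⟨_, rfl⟩
  have hE := Real.exp_pos (-(m lam * T))
  have hy0 : 0 < y := by
    rw [hy]
    exact lt_max_of_lt_right (by positivity)
  have hqy : q ≤ ENNReal.ofReal y := by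
    rw [← ENNReal.ofReal_toReal hqt]
    refine ENNReal.ofReal_le_ofReal ?_
    rw [hy]
    exact le_max_left _ _
  have hy1 : y < Real.exp (-(m lam * T)) := by
    rw [hy]
    refine max_lt ?_ (by linarith)
    exact (ENNReal.lt_ofReal_iff_toReal_lt hqt).1 hcon
  have hlog : Real.log y < -(m lam * T) := (Real.log_lt_iff_lt_exp hy0).2 hy1
  obtain ⟨b, hb⟩ : ∃ b : ℝ, b = -Real.log y / T := ⟨_, rfl⟩
  have hbT : b * T = -Real.log y := by
    rw [hb]
    field_simp
  have hbm : m lam < b := by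
    rw [hb, lt_div_iff₀ hT0]
    linarith
  have hb0 : 0 ≤ b := hm0.trans hbm.le
  have hyb : Real.exp (-(b * T)) = y := by
    rw [hbT, neg_neg, Real.exp_log hy0]
  have key : ∀ n s : ℕ, Ms lam (Ph (n * T + s)) ≤ ENNReal.ofReal (y ^ n) * Ms lam {w | SA w} := by
    intro n s
    induction n with
    | zero =>
      rw [pow_zero, ENNReal.ofReal_one, one_mul]
      exact Ms_mono _ fun w hw => hw.1
    | succ n ih =>
      rw [show (n + 1) * T + s = T + (n * T + s) by ring]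
      refine (Ph_mul lam _ _).trans ?_
      rw [← hq, pow_succ', ENNReal.ofReal_mul hy0.le, mul_assoc]
      exact mul_le_mul' hqy ih
  have hfin : b ≤ m lam := by
    refine hBest lam hlam.le b ((Ms lam {w | SA w}).toReal * Real.exp (b * T)) fun S => ?_
    have h0 := key (S / T) (S % T)
    rw [Nat.div_add_mod'] at h0
    have h1 := (Ms_mono lam (Br_sub_Ph S)).trans h0
    refine h1.trans ?_
    have e0 : Ms lam {w | SA w} = ENNReal.ofReal (Ms lam {w | SA w}).toReal := (ENNReal.ofReal_toReal hchi).symm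
    calc ENNReal.ofReal (y ^ (S / T)) * Ms lam {w | SA w} =
        ENNReal.ofReal (y ^ (S / T) * (Ms lam {w | SA w}).toReal) := by
          rw [ENNReal.ofReal_mul (by positivity), ← e0]
      _ ≤ _ := ?_
    refine ENNReal.ofReal_le_ofReal ?_
    have h2 : y ^ (S / T) ≤ Real.exp (b * T) * Real.exp (-b * S) := by
      rw [← hyb, ← Real.exp_nat_mul, ← Real.exp_add]
      refine Real.exp_le_exp.2 ?_
      have h3 : ((S / T : ℕ) : ℝ) * T + ((S % T : ℕ) : ℝ) = S := by exact_mod_cast Nat.div_add_mod' S T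
      have h4 : ((S % T : ℕ) : ℝ) ≤ T := by exact_mod_cast (Nat.mod_lt S (by omega)).le
      have h5 : b * ((S % T : ℕ) : ℝ) ≤ b * T := mul_le_mul_of_nonneg_left h4 hb0
      have h6 : ((S / T : ℕ) : ℝ) * T = S - ((S % T : ℕ) : ℝ) := by linarith
      calc ((S / T : ℕ) : ℝ) * -(b * T) = -(b * (((S / T : ℕ) : ℝ) * T)) := by ring
        _ = -(b * (S - ((S % T : ℕ) : ℝ))) := by rw [h6]
        _ ≤ _ := by linarith
    calc y ^ (S / T) * (Ms lam {w | SA w}).toReal ≤ Real.exp (b * T) * Real.exp (-b * S) * (Ms lam {w | SA w}).toReal :=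
          mul_le_mul_of_nonneg_right h2 ENNReal.toReal_nonneg
      _ = _ := by ring
  linarith

end EZP

open EZP

/-- **B5** -/
theorem eZ_of (hRen : Ren) (hMU : MU) (hBest : MBest) (hLo : MLo) (hH : HW2) : EZ := by
  intro lam hlam
  have hchi := chi_fin hH hlam
  have hm0 : 0 ≤ m lam := hlam.le.trans (hLo lam hlam.le)
  obtain ⟨v, hv⟩ : ∃ v : ℕ → ℝ≥0∞, v = fun n : ℕ => ENNReal.ofReal (Real.exp (m lam * n)) * u lam n := ⟨_, rfl⟩
  obtain ⟨b, hb⟩ : ∃ b : ℕ → ℝ≥0∞, b = fun n : ℕ => ENNReal.ofReal (Real.exp (m lam * (n + 1 : ℕ))) * a lam (n + 1) := ⟨_, rfl⟩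
  have hv0 : v 0 = 1 := by
    have h1 : BrS 0 = {[]} := by
      ext w
      constructor
      · rintro ⟨h1, h2⟩
        by_contra h3
        have := h1.Y_pos h3
        simp at h2
        omega
      · rintro rfl
        exact ⟨by simp, by simp⟩
    rw [hv]
    simp only [u, h1, Ms_singleton, wt_nil]
    simp
  have hv1 : ∀ n, v n ≤ 1 := by
    intro n
    rw [hv]
    refine (mul_le_mul_right (hMU lam hlam.le n) _).trans (le_of_eq ?_)
    rw [← ENNReal.ofReal_mul (Real.exp_pos _).le, ← Real.exp_add]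
    simp
  have hr : ∀ n, v (n + 1) = ∑ p ∈ Finset.HasAntidiagonal.antidiagonal n, b p.1 * v p.2 := by
    intro n
    rw [Finset.Nat.sum_antidiagonal_eq_sum_range_succ (fun i j => b i * v j) n]
    rw [hv, hb]
    simp only
    rw [hRen lam (n + 1) (by omega), Finset.mul_sum]
    refine Finset.sum_congr rfl fun k hk => ?_
    have hk' : k ≤ n := by
      have := Finset.mem_range.1 hk
      omega
    have e1 : n + 1 - 1 - k = n - k := by omega
    have e2 : Real.exp (m lam * ((n + 1 : ℕ) : ℝ)) = Real.exp (m lam * ((k + 1 : ℕ) : ℝ)) * Real.exp (m lam * ((n - k : ℕ) : ℝ)) := by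
      rw [← Real.exp_add, ← mul_add, ← Nat.cast_add]
      congr 3
      omega
    rw [e1, e2, ENNReal.ofReal_mul (Real.exp_pos _).le]
    ring
  have hV : ∑' n, v n = ⊤ := by
    by_contra hcon
    have ht := ENNReal.tendsto_sum_nat_add v hcon
    have ht' := ENNReal.Tendsto.const_mul (a := Ms lam {w | SA w}) ht (Or.inr hchi)
    rw [mul_zero] at ht'
    have h1 : (1 : ℝ≥0∞) ≤ 0 := by
      refine ge_of_tendsto ht' ((eventually_ge_atTop 1).mono fun T hT => ?_)
      have h2 := (phi_ge hBest hLo hH hlam hT).trans (Ph_le lam T)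
      have h3 := mul_le_mul_right h2 (ENNReal.ofReal (Real.exp (m lam * T)))
      rw [← ENNReal.ofReal_mul (Real.exp_pos _).le, ← Real.exp_add, add_neg_cancel, Real.exp_zero, ENNReal.ofReal_one] at h3
      refine h3.trans ?_
      rw [mul_left_comm, ← ENNReal.tsum_mul_left]
      refine mul_le_mul_right (ENNReal.tsum_le_tsum fun k => ?_) _
      rw [hv]
      simp only
      rw [add_comm k T]
      refine mul_le_mul_left (ENNReal.ofReal_le_ofReal (Real.exp_le_exp.2 (mul_le_mul_of_nonneg_left ?_ hm0))) _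
      push_cast
      have : (0 : ℝ) ≤ k := Nat.cast_nonneg k
      linarith
    exact absurd h1 (by simp)
  have hfin := renewal hv0 hv1 hr hV
  have ha0 : a lam 0 = 0 := by
    have h1 : IrS 0 = ∅ := by
      ext w
      simp only [mem_empty_iff_false, iff_false]
      rintro ⟨h1, h2⟩
      have := h1.Y_pos
      simp at h2
      omega
    unfold a
    rw [h1, Ms_empty]
  rw [tsum_eq_zero_add' ENNReal.summable, ha0, mul_zero, zero_add, ← hfin, hb]

end ZB
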