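import Pool.Agent.ZB.Defs

/-!
# ZB: basic facts about words, bridges, symmetries and masses
-/

open MeasureTheory Set Filter
open scoped ENNReal Topology

namespace ZB

/-! ## X and Y -/

@[simp] theorem X_nil : X [] = 0 := rfl
@[simp] theorem Y_nil : Y [] = 0 := rfl
@[simp] theorem X_cons (s : St) (w : Wd) : X (s :: w) = dx s + X w := by simp [X]
@[simp] theorem Y_cons (s : St) (w : Wd) : Y (s :: w) = dy s + Y w := by simp [Y]
@[simp] theorem X_append (v w : Wd) : X (v ++ w) = X v + X w := by simp [X]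
@[simp] theorem Y_append (v w : Wd) : Y (v ++ w) = Y v + Y w := by simp [Y]
@[simp] theorem X_reverse (w : Wd) : X w.reverse = X w := by
  induction w with
  | nil => rfl
  | cons s w ih => simp [ih, add_comm]
@[simp] theorem Y_reverse (w : Wd) : Y w.reverse = Y w := by
  induction w with
  | nil => rfl
  | cons s w ih => simp [ih, add_comm]
@[simp] theorem X_fL (w : Wd) : X (w.map fL) = - X w := by
  induction w with
  | nil => rfl
  | cons s w ih => cases s <;> simp [ih, fL, dx] <;> ring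
@[simp] theorem Y_fL (w : Wd) : Y (w.map fL) = Y w := by
  induction w with
  | nil => rfl
  | cons s w ih => cases s <;> simp [ih, fL, dy]
@[simp] theorem X_fU (w : Wd) : X (w.map fU) = X w := by
  induction w with
  | nil => rfl
  | cons s w ih => cases s <;> simp [ih, fU, dx]
@[simp] theorem Y_fU (w : Wd) : Y (w.map fU) = - Y w := by
  induction w with
  | nil => rfl
  | cons s w ih => cases s <;> simp [ih, fU, dy] <;> ring
@[simp] theorem X_fD (w : Wd) : X (w.map fD) = Y w := by
  induction w with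
  | nil => rfl
  | cons s w ih => cases s <;> simp [ih, fD, dx, dy]
@[simp] theorem Y_fD (w : Wd) : Y (w.map fD) = X w := by
  induction w with
  | nil => rfl
  | cons s w ih => cases s <;> simp [ih, fD, dx, dy]
@[simp] theorem X_flip (w : Wd) : X (flip w) = X w := X_fU w
@[simp] theorem Y_flip (w : Wd) : Y (flip w) = - Y w := Y_fU w
@[simp] theorem X_rho (w : Wd) : X (rho w) = Y w := X_fD w
@[simp] theorem Y_rho (w : Wd) : Y (rho w) = X w := Y_fD w
@[simp] theorem X_dag (w : Wd) : X (dag w) = - X w := by simp [dag]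
@[simp] theorem Y_dag (w : Wd) : Y (dag w) = Y w := by simp [dag]

@[simp] theorem fU_fU (s : St) : fU (fU s) = s := by cases s <;> rfl
@[simp] theorem fL_fL (s : St) : fL (fL s) = s := by cases s <;> rfl
@[simp] theorem fD_fD (s : St) : fD (fD s) = s := by cases s <;> rfl
@[simp] theorem map_fU_fU (w : Wd) : (w.map fU).map fU = w := by simp [Function.comp_def]
@[simp] theorem map_fL_fL (w : Wd) : (w.map fL).map fL = w := by simp [Function.comp_def]
@[simp] theorem map_fD_fD (w : Wd) : (w.map fD).map fD = w := by simp [Function.comp_def]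
@[simp] theorem flip_flip (w : Wd) : flip (flip w) = w := map_fU_fU w
@[simp] theorem rho_rho (w : Wd) : rho (rho w) = w := map_fD_fD w
@[simp] theorem dag_dag (w : Wd) : dag (dag w) = w := by
  unfold dag; rw [List.map_reverse, List.map_map, List.map_reverse, List.reverse_reverse]
  simp [Function.comp_def]
@[simp] theorem flip_length (w : Wd) : (flip w).length = w.length := by simp [flip]
@[simp] theorem rho_length (w : Wd) : (rho w).length = w.length := by simp [rho]
@[simp] theorem dag_length (w : Wd) : (dag w).length = w.length := by simp [dag]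
@[simp] theorem flip_append (v w : Wd) : flip (v ++ w) = flip v ++ flip w := by simp [flip]
@[simp] theorem flip_nil : flip [] = [] := rfl
@[simp] theorem flip_eq_nil {w : Wd} : flip w = [] ↔ w = [] := by simp [flip]
@[simp] theorem rho_append (v w : Wd) : rho (v ++ w) = rho v ++ rho w := by simp [rho]
@[simp] theorem dag_append (v w : Wd) : dag (v ++ w) = dag w ++ dag v := by simp [dag]
theorem flip_inj {v w : Wd} (h : flip v = flip w) : v = w := by
  have := congrArg flip h; simpa using this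

theorem X_flatten (l : List Wd) : X l.flatten = (l.map X).sum := by
  induction l with
  | nil => rfl
  | cons a l ih => simp [ih]
theorem Y_flatten (l : List Wd) : Y l.flatten = (l.map Y).sum := by
  induction l with
  | nil => rfl
  | cons a l ih => simp [ih]

theorem abs_XY_le (w : Wd) : |X w| + |Y w| ≤ w.length := by
  induction w with
  | nil => simp
  | cons s w ih =>
    have h1 := abs_add_le (dx s) (X w)
    have h2 := abs_add_le (dy s) (Y w)
    have h3 : |dx s| + |dy s| = 1 := by cases s <;> simp [dx, dy]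
    simp only [X_cons, Y_cons, List.length_cons]
    push_cast
    omega
theorem abs_X_le (w : Wd) : |X w| ≤ w.length := by
  have := abs_XY_le w; have := abs_nonneg (Y w); omega
theorem abs_Y_le (w : Wd) : |Y w| ≤ w.length := by
  have := abs_XY_le w; have := abs_nonneg (X w); omega
theorem Y_le (w : Wd) : Y w ≤ w.length := (le_abs_self _).trans (abs_Y_le w)
theorem X_le (w : Wd) : X w ≤ w.length := (le_abs_self _).trans (abs_X_le w)

/-! ## self-avoiding words -/

@[simp] theorem SA_nil : SA [] := fun _ h h0 => absurd (List.infix_nil.1 h) h0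

theorem SA.ifx {v w : Wd} (h : SA w) (hv : v <:+: w) : SA v :=
  fun x hx h0 => h x (hx.trans hv) h0
theorem SA.left {v w : Wd} (h : SA (v ++ w)) : SA v := h.ifx (List.prefix_append v w).isInfix
theorem SA.right {v w : Wd} (h : SA (v ++ w)) : SA w := h.ifx (List.suffix_append v w).isInfix

theorem SA.reverse {w : Wd} (h : SA w) : SA w.reverse := by
  intro v hv h0 h1
  refine h v.reverse ?_ (by simpa using h0) (by simpa using h1)
  have := List.reverse_infix.2 hv
  simpa using this
theorem SA_reverse {w : Wd} : SA w.reverse ↔ SA w :=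
  ⟨fun h => by simpa using h.reverse, SA.reverse⟩

theorem SA_map_iff (f : St → St) (hf : ∀ v : Wd, (X (v.map f) = 0 ∧ Y (v.map f) = 0) ↔
    (X v = 0 ∧ Y v = 0)) {w : Wd} : SA (w.map f) ↔ SA w := by
  constructor
  · intro h v hv h0 h1
    exact h (v.map f) (hv.map f) (by simpa using h0) ((hf v).2 h1)
  · intro h v hv h0 h1
    obtain ⟨x, hx, rfl⟩ := List.infix_map_iff.1 hv
    exact h x hx (by rintro rfl; exact h0 rfl) ((hf x).1 h1)
theorem SA_fL {w : Wd} : SA (w.map fL) ↔ SA w := SA_map_iff _ (by intro v; simp)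
theorem SA_fU {w : Wd} : SA (w.map fU) ↔ SA w := SA_map_iff _ (by intro v; simp)
theorem SA_fD {w : Wd} : SA (w.map fD) ↔ SA w := SA_map_iff _ (by intro v; simp [and_comm])
@[simp] theorem SA_flip {w : Wd} : SA (flip w) ↔ SA w := SA_fU
@[simp] theorem SA_rho {w : Wd} : SA (rho w) ↔ SA w := SA_fD
@[simp] theorem SA_dag {w : Wd} : SA (dag w) ↔ SA w := by
  unfold dag; rw [SA_fL, SA_reverse]

/-- concatenation: only the infixes across the joint matter -/
theorem SA_append {v w : Wd} (hv : SA v) (hw : SA w)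
    (h : ∀ s p, s ≠ [] → p ≠ [] → s <:+ v → p <+: w → ¬ (X s + X p = 0 ∧ Y s + Y p = 0)) :
    SA (v ++ w) := by
  intro x hx h0 h1
  rcases List.infix_append_iff_ne_nil.1 hx with h2 | h2 | ⟨s, p, hs, hp, rfl, h3, h4⟩
  · exact hv x h2 h0 h1
  · exact hw x h2 h0 h1
  · exact h s p hs hp h3 h4 (by simpa using h1)

/-- concatenation, separated by a horizontal line -/
theorem SA_append_Y {v w : Wd} (hv : SA v) (hw : SA w) (h1 : Tp v) (h2 : Up w) :
    SA (v ++ w) :=
  SA_append hv hw fun s p _ hp hs' hp' h => by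
    have a1 := h1 s hs'; have a2 := h2 p hp' hp; omega

/-- concatenation, separated by a vertical line: `v` ends weakly rightmost, `w` is strictly right
of its start -/
theorem SA_append_X {v w : Wd} (hv : SA v) (hw : SA w) (h1 : ∀ s, s <:+ v → 0 ≤ X s)
    (h2 : ∀ p, p <+: w → p ≠ [] → 0 < X p) : SA (v ++ w) :=
  SA_append hv hw fun s p _ hp hs' hp' h => by
    have a1 := h1 s hs'; have a2 := h2 p hp' hp; omega

/-! ## prefixes and suffixes of concatenations -/

theorem prefix_append_cases {x v w : Wd} (h : x <+: v ++ w) :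
    x <+: v ∨ ∃ y, y ≠ [] ∧ y <+: w ∧ x = v ++ y := by
  obtain ⟨t, ht⟩ := h
  rcases List.append_eq_append_iff.1 ht with ⟨as, h1, h2⟩ | ⟨bs, h1, h2⟩
  · exact Or.inl ⟨as, h1.symm⟩
  · by_cases hb : bs = []
    · subst hb; left; rw [h1]; simp
    · exact Or.inr ⟨bs, hb, ⟨t, h2.symm⟩, h1⟩
theorem suffix_append_cases {x v w : Wd} (h : x <:+ v ++ w) :
    x <:+ w ∨ ∃ y, y ≠ [] ∧ y <:+ v ∧ x = y ++ w := by
  obtain ⟨t, ht⟩ := h
  rcases List.append_eq_append_iff.1 ht with ⟨as, h1, h2⟩ | ⟨bs, h1, h2⟩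
  · by_cases hb : as = []
    · subst hb; left; rw [h2]; simp
    · exact Or.inr ⟨as, hb, ⟨t, h1.symm⟩, h2⟩
  · exact Or.inl ⟨bs, h2.symm⟩

/-! ## Up, Tp, Br, Ir -/

@[simp] theorem Up_nil : Up [] := fun _ h h0 => absurd (List.prefix_nil.1 h) h0
@[simp] theorem Tp_nil : Tp [] := fun _ h => by rw [List.suffix_nil.1 h]; simp
@[simp] theorem Br_nil : Br [] := ⟨SA_nil, Up_nil, Tp_nil⟩

theorem Up.pre {v w : Wd} (h : Up w) (hv : v <+: w) : Up v := fun x hx h0 => h x (hx.trans hv) h0
theorem Up.left {v w : Wd} (h : Up (v ++ w)) : Up v := h.pre (List.prefix_append v w)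
theorem Tp.suf {v w : Wd} (h : Tp w) (hv : v <:+ w) : Tp v := fun x hx => h x (hx.trans hv)
theorem Tp.right {v w : Wd} (h : Tp (v ++ w)) : Tp w := h.suf (List.suffix_append v w)

theorem Up.nonneg {v w : Wd} (h : Up w) (hv : v <+: w) : 0 ≤ Y v := by
  by_cases h0 : v = []
  · subst h0; simp
  · exact (h v hv h0).le
theorem Up.Y_nonneg {w : Wd} (h : Up w) : 0 ≤ Y w := h.nonneg (List.prefix_refl w)
theorem Up.Y_pos {w : Wd} (h : Up w) (h0 : w ≠ []) : 0 < Y w := h w (List.prefix_refl w) h0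
theorem Tp.Y_nonneg {w : Wd} (h : Tp w) : 0 ≤ Y w := h w (List.suffix_refl w)
theorem Tp.le {v w : Wd} (h : Tp w) (hv : v <+: w) : Y v ≤ Y w := by
  obtain ⟨t, rfl⟩ := hv
  have := h t (List.suffix_append v t)
  simp; exact this

theorem Up.append {v w : Wd} (hv : Up v) (hw : Up w) : Up (v ++ w) := by
  intro x hx h0
  rcases prefix_append_cases hx with h | ⟨y, hy, h, rfl⟩
  · exact hv x h h0
  · have := hv.Y_nonneg; have := hw y h hy; simp; omega
theorem Tp.append {v w : Wd} (hv : Tp v) (hw : Tp w) : Tp (v ++ w) := by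
  intro x hx
  rcases suffix_append_cases hx with h | ⟨y, hy, h, rfl⟩
  · exact hw x h
  · have := hw.Y_nonneg; have := hv y h; simp; omega

theorem Br.append {v w : Wd} (hv : Br v) (hw : Br w) : Br (v ++ w) :=
  ⟨SA_append_Y hv.1 hw.1 hv.2.2 hw.2.1, hv.2.1.append hw.2.1, hv.2.2.append hw.2.2⟩
theorem Br.of_append {v w : Wd} (h : Br (v ++ w)) (h1 : Tp v) (h2 : Up w) : Br v ∧ Br w :=
  ⟨⟨h.1.left, h.2.1.left, h1⟩, ⟨h.1.right, h2, h.2.2.right⟩⟩
theorem Br.Y_nonneg {w : Wd} (h : Br w) : 0 ≤ Y w := h.2.1.Y_nonneg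
theorem Br.Y_pos {w : Wd} (h : Br w) (h0 : w ≠ []) : 0 < Y w := h.2.1.Y_pos h0
theorem Br.flatten {l : List Wd} (h : ∀ g ∈ l, Br g) : Br l.flatten := by
  induction l with
  | nil => simp
  | cons a l ih =>
    simp only [List.flatten_cons]
    exact (h a (by simp)).append (ih fun g hg => h g (by simp [hg]))

theorem Ir.ne {w : Wd} (h : Ir w) : w ≠ [] := h.1
theorem Ir.br {w : Wd} (h : Ir w) : Br w := h.2.1
theorem Ir.sa {w : Wd} (h : Ir w) : SA w := h.2.1.1
theorem Ir.Y_pos {w : Wd} (h : Ir w) : 0 < Y w := h.br.Y_pos h.ne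
theorem Ir.one_le {w : Wd} (h : Ir w) : 1 ≤ Y w := h.Y_pos
theorem Ir.len {w : Wd} (_ : Ir w) : Y w ≤ w.length := Y_le w

/-! ## Symmetry of bridges under `L <-> R` -/

theorem Up_fL {w : Wd} : Up (w.map fL) ↔ Up w := by
  constructor
  · intro h v hv h0
    have := h (v.map fL) (hv.map fL) (by simpa using h0)
    simpa using this
  · intro h v hv h0
    obtain ⟨x, hx, rfl⟩ := List.prefix_map_iff.1 hv
    have := h x hx (by rintro rfl; exact h0 rfl)
    simpa using this
theorem Tp_fL {w : Wd} : Tp (w.map fL) ↔ Tp w := by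
  constructor
  · intro h v hv
    have := h (v.map fL) (hv.map fL)
    simpa using this
  · intro h v hv
    obtain ⟨x, hx, rfl⟩ := List.suffix_map_iff.1 hv
    have := h x hx
    simpa using this
theorem Br_fL {w : Wd} : Br (w.map fL) ↔ Br w := by
  unfold Br; rw [SA_fL, Up_fL, Tp_fL]
theorem Ir_fL {w : Wd} : Ir (w.map fL) ↔ Ir w := by
  have key : ∀ w : Wd, Ir w → Ir (w.map fL) := by
    intro w h
    refine ⟨by simpa using h.ne, Br_fL.2 h.br, fun u v huv hu hv => ?_⟩
    have h1 : w = u.map fL ++ v.map fL := by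
      have := congrArg (List.map fL) huv
      simpa [Function.comp_def] using this
    rcases h.2.2 _ _ h1 (Br_fL.2 hu) (Br_fL.2 hv) with h2 | h2
    · left; simpa using h2
    · right; simpa using h2
  exact ⟨fun h => by simpa [Function.comp_def] using key _ h, key w⟩

/-! ## Horizontal extent -/

theorem le_wid {v w : Wd} (h : v <:+: w) : (X v).natAbs ≤ wid w := by
  obtain ⟨s, t, rfl⟩ := h
  unfold wid
  have h1 : ((s ++ v).length, s.length) ∈ Finset.range ((s ++ v ++ t).length + 1) ×ˢ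
      Finset.range ((s ++ v ++ t).length + 1) := by
    simp
    try omega
  have h2 := Finset.le_sup (f := fun ij : ℕ × ℕ =>
    (X (((s ++ v ++ t).take ij.1).drop ij.2)).natAbs) h1
  refine le_trans (le_of_eq ?_) h2
  rw [List.take_left, List.drop_left]
theorem abs_le_wid {v w : Wd} (h : v <:+: w) : |X v| ≤ wid w := by
  have := le_wid h; rw [Int.abs_eq_natAbs]; omega
theorem exists_wid (w : Wd) : ∃ v, v <:+: w ∧ (X v).natAbs = wid w := by
  have hne : (Finset.range (w.length + 1) ×ˢ Finset.range (w.length + 1)).Nonempty :=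
    ⟨(0, 0), by simp⟩
  obtain ⟨ij, _, hij⟩ := Finset.exists_mem_eq_sup _ hne fun ij : ℕ × ℕ =>
    (X ((w.take ij.1).drop ij.2)).natAbs
  refine ⟨(w.take ij.1).drop ij.2, ?_, hij.symm⟩
  exact (List.drop_suffix _ _).isInfix.trans (List.take_prefix _ _).isInfix
theorem wid_le_length (w : Wd) : wid w ≤ w.length := by
  obtain ⟨v, hv, h⟩ := exists_wid w
  have h1 := abs_X_le v
  have := hv.length_le
  rw [Int.abs_eq_natAbs] at h1
  omega
theorem wid_fL (w : Wd) : wid (w.map fL) = wid w := by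
  have key : ∀ w : Wd, wid (w.map fL) ≤ wid w := by
    intro w
    obtain ⟨v, hv, h⟩ := exists_wid (w.map fL)
    obtain ⟨x, hx, rfl⟩ := List.infix_map_iff.1 hv
    have := le_wid hx
    simp at h; omega
  refine le_antisymm (key w) ?_
  have := key (w.map fL)
  simpa [Function.comp_def] using this

/-! ## Masses -/

theorem xc_pos : 0 < xc := by unfold xc mu; positivity
theorem mu_pos : 0 < mu := by unfold mu; positivity
theorem wt_nil (lam : ℝ) : wt lam [] = 1 := by simp [wt]
theorem wt_append (lam : ℝ) (v w : Wd) : wt lam (v ++ w) = wt lam v * wt lam w := by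
  unfold wt
  rw [← ENNReal.ofReal_mul (by have := xc_pos; positivity), List.length_append, pow_add]
theorem wt_congr (lam : ℝ) {v w : Wd} (h : v.length = w.length) : wt lam v = wt lam w := by
  unfold wt; rw [h]
theorem wt_ne_top (lam : ℝ) (w : Wd) : wt lam w ≠ ⊤ := ENNReal.ofReal_ne_top
theorem wt_pos (lam : ℝ) (w : Wd) : 0 < wt lam w := by
  unfold wt; have := xc_pos; positivity
theorem wt_flatten (lam : ℝ) (l : List Wd) : wt lam l.flatten = (l.map (wt lam)).prod := by
  induction l with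
  | nil => simp [wt_nil]
  | cons a l ih => simp [wt_append, ih]
/-- change of parameter -/
theorem wt_shift (lam lam' : ℝ) (w : Wd) :
    wt lam w = ENNReal.ofReal (Real.exp ((lam' - lam) * w.length)) * wt lam' w := by
  unfold wt
  rw [← ENNReal.ofReal_mul (by positivity)]
  congr 1
  rw [mul_pow, mul_pow, ← Real.exp_nat_mul, ← Real.exp_nat_mul]
  rw [mul_left_comm, ← Real.exp_add]
  congr 2
  ring

theorem Ms_eq_tsum_subtype (lam : ℝ) (A : Set Wd) : Ms lam A = ∑' w : A, wt lam w := by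
  unfold Ms; rw [tsum_subtype]
@[simp] theorem Ms_empty (lam : ℝ) : Ms lam ∅ = 0 := by simp [Ms]
theorem Ms_singleton (lam : ℝ) (w : Wd) : Ms lam {w} = wt lam w := by
  rw [Ms_eq_tsum_subtype]; simp
theorem Ms_mono (lam : ℝ) {A B : Set Wd} (h : A ⊆ B) : Ms lam A ≤ Ms lam B :=
  ENNReal.tsum_le_tsum fun w => indicator_le_indicator_of_subset h (fun _ => bot_le) w
theorem Ms_union_le (lam : ℝ) (A B : Set Wd) : Ms lam (A ∪ B) ≤ Ms lam A + Ms lam B := by
  unfold Ms
  rw [← ENNReal.tsum_add]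
  refine ENNReal.tsum_le_tsum fun w => ?_
  by_cases hA : w ∈ A
  · simp [hA]
  · by_cases hB : w ∈ B <;> simp [hA, hB]
theorem Ms_union (lam : ℝ) {A B : Set Wd} (h : Disjoint A B) :
    Ms lam (A ∪ B) = Ms lam A + Ms lam B := by
  unfold Ms
  rw [← ENNReal.tsum_add]
  refine tsum_congr fun w => ?_
  rw [indicator_union_of_disjoint h]
theorem Ms_diff (lam : ℝ) {A B : Set Wd} (h : B ⊆ A) : Ms lam A = Ms lam B + Ms lam (A \ B) := by
  rw [← Ms_union lam (disjoint_sdiff_right), union_sdiff_cancel h]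
theorem Ms_iUnion_le (lam : ℝ) {ι : Type*} (A : ι → Set Wd) :
    Ms lam (⋃ i, A i) ≤ ∑' i, Ms lam (A i) := by
  unfold Ms
  rw [ENNReal.tsum_comm]
  refine ENNReal.tsum_le_tsum fun w => ?_
  by_cases h : w ∈ ⋃ i, A i
  · obtain ⟨i, hi⟩ := mem_iUnion.1 h
    rw [indicator_of_mem h]
    calc wt lam w = (A i).indicator (wt lam) w := by rw [indicator_of_mem hi]
      _ ≤ _ := ENNReal.le_tsum i
  · rw [indicator_of_notMem h]; exact bot_le
theorem Ms_iUnion (lam : ℝ) {ι : Type*} (A : ι → Set Wd)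
    (h : Pairwise (Function.onFun Disjoint A)) :
    Ms lam (⋃ i, A i) = ∑' i, Ms lam (A i) := by
  refine le_antisymm (Ms_iUnion_le lam A) ?_
  unfold Ms
  rw [ENNReal.tsum_comm]
  refine ENNReal.tsum_le_tsum fun w => ?_
  by_cases hw : w ∈ ⋃ i, A i
  · obtain ⟨i, hi⟩ := mem_iUnion.1 hw
    rw [tsum_eq_single i]
    · rw [indicator_of_mem hi, indicator_of_mem hw]
    · intro j hj
      refine indicator_of_notMem (fun hjw => ?_) _
      exact (disjoint_left.1 (h hj)) hjw hi
  · have : ∀ i, (A i).indicator (wt lam) w = 0 := fun i =>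
      indicator_of_notMem (fun hi => hw (mem_iUnion.2 ⟨i, hi⟩)) _
    simp [this]

/-- smaller parameter, larger mass -/
theorem wt_anti {lam lam' : ℝ} (h : lam ≤ lam') (w : Wd) : wt lam' w ≤ wt lam w := by
  unfold wt
  refine ENNReal.ofReal_le_ofReal (pow_le_pow_left₀ (by have := xc_pos; positivity) ?_ _)
  exact mul_le_mul_of_nonneg_left (Real.exp_le_exp.2 (by linarith)) xc_pos.le
theorem Ms_anti {lam lam' : ℝ} (h : lam ≤ lam') (A : Set Wd) : Ms lam' A ≤ Ms lam A := by
  unfold Ms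
  refine ENNReal.tsum_le_tsum fun w => ?_
  by_cases hw : w ∈ A <;> simp [hw, wt_anti h]

/-- multiplicity: if every value is taken at most `K` times -/
theorem tsum_le_mult {ι κ : Type*} (F : ι → κ) (g : ι → ℝ≥0∞) (h : κ → ℝ≥0∞) (K : ℝ≥0∞)
    (hg : ∀ i, g i ≤ h (F i)) (hK : ∀ y, ((F ⁻¹' {y}).encard : ℝ≥0∞) ≤ K) :
    ∑' i, g i ≤ K * ∑' y, h y := by
  have h1 : ∑' i, g i = ∑' y, ∑' i : F ⁻¹' {y}, g i := by
    have := (Equiv.sigmaFiberEquiv F).tsum_eq g
    rw [← this, ENNReal.tsum_sigma']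
    rfl
  rw [h1, ← ENNReal.tsum_mul_left]
  refine ENNReal.tsum_le_tsum fun y => ?_
  calc ∑' i : F ⁻¹' {y}, g i ≤ ∑' _ : F ⁻¹' {y}, h y :=
        ENNReal.tsum_le_tsum fun i => by
          have := hg i.1
          rwa [show F i.1 = y from i.2] at this
    _ = (F ⁻¹' {y}).encard * h y := by rw [ENNReal.tsum_set_const]
    _ ≤ K * h y := by gcongr; exact hK y

/-- a map of words (on a set) with at most `K` preimages which keeps the weight -/
theorem Ms_mult (lam : ℝ) {ι : Type*} (F : ι → Wd) (g : ι → ℝ≥0∞) (B : Set Wd) (K : ℝ≥0∞)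
    (hB : ∀ i, F i ∈ B) (hg : ∀ i, g i ≤ wt lam (F i))
    (hK : ∀ y, ((F ⁻¹' {y}).encard : ℝ≥0∞) ≤ K) : ∑' i, g i ≤ K * Ms lam B := by
  unfold Ms
  refine tsum_le_mult F g _ K (fun i => ?_) hK
  rw [indicator_of_mem (hB i)]; exact hg i

/-- injective maps which keep the length -/
theorem Ms_inj (lam : ℝ) {A B : Set Wd} (f : Wd → Wd) (hf : ∀ w ∈ A, f w ∈ B)
    (hl : ∀ w ∈ A, (f w).length = w.length)
    (hi : ∀ v ∈ A, ∀ w ∈ A, f v = f w → v = w) : Ms lam A ≤ Ms lam B := by
  rw [Ms_eq_tsum_subtype, Ms_eq_tsum_subtype]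
  have h1 : ∀ w : A, wt lam w.1 = (fun y : B => wt lam y.1) ⟨f w.1, hf w.1 w.2⟩ := fun w =>
    wt_congr lam (hl w.1 w.2).symm
  rw [tsum_congr h1]
  exact ENNReal.tsum_comp_le_tsum_of_injective
    (f := fun w : A => (⟨f w.1, hf w.1 w.2⟩ : B))
    (fun v w h => Subtype.ext (hi v.1 v.2 w.1 w.2 (congrArg Subtype.val h))) _
/-- an involution which keeps the length keeps the mass -/
theorem Ms_invol (lam : ℝ) {A B : Set Wd} (f : Wd → Wd) (hA : ∀ w ∈ A, f w ∈ B)
    (hB : ∀ w ∈ B, f w ∈ A) (hl : ∀ w, (f w).length = w.length) (hi : ∀ w, f (f w) = w) :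
    Ms lam A = Ms lam B :=
  le_antisymm (Ms_inj lam f hA (fun w _ => hl w) fun v _ w _ h => by
      have := congrArg f h; rwa [hi, hi] at this)
    (Ms_inj lam f hB (fun w _ => hl w) fun v _ w _ h => by
      have := congrArg f h; rwa [hi, hi] at this)

/-- products of masses -/
theorem Ms_mul (lam : ℝ) (A B : Set Wd) :
    Ms lam A * Ms lam B = ∑' q : A × B, wt lam (q.1.1 ++ q.2.1) := by
  rw [Ms_eq_tsum_subtype, Ms_eq_tsum_subtype, ENNReal.tsum_prod', ← ENNReal.tsum_mul_right]
  refine tsum_congr fun a => ?_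
  rw [← ENNReal.tsum_mul_left]
  exact tsum_congr fun b => (wt_append lam _ _).symm
/-- product bound with an injective concatenation -/
theorem Ms_mul_le (lam : ℝ) {A B C : Set Wd} (hC : ∀ a ∈ A, ∀ b ∈ B, a ++ b ∈ C)
    (hi : ∀ a ∈ A, ∀ b ∈ B, ∀ a' ∈ A, ∀ b' ∈ B, a ++ b = a' ++ b' → a = a') :
    Ms lam A * Ms lam B ≤ Ms lam C := by
  rw [Ms_mul, Ms_eq_tsum_subtype]
  refine ENNReal.tsum_comp_le_tsum_of_injective
    (f := fun q : A × B => (⟨q.1.1 ++ q.2.1, hC _ q.1.2 _ q.2.2⟩ : C)) (fun p q h => ?_)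
    (fun w : C => wt lam w.1)
  have h1 : p.1.1 ++ p.2.1 = q.1.1 ++ q.2.1 := congrArg Subtype.val h
  have h2 := hi _ p.1.2 _ p.2.2 _ q.1.2 _ q.2.2 h1
  rw [h2] at h1
  have h3 := List.append_cancel_left h1
  exact Prod.ext (Subtype.ext h2) (Subtype.ext h3)

end ZB
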