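import Mathlib

/-!
# Folds of a word

Words over an alphabet `σ` with a height `h : σ → ℤ`.  `yy h w i` is the height after `i`
letters, `BrH` says that the word is a bridge (heights only), `Irr` that it is an irreducible
bridge, `IsFold w T B` that the part between the times `T < B` is a fold: `T` is the last time
at the maximum of the past of `B`, `B` the last time at the minimum of the future of the first
visit to the level of `T`.
-/

namespace ZBF

variable {σ : Type*}

/-- height of a word -/
def hh (h : σ → ℤ) (w : List σ) : ℤ := (w.map h).sum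

/-- height after `i` letters -/
def yy (h : σ → ℤ) (w : List σ) (i : ℕ) : ℤ := hh h (w.take i)

/-- bridge, heights only -/
def BrH (h : σ → ℤ) (w : List σ) : Prop :=
  ∀ i, 0 < i → i ≤ w.length → 0 < yy h w i ∧ yy h w i ≤ hh h w

/-- irreducible bridge, heights only -/
def Irr (h : σ → ℤ) (w : List σ) : Prop :=
  w ≠ [] ∧ BrH h w ∧ ∀ a b : List σ, a ++ b = w → BrH h a → BrH h b → a = [] ∨ b = []

/-- folds -/
structure IsFold (h : σ → ℤ) (w : List σ) (T B : ℕ) : Prop where
  lt : T < B
  le : B ≤ w.length
  ylt : yy h w B < yy h w T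
  up : ∀ i, i ≤ B → yy h w i ≤ yy h w T
  ups : ∀ i, T < i → i ≤ B → yy h w i < yy h w T
  dn : ∀ j i, j ≤ i → i ≤ w.length → yy h w j = yy h w T → yy h w B ≤ yy h w i
  dns : ∀ i, B < i → i ≤ w.length → yy h w B < yy h w i

section basic

variable {h : σ → ℤ}

@[simp] theorem hh_nil : hh h ([] : List σ) = 0 := rfl

theorem hh_append (a b : List σ) : hh h (a ++ b) = hh h a + hh h b := by
  simp [hh]

@[simp] theorem yy_zero (w : List σ) : yy h w 0 = 0 := by simp [yy]

theorem yy_length (w : List σ) : yy h w w.length = hh h w := by simp [yy]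

theorem yy_left {a b : List σ} {i : ℕ} (hi : i ≤ a.length) :
    yy h (a ++ b) i = yy h a i := by
  unfold yy
  rw [List.take_append_of_le_length hi]

theorem yy_right (a b : List σ) (i : ℕ) :
    yy h (a ++ b) (a.length + i) = hh h a + yy h b i := by
  unfold yy
  rw [List.take_append, List.take_of_length_le (by omega), hh_append]
  congr 3
  omega

theorem yy_take {w : List σ} {n i : ℕ} (hi : i ≤ n) : yy h (w.take n) i = yy h w i := by
  unfold yy
  rw [List.take_take, min_eq_left hi]

theorem yy_drop {w : List σ} {n : ℕ} (hn : n ≤ w.length) (i : ℕ) :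
    yy h (w.drop n) i = yy h w (n + i) - yy h w n := by
  have h1 := yy_right (h := h) (w.take n) (w.drop n) i
  rw [List.take_append_drop, List.length_take, min_eq_left hn] at h1
  rw [h1]
  unfold yy
  ring

theorem hh_take (w : List σ) (n : ℕ) : hh h (w.take n) = yy h w n := rfl

theorem hh_drop (w : List σ) (n : ℕ) : hh h (w.drop n) = hh h w - yy h w n := by
  have h1 := hh_append (h := h) (w.take n) (w.drop n)
  rw [List.take_append_drop] at h1
  rw [h1, hh_take]
  ring

theorem brH_nil : BrH h ([] : List σ) := by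
  intro i hi hi2
  simp at hi2
  omega

theorem BrH.nonneg {w : List σ} (hw : BrH h w) : 0 ≤ hh h w := by
  rcases Nat.eq_zero_or_pos w.length with h0 | h0
  · rw [List.length_eq_zero_iff.1 h0, hh_nil]
  · have h1 := hw w.length h0 le_rfl
    rw [yy_length] at h1
    exact h1.1.le

theorem BrH.pos {w : List σ} (hw : BrH h w) (hne : w ≠ []) : 0 < hh h w := by
  have h1 := hw w.length (List.length_pos_iff.2 hne) le_rfl
  rw [yy_length] at h1
  exact h1.1

theorem BrH.yy_nonneg {w : List σ} (hw : BrH h w) {i : ℕ} (hi : i ≤ w.length) :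
    0 ≤ yy h w i := by
  rcases Nat.eq_zero_or_pos i with rfl | h0
  · simp
  · exact (hw i h0 hi).1.le

theorem BrH.yy_le {w : List σ} (hw : BrH h w) {i : ℕ} (hi : i ≤ w.length) :
    yy h w i ≤ hh h w := by
  rcases Nat.eq_zero_or_pos i with rfl | h0
  · simpa using hw.nonneg
  · exact (hw i h0 hi).2

theorem BrH.append {a b : List σ} (ha : BrH h a) (hb : BrH h b) : BrH h (a ++ b) := by
  intro i hi hi2
  rw [hh_append]
  rcases Nat.lt_or_ge a.length i with h1 | h1
  · obtain ⟨j, rfl⟩ : ∃ j, i = a.length + j := ⟨i - a.length, by omega⟩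
    rw [yy_right]
    rw [List.length_append] at hi2
    have h2 := hb j (by omega) (by omega)
    have h3 := ha.nonneg
    constructor <;> linarith [h2.1, h2.2]
  · rw [yy_left h1]
    have h2 := ha i hi h1
    have h3 := hb.nonneg
    exact ⟨h2.1, by linarith [h2.2]⟩

/-- first irreducible piece -/
theorem exists_first : ∀ (n : ℕ) (w : List σ), w.length = n → w ≠ [] → BrH h w →
    ∃ p q : List σ, p ++ q = w ∧ Irr h p ∧ BrH h q := by
  intro n
  induction n using Nat.strong_induction_on with
  | _ n ih =>
    intro w hn hne hw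
    by_cases hi : ∀ a b : List σ, a ++ b = w → BrH h a → BrH h b → a = [] ∨ b = []
    · exact ⟨w, [], by simp, ⟨hne, hw, hi⟩, brH_nil⟩
    · push Not at hi
      obtain ⟨a, b, hab, ha, hb, ha0, hb0⟩ := hi
      have hl : a.length < n := by
        have := List.length_pos_iff.2 hb0
        rw [← hn, ← hab, List.length_append]
        omega
      obtain ⟨p, q, hpq, hp, hq⟩ := ih a.length hl a rfl ha0 ha
      exact ⟨p, q ++ b, by rw [← List.append_assoc, hpq, hab], hp, hq.append hb⟩

/-- last irreducible piece -/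
theorem exists_last : ∀ (n : ℕ) (w : List σ), w.length = n → w ≠ [] → BrH h w →
    ∃ q p : List σ, q ++ p = w ∧ Irr h p ∧ BrH h q := by
  intro n
  induction n using Nat.strong_induction_on with
  | _ n ih =>
    intro w hn hne hw
    by_cases hi : ∀ a b : List σ, a ++ b = w → BrH h a → BrH h b → a = [] ∨ b = []
    · exact ⟨[], w, by simp, ⟨hne, hw, hi⟩, brH_nil⟩
    · push Not at hi
      obtain ⟨a, b, hab, ha, hb, ha0, hb0⟩ := hi
      have hl : b.length < n := by
        have := List.length_pos_iff.2 ha0
        rw [← hn, ← hab, List.length_append]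
        omega
      obtain ⟨q, p, hpq, hp, hq⟩ := ih b.length hl b rfl hb0 hb
      exact ⟨a ++ q, p, by rw [List.append_assoc, hpq, hab], hp, ha.append hq⟩

end basic

section order

variable {h : σ → ℤ} {w : List σ} {T B T' B' : ℕ}

theorem IsFold.order (hf : IsFold h w T B) (hf' : IsFold h w T' B')
    (hlt : yy h w T < yy h w T') : B < T' ∧ yy h w B < yy h w B' := by
  have h1 : B < T' := by
    by_contra hc
    exact absurd (hf.up T' (by omega)) (by omega)
  exact ⟨h1, hf.dns B' (lt_trans h1 hf'.lt) hf'.le⟩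

theorem IsFold.eq_of (hf : IsFold h w T B) (hf' : IsFold h w T' B')
    (he : yy h w T = yy h w T') : T = T' ∧ B = B' := by
  have hb : yy h w B = yy h w B' := le_antisymm
    (hf.dn T' B' hf'.lt.le hf'.le he.symm) (hf'.dn T B hf.lt.le hf.le he)
  have hBB : B = B' := by
    rcases lt_trichotomy B B' with h1 | h1 | h1
    · exact absurd (hf.dns B' h1 hf'.le) (by omega)
    · exact h1
    · exact absurd (hf'.dns B h1 hf.le) (by omega)
  refine ⟨?_, hBB⟩
  rcases lt_trichotomy T T' with h1 | h1 | h1
  · exact absurd (hf.ups T' h1 (by have := hf'.lt; omega)) (by omega)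
  · exact h1
  · exact absurd (hf'.ups T h1 (by have := hf.lt; omega)) (by omega)

theorem IsFold.Tle (hf : IsFold h w T B) : T ≤ w.length := hf.lt.le.trans hf.le

end order

section cover

variable {h : σ → ℤ}

/-- every bond of an irreducible bridge, except the lowest, is covered by a fold -/
theorem Irr.cover (hs : ∀ s, h s ≤ 1) {w : List σ} (hw : Irr h w) {z : ℤ} (hz : 1 ≤ z)
    (hz2 : z < hh h w) : ∃ T B, IsFold h w T B ∧ yy h w B ≤ z ∧ z < yy h w T := by
  classical
  obtain ⟨hne, hbr, hirr⟩ := hw
  have hstep : ∀ i, yy h w (i + 1) ≤ yy h w i + 1 := by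
    intro i
    unfold yy
    by_cases hi : i < w.length
    · rw [List.take_succ_eq_append_getElem hi, hh_append]
      have := hs w[i]
      simp only [hh, List.map_cons, List.map_nil, List.sum_cons, List.sum_nil, add_zero]
      linarith
    · rw [List.take_of_length_le (by omega), List.take_of_length_le (by omega)]
      linarith
  have hex : ∃ i, i ≤ w.length ∧ z < yy h w i := ⟨w.length, le_rfl, by rw [yy_length]; exact hz2⟩
  obtain ⟨τ, hτ, hτmin⟩ : ∃ τ, (τ ≤ w.length ∧ z < yy h w τ) ∧
      ∀ j, j < τ → yy h w j ≤ z := by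
    refine ⟨Nat.find hex, Nat.find_spec hex, fun j hj => ?_⟩
    have := Nat.find_min hex hj
    by_contra hc
    exact this ⟨(hj.le.trans (Nat.find_spec hex).1), by omega⟩
  obtain ⟨i0, hi0, hi0min⟩ := Finset.exists_min_image (Finset.Icc τ w.length) (yy h w)
    ⟨τ, by simp [hτ.1]⟩
  rw [Finset.mem_Icc] at hi0
  set b := yy h w i0 with hb
  have hmin : ∀ i, τ ≤ i → i ≤ w.length → b ≤ yy h w i := fun i h1 h2 =>
    hi0min i (Finset.mem_Icc.2 ⟨h1, h2⟩)
  -- the minimum of the future is at most z
  have hbz : b ≤ z := by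
    by_contra hc
    push Not at hc
    have hτ1 : 1 ≤ τ := by
      by_contra h0
      have : τ = 0 := by omega
      rw [this, yy_zero] at hτ
      omega
    have hy1 : yy h w (τ - 1) = z := by
      have h1 := hτmin (τ - 1) (by omega)
      have h2 := hstep (τ - 1)
      rw [Nat.sub_add_cancel hτ1] at h2
      have h3 := hτ.2
      omega
    have hlen : (w.take (τ - 1)).length = τ - 1 := by
      rw [List.length_take]; omega
    have ha : BrH h (w.take (τ - 1)) := by
      intro i hi hi2
      rw [hlen] at hi2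
      rw [yy_take hi2, hh_take, hy1]
      exact ⟨(hbr i hi (by omega)).1, hτmin i (by omega)⟩
    have hc' : BrH h (w.drop (τ - 1)) := by
      intro i hi hi2
      rw [List.length_drop] at hi2
      rw [yy_drop (by omega), hh_drop, hy1]
      have h1 := hmin (τ - 1 + i) (by omega) (by omega)
      have h2 := hbr.yy_le (i := τ - 1 + i) (by omega)
      constructor <;> omega
    rcases hirr _ _ (List.take_append_drop (τ - 1) w) ha hc' with h1 | h1
    · have h2 := hh_take (h := h) w (τ - 1)
      rw [h1, hh_nil, hy1] at h2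
      omega
    · have := congrArg List.length h1
      rw [List.length_drop, List.length_nil] at this
      omega
  -- last time at the minimum
  obtain ⟨B, hBm, hBmax⟩ := Finset.exists_max_image
    ((Finset.Icc τ w.length).filter (fun i => yy h w i ≤ b)) id
    ⟨i0, by rw [Finset.mem_filter, Finset.mem_Icc]; exact ⟨hi0, le_rfl⟩⟩
  rw [Finset.mem_filter, Finset.mem_Icc] at hBm
  have hyB : yy h w B = b := le_antisymm hBm.2 (hmin B hBm.1.1 hBm.1.2)
  have hBlast : ∀ i, B < i → i ≤ w.length → b < yy h w i := by
    intro i h1 h2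
    by_contra hc
    have := hBmax i (by
      rw [Finset.mem_filter, Finset.mem_Icc]
      exact ⟨⟨by omega, h2⟩, by omega⟩)
    simp only [id] at this
    omega
  obtain ⟨j0, hj0, hj0max⟩ := Finset.exists_max_image (Finset.range (B + 1)) (yy h w)
    ⟨0, by simp⟩
  rw [Finset.mem_range] at hj0
  set t := yy h w j0 with ht
  have hmax : ∀ i, i ≤ B → yy h w i ≤ t := fun i h1 =>
    hj0max i (Finset.mem_range.2 (by omega))
  have htz : z < t := lt_of_lt_of_le hτ.2 (hmax τ hBm.1.1)
  obtain ⟨T, hTm, hTmax⟩ := Finset.exists_max_image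
    ((Finset.range (B + 1)).filter (fun i => t ≤ yy h w i)) id
    ⟨j0, by rw [Finset.mem_filter, Finset.mem_range]; exact ⟨hj0, le_rfl⟩⟩
  rw [Finset.mem_filter, Finset.mem_range] at hTm
  have hyT : yy h w T = t := le_antisymm (hmax T (by omega)) hTm.2
  have hTlast : ∀ i, T < i → i ≤ B → yy h w i < t := by
    intro i h1 h2
    by_contra hc
    have := hTmax i (by
      rw [Finset.mem_filter, Finset.mem_range]
      exact ⟨by omega, by omega⟩)
    simp only [id] at this
    omega
  have hTB : T < B := by
    rcases Nat.lt_or_ge T B with h1 | h1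
    · exact h1
    · have h2 : T = B := by omega
      rw [h2, hyB] at hyT
      omega
  refine ⟨T, B, ⟨hTB, hBm.1.2, by rw [hyB, hyT]; omega, ?_, ?_, ?_, ?_⟩, ?_, ?_⟩
  · intro i hi; rw [hyT]; exact hmax i hi
  · intro i h1 h2; rw [hyT]; exact hTlast i h1 h2
  · intro j i hji hi hj
    rw [hyB]
    rw [hyT] at hj
    have hτj : τ ≤ j := by
      by_contra hc
      have := hτmin j (by omega)
      omega
    exact hmin i (by omega) hi
  · intro i h1 h2; rw [hyB]; exact hBlast i h1 h2
  · rw [hyB]; exact hbz
  · rw [hyT]; exact htz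

end cover

section sizes

variable (h : σ → ℤ)

open Classical in
/-- the folds of a word -/
noncomputable def folds (w : List σ) : Finset (ℕ × ℕ) :=
  (Finset.range (w.length + 1) ×ˢ Finset.range (w.length + 1)).filter
    (fun p => IsFold h w p.1 p.2)

/-- size of a fold -/
def fsz (w : List σ) (p : ℕ × ℕ) : ℕ := (yy h w p.1 - yy h w p.2).toNat

/-- sum of the sizes of the folds larger than `r` -/
noncomputable def Bs (r : ℕ) (w : List σ) : ℕ :=
  ∑ p ∈ (folds h w).filter (fun p => r < fsz h w p), fsz h w p

/-- number of the folds of size at most `r` -/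
noncomputable def sm (r : ℕ) (w : List σ) : ℕ :=
  ((folds h w).filter (fun p => fsz h w p ≤ r)).card

variable {h}

theorem mem_folds {w : List σ} {p : ℕ × ℕ} : p ∈ folds h w ↔ IsFold h w p.1 p.2 := by
  classical
  unfold folds
  rw [Finset.mem_filter, Finset.mem_product, Finset.mem_range, Finset.mem_range]
  constructor
  · exact fun h1 => h1.2
  · intro h1
    have := h1.lt
    have := h1.le
    exact ⟨⟨by omega, by omega⟩, h1⟩

theorem IsFold.fsz_cast {w : List σ} {p : ℕ × ℕ} (hf : IsFold h w p.1 p.2) :
    (fsz h w p : ℤ) = yy h w p.1 - yy h w p.2 := by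
  unfold fsz
  have := hf.ylt
  omega

/-- the folds cover the bonds `1, .., S-1` -/
theorem Irr.cover_card (hs : ∀ s, h s ≤ 1) {w : List σ} (hw : Irr h w) (r : ℕ) :
    hh h w - 1 ≤ (Bs h r w : ℤ) + r * sm h r w := by
  classical
  have hsub : Finset.Ico (1 : ℤ) (hh h w) ⊆
      (folds h w).biUnion (fun p => Finset.Ico (yy h w p.2) (yy h w p.1)) := by
    intro z hz
    rw [Finset.mem_Ico] at hz
    obtain ⟨T, B, hf, h1, h2⟩ := hw.cover hs hz.1 hz.2
    rw [Finset.mem_biUnion]
    exact ⟨(T, B), mem_folds.2 hf, Finset.mem_Ico.2 ⟨h1, h2⟩⟩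
  have h1 := (Finset.card_le_card hsub).trans Finset.card_biUnion_le
  rw [Int.card_Ico] at h1
  have h2 : ∑ p ∈ folds h w, (Finset.Ico (yy h w p.2) (yy h w p.1)).card =
      ∑ p ∈ folds h w, fsz h w p := by
    apply Finset.sum_congr rfl
    intro p _
    rw [Int.card_Ico]
    rfl
  rw [h2, ← Finset.sum_filter_add_sum_filter_not _ (fun p => r < fsz h w p)] at h1
  have h3 : ∑ p ∈ (folds h w).filter (fun p => ¬ r < fsz h w p), fsz h w p ≤
      r * sm h r w := by
    unfold sm
    have h4 : (folds h w).filter (fun p => ¬ r < fsz h w p) =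
        (folds h w).filter (fun p => fsz h w p ≤ r) := by
      apply Finset.filter_congr
      intro p _
      exact not_lt
    rw [h4, mul_comm]
    refine (Finset.sum_le_card_nsmul _ _ r (fun p hp => ?_)).trans (by rw [smul_eq_mul])
    exact (Finset.mem_filter.1 hp).2
  have h5 : (hh h w - 1).toNat ≤ Bs h r w + r * sm h r w := h1.trans (by
    unfold Bs
    omega)
  have h6 : hh h w - 1 ≤ ((Bs h r w + r * sm h r w : ℕ) : ℤ) := by omega
  simpa using h6

end sizes

end ZBF
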