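import Pool.Agent.ZB.Defs

/-!
# ZB, rows A4: the inverse correlation length (helper34)

* `MF.mU : ULe1 → MU`, `MF.mBest : ULe1 → USup → MBest`, `MF.mLo`, `MF.mMono`, `MF.mDbl : ULe1 → MDbl`,
  `MF.m0`, `MF.mLim : ULe1 → HW1 → MLim`, `MF.short_row : ULe1 → Short`.
-/

set_option autoImplicit false

open MeasureTheory Set Filter
open scoped ENNReal Topology

namespace ZB

namespace MF

/-! ### masses -/

lemma xc_pos : 0 < xc := inv_pos.2 (Real.exp_pos _)

lemma q_pos (lam : ℝ) : 0 < xc * Real.exp (-lam) := mul_pos xc_pos (Real.exp_pos _)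

lemma ms_le_mul {lam lam' : ℝ} {A B : Set Wd} {c : ℝ≥0∞} (h : ∀ w ∈ A, w ∈ B ∧ wt lam w ≤ c * wt lam' w) :
    Ms lam A ≤ c * Ms lam' B := by
  unfold Ms
  rw [← ENNReal.tsum_mul_left]
  refine ENNReal.tsum_le_tsum fun w => ?_
  by_cases hw : w ∈ A
  · rw [indicator_of_mem hw, indicator_of_mem (h w hw).1]
    exact (h w hw).2
  · rw [indicator_of_notMem hw]
    exact zero_le

lemma wt_mono {lam lam' : ℝ} (h : lam ≤ lam') (w : Wd) : wt lam' w ≤ wt lam w := by
  unfold wt
  refine ENNReal.ofReal_le_ofReal (pow_le_pow_left₀ (q_pos _).le ?_ _)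
  exact mul_le_mul_of_nonneg_left (Real.exp_le_exp.2 (by linarith)) xc_pos.le

lemma u_mono {lam lam' : ℝ} (h : lam ≤ lam') (T : ℕ) : u lam' T ≤ u lam T := by
  have := ms_le_mul (lam := lam') (lam' := lam) (A := BrS T) (B := BrS T) (c := 1) fun w hw =>
    ⟨hw, by rw [one_mul]; exact wt_mono h w⟩
  rwa [one_mul] at this

lemma u_le_one (h1 : ULe1) {lam : ℝ} (h : 0 ≤ lam) (T : ℕ) : u lam T ≤ 1 := (u_mono h T).trans (h1 T)

lemma u_ne_top (h1 : ULe1) {lam : ℝ} (h : 0 ≤ lam) (T : ℕ) : u lam T ≠ ⊤ :=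
  ne_top_of_le_ne_top ENNReal.one_ne_top (u_le_one h1 h T)

/-! ### the straight bridge -/

lemma Y_append (v w : Wd) : Y (v ++ w) = Y v + Y w := by
  unfold Y
  rw [List.map_append, List.sum_append]

lemma Y_rep (T : ℕ) : Y (List.replicate T St.U) = T := by
  unfold Y
  rw [List.map_replicate, List.sum_replicate]
  simp [dy]

lemma infix_rep {T : ℕ} {v : Wd} (h : v <:+: List.replicate T St.U) : v = List.replicate v.length St.U := by
  refine List.eq_replicate_iff.2 ⟨rfl, fun x hx => ?_⟩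
  exact List.eq_of_mem_replicate (h.subset hx)

lemma Y_infix_rep {T : ℕ} {v : Wd} (h : v <:+: List.replicate T St.U) : Y v = v.length := by
  conv_lhs => rw [infix_rep h]
  exact Y_rep _

lemma br_rep (T : ℕ) : List.replicate T St.U ∈ BrS T := by
  refine ⟨⟨fun v hv hne h0 => ?_, fun v hv hne => ?_, fun v hv => ?_⟩, Y_rep T⟩
  · have h1 := Y_infix_rep hv
    rw [h0.2] at h1
    have : v.length = 0 := by exact_mod_cast h1.symm
    exact hne (List.length_eq_zero_iff.1 this)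
  · rw [Y_infix_rep hv.isInfix]
    have : 0 < v.length := List.length_pos_iff.2 hne
    exact_mod_cast this
  · rw [Y_infix_rep hv.isInfix]
    exact Int.natCast_nonneg _

lemma u_pos (lam : ℝ) (T : ℕ) : 0 < u lam T := by
  have h1 : wt lam (List.replicate T St.U) ≤ u lam T := by
    unfold u Ms
    refine le_trans (le_of_eq ?_) (ENNReal.le_tsum (List.replicate T St.U))
    rw [indicator_of_mem (br_rep T)]
  refine lt_of_lt_of_le ?_ h1
  unfold wt
  exact ENNReal.ofReal_pos.2 (pow_pos (q_pos _) _)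

lemma u_real_pos (h1 : ULe1) {lam : ℝ} (h : 0 ≤ lam) (T : ℕ) : 0 < (u lam T).toReal :=
  ENNReal.toReal_pos (u_pos lam T).ne' (u_ne_top h1 h T)

lemma u_real_le (h1 : ULe1) {lam : ℝ} (h : 0 ≤ lam) (T : ℕ) : (u lam T).toReal ≤ 1 := by
  have := ENNReal.toReal_mono ENNReal.one_ne_top (u_le_one h1 h T)
  rwa [ENNReal.toReal_one] at this

/-- the term of the infimum -/
noncomputable def tm (lam : ℝ) (T : ℕ) : ℝ := - Real.log (u lam (T + 1)).toReal / ((T : ℝ) + 1)

lemma m_eq (lam : ℝ) : m lam = sInf (range (tm lam)) := rfl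

lemma tm_nonneg (h1 : ULe1) {lam : ℝ} (h : 0 ≤ lam) (T : ℕ) : 0 ≤ tm lam T := by
  refine div_nonneg ?_ (by positivity)
  rw [neg_nonneg]
  exact Real.log_nonpos (u_real_pos h1 h _).le (u_real_le h1 h _)

lemma tm_bdd (h1 : ULe1) {lam : ℝ} (h : 0 ≤ lam) : BddBelow (range (tm lam)) :=
  ⟨0, by
    rintro _ ⟨T, rfl⟩
    exact tm_nonneg h1 h T⟩

lemma m_le (h1 : ULe1) {lam : ℝ} (h : 0 ≤ lam) (T : ℕ) : m lam ≤ tm lam T := csInf_le (tm_bdd h1 h) ⟨T, rfl⟩

lemma le_m {lam b : ℝ} (h : ∀ T, b ≤ tm lam T) : b ≤ m lam := by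
  refine le_csInf (range_nonempty _) ?_
  rintro _ ⟨T, rfl⟩
  exact h T

lemma m_nonneg (h1 : ULe1) {lam : ℝ} (h : 0 ≤ lam) : 0 ≤ m lam := le_m fun T => tm_nonneg h1 h T

lemma tm_ge {lam b : ℝ} {T : ℕ} (hp : 0 < (u lam (T + 1)).toReal)
    (h : (u lam (T + 1)).toReal ≤ Real.exp (-b * ((T : ℝ) + 1))) : b ≤ tm lam T := by
  unfold tm
  rw [le_div_iff₀ (by positivity)]
  have h2 := Real.log_le_log hp h
  rw [Real.log_exp] at h2
  linarith

/-- words of height 0 -/
lemma brS_zero {w : Wd} (h : w ∈ BrS 0) : w = [] := by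
  by_contra hne
  have h1 := h.1.2.1 w (List.prefix_refl w) hne
  have h2 := h.2
  rw [h2] at h1
  exact absurd h1 (by norm_num)

lemma u_zero (lam : ℝ) : u lam 0 ≤ 1 := by
  unfold u Ms
  rw [tsum_eq_single ([] : Wd)]
  · refine (indicator_le_self _ _ _).trans ?_
    unfold wt
    rw [List.length_nil, pow_zero, ENNReal.ofReal_one]
  · intro w hw
    exact indicator_of_notMem (fun h => hw (brS_zero h)) _

/-- the bound at one height -/
lemma mU (h1 : ULe1) : MU := by
  intro lam h T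
  rcases T with _ | T
  · rw [Nat.cast_zero, mul_zero, Real.exp_zero, ENNReal.ofReal_one]
    exact u_zero lam
  · have h2 := m_le h1 h T
    unfold tm at h2
    rw [le_div_iff₀ (by positivity)] at h2
    have h3 : (u lam (T + 1)).toReal ≤ Real.exp (-m lam * ((T + 1 : ℕ) : ℝ)) := by
      rw [← Real.log_le_iff_le_exp (u_real_pos h1 h _)]
      push_cast
      linarith
    rw [← ENNReal.ofReal_toReal (u_ne_top h1 h (T + 1))]
    exact ENNReal.ofReal_le_ofReal h3

lemma u_pow (h2 : USup) (lam : ℝ) (T k : ℕ) : u lam T ^ (k + 1) ≤ u lam ((k + 1) * T) := by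
  induction k with
  | zero => rw [zero_add, pow_one, one_mul]
  | succ k ih =>
    rw [pow_succ]
    refine (mul_le_mul_left ih _).trans ?_
    have h := h2 lam ((k + 1) * T) T
    rwa [show (k + 1) * T + T = (k + 1 + 1) * T by ring] at h

lemma mBest (h1 : ULe1) (h2 : USup) : MBest := by
  intro lam h b C hC
  refine le_m fun T => tm_ge (u_real_pos h1 h _) ?_
  have hx := u_real_pos h1 h (T + 1)
  obtain ⟨x, hxd⟩ : ∃ x, x = (u lam (T + 1)).toReal := ⟨_, rfl⟩
  rw [← hxd] at hx ⊢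
  obtain ⟨y, hyd⟩ : ∃ y, y = Real.exp (-b * ((T : ℝ) + 1)) := ⟨_, rfl⟩
  have hy : 0 < y := by
    rw [hyd]
    exact Real.exp_pos _
  rw [← hyd]
  -- the powers
  have hpow : ∀ k : ℕ, x ^ (k + 1) ≤ C * y ^ (k + 1) := by
    intro k
    have h3 := (u_pow h2 lam (T + 1) k).trans (hC _)
    have h4 := ENNReal.toReal_mono ENNReal.ofReal_ne_top h3
    rw [ENNReal.toReal_pow, ← hxd] at h4
    have h5 : 0 < C * Real.exp (-b * (((k + 1) * (T + 1) : ℕ) : ℝ)) := by
      by_contra hcon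
      rw [ENNReal.ofReal_of_nonpos (not_lt.1 hcon), ENNReal.toReal_zero] at h4
      have := pow_pos hx (k + 1)
      linarith
    rw [ENNReal.toReal_ofReal h5.le] at h4
    refine h4.trans (le_of_eq ?_)
    congr 1
    rw [hyd, ← Real.exp_nat_mul]
    congr 1
    push_cast
    ring
  by_contra hcon
  rw [not_le] at hcon
  have h6 : 1 < x / y := by
    rw [lt_div_iff₀ hy]
    linarith
  obtain ⟨k, hk⟩ := pow_unbounded_of_one_lt C h6
  have h7 : C < (x / y) ^ (k + 1) := hk.trans_le (pow_le_pow_right₀ h6.le (Nat.le_succ k))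
  rw [div_pow, lt_div_iff₀ (pow_pos hy _)] at h7
  linarith [hpow k]

/-! ### lengths -/

lemma Y_le_length (w : Wd) : Y w ≤ w.length := by
  induction w with
  | nil => simp [Y]
  | cons a w ih =>
    unfold Y at ih ⊢
    rw [List.map_cons, List.sum_cons, List.length_cons]
    have : dy a ≤ 1 := by cases a <;> simp [dy]
    push_cast
    linarith

lemma mLo (h1 : ULe1) : MLo := by
  intro lam h
  refine le_m fun T => tm_ge (u_real_pos h1 h _) ?_
  have h2 : u lam (T + 1) ≤ ENNReal.ofReal (Real.exp (-lam * ((T : ℝ) + 1))) * u 0 (T + 1) := by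
    refine ms_le_mul fun w hw => ⟨hw, ?_⟩
    unfold wt
    rw [← ENNReal.ofReal_mul (Real.exp_pos _).le]
    refine ENNReal.ofReal_le_ofReal ?_
    rw [neg_zero, Real.exp_zero, mul_one, mul_pow, ← Real.exp_nat_mul, mul_comm]
    refine mul_le_mul_of_nonneg_right (Real.exp_le_exp.2 ?_) (pow_pos xc_pos _).le
    have h3 := Y_le_length w
    rw [hw.2] at h3
    have h4 : ((T : ℝ) + 1) ≤ (w.length : ℝ) := by exact_mod_cast h3
    nlinarith
  have h3 : u lam (T + 1) ≤ ENNReal.ofReal (Real.exp (-lam * ((T : ℝ) + 1))) := by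
    refine h2.trans ?_
    calc _ ≤ ENNReal.ofReal (Real.exp (-lam * ((T : ℝ) + 1))) * 1 := mul_le_mul_right (h1 _) _
      _ = _ := mul_one _
  have h4 := ENNReal.toReal_mono ENNReal.ofReal_ne_top h3
  rwa [ENNReal.toReal_ofReal (Real.exp_pos _).le] at h4

lemma mMono (h1 : ULe1) : MMono := by
  intro lam lam' h h'
  refine le_m fun T => (m_le h1 h T).trans ?_
  unfold tm
  refine div_le_div_of_nonneg_right (neg_le_neg ?_) (by positivity)
  refine Real.log_le_log (u_real_pos h1 (h.trans h') _) ?_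
  exact ENNReal.toReal_mono (u_ne_top h1 h _) (u_mono h' _)

/-- Cauchy - Schwarz -/
lemma u_half (h1 : ULe1) {lam : ℝ} (h : 0 ≤ lam) (T : ℕ) : (u (lam / 2) T).toReal ^ 2 ≤ (u lam T).toReal := by
  have hx := u_real_pos h1 h T
  have h2 : 0 ≤ lam / 2 := by linarith
  obtain ⟨s, hs⟩ : ∃ s, s = Real.sqrt (u lam T).toReal := ⟨_, rfl⟩
  have hs0 : 0 < s := by
    rw [hs]
    exact Real.sqrt_pos.2 hx
  have hss : s ^ 2 = (u lam T).toReal := by
    rw [hs]
    exact Real.sq_sqrt hx.le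
  -- pointwise
  have h3 : 2 * u (lam / 2) T ≤ ENNReal.ofReal s * u 0 T + ENNReal.ofReal s⁻¹ * u lam T := by
    unfold u Ms
    rw [← ENNReal.tsum_mul_left, ← ENNReal.tsum_mul_left, ← ENNReal.tsum_mul_left, ← ENNReal.tsum_add]
    refine ENNReal.tsum_le_tsum fun w => ?_
    by_cases hw : w ∈ BrS T
    · rw [indicator_of_mem hw, indicator_of_mem hw, indicator_of_mem hw]
      unfold wt
      rw [show (2 : ℝ≥0∞) = ENNReal.ofReal 2 by norm_num, ← ENNReal.ofReal_mul (by norm_num),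
        ← ENNReal.ofReal_mul hs0.le, ← ENNReal.ofReal_mul (inv_pos.2 hs0).le, ← ENNReal.ofReal_add
        (mul_nonneg hs0.le (pow_pos (q_pos _) _).le) (mul_nonneg (inv_pos.2 hs0).le (pow_pos (q_pos _) _).le)]
      refine ENNReal.ofReal_le_ofReal ?_
      rw [neg_zero, Real.exp_zero, mul_one, mul_pow, mul_pow, ← Real.exp_nat_mul, ← Real.exp_nat_mul]
      obtain ⟨e, he⟩ : ∃ e, e = Real.exp ((w.length : ℝ) * -(lam / 2)) := ⟨_, rfl⟩
      have he2 : Real.exp ((w.length : ℝ) * -lam) = e ^ 2 := by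
        rw [he, ← Real.exp_nat_mul]
        congr 1
        push_cast
        ring
      rw [← he, he2]
      have hX := pow_pos xc_pos w.length
      have h5 : 2 * e ≤ s + s⁻¹ * e ^ 2 := by
        have h6 : s + s⁻¹ * e ^ 2 - 2 * e = s⁻¹ * (s - e) ^ 2 := by
          field_simp
          ring
        have h7 : 0 ≤ s⁻¹ * (s - e) ^ 2 := by positivity
        linarith
      calc 2 * (xc ^ w.length * e) = xc ^ w.length * (2 * e) := by ring
        _ ≤ xc ^ w.length * (s + s⁻¹ * e ^ 2) := mul_le_mul_of_nonneg_left h5 hX.le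
        _ = _ := by ring
    · rw [indicator_of_notMem hw, mul_zero]
      exact zero_le
  have h4 : 2 * u (lam / 2) T ≤ ENNReal.ofReal s * 1 + ENNReal.ofReal s⁻¹ * u lam T :=
    h3.trans (add_le_add (mul_le_mul_right (h1 T) _) le_rfl)
  have h5 := ENNReal.toReal_mono (by
    rw [mul_one]
    exact ENNReal.add_ne_top.2 ⟨ENNReal.ofReal_ne_top, ENNReal.mul_ne_top ENNReal.ofReal_ne_top (u_ne_top h1 h T)⟩) h4
  rw [ENNReal.toReal_mul, mul_one, ENNReal.toReal_add ENNReal.ofReal_ne_top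
    (ENNReal.mul_ne_top ENNReal.ofReal_ne_top (u_ne_top h1 h T)), ENNReal.toReal_mul, ENNReal.toReal_ofReal hs0.le,
    ENNReal.toReal_ofReal (inv_pos.2 hs0).le, ← hss] at h5
  have h6 : s⁻¹ * s ^ 2 = s := by
    field_simp
  rw [h6] at h5
  have h7 : (2 : ℝ≥0∞).toReal = 2 := by norm_num
  rw [h7] at h5
  rw [← hss]
  exact pow_le_pow_left₀ ENNReal.toReal_nonneg (by linarith) 2

lemma mDbl (h1 : ULe1) : MDbl := by
  intro lam h
  have h2 : 0 ≤ lam / 2 := by linarith
  have h3 : m lam / 2 ≤ m (lam / 2) := by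
    refine le_m fun T => ?_
    have h4 := m_le h1 h T
    have h5 := u_half h1 h (T + 1)
    have h6 := u_real_pos h1 h2 (T + 1)
    have h7 := Real.log_le_log (by positivity) h5
    rw [Real.log_pow] at h7
    unfold tm at h4 ⊢
    rw [le_div_iff₀ (by positivity)] at h4 ⊢
    push_cast at h7
    linarith
  linarith

/-- the sum of the bridges is finite if `m 0` is positive -/
lemma sum_lt {b : ℝ} (hb : 0 < b) (h : ∀ T, u 0 T ≤ ENNReal.ofReal (Real.exp (-b * T))) : ∑' T, u 0 T ≠ ⊤ := by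
  refine ne_top_of_le_ne_top ?_ (ENNReal.tsum_le_tsum h)
  have hs : Summable fun T : ℕ => Real.exp (-b * T) := by
    have := Real.summable_exp_nat_mul_iff.2 (show -b < 0 by linarith)
    refine this.congr fun T => ?_
    rw [mul_comm]
  rw [← ENNReal.ofReal_tsum_of_nonneg (fun T => (Real.exp_pos _).le) hs]
  exact ENNReal.ofReal_ne_top

lemma m0 (h1 : ULe1) (hw : HW1) : M0 := by
  refine le_antisymm ?_ (m_nonneg h1 le_rfl)
  by_contra hcon
  exact sum_lt (not_le.1 hcon) (fun T => mU h1 0 le_rfl T) hw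

lemma lj_pos (j : ℕ) : 0 < lj j := by
  unfold lj
  positivity

lemma mLim (h1 : ULe1) (hw : HW1) : MLim := by
  have hanti : Antitone mj := by
    refine antitone_nat_of_succ_le fun j => mMono h1 _ _ (lj_pos _).le ?_
    unfold lj
    exact pow_le_pow_of_le_one (by norm_num) (by norm_num) (Nat.le_succ j)
  have hbdd : BddBelow (range mj) := ⟨0, by
    rintro _ ⟨j, rfl⟩
    exact m_nonneg h1 (lj_pos j).le⟩
  have ht := tendsto_atTop_ciInf hanti hbdd
  obtain ⟨b, hb⟩ : ∃ b, b = ⨅ j, mj j := ⟨_, rfl⟩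
  rw [← hb] at ht
  have hb0 : 0 ≤ b := by
    rw [hb]
    exact le_ciInf fun j => m_nonneg h1 (lj_pos j).le
  have hble : ∀ j, b ≤ mj j := fun j => by
    rw [hb]
    exact ciInf_le hbdd j
  rcases hb0.eq_or_lt with h0 | h0
  · rw [← h0] at ht
    exact ht
  exfalso
  refine sum_lt h0 (fun T => ?_) hw
  -- monotone convergence
  have h2 : ∀ j, u (lj j) T ≤ ENNReal.ofReal (Real.exp (-b * T)) := by
    intro j
    refine (mU h1 (lj j) (lj_pos j).le T).trans (ENNReal.ofReal_le_ofReal (Real.exp_le_exp.2 ?_))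
    have h3 := hble j
    have h4 : (0 : ℝ) ≤ T := Nat.cast_nonneg T
    unfold mj at h3
    nlinarith
  unfold u Ms
  rw [ENNReal.tsum_eq_iSup_sum]
  refine iSup_le fun s => ?_
  have hlim : Tendsto (fun j : ℕ => ∑ w ∈ s, (BrS T).indicator (wt (lj j)) w) atTop
      (𝓝 (∑ w ∈ s, (BrS T).indicator (wt 0) w)) := by
    refine tendsto_finsetSum _ fun w _ => ?_
    by_cases hwB : w ∈ BrS T
    · simp only [indicator_of_mem hwB]
      unfold wt
      refine ENNReal.tendsto_ofReal (Tendsto.pow ?_ _)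
      have h5 : Tendsto lj atTop (𝓝 0) := tendsto_pow_atTop_nhds_zero_of_lt_one (by norm_num) (by norm_num)
      exact ((Real.continuous_exp.tendsto _).comp (h5.neg)).const_mul xc
    · simp only [indicator_of_notMem hwB]
      exact tendsto_const_nhds
  refine le_of_tendsto' hlim fun j => ?_
  exact (ENNReal.sum_le_tsum s).trans (h2 j)

lemma short_row (h1 : ULe1) : Short := by
  intro lam h nu k
  have h2 : Ms 0 {w | w ∈ BrS k ∧ (w.length : ℝ) < nu * k} ≤ ENNReal.ofReal (Real.exp (lam * (nu * k))) * u lam k := by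
    refine ms_le_mul fun w hw => ⟨hw.1, ?_⟩
    unfold wt
    rw [← ENNReal.ofReal_mul (Real.exp_pos _).le]
    refine ENNReal.ofReal_le_ofReal ?_
    rw [neg_zero, Real.exp_zero, mul_one, mul_pow, ← Real.exp_nat_mul, mul_comm (xc ^ w.length), ← mul_assoc, ← Real.exp_add]
    refine le_mul_of_one_le_left (pow_pos xc_pos _).le (Real.one_le_exp ?_)
    have := hw.2
    nlinarith
  refine h2.trans ((mul_le_mul_right (mU h1 lam h k) _).trans ?_)
  rw [← ENNReal.ofReal_mul (Real.exp_pos _).le, ← Real.exp_add]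
  refine ENNReal.ofReal_le_ofReal (Real.exp_le_exp.2 (le_of_eq ?_))
  ring

end MF

end ZB
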