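import Pool.Agent.ZB.HW

/-!
# ZB, row E1: from the rate of the inverse correlation length to walks of length `n` (helper34)

* `FN.final_of : MuLe → MLo → HW2 → Rate → Final`.
-/

set_option autoImplicit false

open MeasureTheory Set Filter
open scoped ENNReal Topology

namespace ZB

namespace FN

/-! ### counting -/

def AY (n : ℕ) (s : ℝ) : Set Wd := {w | w.length = n ∧ SA w ∧ ∃ v, v <:+: w ∧ s ≤ |(Y v : ℝ)|}
def AX (n : ℕ) (s : ℝ) : Set Wd := {w | w.length = n ∧ SA w ∧ ∃ v, v <:+: w ∧ s ≤ |(X v : ℝ)|}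

lemma AY_fin (n : ℕ) (s : ℝ) : (AY n s).Finite := HW.fin_len n _ fun _ hw => hw.1
lemma AX_fin (n : ℕ) (s : ℝ) : (AX n s).Finite := HW.fin_len n _ fun _ hw => hw.1

lemma rho_inj {v w : Wd} (h : rho v = rho w) : v = w := by
  have := congrArg rho h
  simpa using this

lemma ax_le (n : ℕ) (s : ℝ) : (AX n s).ncard ≤ (AY n s).ncard := by
  refine Set.ncard_le_ncard_of_injOn rho (fun w hw => ?_) (fun v _ w _ h => rho_inj h) (AY_fin n s)
  obtain ⟨h1, h2, v, hv, hs⟩ := hw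
  exact ⟨by rw [rho_length, h1], SA_rho.2 h2, rho v, hv.map fD, by rwa [Y_rho]⟩

lemma cfar_le (n : ℕ) (s : ℝ) : cFar n s ≤ 2 * (AY n s).ncard := by
  have h1 : {w : Wd | w.length = n ∧ SA w ∧ ∃ v, v <:+: w ∧ (s ≤ |(X v : ℝ)| ∨ s ≤ |(Y v : ℝ)|)} ⊆
      AX n s ∪ AY n s := by
    rintro w ⟨h1, h2, v, hv, h3 | h3⟩
    · exact Or.inl ⟨h1, h2, v, hv, h3⟩
    · exact Or.inr ⟨h1, h2, v, hv, h3⟩
  have h2 := Set.ncard_le_ncard h1 ((AX_fin n s).union (AY_fin n s))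
  have h3 := Set.ncard_union_le (AX n s) (AY n s)
  have h4 := ax_le n s
  unfold cFar
  omega

lemma cfar_le_c (n : ℕ) (s : ℝ) : cFar n s ≤ c n := by
  unfold cFar c
  exact Set.ncard_le_ncard (fun w hw => ⟨hw.1, hw.2.1⟩) (HW.fin_len n _ fun _ hw => hw.1)

lemma ay_le (hm : MuLe) {C : ℝ} (hC : 0 < C) (hw : ∀ lam : ℝ, 0 < lam → lam ≤ 1 → ∀ N : ℕ,
    Ms lam {w | SA w ∧ ∃ v, v <:+: w ∧ (N : ℤ) ≤ |Y v|} ≤
      ENNReal.ofReal (C * Real.exp (3 / m lam - m lam * N))) {lam : ℝ} (h : 0 < lam) (h1 : lam ≤ 1)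
    (hml : 0 ≤ m lam) (n : ℕ) (s : ℝ) :
    ((AY n s).ncard : ℝ) ≤ C * Real.exp (3 / m lam - m lam * s + lam * n) * c n := by
  have hsub : AY n s ⊆ {w | SA w ∧ ∃ v, v <:+: w ∧ ((⌈s⌉₊ : ℕ) : ℤ) ≤ |Y v|} := by
    rintro w ⟨_, h2, v, hv, hs⟩
    refine ⟨h2, v, hv, ?_⟩
    have h3 : s ≤ ((Y v).natAbs : ℝ) := by
      rw [Nat.cast_natAbs, Int.cast_abs]
      exact hs
    have h4 : ⌈s⌉₊ ≤ (Y v).natAbs := Nat.ceil_le.2 h3
    rw [Int.abs_eq_natAbs]
    exact_mod_cast h4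
  have h2 := (Ms_mono lam hsub).trans (hw lam h h1 ⌈s⌉₊)
  rw [HW.ms_len lam n (A := AY n s) fun w hw => hw.1] at h2
  have hq : 0 < xc * Real.exp (-lam) := mul_pos xc_pos (Real.exp_pos _)
  have h3 : ((AY n s).ncard : ℝ) * (xc * Real.exp (-lam)) ^ n ≤ C * Real.exp (3 / m lam - m lam * s) := by
    rw [← ENNReal.ofReal_natCast, ← ENNReal.ofReal_mul (by positivity)] at h2
    have h4 := (ENNReal.ofReal_le_ofReal_iff (by positivity)).1 h2
    refine h4.trans (mul_le_mul_of_nonneg_left (Real.exp_le_exp.2 ?_) hC.le)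
    have := mul_le_mul_of_nonneg_left (Nat.le_ceil s) hml
    linarith
  have h5 : (xc * Real.exp (-lam)) ^ n * (mu ^ n * Real.exp (lam * n)) = 1 := by
    have : (xc * Real.exp (-lam)) ^ n * (mu ^ n * Real.exp (lam * n)) =
        (xc * mu) ^ n * (Real.exp (-lam) ^ n * Real.exp (lam * n)) := by
      rw [mul_pow, mul_pow]; ring
    rw [this]
    have h6 : xc * mu = 1 := inv_mul_cancel₀ mu_pos.ne'
    rw [h6, one_pow, one_mul, ← Real.exp_nat_mul, ← Real.exp_add]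
    have : (n : ℝ) * -lam + lam * n = 0 := by ring
    rw [this, Real.exp_zero]
  have h6 : 0 < mu ^ n * Real.exp (lam * n) := mul_pos (pow_pos mu_pos n) (Real.exp_pos _)
  calc ((AY n s).ncard : ℝ) = (AY n s).ncard * (xc * Real.exp (-lam)) ^ n *
        (mu ^ n * Real.exp (lam * n)) := by rw [mul_assoc, h5, mul_one]
    _ ≤ C * Real.exp (3 / m lam - m lam * s) * (mu ^ n * Real.exp (lam * n)) :=
        mul_le_mul_of_nonneg_right h3 h6.le
    _ = C * Real.exp (3 / m lam - m lam * s + lam * n) * mu ^ n := by rw [Real.exp_add]; ring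
    _ ≤ _ := mul_le_mul_of_nonneg_left (hm.1 n) (by positivity)

/-! ### the choice of the scale -/

lemma lj_pos (j : ℕ) : 0 < lj j := by unfold lj; positivity
lemma lj_le_one (j : ℕ) : lj j ≤ 1 := by
  unfold lj
  exact pow_le_one₀ (by norm_num) (by norm_num)
lemma lj_exp (j : ℕ) : lj j = Real.exp (-((j : ℝ) * Real.log 2)) := by
  unfold lj
  rw [Real.exp_neg, Real.exp_nat_mul, Real.exp_log (by norm_num)]
  simp
lemma mj_eq (j : ℕ) : mj j = lj j * rj j := by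
  unfold rj lj
  rw [← mul_assoc, ← mul_pow]
  norm_num

lemma scale {e0 C0 d : ℝ} (he : 0 < e0) (hC : 0 < C0) (hd : 0 < d) (hd' : d ≤ 1 / 3) (h1 : MLo)
    (hR : ∀ j : ℕ, 1 ≤ j → C0 * (j : ℝ) ^ e0 ≤ rj j) {L : ℝ} (hL1 : 2 ≤ d * L) (hL3 : Real.log 3 ≤ L / 3)
    (hL2 : 3 ≤ C0 * (d / 2) ^ e0 * L ^ (e0 / 2)) :
    ∃ j : ℕ, 3 / mj j - mj j * (Real.exp L / L ^ (e0 / 2)) + lj j * Real.exp L ≤
      - Real.exp ((1 - 3 * d) * L) := by
  have hL : 0 < L := by
    by_contra hneg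
    push Not at hneg
    nlinarith
  have hl2 : 0 < Real.log 2 := Real.log_pos (by norm_num)
  have hl2' : Real.log 2 < 1 := by have := Real.log_two_lt_d9; linarith
  set j := ⌊d * L / Real.log 2⌋₊ with hj
  have hj1 : (j : ℝ) * Real.log 2 ≤ d * L := by
    have := Nat.floor_le (a := d * L / Real.log 2) (by positivity)
    rwa [le_div_iff₀ hl2] at this
  have hj2 : d * L < ((j : ℝ) + 1) * Real.log 2 := by
    have := Nat.lt_floor_add_one (d * L / Real.log 2)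
    rwa [div_lt_iff₀ hl2] at this
  have hj0 : (0 : ℝ) ≤ j := Nat.cast_nonneg _
  have hj3 : d * L < (j : ℝ) + 1 := by nlinarith
  have hj4 : d / 2 * L ≤ j := by nlinarith
  have hj5 : 1 ≤ j := by
    have : (0 : ℝ) < j := by linarith
    exact_mod_cast this
  refine ⟨j, ?_⟩
  have hlj := lj_pos j
  have hmj : lj j ≤ mj j := h1 (lj j) hlj.le
  have hmj0 : 0 < mj j := hlj.trans_le hmj
  -- first term
  have hlexp := lj_exp j
  have a1 : 3 / mj j ≤ 3 * Real.exp (d * L) := by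
    rw [div_le_iff₀ hmj0]
    have h2 : 1 ≤ Real.exp (d * L) * lj j := by
      rw [hlexp, ← Real.exp_add]
      exact Real.one_le_exp (by linarith)
    nlinarith [Real.exp_pos (d * L)]
  -- second term
  have hLp : 0 < L ^ (e0 / 2) := Real.rpow_pos_of_pos hL _
  have a2 : 3 * (lj j * Real.exp L) ≤ mj j * (Real.exp L / L ^ (e0 / 2)) := by
    have h2 : (d / 2) ^ e0 * (L ^ (e0 / 2) * L ^ (e0 / 2)) ≤ (j : ℝ) ^ e0 := by
      rw [← Real.rpow_add hL, add_halves, ← Real.mul_rpow (by positivity) hL.le]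
      exact Real.rpow_le_rpow (by positivity) hj4 he.le
    have h3 : 3 * L ^ (e0 / 2) ≤ rj j := by
      calc 3 * L ^ (e0 / 2) ≤ C0 * (d / 2) ^ e0 * L ^ (e0 / 2) * L ^ (e0 / 2) :=
            mul_le_mul_of_nonneg_right hL2 hLp.le
        _ = C0 * ((d / 2) ^ e0 * (L ^ (e0 / 2) * L ^ (e0 / 2))) := by ring
        _ ≤ C0 * (j : ℝ) ^ e0 := mul_le_mul_of_nonneg_left h2 hC.le
        _ ≤ rj j := hR j hj5
    have h4 : 3 ≤ rj j / L ^ (e0 / 2) := by rwa [le_div_iff₀ hLp]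
    calc 3 * (lj j * Real.exp L) ≤ rj j / L ^ (e0 / 2) * (lj j * Real.exp L) :=
          mul_le_mul_of_nonneg_right h4 (by positivity)
      _ = mj j * (Real.exp L / L ^ (e0 / 2)) := by rw [mj_eq]; ring
  -- the third
  have a3 : Real.exp ((1 - d) * L) ≤ lj j * Real.exp L := by
    rw [hlexp, ← Real.exp_add]
    exact Real.exp_le_exp.2 (by linarith)
  have a4 : 3 * Real.exp (d * L) ≤ Real.exp ((1 - d) * L) := by
    have h2 : Real.exp (Real.log 3) = 3 := Real.exp_log (by norm_num)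
    rw [← h2, ← Real.exp_add]
    refine Real.exp_le_exp.2 ?_
    nlinarith
  have a5 : Real.exp ((1 - 3 * d) * L) ≤ Real.exp ((1 - d) * L) := Real.exp_le_exp.2 (by nlinarith)
  linarith

theorem final_of (hm : MuLe) (h1 : MLo) (hw : HW2) (hr : Rate) : Final := by
  obtain ⟨C2, hC2, hw⟩ := hw
  obtain ⟨e0, C0, he, hC, hR⟩ := hr
  refine ⟨e0 / 2, by positivity, fun eps heps => ?_⟩
  obtain ⟨d, hd, hd', hde⟩ : ∃ d : ℝ, 0 < d ∧ d ≤ 1 / 3 ∧ 3 * d ≤ eps :=
    ⟨min eps 1 / 3, by positivity, by have := min_le_right eps 1; linarith,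
      by have := min_le_left eps 1; linarith⟩
  have hlog : Tendsto (fun n : ℕ => Real.log n) atTop atTop :=
    Real.tendsto_log_atTop.comp tendsto_natCast_atTop_atTop
  have e1 : ∀ᶠ n : ℕ in atTop, 2 / d ≤ Real.log n := hlog.eventually_ge_atTop _
  have e2 : ∀ᶠ n : ℕ in atTop, 3 * Real.log 3 ≤ Real.log n := hlog.eventually_ge_atTop _
  have e3 : ∀ᶠ n : ℕ in atTop, 3 / (C0 * (d / 2) ^ e0) ≤ Real.log n ^ (e0 / 2) :=
    ((tendsto_rpow_atTop (by positivity)).comp hlog).eventually_ge_atTop _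
  obtain ⟨n0, hn0⟩ := eventually_atTop.1 ((e1.and e2).and e3)
  refine ⟨2 * C2 + Real.exp n0, by positivity, fun n hn => ?_⟩
  have hn1 : (1 : ℝ) ≤ n := by exact_mod_cast (by omega : 1 ≤ n)
  have hnp : (0 : ℝ) < n := by linarith
  have hc0 : (0 : ℝ) ≤ c n := Nat.cast_nonneg _
  have hpow : (n : ℝ) ^ (1 - eps) ≤ (n : ℝ) ^ (1 - 3 * d) := Real.rpow_le_rpow_of_exponent_le hn1 (by linarith)
  rcases le_or_gt n0 n with h | h
  · obtain ⟨⟨f1, f2⟩, f3⟩ := hn0 n h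
    have hDp : 0 < C0 * (d / 2) ^ e0 := mul_pos hC (Real.rpow_pos_of_pos (by positivity) _)
    have g1 : 2 ≤ d * Real.log n := by rwa [div_le_iff₀ hd, mul_comm] at f1
    have g3 : 3 ≤ C0 * (d / 2) ^ e0 * Real.log n ^ (e0 / 2) := by
      rwa [div_le_iff₀ hDp, mul_comm] at f3
    obtain ⟨j, hj⟩ := scale he hC hd hd' h1 hR g1 (by linarith) g3
    rw [Real.exp_log hnp] at hj
    have hexp : Real.exp ((1 - 3 * d) * Real.log n) = (n : ℝ) ^ (1 - 3 * d) := by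
      rw [Real.rpow_def_of_pos hnp, mul_comm]
    rw [hexp] at hj
    have hmj0 : 0 ≤ m (lj j) := (lj_pos j).le.trans (h1 (lj j) (lj_pos j).le)
    have h5 := ay_le hm hC2 hw (lj_pos j) (lj_le_one j) hmj0 n (n / (Real.log n) ^ (e0 / 2))
    have h6 : Real.exp (3 / m (lj j) - m (lj j) * (n / (Real.log n) ^ (e0 / 2)) + lj j * n) ≤
        Real.exp (- (n : ℝ) ^ (1 - eps)) := by
      refine Real.exp_le_exp.2 ?_
      have hj' : 3 / m (lj j) - m (lj j) * (n / (Real.log n) ^ (e0 / 2)) + lj j * n ≤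
        -(n : ℝ) ^ (1 - 3 * d) := hj
      linarith
    have h7 : (cFar n (n / (Real.log n) ^ (e0 / 2)) : ℝ) ≤ 2 * (AY n (n / (Real.log n) ^ (e0 / 2))).ncard := by
      exact_mod_cast cfar_le n _
    calc (cFar n (n / (Real.log n) ^ (e0 / 2)) : ℝ) ≤ 2 * (AY n (n / (Real.log n) ^ (e0 / 2))).ncard := h7
      _ ≤ 2 * (C2 * Real.exp (- (n : ℝ) ^ (1 - eps)) * c n) := by
          refine mul_le_mul_of_nonneg_left (h5.trans ?_) (by norm_num)
          exact mul_le_mul_of_nonneg_right (mul_le_mul_of_nonneg_left h6 hC2.le) hc0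
      _ = 2 * C2 * Real.exp (- (n : ℝ) ^ (1 - eps)) * c n := by ring
      _ ≤ (2 * C2 + Real.exp n0) * Real.exp (- (n : ℝ) ^ (1 - eps)) * c n := by
          refine mul_le_mul_of_nonneg_right (mul_le_mul_of_nonneg_right ?_ (Real.exp_pos _).le) hc0
          have := Real.exp_pos (n0 : ℝ)
          linarith
  · have h5 : (cFar n (n / (Real.log n) ^ (e0 / 2)) : ℝ) ≤ c n := by exact_mod_cast cfar_le_c n _
    have h6 : (n : ℝ) ^ (1 - eps) ≤ n0 := by
      calc (n : ℝ) ^ (1 - eps) ≤ (n : ℝ) ^ (1 : ℝ) := Real.rpow_le_rpow_of_exponent_le hn1 (by linarith)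
        _ = n := Real.rpow_one _
        _ ≤ n0 := by exact_mod_cast h.le
    have h7 : 1 ≤ (2 * C2 + Real.exp n0) * Real.exp (- (n : ℝ) ^ (1 - eps)) := by
      have h8 : 1 ≤ Real.exp n0 * Real.exp (- (n : ℝ) ^ (1 - eps)) := by
        rw [← Real.exp_add]
        exact Real.one_le_exp (by linarith)
      have h9 : 0 ≤ 2 * C2 * Real.exp (- (n : ℝ) ^ (1 - eps)) := by positivity
      linarith
    calc (cFar n (n / (Real.log n) ^ (e0 / 2)) : ℝ) ≤ 1 * c n := by rw [one_mul]; exact h5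
      _ ≤ _ := mul_le_mul_of_nonneg_right h7 hc0

end FN

end ZB
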