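import Mathlib
import Pool.Agent.ZB.Fold

/-!
# Unfolding one fold

`unfold_one`: an irreducible bridge cut at a fold of size at most `r` is
`p1 ++ q1 ++ m ++ q2 ++ p2` with `p1, p2` irreducible, `q1, q2` and the flipped `m` bridges of
height at most `r`, and every fold of `p1` or `p2` larger than `r` is a fold of the word.
-/

namespace ZBF

variable {σ : Type*} {h : σ → ℤ}

theorem yy_map {rf : σ → σ} (hrf : ∀ s, h (rf s) = - h s) (w : List σ) (i : ℕ) :
    yy h (w.map rf) i = - yy h w i := by
  unfold yy hh
  rw [← List.map_take, List.map_map]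
  have : h ∘ rf = fun s => - h s := by funext s; exact hrf s
  rw [this]
  generalize w.take i = l
  induction l with
  | nil => simp
  | cons a l ih => simp only [List.map_cons, List.sum_cons, ih]; ring

theorem hh_map {rf : σ → σ} (hrf : ∀ s, h (rf s) = - h s) (w : List σ) :
    hh h (w.map rf) = - hh h w := by
  have := yy_map (h := h) hrf w (w.map rf).length
  rw [yy_length, List.length_map, yy_length] at this
  exact this

section parts

variable {w : List σ} {T B : ℕ}

theorem IsFold.brH_left (hf : IsFold h w T B) (hw : BrH h w) : BrH h (w.take T) := by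
  intro i hi hi2
  have hT := hf.Tle
  rw [List.length_take, min_eq_left hT] at hi2
  rw [yy_take hi2, hh_take]
  exact ⟨(hw i hi (by omega)).1, hf.up i (by have := hf.lt; omega)⟩

theorem IsFold.brH_right (hf : IsFold h w T B) (hw : BrH h w) : BrH h (w.drop B) := by
  intro i hi hi2
  rw [List.length_drop] at hi2
  rw [yy_drop hf.le, hh_drop]
  have h1 := hf.dns (B + i) (by omega) (by omega)
  have h2 := hw.yy_le (i := B + i) (by omega)
  constructor <;> omega

theorem hh_mid (hTB : T ≤ B) (hT : T ≤ w.length) :
    hh h ((w.drop T).take (B - T)) = yy h w B - yy h w T := by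
  rw [hh_take, yy_drop hT]
  congr 2
  omega

theorem IsFold.brH_mid {rf : σ → σ} (hrf : ∀ s, h (rf s) = - h s) (hf : IsFold h w T B) :
    BrH h (((w.drop T).take (B - T)).map rf) := by
  intro i hi hi2
  have hT := hf.Tle
  have hlt := hf.lt
  have hle := hf.le
  rw [List.length_map, List.length_take, List.length_drop] at hi2
  rw [yy_map hrf, hh_map hrf, hh_mid hlt.le hT, yy_take (by omega), yy_drop hT]
  have h1 := hf.ups (T + i) (by omega) (by omega)
  have h2 := hf.dn T (T + i) (by omega) (by omega) rfl
  constructor <;> omega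

end parts

section split

variable {w : List σ} {T B : ℕ}

/-- the cuts of the left part are not below the bottom of the fold -/
theorem IsFold.left_cut (hf : IsFold h w T B) (hw : Irr h w) {p q : List σ}
    (hpq : p ++ q = w.take T) (hp : Irr h p) (hq : BrH h q) : yy h w B ≤ hh h p := by
  by_contra hc
  push Not at hc
  obtain ⟨hne, hbr, hirr⟩ := hw
  have hT := hf.Tle
  have hl : p.length + q.length = T := by
    have := congrArg List.length hpq
    rw [List.length_append, List.length_take, min_eq_left hT] at this
    exact this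
  have hw2 : p ++ (q ++ w.drop T) = w := by
    rw [← List.append_assoc, hpq, List.take_append_drop]
  have hyw : ∀ i, yy h w (p.length + i) = hh h p + yy h (q ++ w.drop T) i := by
    intro i
    have := yy_right (h := h) p (q ++ w.drop T) i
    rwa [hw2] at this
  have hhw : hh h w = hh h p + hh h (q ++ w.drop T) := by
    rw [← hh_append, hw2]
  have hlen : w.length = p.length + (q ++ w.drop T).length := by
    rw [← List.length_append, hw2]
  rcases hirr p (q ++ w.drop T) hw2 hp.2.1 (by
    intro i hi hi2
    have h1 := hyw i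
    have h2 := hbr.yy_le (i := p.length + i) (by omega)
    rcases Nat.lt_or_ge q.length i with h3 | h3
    · have h4 := hf.dn T (p.length + i) (by omega) (by omega) rfl
      constructor <;> omega
    · have h4 := hq i hi h3
      rw [yy_left h3] at h1 ⊢
      constructor
      · exact h4.1
      · omega) with h1 | h1
  · exact hp.1 h1
  · have h2 := congrArg List.length h1
    rw [List.length_append, List.length_drop, List.length_nil] at h2
    have := hf.lt
    have := hf.le
    omega

/-- the cuts of the right part are below the top of the fold -/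
theorem IsFold.right_cut (hf : IsFold h w T B) (hw : Irr h w) {p q : List σ}
    (hpq : q ++ p = w.drop B) (hp : Irr h p) (hq : BrH h q) :
    yy h w B + hh h q < yy h w T := by
  by_contra hc
  push Not at hc
  obtain ⟨hne, hbr, hirr⟩ := hw
  have hT := hf.Tle
  have hle := hf.le
  have hlt := hf.lt
  have hw2 : (w.take B ++ q) ++ p = w := by
    rw [List.append_assoc, hpq, List.take_append_drop]
  have hlt2 : (w.take B).length = B := by rw [List.length_take]; omega
  have hlenq : (w.take B ++ q).length + p.length = w.length := by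
    rw [← List.length_append, hw2]
  have hh1 : hh h (w.take B ++ q) = yy h w B + hh h q := by rw [hh_append, hh_take]
  rcases hirr (w.take B ++ q) p hw2 (by
    intro i hi hi2
    have h0 : yy h w i = yy h (w.take B ++ q) i := by
      have := yy_left (h := h) (a := w.take B ++ q) (b := p) hi2
      rwa [hw2] at this
    rw [hh1]
    rw [← h0]
    refine ⟨(hbr i hi (by omega)).1, ?_⟩
    rcases Nat.lt_or_ge B i with h3 | h3
    · obtain ⟨j, rfl⟩ : ∃ j, i = B + j := ⟨i - B, by omega⟩
      have h4 : yy h (w.take B ++ q) (B + j) = yy h w B + yy h q j := by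
        have := yy_right (h := h) (w.take B) q j
        rwa [hlt2, hh_take] at this
      rw [h0, h4]
      have h5 := hq.yy_le (i := j) (by
        rw [List.length_append, hlt2] at hi2; omega)
      omega
    · have h5 := hf.up i h3
      omega) hp.2.1 with h1 | h1
  · have h2 := congrArg List.length h1
    rw [List.length_append, hlt2, List.length_nil] at h2
    omega
  · exact hp.1 h1

end split

section bigfolds

variable {w : List σ} {T B : ℕ}

theorem IsFold.of_left (hf : IsFold h w T B) {p q : List σ}
    (hpq : p ++ q = w.take T) (hp : BrH h p) (hq : BrH h q)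
    {T' B' : ℕ} (hf' : IsFold h p T' B')
    (hk : yy h w T - yy h w B < yy h p T' - yy h p B') : IsFold h w T' B' := by
  have hT := hf.Tle
  have hlt := hf.lt
  have hle := hf.le
  have hl : p.length + q.length = T := by
    have := congrArg List.length hpq
    rw [List.length_append, List.length_take, min_eq_left hT] at this
    exact this
  have hw2 : p ++ (q ++ w.drop T) = w := by
    rw [← List.append_assoc, hpq, List.take_append_drop]
  have e1 : ∀ i, i ≤ p.length → yy h w i = yy h p i := by
    intro i hi
    have := yy_left (h := h) (a := p) (b := q ++ w.drop T) hi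
    rwa [hw2] at this
  have e2 : ∀ i, i ≤ q.length → yy h w (p.length + i) = hh h p + yy h q i := by
    intro i hi
    have := yy_right (h := h) p (q ++ w.drop T) i
    rw [hw2, yy_left hi] at this
    exact this
  have hhp : hh h p ≤ yy h w T := by
    have h1 : hh h p + hh h q = yy h w T := by rw [← hh_append, hpq, hh_take]
    have := hq.nonneg
    omega
  have ht' : yy h p T' ≤ hh h p := hp.yy_le hf'.Tle
  have hb : yy h p B' < yy h w B := by omega
  have hT'l := hf'.Tle
  have hB'l := hf'.le
  have hlt' := hf'.lt
  have hB'h : yy h p B' ≤ hh h p := hp.yy_le hB'l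
  refine ⟨hf'.lt, by omega, ?_, ?_, ?_, ?_, ?_⟩
  · rw [e1 _ hB'l, e1 _ hT'l]; exact hf'.ylt
  · intro i hi
    rw [e1 _ (by omega), e1 _ hT'l]; exact hf'.up i hi
  · intro i h1 h2
    rw [e1 _ (by omega), e1 _ hT'l]; exact hf'.ups i h1 h2
  · intro j i hji hi hj
    rw [e1 _ hT'l] at hj
    rw [e1 _ hB'l]
    rcases Nat.lt_or_ge p.length i with h1 | h1
    · rcases Nat.lt_or_ge i T with h2 | h2
      · obtain ⟨k, rfl⟩ : ∃ k, i = p.length + k := ⟨i - p.length, by omega⟩
        rw [e2 k (by omega)]
        have := hq.yy_nonneg (i := k) (by omega)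
        omega
      · have := hf.dn T i h2 hi rfl
        omega
    · rw [e1 _ h1]
      rw [e1 _ (by omega)] at hj
      exact hf'.dn j i hji h1 hj
  · intro i hBi hi
    rw [e1 _ hB'l]
    rcases Nat.lt_or_ge p.length i with h1 | h1
    · rcases Nat.lt_or_ge i T with h2 | h2
      · obtain ⟨k, rfl⟩ : ∃ k, i = p.length + k := ⟨i - p.length, by omega⟩
        rw [e2 k (by omega)]
        have := (hq k (by omega) (by omega)).1
        omega
      · have := hf.dn T i h2 hi rfl
        omega
    · rw [e1 _ h1]
      exact hf'.dns i hBi h1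

theorem IsFold.of_right (hf : IsFold h w T B) {p q : List σ}
    (hpq : q ++ p = w.drop B) (hp : BrH h p) (hq : BrH h q)
    {T' B' : ℕ} (hf' : IsFold h p T' B')
    (hk : yy h w T - yy h w B < yy h p T' - yy h p B') :
    IsFold h w (B + q.length + T') (B + q.length + B') := by
  have hT := hf.Tle
  have hlt := hf.lt
  have hle := hf.le
  have hlt2 : (w.take B).length = B := by rw [List.length_take]; omega
  have hw2 : (w.take B ++ q) ++ p = w := by
    rw [List.append_assoc, hpq, List.take_append_drop]
  have hl1 : (w.take B ++ q).length = B + q.length := by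
    rw [List.length_append, hlt2]
  have hlen : B + q.length + p.length = w.length := by
    rw [← hl1, ← List.length_append, hw2]
  have hh1 : hh h (w.take B ++ q) = yy h w B + hh h q := by rw [hh_append, hh_take]
  have e1 : ∀ i, yy h w (B + q.length + i) = yy h w B + hh h q + yy h p i := by
    intro i
    have := yy_right (h := h) (w.take B ++ q) p i
    rwa [hw2, hl1, hh1] at this
  have e2 : ∀ i, i ≤ q.length → yy h w (B + i) = yy h w B + yy h q i := by
    intro i hi
    have h1 := yy_left (h := h) (a := w.take B ++ q) (b := p) (i := B + i) (by omega)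
    have h2 := yy_right (h := h) (w.take B) q i
    rw [hlt2, hh_take] at h2
    rw [hw2] at h1
    rw [h1, h2]
  have hqn := hq.nonneg
  have hB'n : 0 ≤ yy h p B' := hp.yy_nonneg hf'.le
  have hT'l := hf'.Tle
  have hB'l := hf'.le
  have hlt' := hf'.lt
  have hylt' := hf'.ylt
  have hlow : ∀ i, i < B + q.length → yy h w i < yy h w B + hh h q + yy h p T' := by
    intro i hi
    rcases Nat.lt_or_ge B i with h1 | h1
    · obtain ⟨k, rfl⟩ : ∃ k, i = B + k := ⟨i - B, by omega⟩
      rw [e2 k (by omega)]
      have := hq.yy_le (i := k) (by omega)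
      omega
    · have := hf.up i h1
      omega
  refine ⟨by omega, by omega, ?_, ?_, ?_, ?_, ?_⟩
  · rw [e1, e1]; omega
  · intro i hi
    rw [e1]
    rcases Nat.lt_or_ge i (B + q.length) with h1 | h1
    · exact (hlow i h1).le
    · obtain ⟨k, rfl⟩ : ∃ k, i = B + q.length + k := ⟨i - (B + q.length), by omega⟩
      rw [e1]
      have := hf'.up k (by omega)
      omega
  · intro i h1 h2
    obtain ⟨k, rfl⟩ : ∃ k, i = B + q.length + k := ⟨i - (B + q.length), by omega⟩
    rw [e1, e1]
    have := hf'.ups k (by omega) (by omega)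
    omega
  · intro j i hji hi hj
    rw [e1] at hj
    rw [e1]
    have hj2 : B + q.length ≤ j := by
      by_contra hc
      have := hlow j (by omega)
      omega
    obtain ⟨k, rfl⟩ : ∃ k, i = B + q.length + k := ⟨i - (B + q.length), by omega⟩
    obtain ⟨l, rfl⟩ : ∃ l, j = B + q.length + l := ⟨j - (B + q.length), by omega⟩
    rw [e1] at hj
    rw [e1]
    have := hf'.dn l k (by omega) (by omega) (by omega)
    omega
  · intro i hBi hi
    obtain ⟨k, rfl⟩ : ∃ k, i = B + q.length + k := ⟨i - (B + q.length), by omega⟩
    rw [e1, e1]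
    have := hf'.dns k (by omega) (by omega)
    omega

theorem IsFold.Bs_le (hf : IsFold h w T B) {r : ℕ} (hr : fsz h w (T, B) ≤ r)
    {p1 q1 q2 p2 : List σ}
    (h1 : p1 ++ q1 = w.take T) (h2 : q2 ++ p2 = w.drop B) (hp1 : BrH h p1) (hq1 : BrH h q1)
    (hp2 : BrH h p2) (hq2 : BrH h q2) : Bs h r p1 + Bs h r p2 ≤ Bs h r w := by
  classical
  have hk : yy h w T - yy h w B ≤ r := by
    have := IsFold.fsz_cast (p := (T, B)) hf
    simp only at this
    omega
  have hT := hf.Tle
  have hlt := hf.lt
  have hle := hf.le
  have hl1 : p1.length + q1.length = T := by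
    have := congrArg List.length h1
    rw [List.length_append, List.length_take, min_eq_left hT] at this
    exact this
  have hlt2 : (w.take B).length = B := by rw [List.length_take]; omega
  have hw2 : (w.take B ++ q2) ++ p2 = w := by
    rw [List.append_assoc, h2, List.take_append_drop]
  have hl2 : (w.take B ++ q2).length = B + q2.length := by
    rw [List.length_append, hlt2]
  have hw1 : p1 ++ (q1 ++ w.drop T) = w := by
    rw [← List.append_assoc, h1, List.take_append_drop]
  have e1 : ∀ i, i ≤ p1.length → yy h w i = yy h p1 i := by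
    intro i hi
    have := yy_left (h := h) (a := p1) (b := q1 ++ w.drop T) hi
    rwa [hw1] at this
  have e2 : ∀ i, yy h w (B + q2.length + i) = yy h w B + hh h q2 + yy h p2 i := by
    intro i
    have := yy_right (h := h) (w.take B ++ q2) p2 i
    rwa [hw2, hl2, hh_append, hh_take] at this
  set sh : ℕ × ℕ → ℕ × ℕ := fun p => (B + q2.length + p.1, B + q2.length + p.2) with hsh
  have hshi : Function.Injective sh := by
    intro a b hab
    simp only [hsh, Prod.mk.injEq] at hab
    ext <;> omega
  set S1 := (folds h p1).filter (fun p => r < fsz h p1 p) with hS1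
  set S2 := (folds h p2).filter (fun p => r < fsz h p2 p) with hS2
  have m1 : ∀ p ∈ S1, IsFold h p1 p.1 p.2 ∧ r < fsz h p1 p := fun p hp => by
    rw [hS1, Finset.mem_filter, mem_folds] at hp; exact hp
  have m2 : ∀ p ∈ S2, IsFold h p2 p.1 p.2 ∧ r < fsz h p2 p := fun p hp => by
    rw [hS2, Finset.mem_filter, mem_folds] at hp; exact hp
  have z1 : ∀ p ∈ S1, fsz h w p = fsz h p1 p := by
    intro p hp
    have h3 := (m1 p hp).1
    unfold fsz
    rw [e1 _ h3.Tle, e1 _ h3.le]
  have z2 : ∀ p ∈ S2, fsz h w (sh p) = fsz h p2 p := by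
    intro p hp
    unfold fsz
    simp only [hsh]
    rw [e2, e2]
    congr 1
    ring
  have hdis : Disjoint S1 (S2.image sh) := by
    rw [Finset.disjoint_left]
    intro p hp hp2
    rw [Finset.mem_image] at hp2
    obtain ⟨p', hp', rfl⟩ := hp2
    have h3 := (m1 _ hp).1.Tle
    simp only [hsh] at h3
    omega
  have hsub : S1 ∪ S2.image sh ⊆ (folds h w).filter (fun p => r < fsz h w p) := by
    intro p hp
    rw [Finset.mem_union] at hp
    rw [Finset.mem_filter, mem_folds]
    rcases hp with hp | hp
    · obtain ⟨h3, h4⟩ := m1 p hp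
      refine ⟨hf.of_left h1 hp1 hq1 h3 ?_, by rw [z1 p hp]; exact h4⟩
      have := h3.fsz_cast
      omega
    · rw [Finset.mem_image] at hp
      obtain ⟨p', hp', rfl⟩ := hp
      obtain ⟨h3, h4⟩ := m2 p' hp'
      refine ⟨hf.of_right h2 hp2 hq2 h3 ?_, by rw [z2 p' hp']; exact h4⟩
      have := h3.fsz_cast
      omega
  calc Bs h r p1 + Bs h r p2 = ∑ p ∈ S1, fsz h w p + ∑ p ∈ S2, fsz h w (sh p) := by
        rw [Finset.sum_congr rfl z1, Finset.sum_congr rfl z2]
        rfl
    _ = ∑ p ∈ S1 ∪ S2.image sh, fsz h w p := by
        rw [Finset.sum_union hdis, Finset.sum_image (fun a _ b _ hab => hshi hab)]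
    _ ≤ Bs h r w := Finset.sum_le_sum_of_subset hsub

end bigfolds

section one

/-- cutting at a fold of size at most `r` -/
theorem unfold_one (h : σ → ℤ) {rf : σ → σ} (hrf : ∀ s, h (rf s) = - h s) {w : List σ}
    (hw : Irr h w) {T B : ℕ} (hf : IsFold h w T B) {r : ℕ} (hr : fsz h w (T, B) ≤ r) :
    ∃ p1 q1 m q2 p2 : List σ, p1 ++ q1 ++ m ++ q2 ++ p2 = w ∧ (p1 ++ q1).length = T ∧
      m.length = B - T ∧ Irr h p1 ∧ Irr h p2 ∧ BrH h q1 ∧ BrH h q2 ∧ BrH h (m.map rf) ∧
      hh h q1 ≤ r ∧ hh h q2 ≤ r ∧ 0 < hh h (m.map rf) ∧ hh h (m.map rf) ≤ r ∧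
      hh h p1 ≤ hh h w ∧ hh h p2 ≤ hh h w ∧
      hh h w = hh h p1 + hh h q1 - hh h (m.map rf) + hh h q2 + hh h p2 ∧
      Bs h r p1 + Bs h r p2 ≤ Bs h r w := by
  have hT := hf.Tle
  have hlt := hf.lt
  have hle := hf.le
  have hylt := hf.ylt
  have hk : yy h w T - yy h w B ≤ r := by
    have := IsFold.fsz_cast (p := (T, B)) hf
    simp only at this
    omega
  have ha := hf.brH_left hw.2.1
  have hc := hf.brH_right hw.2.1
  have hT0 : 0 < T := by
    by_contra h0
    have : T = 0 := by omega
    have h1 := hf.ylt
    rw [this, yy_zero] at h1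
    have := hw.2.1.yy_nonneg hle
    omega
  have hBl : B < w.length := by
    by_contra h0
    have : B = w.length := by omega
    have h1 := hf.ylt
    rw [this, yy_length] at h1
    have := hw.2.1.yy_le hT
    omega
  have hla : (w.take T).length = T := by rw [List.length_take]; omega
  have hlc : (w.drop B).length = w.length - B := List.length_drop
  obtain ⟨p1, q1, hpq1, hp1, hq1⟩ := exists_first T (w.take T) hla
    (by intro h0; rw [h0, List.length_nil] at hla; omega) ha
  obtain ⟨q2, p2, hpq2, hp2, hq2⟩ := exists_last (w.length - B) (w.drop B) hlc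
    (by intro h0; rw [h0, List.length_nil] at hlc; omega) hc
  have c1 := hf.left_cut hw hpq1 hp1 hq1
  have c2 := hf.right_cut hw hpq2 hp2 hq2
  have s1 : hh h p1 + hh h q1 = yy h w T := by rw [← hh_append, hpq1, hh_take]
  have s2 : hh h q2 + hh h p2 = hh h w - yy h w B := by rw [← hh_append, hpq2, hh_drop]
  have s3 : hh h (((w.drop T).take (B - T)).map rf) = yy h w T - yy h w B := by
    rw [hh_map hrf, hh_mid hlt.le hT]; ring
  have n1 := hq1.nonneg
  have n2 := hq2.nonneg
  have n3 := hw.2.1.yy_le hT
  have n4 := hw.2.1.yy_nonneg hle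
  refine ⟨p1, q1, (w.drop T).take (B - T), q2, p2, ?_, ?_, ?_, hp1, hp2, hq1, hq2,
    hf.brH_mid hrf, by omega, by omega, by omega, by omega, by omega, by omega, by omega,
    hf.Bs_le hr hpq1 hpq2 hp1.2.1 hq1 hp2.2.1 hq2⟩
  · rw [hpq1, List.append_assoc _ q2 p2, hpq2]
    have h3 : (w.drop T).take (B - T) ++ w.drop B = w.drop T := by
      have h4 := List.take_append_drop (B - T) (w.drop T)
      rw [List.drop_drop, show T + (B - T) = B by omega] at h4
      exact h4
    rw [List.append_assoc, h3, List.take_append_drop]
  · rw [hpq1, hla]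
  · rw [List.length_take, List.length_drop]
    omega

end one

end ZBF
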