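import Pool.Agent.ZB.Basic

/-!
# ZB, row D1 (helper69): the mass of the corner pieces

* `sig` : the reflection of a bridge which exchanges its two ends (`U w ↦ U (dag w)`), a bijection of `Bn n`;
* **`massF_of`** : `MassF`: three independent bridges, the rightmost point is in the middle one, cut there.
-/

open MeasureTheory Set Filter
open scoped ENNReal Topology

namespace ZB

namespace MF

/-! ### the reflection -/

/-- the reflection of a bridge which exchanges its two ends -/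
def sig : Wd → Wd
  | [] => []
  | s :: w => s :: dag w

lemma sig_nil : sig [] = [] := rfl

lemma sig_cons (s : St) (w : Wd) : sig (s :: w) = s :: dag w := rfl

lemma sig_length (w : Wd) : (sig w).length = w.length := by
  cases w with
  | nil => rfl
  | cons s w => simp [sig_cons]

lemma sig_sig (w : Wd) : sig (sig w) = w := by
  cases w with
  | nil => rfl
  | cons s w => simp [sig_cons]

lemma up_cases {w : Wd} (h : Up w) : w = [] ∨ ∃ w', w = .U :: w' := by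
  cases w with
  | nil => exact Or.inl rfl
  | cons s w =>
    right
    have h1 := h [s] ⟨w, rfl⟩ (by simp)
    cases s <;> simp [dy] at h1
    exact ⟨w, rfl⟩

lemma sig_append {v w : Wd} (hv : Up v) (hw : Up w) : sig (v ++ w) = sig w ++ sig v := by
  rcases up_cases hv with rfl | ⟨v', rfl⟩
  · simp [sig_nil]
  rcases up_cases hw with rfl | ⟨w', rfl⟩
  · simp [sig_nil]
  show St.U :: dag (v' ++ .U :: w') = (.U :: dag w') ++ (.U :: dag v')
  simp [dag, fL]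

lemma dag_pre {v w : Wd} (h : v <+: w) : dag v <:+ dag w := by
  obtain ⟨t, rfl⟩ := h
  exact ⟨dag t, (dag_append v t).symm⟩

lemma dag_suf {v w : Wd} (h : v <:+ w) : dag v <+: dag w := by
  obtain ⟨t, rfl⟩ := h
  exact ⟨dag t, (dag_append t v).symm⟩

lemma dag_inf {v w : Wd} (h : v <:+: w) : dag v <:+: dag w := by
  obtain ⟨s, t, rfl⟩ := h
  exact ⟨dag t, dag s, by simp⟩

lemma of_dag_pre {v w : Wd} (h : v <+: dag w) : ∃ s, s <:+ w ∧ v = dag s :=
  ⟨dag v, by have := dag_pre h; rwa [dag_dag] at this, (dag_dag v).symm⟩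

lemma of_dag_suf {v w : Wd} (h : v <:+ dag w) : ∃ s, s <+: w ∧ v = dag s :=
  ⟨dag v, by have := dag_suf h; rwa [dag_dag] at this, (dag_dag v).symm⟩

lemma of_dag_inf {v w : Wd} (h : v <:+: dag w) : ∃ s, s <:+: w ∧ v = dag s :=
  ⟨dag v, by have := dag_inf h; rwa [dag_dag] at this, (dag_dag v).symm⟩

lemma br_sig {w : Wd} (h : Br w) : Br (sig w) := by
  rcases up_cases h.2.1 with rfl | ⟨w', rfl⟩
  · exact h
  have hsuf : ∀ s, s <:+ w' → 0 ≤ Y s := fun s hs => h.2.2 s (hs.trans (List.suffix_cons _ _))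
  have hpre : ∀ p, p <+: w' → 0 ≤ Y p := by
    intro p hp
    have h1 := h.2.1 (.U :: p) (List.cons_prefix_cons.2 ⟨rfl, hp⟩) (by simp)
    rw [Y_cons] at h1
    have h2 : dy .U = 1 := rfl
    omega
  have hsa : SA w' := SA.right (v := [.U]) h.1
  have hU : dy .U = 1 := rfl
  refine ⟨?_, ?_, ?_⟩
  · have e : sig (.U :: w') = [.U] ++ dag w' := rfl
    rw [e]
    refine SA_append (SA.left (v := [.U]) (w := w') h.1) (SA_dag.2 hsa) ?_
    intro s p hs hp hs' hp' h0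
    obtain ⟨q, hq, rfl⟩ := of_dag_pre hp'
    have h1 : s = [.U] := by
      rcases List.suffix_cons_iff.1 hs' with h2 | h2
      · exact h2
      · exact absurd (List.suffix_nil.1 h2) hs
    have h2 := hsuf q hq
    have h3 := h0.2
    rw [h1, Y_cons, Y_nil, Y_dag] at h3
    omega
  · intro v hv h0
    cases v with
    | nil => exact absurd rfl h0
    | cons s v =>
      obtain ⟨h1, h2⟩ := List.cons_prefix_cons.1 hv
      obtain ⟨q, hq, rfl⟩ := of_dag_pre h2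
      have h3 := hsuf q hq
      rw [h1, Y_cons, Y_dag]
      omega
  · intro v hv
    rcases List.suffix_cons_iff.1 (show v <:+ .U :: dag w' from hv) with h1 | h1
    · have h3 := hpre w' (List.prefix_refl _)
      rw [h1, Y_cons, Y_dag]
      omega
    · obtain ⟨q, hq, rfl⟩ := of_dag_suf h1
      rw [Y_dag]
      exact hpre q hq

lemma ir_sig {w : Wd} (h : Ir w) : Ir (sig w) := by
  refine ⟨?_, br_sig h.br, ?_⟩
  · intro h0
    have h1 := congrArg List.length h0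
    rw [sig_length] at h1
    exact h.ne (List.length_eq_zero_iff.1 h1)
  · intro u v huv hu hv
    have h1 : w = sig v ++ sig u := by
      rw [← sig_append hu.2.1 hv.2.1, ← huv, sig_sig]
    rcases h.2.2 _ _ h1 (br_sig hv) (br_sig hu) with h2 | h2
    · right
      have h3 := congrArg List.length h2
      rw [sig_length] at h3
      exact List.length_eq_zero_iff.1 h3
    · left
      have h3 := congrArg List.length h2
      rw [sig_length] at h3
      exact List.length_eq_zero_iff.1 h3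

lemma br_flatten {l : List Wd} (h : ∀ g ∈ l, Ir g) : Br l.flatten := Br.flatten fun g hg => (h g hg).br

lemma sig_flatten {l : List Wd} (h : ∀ g ∈ l, Ir g) : sig l.flatten = (l.reverse.map sig).flatten := by
  induction l with
  | nil => rfl
  | cons g l ih =>
    have hl : ∀ g' ∈ l, Ir g' := fun g' hg' => h g' (List.mem_cons_of_mem _ hg')
    rw [List.flatten_cons, sig_append (h g List.mem_cons_self).br.2.1 (br_flatten hl).2.1, ih hl]
    simp

lemma sig_Bn {n : ℕ} {w : Wd} (h : w ∈ Bn n) : sig w ∈ Bn n := by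
  obtain ⟨l, ⟨hl, hg⟩, rfl⟩ := h
  refine ⟨l.reverse.map sig, ⟨by simp [hl], fun g hg' => ?_⟩, (sig_flatten hg).symm⟩
  obtain ⟨g', h1, rfl⟩ := List.mem_map.1 hg'
  exact ir_sig (hg g' (List.mem_reverse.1 h1))

lemma Bn_br {n : ℕ} {w : Wd} (h : w ∈ Bn n) : Br w := by
  obtain ⟨l, ⟨-, hg⟩, rfl⟩ := h
  exact br_flatten hg

/-! ### the extent to the right -/

/-- the path reaches `k` to the right of its start -/
def RG (k : ℕ) : Set Wd := {w | ∃ v, v <+: w ∧ (k : ℤ) ≤ X v}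

/-- the path reaches `k` to the right of its end -/
def RE (k : ℕ) : Set Wd := {w | ∃ v, v <:+ w ∧ (k : ℤ) ≤ - X v}

lemma sig_RG {w : Wd} (hw : Up w) {k : ℕ} (h : w ∈ RG k) : sig w ∈ RE k := by
  obtain ⟨v, hv, hk⟩ := h
  cases v with
  | nil => exact ⟨[], List.nil_suffix, by simpa using hk⟩
  | cons s v =>
    rcases up_cases hw with rfl | ⟨w', rfl⟩
    · exact absurd (List.prefix_nil.1 hv) (by simp)
    obtain ⟨h1, h2⟩ := List.cons_prefix_cons.1 hv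
    refine ⟨dag v, (dag_pre h2).trans (List.suffix_cons _ _), ?_⟩
    rw [h1, X_cons] at hk
    have hU : dx .U = 0 := rfl
    rw [X_dag]
    omega

lemma sig_RE {w : Wd} (hw : Up w) {k : ℕ} (h : w ∈ RE k) : sig w ∈ RG k := by
  obtain ⟨v, hv, hk⟩ := h
  have hU : dx .U = 0 := rfl
  rcases up_cases hw with rfl | ⟨w', rfl⟩
  · rw [List.suffix_nil.1 hv] at hk
    exact ⟨[], List.nil_prefix, by simpa using hk⟩
  rcases List.suffix_cons_iff.1 hv with h1 | h2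
  · refine ⟨sig (.U :: w'), List.prefix_refl _, ?_⟩
    rw [h1, X_cons] at hk
    rw [sig_cons, X_cons, X_dag]
    omega
  · refine ⟨.U :: dag v, List.cons_prefix_cons.2 ⟨rfl, dag_suf h2⟩, ?_⟩
    rw [X_cons, X_dag]
    omega

lemma mass_RE (n k : ℕ) : Ms 0 (Bn n ∩ RE k) = Ms 0 (Bn n ∩ RG k) := by
  refine Ms_invol 0 sig ?_ ?_ sig_length sig_sig
  · rintro w ⟨h1, h2⟩
    exact ⟨sig_Bn h1, sig_RE (Bn_br h1).2.1 h2⟩
  · rintro w ⟨h1, h2⟩
    exact ⟨sig_Bn h1, sig_RG (Bn_br h1).2.1 h2⟩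

/-! ### masses of sets of bridges with `n` pieces -/

lemma pr_univ (hP : Prob) (n : ℕ) : pr P n univ = 1 := by
  induction n with
  | zero => simp [pr]
  | succ n ih =>
    show ∫⁻ g, pr P n {l | g :: l ∈ univ} ∂P = 1
    have h1 : ∀ g : Wd, {l : List Wd | g :: l ∈ (univ : Set (List Wd))} = univ := by
      intro g
      ext
      simp
    simp only [h1, ih, lintegral_one]
    exact hP

lemma mass_Bn (hP : Prob) (hE : PrEq) (n : ℕ) : Ms 0 (Bn n) = 1 := by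
  rw [← pr_univ hP n, hE n univ, univ_inter]
  rfl

/-- the probability of a set of bridges -/
noncomputable def Mr (n : ℕ) (A : Set Wd) : ℝ := (Ms 0 (Bn n ∩ A)).toReal

section

variable {n : ℕ} (h1 : Ms 0 (Bn n) = 1)

include h1

lemma fin_Ms (A : Set Wd) : Ms 0 (Bn n ∩ A) ≠ ⊤ :=
  ne_top_of_le_ne_top ENNReal.one_ne_top ((Ms_mono 0 inter_subset_left).trans h1.le)

lemma Mr_mono {A B : Set Wd} (h : ∀ w ∈ Bn n, w ∈ A → w ∈ B) : Mr n A ≤ Mr n B :=
  ENNReal.toReal_mono (fin_Ms h1 B) (Ms_mono 0 fun w hw => ⟨hw.1, h w hw.1 hw.2⟩)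

lemma Mr_compl (A : Set Wd) : Mr n Aᶜ = 1 - Mr n A := by
  have h2 := Ms_diff 0 (inter_subset_left : Bn n ∩ A ⊆ Bn n)
  rw [h1] at h2
  have e : Bn n \ (Bn n ∩ A) = Bn n ∩ Aᶜ := by
    ext w
    simp only [Set.mem_sdiff, mem_inter_iff, mem_compl_iff]
    tauto
  rw [e] at h2
  have h3 := congrArg ENNReal.toReal h2
  rw [ENNReal.toReal_add (fin_Ms h1 A) (fin_Ms h1 _), ENNReal.toReal_one] at h3
  unfold Mr
  linarith

lemma Mr_union (A B : Set Wd) : Mr n (A ∪ B) ≤ Mr n A + Mr n B := by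
  unfold Mr
  rw [← ENNReal.toReal_add (fin_Ms h1 A) (fin_Ms h1 B), inter_union_distrib_left]
  exact ENNReal.toReal_mono (ENNReal.add_ne_top.2 ⟨fin_Ms h1 A, fin_Ms h1 B⟩) (Ms_union_le 0 _ _)

lemma Mr_inter (A B : Set Wd) : Mr n A + Mr n B - 1 ≤ Mr n (A ∩ B) := by
  have h2 := Mr_union h1 Aᶜ Bᶜ
  rw [Mr_compl h1 A, Mr_compl h1 B, ← compl_inter, Mr_compl h1] at h2
  linarith

/-- the quantile -/
lemma exists_q : ∃ q : ℕ, 3 / 4 ≤ Mr n (RG q) ∧ Mr n (RG (q + 1)) < 3 / 4 := by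
  classical
  have hex : ∃ k, Mr n (RG k) < 3 / 4 := by
    obtain ⟨f, hf⟩ : ∃ f : Wd → ℝ≥0∞, f = (Bn n).indicator (wt 0) := ⟨_, rfl⟩
    have hs : ∑' w, f w ≠ ⊤ := by
      rw [hf]
      show Ms 0 (Bn n) ≠ ⊤
      rw [h1]
      exact ENNReal.one_ne_top
    have h2 := ENNReal.tendsto_tsum_compl_atTop_zero hs
    obtain ⟨s, hs2⟩ := (h2.eventually (gt_mem_nhds (show (0 : ℝ≥0∞) < ENNReal.ofReal (3 / 4) by
      rw [ENNReal.ofReal_pos]; norm_num))).exists
    refine ⟨s.sup List.length + 1, ?_⟩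
    have h3 : Ms 0 (Bn n ∩ RG (s.sup List.length + 1)) ≤ ∑' b : {x // x ∉ s}, f b := by
      rw [Ms_eq_tsum_subtype]
      have hmem : ∀ w : Wd, w ∈ Bn n ∩ RG (s.sup List.length + 1) → w ∉ s := by
        rintro w ⟨-, v, hv, hk⟩ hws
        have h4 : w.length ≤ s.sup List.length := Finset.le_sup (f := List.length) hws
        have h5 := X_le v
        have h6 := hv.length_le
        push_cast at hk
        omega
      have h7 : ∀ w : (Bn n ∩ RG (s.sup List.length + 1) : Set Wd),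
          wt 0 w.1 = (fun b : {x // x ∉ s} => f b.1) ⟨w.1, hmem w.1 w.2⟩ := by
        intro w
        rw [hf]
        simp only
        rw [indicator_of_mem w.2.1]
      rw [tsum_congr h7]
      exact ENNReal.tsum_comp_le_tsum_of_injective
        (f := fun w : (Bn n ∩ RG (s.sup List.length + 1) : Set Wd) => (⟨w.1, hmem w.1 w.2⟩ : {x // x ∉ s}))
        (fun v w h => Subtype.ext (congrArg (fun z : {x // x ∉ s} => z.1) h)) _
    have h4 := lt_of_le_of_lt h3 hs2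
    have h5 := (ENNReal.toReal_lt_toReal (fin_Ms h1 _) ENNReal.ofReal_ne_top).2 h4
    rwa [ENNReal.toReal_ofReal (by norm_num)] at h5
  have h0 : Mr n (RG 0) = 1 := by
    have e : Bn n ∩ RG 0 = Bn n := by
      refine inter_eq_left.2 fun w _ => ⟨[], List.nil_prefix, by simp⟩
    unfold Mr
    rw [e, h1, ENNReal.toReal_one]
  have hk := Nat.find_spec hex
  have hk0 : Nat.find hex ≠ 0 := by
    intro hc
    rw [hc, h0] at hk
    norm_num at hk
  refine ⟨Nat.find hex - 1, ?_, ?_⟩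
  · exact not_lt.1 (Nat.find_min hex (m := Nat.find hex - 1) (by omega))
  · rw [show Nat.find hex - 1 + 1 = Nat.find hex by omega]
    exact hk

end

/-! ### good lists of pieces -/

lemma sm_Hf (l : List Wd) : sm Hf l = (Y l.flatten : ℝ) := by
  induction l with
  | nil => simp [sm]
  | cons g l ih =>
    unfold sm at ih ⊢
    rw [List.map_cons, List.sum_cons, ih, List.flatten_cons, Y_append]
    push_cast
    rfl

lemma sm_Df (l : List Wd) : sm Df l = (X l.flatten : ℝ) := by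
  induction l with
  | nil => simp [sm]
  | cons g l ih =>
    unfold sm at ih ⊢
    rw [List.map_cons, List.sum_cons, ih, List.flatten_cons, X_append]
    push_cast
    rfl

lemma prefix_flatten (l : List Wd) : ∀ p, p <+: l.flatten →
    p = [] ∨ ∃ l1 g v, (l1 ++ [g]) <+: l ∧ v <+: g ∧ p = l1.flatten ++ v := by
  induction l with
  | nil => exact fun p hp => Or.inl (List.prefix_nil.1 hp)
  | cons g l ih =>
    intro p hp
    rw [List.flatten_cons] at hp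
    rcases prefix_append_cases hp with h1 | ⟨y, hy, hy2, rfl⟩
    · exact Or.inr ⟨[], g, p, ⟨l, rfl⟩, h1, rfl⟩
    · rcases ih y hy2 with h2 | ⟨l1, g', v, h3, h4, rfl⟩
      · exact absurd h2 hy
      · refine Or.inr ⟨g :: l1, g', v, ?_, h4, by simp⟩
        rw [List.cons_append]
        exact List.cons_prefix_cons.2 ⟨rfl, h3⟩

/-- the facts of a good bridge -/
structure Gd (eta t : ℝ) (w : Wd) : Prop where
  br : Br w
  lo : t / 10 ≤ (Y w : ℝ)
  hi : (Y w : ℝ) ≤ 100 * t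
  bd : ∀ p, p <+: w → |(X p : ℝ)| ≤ eta * t

lemma gd_of {eta t : ℝ} (he : 0 < eta) (ht : 0 < t) {l : List Wd} (hl : ∀ g ∈ l, Ir g)
    (h : l ∈ GoodT Hf Wf Df eta t) : Gd eta t l.flatten := by
  obtain ⟨h1, h2, h3⟩ := h
  rw [sm_Hf] at h1 h2
  refine ⟨br_flatten hl, h1, h2, fun p hp => ?_⟩
  rcases prefix_flatten l p hp with rfl | ⟨l1, g, v, h4, h5, rfl⟩
  · simp
    positivity
  · have h6 := h3 l1 g h4
    rw [sm_Df] at h6
    have h7 := abs_le_wid h5.isInfix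
    have h8 : |(X v : ℝ)| ≤ Wf g := by
      unfold Wf
      exact_mod_cast h7
    rw [X_append]
    push_cast
    exact (abs_add_le _ _).trans (by linarith)

/-- good bridges with `n` pieces -/
def GS (eta t : ℝ) (n : ℕ) : Set Wd := List.flatten '' (GoodT Hf Wf Df eta t ∩ IL n)

lemma mass_GS (hE : PrEq) {n : ℕ} (h1 : Ms 0 (Bn n) = 1) {eta t : ℝ}
    (h : pr P n (GoodT Hf Wf Df eta t)ᶜ ≤ ENNReal.ofReal 0.001) : 0.999 ≤ Mr n (GS eta t n) := by
  have h2 : Mr n (GS eta t n)ᶜ ≤ 0.001 := by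
    refine ENNReal.toReal_le_of_le_ofReal (by norm_num) (le_trans (Ms_mono 0 ?_) ((hE n _).symm.le.trans h))
    rintro w ⟨⟨l, hl, rfl⟩, hw⟩
    exact ⟨l, ⟨fun hc => hw ⟨l, ⟨hc, hl⟩, rfl⟩, hl⟩, rfl⟩
  rw [Mr_compl h1] at h2
  linarith

/-! ### the cut at the rightmost point -/

lemma exists_cut (w : Wd) : ∃ b1 b2, w = b1 ++ b2 ∧ ∀ p, p <+: w → X p ≤ X b1 := by
  obtain ⟨i, -, hi⟩ := Finset.exists_max_image (Finset.range (w.length + 1)) (fun i => X (w.take i)) ⟨0, by simp⟩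
  refine ⟨w.take i, w.drop i, (List.take_append_drop i w).symm, fun p hp => ?_⟩
  have h1 : p = w.take p.length := List.prefix_iff_eq_take.1 hp
  have h2 := hi p.length (by
    rw [Finset.mem_range]
    have := hp.length_le
    omega)
  rw [h1]
  exact h2

section

variable {eta t : ℝ} {A B C b1 b2 : Wd} {q : ℕ}

/-- bounds for the three bridges together -/
lemma tri (he : 0 < eta) (ht : 0 < t) (hA : Gd eta t A) (hB : Gd eta t B) (hC : Gd eta t C) {v : Wd}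
    (hv : v <:+: A ++ (B ++ C)) : |(X v : ℝ)| ≤ 6 * eta * t ∧ |(Y v : ℝ)| ≤ 300 * t := by
  have hbr : Br (A ++ (B ++ C)) := hA.br.append (hB.br.append hC.br)
  have het : 0 < eta * t := by positivity
  have hX : ∀ p, p <+: A ++ (B ++ C) → |(X p : ℝ)| ≤ 3 * (eta * t) := by
    intro p hp
    rcases prefix_append_cases hp with h1 | ⟨y, hy, hy2, rfl⟩
    · have := hA.bd p h1
      linarith
    · have h2 := hA.bd A (List.prefix_refl _)
      rcases prefix_append_cases hy2 with h1 | ⟨z, hz, hz2, rfl⟩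
      · have h3 := hB.bd y h1
        rw [X_append]
        push_cast
        exact (abs_add_le _ _).trans (by linarith)
      · have h3 := hB.bd B (List.prefix_refl _)
        have h4 := hC.bd z hz2
        rw [X_append, X_append]
        push_cast
        refine (abs_add_le _ _).trans ?_
        have := abs_add_le (X B : ℝ) (X z : ℝ)
        linarith
  have hYt : (Y (A ++ (B ++ C)) : ℝ) ≤ 300 * t := by
    rw [Y_append, Y_append]
    push_cast
    have h1 := hA.hi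
    have h2 := hB.hi
    have h3 := hC.hi
    linarith
  have hY : ∀ p, p <+: A ++ (B ++ C) → 0 ≤ (Y p : ℝ) ∧ (Y p : ℝ) ≤ 300 * t := by
    intro p hp
    refine ⟨by exact_mod_cast hbr.2.1.nonneg hp, ?_⟩
    refine le_trans ?_ hYt
    exact_mod_cast hbr.2.2.le hp
  obtain ⟨s, r, hsr⟩ := hv
  have hs : s <+: A ++ (B ++ C) := ⟨v ++ r, by rw [← hsr]; simp⟩
  have hsv : s ++ v <+: A ++ (B ++ C) := ⟨r, hsr⟩
  have x1 := abs_le.1 (hX s hs)
  have x2 := abs_le.1 (hX _ hsv)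
  have y1 := hY s hs
  have y2 := hY _ hsv
  rw [X_append] at x2
  rw [Y_append] at y2
  push_cast at x2 y2
  constructor
  · rw [abs_le]
    constructor <;> linarith
  · rw [abs_le]
    constructor <;> linarith

/-- the first half -/
lemma half1 (he : 0 < eta) (ht : 0 < t) (hA : Gd eta t A) (hB : Gd eta t B) (hC : Gd eta t C) (hb : B = b1 ++ b2)
    (hm : ∀ p, p <+: B → X p ≤ X b1) (hq1 : A ∉ RE (q + 1)) (hq2 : B ∈ RG q) : A ++ b1 ∈ FS eta t := by
  have hbr : Br (A ++ (B ++ C)) := hA.br.append (hB.br.append hC.br)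
  have hpre : A ++ b1 <+: A ++ (B ++ C) := ⟨b2 ++ C, by rw [hb]; simp⟩
  have hXb : (q : ℤ) ≤ X b1 := by
    obtain ⟨v, hv, hk⟩ := hq2
    exact hk.trans (hm v hv)
  have hYb : 0 ≤ Y b1 := hB.br.2.1.nonneg ⟨b2, hb.symm⟩
  refine ⟨hbr.1.ifx hpre.isInfix, fun v hv => hbr.2.1.nonneg (hv.trans hpre), fun v hv => ?_, ?_, fun v hv => ?_⟩
  · rcases suffix_append_cases hv with h1 | ⟨y, hy, hy2, rfl⟩
    · obtain ⟨p, hp⟩ := h1
      have h2 := hm p ⟨v ++ b2, by rw [hb, ← hp]; simp⟩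
      have h3 := congrArg X hp
      rw [X_append] at h3
      omega
    · have h2 : ¬ ((q + 1 : ℕ) : ℤ) ≤ - X y := fun hc => hq1 ⟨y, hy2, hc⟩
      rw [X_append]
      push_cast at h2
      omega
  · rw [Y_append]
    push_cast
    have h1 := hA.lo
    have h2 : (0 : ℝ) ≤ Y b1 := by exact_mod_cast hYb
    linarith
  · exact tri he ht hA hB hC (hv.trans hpre.isInfix)

/-- the second half -/
lemma half2 (he : 0 < eta) (ht : 0 < t) (hA : Gd eta t A) (hB : Gd eta t B) (hC : Gd eta t C) (hb : B = b1 ++ b2)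
    (hm : ∀ p, p <+: B → X p ≤ X b1) (hq1 : C ∉ RG (q + 1)) (hq2 : B ∈ RE q) : dag (b2 ++ C) ∈ FS eta t := by
  have hbr : Br (A ++ (B ++ C)) := hA.br.append (hB.br.append hC.br)
  have hsuf : b2 ++ C <:+ A ++ (B ++ C) := ⟨A ++ b1, by rw [hb]; simp⟩
  have hXb : (q : ℤ) ≤ - X b2 := by
    obtain ⟨v, hv, hk⟩ := hq2
    obtain ⟨p, hp⟩ := hv
    have h1 := hm p ⟨v, hp⟩
    have h2 := congrArg X hp
    have h3 := congrArg X hb
    rw [X_append] at h2 h3
    omega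
  have hYb : 0 ≤ Y b2 := hB.br.2.2 b2 ⟨b1, hb.symm⟩
  refine ⟨SA_dag.2 (hbr.1.ifx hsuf.isInfix), fun v hv => ?_, fun v hv => ?_, ?_, fun v hv => ?_⟩
  · obtain ⟨s, hs, rfl⟩ := of_dag_pre hv
    rw [Y_dag]
    exact hbr.2.2 s (hs.trans hsuf)
  · obtain ⟨s, hs, rfl⟩ := of_dag_suf hv
    rw [X_dag]
    rcases prefix_append_cases hs with h1 | ⟨y, hy, hy2, rfl⟩
    · obtain ⟨r, hr⟩ := h1
      have h2 := hm (b1 ++ s) ⟨r, by rw [hb, ← hr]; simp⟩
      rw [X_append] at h2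
      omega
    · have h2 : ¬ ((q + 1 : ℕ) : ℤ) ≤ X y := fun hc => hq1 ⟨y, hy2, hc⟩
      rw [X_append]
      push_cast at h2
      omega
  · rw [Y_dag, Y_append]
    push_cast
    have h1 := hC.lo
    have h2 : (0 : ℝ) ≤ Y b2 := by exact_mod_cast hYb
    linarith
  · obtain ⟨s, hs, rfl⟩ := of_dag_inf hv
    have h1 := tri he ht hA hB hC (hs.trans hsuf.isInfix)
    rw [X_dag, Y_dag]
    push_cast
    rwa [abs_neg]

end

/-! ### the product -/

lemma decode (hU : Uniq) {n : ℕ} {A B C A' B' C' : Wd} (hA : A ∈ Bn n) (hB : B ∈ Bn n) (hC : C ∈ Bn n)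
    (hA' : A' ∈ Bn n) (hB' : B' ∈ Bn n) (hC' : C' ∈ Bn n) (h : A ++ (B ++ C) = A' ++ (B' ++ C')) :
    A = A' ∧ B = B' ∧ C = C' := by
  obtain ⟨a, ⟨ha, ha2⟩, rfl⟩ := hA
  obtain ⟨b, ⟨hb, hb2⟩, rfl⟩ := hB
  obtain ⟨c, ⟨hc, hc2⟩, rfl⟩ := hC
  obtain ⟨a', ⟨ha', ha2'⟩, rfl⟩ := hA'
  obtain ⟨b', ⟨hb', hb2'⟩, rfl⟩ := hB'
  obtain ⟨c', ⟨hc', hc2'⟩, rfl⟩ := hC'
  have h1 : (a ++ (b ++ c)).flatten = (a' ++ (b' ++ c')).flatten := by simpa using h
  have h2 := hU (n + (n + n)) (n + (n + n)) (a ++ (b ++ c)) ⟨by simp [ha, hb, hc], fun g hg => by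
    rcases List.mem_append.1 hg with h | h
    · exact ha2 g h
    rcases List.mem_append.1 h with h | h
    · exact hb2 g h
    · exact hc2 g h⟩ (a' ++ (b' ++ c')) ⟨by simp [ha', hb', hc'], fun g hg => by
    rcases List.mem_append.1 hg with h | h
    · exact ha2' g h
    rcases List.mem_append.1 h with h | h
    · exact hb2' g h
    · exact hc2' g h⟩ h1
  obtain ⟨h3, h4⟩ := List.append_inj h2 (ha.trans ha'.symm)
  obtain ⟨h5, h6⟩ := List.append_inj h4 (hb.trans hb'.symm)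
  rw [h3, h5, h6]
  exact ⟨rfl, rfl, rfl⟩

lemma prod_le (hU : Uniq) {n q : ℕ} {eta t : ℝ} (he : 0 < eta) (ht : 0 < t) :
    Ms 0 (Bn n ∩ (GS eta t n ∩ (RE (q + 1))ᶜ)) * (Ms 0 (Bn n ∩ (GS eta t n ∩ (RG q ∩ RE q))) *
      Ms 0 (Bn n ∩ (GS eta t n ∩ (RG (q + 1))ᶜ))) ≤ Ms 0 (FS eta t) * Ms 0 (FS eta t) := by
  obtain ⟨SA', hSA⟩ : ∃ S, S = Bn n ∩ (GS eta t n ∩ (RE (q + 1))ᶜ) := ⟨_, rfl⟩
  obtain ⟨SB, hSB⟩ : ∃ S, S = Bn n ∩ (GS eta t n ∩ (RG q ∩ RE q)) := ⟨_, rfl⟩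
  obtain ⟨SC, hSC⟩ : ∃ S, S = Bn n ∩ (GS eta t n ∩ (RG (q + 1))ᶜ) := ⟨_, rfl⟩
  rw [← hSA, ← hSB, ← hSC]
  have gd : ∀ w ∈ GS eta t n, Gd eta t w := by
    rintro w ⟨l, ⟨h1, h2⟩, rfl⟩
    exact gd_of he ht h2.2 h1
  have kA : ∀ w ∈ SA', w ∈ Bn n := fun w hw => by rw [hSA] at hw; exact hw.1
  have kB : ∀ w ∈ SB, w ∈ Bn n := fun w hw => by rw [hSB] at hw; exact hw.1
  have kC : ∀ w ∈ SC, w ∈ Bn n := fun w hw => by rw [hSC] at hw; exact hw.1
  choose b1 b2 hb hm using exists_cut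
  have f1 : ∀ A ∈ SA', ∀ B ∈ SB, ∀ C ∈ SC, A ++ b1 B ∈ FS eta t := by
    intro A hA B hB C hC
    rw [hSA] at hA
    rw [hSB] at hB
    rw [hSC] at hC
    exact half1 he ht (gd A hA.2.1) (gd B hB.2.1) (gd C hC.2.1) (hb B) (hm B) hA.2.2 hB.2.2.1
  have f2 : ∀ A ∈ SA', ∀ B ∈ SB, ∀ C ∈ SC, dag (b2 B ++ C) ∈ FS eta t := by
    intro A hA B hB C hC
    rw [hSA] at hA
    rw [hSB] at hB
    rw [hSC] at hC
    exact half2 he ht (gd A hA.2.1) (gd B hB.2.1) (gd C hC.2.1) (hb B) (hm B) hC.2.2 hB.2.2.2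
  rw [Ms_mul 0 (FS eta t), Ms_mul 0 SB, Ms_eq_tsum_subtype 0 SA', ← ENNReal.tsum_mul_right]
  have e1 : ∀ a : SA', wt 0 a.1 * ∑' p : SB × SC, wt 0 (p.1.1 ++ p.2.1) =
      ∑' p : SB × SC, wt 0 (a.1 ++ (p.1.1 ++ p.2.1)) := by
    intro a
    rw [← ENNReal.tsum_mul_left]
    exact tsum_congr fun p => (wt_append 0 _ _).symm
  rw [tsum_congr e1, ← ENNReal.tsum_prod (f := fun (a : SA') (p : SB × SC) => wt 0 (a.1 ++ (p.1.1 ++ p.2.1)))]
  have e2 : ∀ x : SA' × (SB × SC), wt 0 (x.1.1 ++ (x.2.1.1 ++ x.2.2.1)) =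
      (fun y : FS eta t × FS eta t => wt 0 (y.1.1 ++ y.2.1))
        (⟨x.1.1 ++ b1 x.2.1.1, f1 _ x.1.2 _ x.2.1.2 _ x.2.2.2⟩, ⟨dag (b2 x.2.1.1 ++ x.2.2.1), f2 _ x.1.2 _ x.2.1.2 _ x.2.2.2⟩) := by
    intro x
    refine wt_congr 0 ?_
    have h1 := congrArg List.length (hb x.2.1.1)
    simp only [List.length_append, dag_length] at h1 ⊢
    omega
  rw [tsum_congr e2]
  refine ENNReal.tsum_comp_le_tsum_of_injective (f := fun x : SA' × (SB × SC) =>
    ((⟨x.1.1 ++ b1 x.2.1.1, f1 _ x.1.2 _ x.2.1.2 _ x.2.2.2⟩ : FS eta t),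
      (⟨dag (b2 x.2.1.1 ++ x.2.2.1), f2 _ x.1.2 _ x.2.1.2 _ x.2.2.2⟩ : FS eta t))) (fun x y h => ?_) _
  have h1 : x.1.1 ++ b1 x.2.1.1 = y.1.1 ++ b1 y.2.1.1 := congrArg (fun z => z.1.1) h
  have h2 : dag (b2 x.2.1.1 ++ x.2.2.1) = dag (b2 y.2.1.1 ++ y.2.2.1) := congrArg (fun z => z.2.1) h
  have h3 : b2 x.2.1.1 ++ x.2.2.1 = b2 y.2.1.1 ++ y.2.2.1 := by
    rw [← dag_dag (b2 x.2.1.1 ++ x.2.2.1), h2, dag_dag]
  have h4 : x.1.1 ++ (x.2.1.1 ++ x.2.2.1) = y.1.1 ++ (y.2.1.1 ++ y.2.2.1) := by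
    have e3 : x.1.1 ++ (x.2.1.1 ++ x.2.2.1) = (x.1.1 ++ b1 x.2.1.1) ++ (b2 x.2.1.1 ++ x.2.2.1) := by
      conv_lhs => rw [hb x.2.1.1]
      simp
    have e4 : y.1.1 ++ (y.2.1.1 ++ y.2.2.1) = (y.1.1 ++ b1 y.2.1.1) ++ (b2 y.2.1.1 ++ y.2.2.1) := by
      conv_lhs => rw [hb y.2.1.1]
      simp
    rw [e3, e4, h1, h3]
  obtain ⟨d1, d2, d3⟩ := decode hU (kA _ x.1.2) (kB _ x.2.1.2) (kC _ x.2.2.2) (kA _ y.1.2) (kB _ y.2.1.2) (kC _ y.2.2.2) h4
  exact Prod.ext (Subtype.ext d1) (Prod.ext (Subtype.ext d2) (Subtype.ext d3))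

end MF

open MF in
/-- **row D1** -/
theorem massF_of (hP : Prob) (hE : PrEq) (hU : Uniq) : MassF := by
  intro eta t n he ht h
  have h1 := mass_Bn hP hE n
  obtain ⟨q, hq1, hq2⟩ := exists_q h1
  have hG := mass_GS hE h1 h
  have r1 : Mr n (RE (q + 1)) < 3 / 4 := by
    unfold Mr
    rw [mass_RE]
    exact hq2
  have r2 : 3 / 4 ≤ Mr n (RE q) := by
    unfold Mr
    rw [mass_RE]
    exact hq1
  have a1 : 0.249 ≤ Mr n (GS eta t n ∩ (RE (q + 1))ᶜ) := by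
    have h2 := Mr_inter h1 (GS eta t n) (RE (q + 1))ᶜ
    rw [Mr_compl h1] at h2
    linarith
  have a2 : 0.499 ≤ Mr n (GS eta t n ∩ (RG q ∩ RE q)) := by
    have h2 := Mr_inter h1 (GS eta t n) (RG q ∩ RE q)
    have h3 := Mr_inter h1 (RG q) (RE q)
    linarith
  have a3 : 0.249 ≤ Mr n (GS eta t n ∩ (RG (q + 1))ᶜ) := by
    have h2 := Mr_inter h1 (GS eta t n) (RG (q + 1))ᶜ
    rw [Mr_compl h1] at h2
    linarith
  by_contra hcon
  rw [not_le] at hcon
  have hfin : Ms 0 (FS eta t) ≠ ⊤ := ne_top_of_lt hcon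
  have hlt : (Ms 0 (FS eta t)).toReal < 1 / 7 := by
    have := (ENNReal.toReal_lt_toReal hfin ENNReal.ofReal_ne_top).2 hcon
    rwa [ENNReal.toReal_ofReal (by norm_num)] at this
  have h5 := ENNReal.toReal_mono (ENNReal.mul_ne_top hfin hfin) (prod_le hU (n := n) (q := q) he ht)
  rw [ENNReal.toReal_mul, ENNReal.toReal_mul, ENNReal.toReal_mul] at h5
  have h6 : Mr n (GS eta t n ∩ (RE (q + 1))ᶜ) * (Mr n (GS eta t n ∩ (RG q ∩ RE q)) *
      Mr n (GS eta t n ∩ (RG (q + 1))ᶜ)) ≤ (Ms 0 (FS eta t)).toReal * (Ms 0 (FS eta t)).toReal := h5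
  have h7 : (0.249 : ℝ) * (0.499 * 0.249) ≤ Mr n (GS eta t n ∩ (RE (q + 1))ᶜ) *
      (Mr n (GS eta t n ∩ (RG q ∩ RE q)) * Mr n (GS eta t n ∩ (RG (q + 1))ᶜ)) := by
    refine mul_le_mul a1 (mul_le_mul a2 a3 (by norm_num) ((by norm_num : (0 : ℝ) ≤ 0.499).trans a2)) (by norm_num)
      ((by norm_num : (0 : ℝ) ≤ 0.249).trans a1)
  have h8 : (0 : ℝ) ≤ (Ms 0 (FS eta t)).toReal := ENNReal.toReal_nonneg
  nlinarith

end ZB
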