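import Pool.Agent.ZB.Defs

/-!
# ZB row D2: L-words, multiplicity of `dag g1 ++ f ++ rho g2`
-/

open MeasureTheory Set Filter
open scoped ENNReal Topology

namespace ZB
namespace ML

/-! ## words -/

lemma X_app (v w : Wd) : X (v ++ w) = X v + X w := by simp [X]
lemma Y_app (v w : Wd) : Y (v ++ w) = Y v + Y w := by simp [Y]

lemma dx_fL (s : St) : dx (fL s) = - dx s := by cases s <;> rfl
lemma dy_fL (s : St) : dy (fL s) = dy s := by cases s <;> rfl
lemma dx_fD (s : St) : dx (fD s) = dy s := by cases s <;> rfl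
lemma dy_fD (s : St) : dy (fD s) = dx s := by cases s <;> rfl
lemma fL_fL (s : St) : fL (fL s) = s := by cases s <;> rfl
lemma fD_fD (s : St) : fD (fD s) = s := by cases s <;> rfl

lemma X_dag (w : Wd) : X (dag w) = - X w := by
  induction w with
  | nil => rfl
  | cons s w ih =>
    have e : dag (s :: w) = dag w ++ [fL s] := by simp [dag]
    rw [e, X_app, ih]
    simp [X, dx_fL]

lemma Y_dag (w : Wd) : Y (dag w) = Y w := by
  induction w with
  | nil => rfl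
  | cons s w ih =>
    have e : dag (s :: w) = dag w ++ [fL s] := by simp [dag]
    rw [e, Y_app, ih]
    simp [Y, dy_fL]
    ring

lemma X_rho (w : Wd) : X (rho w) = Y w := by
  simp only [X, Y, rho, List.map_map]
  congr 1
  apply List.map_congr_left
  intro s _
  exact dx_fD s

lemma Y_rho (w : Wd) : Y (rho w) = X w := by
  simp only [X, Y, rho, List.map_map]
  congr 1
  apply List.map_congr_left
  intro s _
  exact dy_fD s

lemma dag_dag (w : Wd) : dag (dag w) = w := by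
  simp only [dag, List.map_reverse, List.reverse_reverse, List.map_map]
  conv_rhs => rw [← List.map_id w]
  apply List.map_congr_left
  intro s _
  exact fL_fL s

lemma rho_rho (w : Wd) : rho (rho w) = w := by
  simp only [rho, List.map_map]
  conv_rhs => rw [← List.map_id w]
  apply List.map_congr_left
  intro s _
  exact fD_fD s

lemma dag_app (v w : Wd) : dag (v ++ w) = dag w ++ dag v := by simp [dag]
lemma rho_app (v w : Wd) : rho (v ++ w) = rho v ++ rho w := by simp [rho]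
lemma dag_len (w : Wd) : (dag w).length = w.length := by simp [dag]
lemma rho_len (w : Wd) : (rho w).length = w.length := by simp [rho]
lemma dag_nil {w : Wd} (h : dag w = []) : w = [] := by
  have := dag_dag w
  rw [h] at this
  simpa [dag] using this.symm
lemma rho_nil {w : Wd} (h : rho w = []) : w = [] := by
  have := rho_rho w
  rw [h] at this
  simpa [rho] using this.symm
lemma dag_inj {v w : Wd} (h : dag v = dag w) : v = w := by
  rw [← dag_dag v, ← dag_dag w, h]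
lemma rho_inj {v w : Wd} (h : rho v = rho w) : v = w := by
  rw [← rho_rho v, ← rho_rho w, h]

/-- suffixes of `dag w` -/
lemma suf_dag {a w : Wd} (h : a <:+ dag w) : ∃ a', a' <+: w ∧ a = dag a' := by
  obtain ⟨s, hs⟩ := h
  refine ⟨dag a, ⟨dag s, ?_⟩, (dag_dag a).symm⟩
  rw [← dag_app, hs, dag_dag]

/-- prefixes of `rho w` -/
lemma pre_rho {a w : Wd} (h : a <+: rho w) : ∃ a', a' <+: w ∧ a = rho a' := by
  obtain ⟨s, hs⟩ := h
  refine ⟨rho a, ⟨rho s, ?_⟩, (rho_rho a).symm⟩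
  rw [← rho_app, hs, rho_rho]

lemma SA_dag {w : Wd} (h : SA w) : SA (dag w) := by
  intro v hv hne hz
  obtain ⟨s, t, e⟩ := hv
  have e2 : dag t ++ dag v ++ dag s = w := by
    have := congrArg dag e
    rw [dag_dag, dag_app, dag_app] at this
    rw [← this]; simp
  apply h (dag v) ⟨dag t, dag s, e2⟩ (fun hh => hne (dag_nil hh))
  rw [X_dag, Y_dag]
  exact ⟨by rw [hz.1]; rfl, hz.2⟩

lemma SA_rho {w : Wd} (h : SA w) : SA (rho w) := by
  intro v hv hne hz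
  obtain ⟨s, t, e⟩ := hv
  have e2 : rho s ++ rho v ++ rho t = w := by
    have := congrArg rho e
    rw [rho_rho, rho_app, rho_app] at this
    exact this
  apply h (rho v) ⟨rho s, rho t, e2⟩ (fun hh => hne (rho_nil hh))
  rw [X_rho, Y_rho]
  exact ⟨hz.2, hz.1⟩

/-- prefixes of a concatenation -/
lemma pre_app {a A B : Wd} (h : a <+: A ++ B) : a <+: A ∨ ∃ b, b <+: B ∧ a = A ++ b := by
  obtain ⟨s, hs⟩ := h
  rcases List.append_eq_append_iff.1 hs with ⟨u, h1, h2⟩ | ⟨u, h1, h2⟩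
  · exact Or.inl ⟨u, h1.symm⟩
  · exact Or.inr ⟨u, ⟨s, h2.symm⟩, h1⟩

/-- infixes of a concatenation -/
lemma inf_app {v A B : Wd} (h : v <:+: A ++ B) :
    v <:+: A ∨ v <:+: B ∨ ∃ a b, a <:+ A ∧ b <+: B ∧ a ≠ [] ∧ b ≠ [] ∧ v = a ++ b := by
  obtain ⟨s, t, e⟩ := h
  rw [List.append_assoc] at e
  rcases List.append_eq_append_iff.1 e with ⟨u, h1, h2⟩ | ⟨u, h1, h2⟩
  · -- `A = s ++ u`, `v ++ t = u ++ B`
    rcases List.append_eq_append_iff.1 h2 with ⟨z, h3, h4⟩ | ⟨z, h3, h4⟩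
    · -- `u = v ++ z`
      left
      exact ⟨s, z, by rw [h1, h3]; simp⟩
    · -- `v = u ++ z`, `B = z ++ t`
      by_cases hu : u = []
      · right; left
        subst hu
        exact ⟨[], t, by rw [h3, h4]; simp⟩
      by_cases hz : z = []
      · left
        subst hz
        exact ⟨s, [], by rw [h3, h1]; simp⟩
      · right; right
        exact ⟨u, z, ⟨s, h1.symm⟩, ⟨t, h4.symm⟩, hu, hz, h3⟩
  · -- `s = A ++ u`
    right; left
    exact ⟨u, t, by rw [h2]; simp⟩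

lemma SA_app {A B : Wd} (hA : SA A) (hB : SA B)
    (h : ∀ a b, a <:+ A → b <+: B → a ≠ [] → b ≠ [] →
      ¬ (X a + X b = 0 ∧ Y a + Y b = 0)) : SA (A ++ B) := by
  intro v hv hne
  rcases inf_app hv with h1 | h1 | ⟨a, b, ha, hb, na, nb, e⟩
  · exact hA v h1 hne
  · exact hB v h1 hne
  · rw [e, X_app, Y_app]
    exact h a b ha hb na nb

/-- a vertex of a self-avoiding word determines the prefix -/
lemma pre_inj {w : Wd} (h : SA w) {u u' : Wd} (hu : u <+: w) (hu' : u' <+: w)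
    (hX : X u = X u') (hY : Y u = Y u') : u = u' := by
  wlog hle : u <+: u' generalizing u u'
  · rcases List.prefix_or_prefix_of_prefix hu hu' with h1 | h1
    · exact absurd h1 hle
    · exact (this hu' hu hX.symm hY.symm h1).symm
  obtain ⟨z, hz⟩ := hle
  obtain ⟨s, hs⟩ := hu'
  by_cases hne : z = []
  · subst hne; simpa using hz
  · exfalso
    refine h z ⟨u, s, by rw [hz, hs]⟩ hne ?_
    rw [← hz, X_app] at hX
    rw [← hz, Y_app] at hY
    constructor <;> linarith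

/-! ## geometry -/

/-- what we use of a straight bridge -/
def CV (t : ℝ) (w : Wd) : Prop :=
  Br w ∧ ∀ v, v <+: w → 100000 * |(X v : ℝ)| ≤ max t (Y v)

/-- what we use of a corner piece -/
def CF (t : ℝ) (w : Wd) : Prop :=
  SA w ∧ (∀ v, v <+: w → 0 ≤ Y v) ∧ (∀ v, v <:+ w → 0 ≤ X v) ∧ t / 10 ≤ (Y w : ℝ) ∧
    ∀ v, v <:+: w → |(X v : ℝ)| ≤ t / 1000 ∧ |(Y v : ℝ)| ≤ 300 * t

lemma CV_of {eta t R : ℝ} (h0 : 0 < eta) (h1 : eta ≤ 1 / 10 ^ 5) (ht : 100 ≤ t) {w : Wd}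
    (h : w ∈ VS eta t R) : CV t w := by
  refine ⟨h.1, fun v hv => ?_⟩
  have h2 := (h.2.2.2 v hv).1
  have h3 : (0 : ℝ) ≤ max t (Y v) := le_trans (by linarith) (le_max_left _ _)
  have h4 : eta * max t (Y v) ≤ 1 / 10 ^ 5 * max t (Y v) := mul_le_mul_of_nonneg_right h1 h3
  norm_num at h4
  linarith

lemma CF_of {eta t : ℝ} (h0 : 0 < eta) (h1 : eta ≤ 1 / 10 ^ 5) (ht : 100 ≤ t) {w : Wd}
    (h : w ∈ FS eta t) : CF t w := by
  refine ⟨h.1, h.2.1, h.2.2.1, h.2.2.2.1, fun v hv => ⟨?_, (h.2.2.2.2 v hv).2⟩⟩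
  have h2 := (h.2.2.2.2 v hv).1
  have h4 : eta * t ≤ 1 / 10 ^ 5 * t := mul_le_mul_of_nonneg_right h1 (by linarith)
  norm_num at h4
  nlinarith

/-- the L-word of a triple -/
def LW (p : Wd × Wd × Wd) : Wd := dag p.1 ++ (p.2.1 ++ rho p.2.2)

/-- L-words are self-avoiding -/
lemma SA_LW {t : ℝ} (ht : 100 ≤ t) {g1 f g2 : Wd} (h1 : CV t g1) (hf : CF t f)
    (h2 : CV t g2) : SA (LW (g1, f, g2)) := by
  have hB : SA (f ++ rho g2) := by
    apply SA_app hf.1 (SA_rho h2.1.1)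
    intro a b ha hb na nb hh
    obtain ⟨b', hb', rfl⟩ := pre_rho hb
    have e1 := hf.2.2.1 a ha
    have e2 := h2.1.2.1 b' hb' (fun e => nb (by rw [e]; rfl))
    rw [X_rho] at hh
    omega
  apply SA_app (SA_dag h1.1.1) hB
  intro a b ha hb na nb hh
  obtain ⟨a', ha', rfl⟩ := suf_dag ha
  have e1 := h1.1.2.1 a' ha' (fun e => na (by rw [e]; rfl))
  rw [X_dag, Y_dag] at hh
  rcases pre_app hb with hb1 | ⟨b1, hb1, rfl⟩
  · have e2 := hf.2.1 b hb1
    omega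
  · obtain ⟨b', hb', rfl⟩ := pre_rho hb1
    rw [X_app, Y_app, X_rho, Y_rho] at hh
    have c1 := h1.2 a' ha'
    have c2 := h2.2 b' hb'
    have c3 := hf.2.2.2.1
    have c4 := (hf.2.2.2.2 f List.infix_rfl).1
    have d1 : -(X a' : ℝ) + ((X f : ℝ) + (Y b' : ℝ)) = 0 := by exact_mod_cast hh.1
    have d2 : (Y a' : ℝ) + ((Y f : ℝ) + (X b' : ℝ)) = 0 := by exact_mod_cast hh.2
    have d3 : (0 : ℝ) < Y a' := by exact_mod_cast e1
    have a1 := abs_le.1 c4
    have a2 := le_abs_self (X a' : ℝ)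
    have a3 := neg_abs_le (X b' : ℝ)
    rcases le_max_iff.1 c2 with q2 | q2
    · linarith
    · rcases le_max_iff.1 c1 with q1 | q1
      · linarith
      · linarith

/-- two decompositions of the same L-word have close corners -/
lemma close {t : ℝ} (ht : 100 ≤ t) {g1 f g2 g1' f' g2' : Wd} (hf : CF t f)
    (h2 : CV t g2) (h1' : CV t g1') (he : LW (g1, f, g2) = LW (g1', f', g2'))
    (hle : dag g1 <+: dag g1') :
    |(X (dag g1') : ℝ) - X (dag g1)| ≤ 301 * t ∧ |(Y (dag g1') : ℝ) - Y (dag g1)| ≤ 301 * t := by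
  obtain ⟨z, hz⟩ := hle
  have hz' : z ++ (f' ++ rho g2') = f ++ rho g2 := by
    have : dag g1 ++ (z ++ (f' ++ rho g2')) = dag g1 ++ (f ++ rho g2) := by
      rw [← List.append_assoc, hz]; exact he.symm
    exact List.append_cancel_left this
  rw [← hz, X_app, Y_app]
  push_cast
  have s1 : ∀ a b : ℝ, a + b - a = b := fun a b => by ring
  rw [s1, s1]
  rcases pre_app ⟨_, hz'⟩ with hp | ⟨b, hb, rfl⟩
  · have := hf.2.2.2.2 z hp.isInfix
    constructor <;> linarith [this.1, this.2]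
  · obtain ⟨b', hb', rfl⟩ := pre_rho hb
    have hs : rho b' <:+ dag g1' := ⟨dag g1 ++ f, by rw [← hz]; simp⟩
    obtain ⟨a', ha', e⟩ := suf_dag hs
    have x1 : Y b' = - X a' := by rw [← X_rho, e, X_dag]
    have x2 : X b' = Y a' := by rw [← Y_rho, e, Y_dag]
    have c1 := h1'.2 a' ha'
    have c2 := h2.2 b' hb'
    have c4 := hf.2.2.2.2 f List.infix_rfl
    have y1 : (Y b' : ℝ) = - X a' := by exact_mod_cast x1
    have y2 : (X b' : ℝ) = Y a' := by exact_mod_cast x2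
    rw [X_app, Y_app, X_rho, Y_rho]
    push_cast
    rw [← y2] at c1
    rw [y1] at c2 ⊢
    have a1 := abs_le.1 c4.1
    have a2 := abs_le.1 c4.2
    have a3 : |(X a' : ℝ)| ≤ t ∧ |(X b' : ℝ)| ≤ t := by
      have b1 := le_abs_self (X a' : ℝ)
      have b2 := neg_abs_le (X a' : ℝ)
      have b3 := le_abs_self (X b' : ℝ)
      have b4 := neg_abs_le (X b' : ℝ)
      rcases le_max_iff.1 c2 with q2 | q2
      · rcases le_max_iff.1 c1 with q1 | q1
        · constructor <;> linarith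
        · constructor <;> linarith
      · rcases le_max_iff.1 c1 with q1 | q1
        · constructor <;> linarith
        · constructor <;> linarith
    have b1 := abs_le.1 a3.1
    have b3 := abs_le.1 a3.2
    constructor
    · rw [abs_le]; constructor <;> linarith
    · rw [abs_le]; constructor <;> linarith

/-! ## counting -/

/-- multiplicity -/
lemma tsum_fib {α β : Type*} (f : α → ℝ≥0∞) (g : β → ℝ≥0∞) (Φ : α → β) (A : Set α) (B : Set β)
    (M : ℝ≥0∞) (hΦ : ∀ a ∈ A, Φ a ∈ B) (hfg : ∀ a ∈ A, f a ≤ g (Φ a))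
    (hM : ∀ b ∈ B, (({a | a ∈ A ∧ Φ a = b} : Set α).encard : ℝ≥0∞) ≤ M) :
    ∑' a, A.indicator f a ≤ M * ∑' b, B.indicator g b := by
  classical
  calc ∑' a, A.indicator f a
      ≤ ∑' a, ∑' b, ({a | a ∈ A ∧ Φ a = b} : Set α).indicator (fun _ => B.indicator g b) a := by
        refine ENNReal.tsum_le_tsum fun a => ?_
        by_cases ha : a ∈ A
        · rw [Set.indicator_of_mem ha]
          refine le_trans ?_ (ENNReal.le_tsum (Φ a))
          rw [Set.indicator_of_mem (show a ∈ {a' | a' ∈ A ∧ Φ a' = Φ a} from ⟨ha, rfl⟩),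
            Set.indicator_of_mem (hΦ a ha)]
          exact hfg a ha
        · rw [Set.indicator_of_notMem ha]
          exact zero_le
    _ = ∑' b, ∑' a, ({a | a ∈ A ∧ Φ a = b} : Set α).indicator (fun _ => B.indicator g b) a :=
        ENNReal.tsum_comm
    _ ≤ ∑' b, M * B.indicator g b := by
        refine ENNReal.tsum_le_tsum fun b => ?_
        rw [← tsum_subtype, ENNReal.tsum_set_const]
        by_cases hb : b ∈ B
        · exact mul_le_mul_left (hM b hb) _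
        · rw [Set.indicator_of_notMem hb]; simp
    _ = M * ∑' b, B.indicator g b := ENNReal.tsum_mul_left

/-- number of integers in a real interval -/
lemma card_int {r : ℝ} (hr : 1 ≤ r) (k0 : ℤ) :
    (({k : ℤ | |(k : ℝ) - k0| ≤ r} : Set ℤ).encard : ℝ≥0∞) ≤ ENNReal.ofReal (3 * r) := by
  have hs : ({k : ℤ | |(k : ℝ) - k0| ≤ r} : Set ℤ) ⊆ (Finset.Icc (k0 - ⌊r⌋) (k0 + ⌊r⌋) : Finset ℤ) := by
    intro k hk
    have h1 := abs_le.1 (show |(k : ℝ) - k0| ≤ r from hk)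
    have h2 : k - k0 ≤ ⌊r⌋ := Int.le_floor.2 (by push_cast; linarith)
    have h3 : k0 - k ≤ ⌊r⌋ := Int.le_floor.2 (by push_cast; linarith)
    rw [Finset.mem_coe, Finset.mem_Icc]
    constructor <;> omega
  have h0 : 0 ≤ ⌊r⌋ := Int.floor_nonneg.2 (by linarith)
  have h1 := Set.encard_le_encard hs
  rw [Set.encard_coe_eq_coe_finsetCard] at h1
  have h2 : (((({k : ℤ | |(k : ℝ) - k0| ≤ r} : Set ℤ).encard : ℕ∞)) : ℝ≥0∞) ≤
      (((Finset.Icc (k0 - ⌊r⌋) (k0 + ⌊r⌋)).card : ℕ∞) : ℝ≥0∞) := by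
    exact_mod_cast h1
  refine le_trans h2 ?_
  rw [Int.card_Icc]
  have h3 : (((((k0 + ⌊r⌋ + 1 - (k0 - ⌊r⌋)).toNat : ℕ) : ℕ∞)) : ℝ≥0∞) =
      ENNReal.ofReal ((((k0 + ⌊r⌋ + 1 - (k0 - ⌊r⌋)).toNat : ℕ)) : ℝ) := by
    rw [ENNReal.ofReal_natCast]; simp
  rw [h3]
  apply ENNReal.ofReal_le_ofReal
  have h4 : (((k0 + ⌊r⌋ + 1 - (k0 - ⌊r⌋)).toNat : ℕ) : ℝ) = (((k0 + ⌊r⌋ + 1 - (k0 - ⌊r⌋)).toNat : ℤ) : ℝ) := by
    norm_cast
  rw [h4, Int.toNat_of_nonneg (by omega)]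
  have h5 := Int.floor_le r
  push_cast
  linarith

/-- the triples -/
def TR (t : ℝ) : Set (Wd × Wd × Wd) := {p | CV t p.1 ∧ CF t p.2.1 ∧ CV t p.2.2}

/-- corner points of a triple -/
def cp (p : Wd × Wd × Wd) : (ℤ × ℤ) × (ℤ × ℤ) :=
  ((X (dag p.1), Y (dag p.1)), (X (dag p.1 ++ p.2.1), Y (dag p.1 ++ p.2.1)))

lemma cp_inj {t : ℝ} (ht : 100 ≤ t) {p q : Wd × Wd × Wd} (hp : p ∈ TR t)
    (he : LW p = LW q) (hc : cp p = cp q) : p = q := by
  obtain ⟨g1, f, g2⟩ := p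
  obtain ⟨g1', f', g2'⟩ := q
  have hSA : SA (LW (g1, f, g2)) := SA_LW ht hp.1 hp.2.1 hp.2.2
  simp only [cp, Prod.mk.injEq] at hc
  obtain ⟨⟨x1, y1⟩, x2, y2⟩ := hc
  have e1 : dag g1 = dag g1' := pre_inj hSA ⟨_, rfl⟩ (by rw [he]; exact ⟨_, rfl⟩) x1 y1
  have e2 : dag g1 ++ f = dag g1' ++ f' := by
    refine pre_inj hSA ⟨rho g2, ?_⟩ (by rw [he]; exact ⟨rho g2', by simp [LW]⟩) x2 y2
    simp [LW]
  rw [e1] at e2
  have e3 : f = f' := List.append_cancel_left e2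
  simp only [LW, e1, e3] at he
  have e4 : rho g2 = rho g2' := List.append_cancel_left (List.append_cancel_left he)
  rw [dag_inj e1, e3, rho_inj e4]

lemma close2 {t : ℝ} (ht : 100 ≤ t) {p q : Wd × Wd × Wd} (hp : p ∈ TR t) (hq : q ∈ TR t)
    (he : LW p = LW q) :
    |(((cp q).1.1 : ℤ) : ℝ) - (cp p).1.1| ≤ 301 * t ∧
    |(((cp q).1.2 : ℤ) : ℝ) - (cp p).1.2| ≤ 301 * t := by
  obtain ⟨g1, f, g2⟩ := p
  obtain ⟨g1', f', g2'⟩ := q
  have h1 : dag g1 <+: LW (g1', f', g2') := by rw [← he]; exact ⟨_, rfl⟩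
  have h2 : dag g1' <+: LW (g1', f', g2') := ⟨_, rfl⟩
  simp only [cp]
  rcases List.prefix_or_prefix_of_prefix h1 h2 with h | h
  · exact close ht hp.2.1 hp.2.2 hq.1 he h
  · have := close ht hq.2.1 hq.2.2 hp.1 he.symm h
    rw [abs_sub_comm, abs_sub_comm (((Y (dag g1') : ℤ)) : ℝ)]
    exact this

lemma close3 {t : ℝ} (ht : 100 ≤ t) {p q : Wd × Wd × Wd} (hp : p ∈ TR t) (hq : q ∈ TR t)
    (he : LW p = LW q) :
    |(((cp q).2.1 : ℤ) : ℝ) - (cp p).1.1| ≤ 601 * t ∧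
    |(((cp q).2.2 : ℤ) : ℝ) - (cp p).1.2| ≤ 601 * t := by
  have h := close2 ht hp hq he
  have hf := hq.2.1.2.2.2.2 q.2.1 List.infix_rfl
  have a1 := abs_le.1 h.1
  have a2 := abs_le.1 h.2
  have b1 := abs_le.1 hf.1
  have b2 := abs_le.1 hf.2
  have e1 : (((cp q).2.1 : ℤ) : ℝ) = (((cp q).1.1 : ℤ) : ℝ) + (X q.2.1 : ℝ) := by
    simp only [cp, X_app]; push_cast; ring
  have e2 : (((cp q).2.2 : ℤ) : ℝ) = (((cp q).1.2 : ℤ) : ℝ) + (Y q.2.1 : ℝ) := by
    simp only [cp, Y_app]; push_cast; ring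
  rw [e1, e2]
  constructor
  · rw [abs_le]; constructor <;> linarith
  · rw [abs_le]; constructor <;> linarith

/-- cardinality of a product, for `encard` -/
lemma encard_prod_le {α β : Type*} (s : Set α) (r : Set β) :
    (((s ×ˢ r : Set (α × β)).encard : ℕ∞) : ℝ≥0∞) ≤ (s.encard : ℝ≥0∞) * (r.encard : ℝ≥0∞) := by
  rw [Set.encard_prod]
  push_cast
  exact le_rfl

lemma fib_le {t : ℝ} (ht : 100 ≤ t) (w : Wd) :
    (({p | p ∈ TR t ∧ LW p = w} : Set (Wd × Wd × Wd)).encard : ℝ≥0∞) ≤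
      ENNReal.ofReal ((1803 : ℝ) ^ 4 * t ^ 4) := by
  rcases Set.eq_empty_or_nonempty ({p | p ∈ TR t ∧ LW p = w} : Set (Wd × Wd × Wd)) with h0 | h0
  · rw [h0]; simp
  obtain ⟨p0, hp0, hw0⟩ := h0
  set I : ℤ → Set ℤ := fun k0 => {k : ℤ | |(k : ℝ) - k0| ≤ 601 * t} with hI
  have hin : Set.InjOn cp ({p | p ∈ TR t ∧ LW p = w} : Set (Wd × Wd × Wd)) := by
    intro p hp q hq h
    exact cp_inj ht hp.1 (hp.2.trans hq.2.symm) h
  have hsub : cp '' ({p | p ∈ TR t ∧ LW p = w} : Set (Wd × Wd × Wd)) ⊆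
      ((I (cp p0).1.1 ×ˢ I (cp p0).1.2) ×ˢ (I (cp p0).1.1 ×ˢ I (cp p0).1.2)) := by
    rintro _ ⟨q, hq, rfl⟩
    have c2 := close2 ht hp0 hq.1 (hw0.trans hq.2.symm)
    have c3 := close3 ht hp0 hq.1 (hw0.trans hq.2.symm)
    refine ⟨⟨?_, ?_⟩, ?_, ?_⟩
    · exact le_trans c2.1 (by linarith)
    · exact le_trans c2.2 (by linarith)
    · exact c3.1
    · exact c3.2
  have h1 := Set.encard_le_encard hsub
  rw [hin.encard_image] at h1
  have h2 : ((({p | p ∈ TR t ∧ LW p = w} : Set (Wd × Wd × Wd)).encard : ℕ∞) : ℝ≥0∞) ≤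
      ((((I (cp p0).1.1 ×ˢ I (cp p0).1.2) ×ˢ (I (cp p0).1.1 ×ˢ I (cp p0).1.2) :
        Set ((ℤ × ℤ) × (ℤ × ℤ))).encard : ℕ∞) : ℝ≥0∞) := by exact_mod_cast h1
  refine le_trans h2 ?_
  have hc : ∀ k0 : ℤ, (((I k0).encard : ℕ∞) : ℝ≥0∞) ≤ ENNReal.ofReal (3 * (601 * t)) :=
    fun k0 => card_int (by linarith) k0
  calc _ ≤ (((I (cp p0).1.1).encard : ℝ≥0∞) * ((I (cp p0).1.2).encard : ℝ≥0∞)) *
        (((I (cp p0).1.1).encard : ℝ≥0∞) * ((I (cp p0).1.2).encard : ℝ≥0∞)) :=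
        le_trans (encard_prod_le _ _) (mul_le_mul' (encard_prod_le _ _) (encard_prod_le _ _))
    _ ≤ (ENNReal.ofReal (3 * (601 * t)) * ENNReal.ofReal (3 * (601 * t))) *
        (ENNReal.ofReal (3 * (601 * t)) * ENNReal.ofReal (3 * (601 * t))) :=
        mul_le_mul' (mul_le_mul' (hc _) (hc _)) (mul_le_mul' (hc _) (hc _))
    _ = ENNReal.ofReal ((1803 : ℝ) ^ 4 * t ^ 4) := by
        have : (0 : ℝ) ≤ 3 * (601 * t) := by linarith
        rw [← ENNReal.ofReal_mul this, ← ENNReal.ofReal_mul (by positivity)]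
        congr 1
        ring

lemma wt_app (lam : ℝ) (v w : Wd) : wt lam (v ++ w) = wt lam v * wt lam w := by
  have h0 : (0 : ℝ) ≤ xc * Real.exp (-lam) := by
    apply mul_nonneg _ (Real.exp_pos _).le
    exact inv_nonneg.2 (Real.exp_pos _).le
  rw [wt, wt, wt, List.length_append, pow_add, ENNReal.ofReal_mul (pow_nonneg h0 _)]

lemma wt_dag (lam : ℝ) (w : Wd) : wt lam (dag w) = wt lam w := by rw [wt, wt, dag_len]
lemma wt_rho (lam : ℝ) (w : Wd) : wt lam (rho w) = wt lam w := by rw [wt, wt, rho_len]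

lemma ms_prod3 (lam : ℝ) (A B D : Set Wd) :
    Ms lam A * (Ms lam B * Ms lam D) =
      ∑' p : Wd × Wd × Wd, (A ×ˢ (B ×ˢ D) : Set (Wd × Wd × Wd)).indicator
        (fun p => wt lam p.1 * (wt lam p.2.1 * wt lam p.2.2)) p := by
  have e : ∀ p : Wd × Wd × Wd, (A ×ˢ (B ×ˢ D) : Set (Wd × Wd × Wd)).indicator
        (fun p => wt lam p.1 * (wt lam p.2.1 * wt lam p.2.2)) p =
      A.indicator (wt lam) p.1 * (B.indicator (wt lam) p.2.1 * D.indicator (wt lam) p.2.2) := by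
    classical
    intro p
    obtain ⟨a, b, d⟩ := p
    simp only [Set.indicator_apply, Set.mem_prod]
    by_cases h1 : a ∈ A <;> by_cases h2 : b ∈ B <;> by_cases h3 : d ∈ D <;> simp [h1, h2, h3]
  rw [tsum_congr e, ENNReal.tsum_prod']
  simp only [Ms]
  have e2 : ∀ a : Wd, ∑' q : Wd × Wd,
      A.indicator (wt lam) a * (B.indicator (wt lam) q.1 * D.indicator (wt lam) q.2) =
      A.indicator (wt lam) a * ((∑' b, B.indicator (wt lam) b) * ∑' d, D.indicator (wt lam) d) := by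
    intro a
    rw [ENNReal.tsum_mul_left]
    congr 1
    rw [ENNReal.tsum_prod']
    have e3 : ∀ b : Wd, ∑' d : Wd, B.indicator (wt lam) b * D.indicator (wt lam) d =
        B.indicator (wt lam) b * ∑' d, D.indicator (wt lam) d := fun b => ENNReal.tsum_mul_left
    rw [tsum_congr e3, ENNReal.tsum_mul_right]
  rw [tsum_congr e2, ENNReal.tsum_mul_right]

end ML

open ML in
/-- row D2: mass of the L-words -/
theorem massL : MassL := by
  refine ⟨(1803 : ℝ) ^ 4, by positivity, fun eta t R h0 h1 ht _ => ?_⟩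
  have e : Ms 0 (VS eta t R) ^ 2 * Ms 0 (FS eta t) =
      Ms 0 (VS eta t R) * (Ms 0 (FS eta t) * Ms 0 (VS eta t R)) := by ring
  rw [e, ms_prod3]
  refine tsum_fib _ (wt 0) LW _ (LS eta t R) _ ?_ ?_ ?_
  · rintro ⟨g1, f, g2⟩ ⟨m1, m2, m3⟩
    exact ⟨g1, m1, f, m2, g2, m3, by simp [LW]⟩
  · rintro ⟨g1, f, g2⟩ -
    simp only [LW, wt_app, wt_dag, wt_rho]
    exact le_rfl
  · intro w _
    refine le_trans ?_ (fib_le ht w)
    have hs : ({a | a ∈ (VS eta t R ×ˢ (FS eta t ×ˢ VS eta t R) : Set (Wd × Wd × Wd)) ∧ LW a = w} :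
        Set (Wd × Wd × Wd)) ⊆ {p | p ∈ TR t ∧ LW p = w} := by
      rintro ⟨g1, f, g2⟩ ⟨⟨m1, m2, m3⟩, m4⟩
      exact ⟨⟨CV_of h0 h1 ht m1, CF_of h0 h1 ht m2, CV_of h0 h1 ht m3⟩, m4⟩
    exact_mod_cast Set.encard_le_encard hs

end ZB
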