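import Pool.Agent.ZB.Defs

/-!
# ZB, row C3 (helper73), part 1: the product law `pr` on lists, the maximal inequality
-/

open MeasureTheory Set Filter
open scoped ENNReal Topology

set_option linter.unusedSectionVars false

namespace ZB

namespace Lst

variable {Ω : Type} [MeasurableSpace Ω] [DiscreteMeasurableSpace Ω] {P : Measure Ω}

lemma pr_zero (A : Set (List Ω)) : pr P 0 A = A.indicator 1 [] := rfl

lemma pr_succ (n : ℕ) (A : Set (List Ω)) : pr P (n + 1) A = ∫⁻ g, pr P n {l | g :: l ∈ A} ∂P := rfl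

omit [DiscreteMeasurableSpace Ω] in
lemma pr_mono {n : ℕ} {A B : Set (List Ω)} (h : ∀ l, l.length = n → l ∈ A → l ∈ B) : pr P n A ≤ pr P n B := by
  induction n generalizing A B with
  | zero =>
    show A.indicator 1 [] ≤ B.indicator 1 []
    by_cases h1 : ([] : List Ω) ∈ A
    · rw [Set.indicator_of_mem h1, Set.indicator_of_mem (h _ rfl h1)]
    · rw [Set.indicator_of_notMem h1]
      exact zero_le
  | succ n ih =>
    show ∫⁻ g, _ ∂P ≤ ∫⁻ g, _ ∂P
    refine lintegral_mono fun g => ih fun l hl h1 => h _ ?_ h1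
    rw [List.length_cons, hl]

omit [DiscreteMeasurableSpace Ω] in
lemma pr_univ (hP : P Set.univ = 1) (n : ℕ) : pr P n Set.univ = 1 := by
  induction n with
  | zero => simp [pr]
  | succ n ih =>
    show ∫⁻ g, pr P n {l | g :: l ∈ Set.univ} ∂P = 1
    have : ∀ g : Ω, pr P n {l | g :: l ∈ Set.univ} = 1 := fun g => ih
    simp only [this]
    rw [lintegral_const, hP, one_mul]

omit [DiscreteMeasurableSpace Ω] in
lemma pr_le_one (hP : P Set.univ = 1) (n : ℕ) (A : Set (List Ω)) : pr P n A ≤ 1 :=
  (pr_mono fun _ _ _ => Set.mem_univ _).trans (pr_univ hP n).le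

lemma pr_union (n : ℕ) (A B : Set (List Ω)) : pr P n (A ∪ B) ≤ pr P n A + pr P n B := by
  induction n generalizing A B with
  | zero =>
    show (A ∪ B).indicator 1 [] ≤ A.indicator 1 [] + B.indicator 1 []
    by_cases h1 : ([] : List Ω) ∈ A
    · rw [Set.indicator_of_mem h1, Set.indicator_of_mem (show ([] : List Ω) ∈ A ∪ B from Or.inl h1)]
      exact le_self_add
    · by_cases h2 : ([] : List Ω) ∈ B
      · rw [Set.indicator_of_mem h2, Set.indicator_of_mem (show ([] : List Ω) ∈ A ∪ B from Or.inr h2)]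
        exact le_add_self
      · rw [Set.indicator_of_notMem (show ([] : List Ω) ∉ A ∪ B from fun h => h.elim h1 h2)]
        exact zero_le
  | succ n ih =>
    show ∫⁻ g, _ ∂P ≤ (∫⁻ g, _ ∂P) + ∫⁻ g, _ ∂P
    rw [← lintegral_add_left (Measurable.of_discrete)]
    exact lintegral_mono fun g => ih _ _

lemma pr_biUnion (n : ℕ) (A : ℕ → Set (List Ω)) (K : ℕ) :
    pr P n {l | ∃ i, i < K ∧ l ∈ A i} ≤ ∑ i ∈ Finset.range K, pr P n (A i) := by
  induction K with
  | zero =>
    have h : pr P n {l | ∃ i, i < 0 ∧ l ∈ A i} ≤ pr P n (∅ : Set (List Ω)) := by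
      refine pr_mono ?_
      rintro l - ⟨i, hi, -⟩
      omega
    refine h.trans ?_
    have h0 : ∀ n : ℕ, pr P n (∅ : Set (List Ω)) = 0 := by
      intro n
      induction n with
      | zero => simp [pr]
      | succ n ih =>
        show ∫⁻ g, pr P n {l | g :: l ∈ (∅ : Set (List Ω))} ∂P = 0
        have : ∀ g : Ω, pr P n {l | g :: l ∈ (∅ : Set (List Ω))} = 0 := fun g => ih
        simp only [this, lintegral_zero]
    rw [h0]
    exact zero_le
  | succ K ih =>
    rw [Finset.sum_range_succ]
    refine (pr_mono ?_).trans ((pr_union n {l | ∃ i, i < K ∧ l ∈ A i} (A K)).trans (add_le_add ih le_rfl))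
    rintro l - ⟨i, hi, h⟩
    rcases Nat.lt_succ_iff_lt_or_eq.1 hi with h1 | h1
    · exact Or.inl ⟨i, h1, h⟩
    · subst h1
      exact Or.inr h

/-- some element of the list is in B -/
lemma pr_mem (hP : P Set.univ = 1) (n : ℕ) (B : Set Ω) : pr P n {l | ∃ g ∈ l, g ∈ B} ≤ n * P B := by
  induction n with
  | zero => simp [pr]
  | succ n ih =>
    have h1 : ∀ g : Ω, pr P n {l | g :: l ∈ {l : List Ω | ∃ g ∈ l, g ∈ B}} ≤ B.indicator 1 g + n * P B := by
      intro g
      by_cases hg : g ∈ B
      · rw [Set.indicator_of_mem hg]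
        exact (pr_le_one hP n _).trans le_self_add
      · rw [Set.indicator_of_notMem hg, zero_add]
        refine (pr_mono ?_).trans ih
        rintro l - ⟨g', hg', h⟩
        rcases List.mem_cons.1 hg' with rfl | h2
        · exact absurd h hg
        · exact ⟨g', h2, h⟩
    rw [pr_succ]
    refine (lintegral_mono h1).trans (le_of_eq ?_)
    rw [lintegral_add_left (Measurable.of_discrete), lintegral_indicator_one (MeasurableSet.of_discrete), lintegral_const, hP,
      mul_one]
    push_cast
    ring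

/-- an event of the first n elements -/
lemma pr_take (hP : P Set.univ = 1) {n N : ℕ} (h : n ≤ N) (A : Set (List Ω)) : pr P N {l | l.take n ∈ A} = pr P n A := by
  induction n generalizing N A with
  | zero =>
    by_cases h1 : ([] : List Ω) ∈ A
    · have : {l : List Ω | l.take 0 ∈ A} = Set.univ := by
        ext l
        simp [h1]
      rw [this, pr_univ hP, pr_zero, Set.indicator_of_mem h1]
      rfl
    · have : pr P N {l | l.take 0 ∈ A} ≤ pr P N {l | ∃ i, i < 0 ∧ l ∈ (fun _ => (∅ : Set (List Ω))) i} := by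
        refine pr_mono fun l _ hl => ?_
        change l.take 0 ∈ A at hl
        rw [List.take_zero] at hl
        exact absurd hl h1
      rw [pr_zero, Set.indicator_of_notMem h1]
      refine le_antisymm (this.trans ((pr_biUnion N _ 0).trans ?_)) zero_le
      simp
  | succ n ih =>
    obtain ⟨N', rfl⟩ : ∃ N', N = N' + 1 := ⟨N - 1, by omega⟩
    rw [pr_succ, pr_succ]
    refine lintegral_congr fun g => ?_
    rw [← ih (by omega : n ≤ N')]
    rfl

lemma sm_nil (f : Ω → ℝ) : sm f [] = 0 := rfl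

lemma sm_cons (f : Ω → ℝ) (g : Ω) (l : List Ω) : sm f (g :: l) = f g + sm f l := by
  unfold sm
  rw [List.map_cons, List.sum_cons]

lemma sm_append (f : Ω → ℝ) (l l' : List Ω) : sm f (l ++ l') = sm f l + sm f l' := by
  unfold sm
  rw [List.map_append, List.sum_append]

/-- **the maximal inequality**: f of mean 0, second moment at most v -/
theorem kolm (hP : P Set.univ = 1) {f : Ω → ℝ} {v : ℝ} (hv : 0 ≤ v) (h2 : ∫⁻ ω, ENNReal.ofReal (f ω ^ 2) ∂P ≤ ENNReal.ofReal v)
    (h0 : ∫ ω, f ω ∂P = 0) {a : ℝ} (ha : 0 < a) (n : ℕ) (b : ℝ) :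
    pr P n {l | ∃ l1, l1 <+: l ∧ a ≤ |b + sm f l1|} ≤ ENNReal.ofReal ((b ^ 2 + n * v) / a ^ 2) := by
  have : IsProbabilityMeasure P := ⟨hP⟩
  have hm : ∀ F : Ω → ℝ, AEStronglyMeasurable F P := fun F => (Measurable.of_discrete).aestronglyMeasurable
  have hi2 : Integrable (fun ω => f ω ^ 2) P := by
    refine ⟨hm _, ?_⟩
    rw [hasFiniteIntegral_iff_ofReal (Eventually.of_forall fun ω => by positivity)]
    exact lt_of_le_of_lt h2 ENNReal.ofReal_lt_top
  have hi1 : Integrable f P := by
    refine Integrable.mono' (g := fun ω => 1 + f ω ^ 2) (by fun_prop) (hm _) (Eventually.of_forall fun ω => ?_)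
    rw [Real.norm_eq_abs]
    nlinarith [sq_abs (f ω), sq_nonneg (|f ω| - 1), abs_nonneg (f ω)]
  have hsq : ∫ ω, f ω ^ 2 ∂P ≤ v := by
    rw [integral_eq_lintegral_of_nonneg_ae (Eventually.of_forall fun ω => by positivity) (hm _)]
    exact ENNReal.toReal_le_of_le_ofReal hv h2
  have ha2 : 0 < a ^ 2 := by positivity
  have one : ∀ b : ℝ, a ≤ |b| → ∀ n : ℕ, (1 : ℝ≥0∞) ≤ ENNReal.ofReal ((b ^ 2 + n * v) / a ^ 2) := by
    intro b hb n
    rw [← ENNReal.ofReal_one]
    refine ENNReal.ofReal_le_ofReal ?_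
    rw [one_le_div ha2]
    have h1 : a ^ 2 ≤ b ^ 2 := by
      rw [← sq_abs b]
      exact pow_le_pow_left₀ ha.le hb 2
    have : 0 ≤ (n : ℝ) * v := by positivity
    linarith
  induction n generalizing b with
  | zero =>
    rw [pr_zero]
    by_cases hb : a ≤ |b|
    · refine le_trans ?_ (one b hb 0)
      exact Set.indicator_le_self' (fun _ _ => zero_le) _
    · rw [Set.indicator_of_notMem]
      · exact zero_le
      rintro ⟨l1, hl1, h⟩
      rw [List.prefix_nil.1 hl1, sm_nil, add_zero] at h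
      exact hb h
  | succ n ih =>
    by_cases hb : a ≤ |b|
    · exact (pr_le_one hP _ _).trans (one b hb _)
    rw [pr_succ]
    have h1 : ∀ g : Ω, pr P n {l | g :: l ∈ {l : List Ω | ∃ l1, l1 <+: l ∧ a ≤ |b + sm f l1|}} ≤
        ENNReal.ofReal (((b + f g) ^ 2 + n * v) / a ^ 2) := by
      intro g
      refine (pr_mono ?_).trans (ih (b + f g))
      rintro l - ⟨l1, hl1, h⟩
      rcases List.prefix_cons_iff.1 hl1 with rfl | ⟨t, rfl, ht⟩
      · rw [sm_nil, add_zero] at h
        exact absurd h hb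
      · exact ⟨t, ht, by rwa [sm_cons, ← add_assoc] at h⟩
    refine (lintegral_mono h1).trans ?_
    have hint : Integrable (fun ω => ((b + f ω) ^ 2 + n * v) / a ^ 2) P := by
      have : (fun ω => ((b + f ω) ^ 2 + n * v) / a ^ 2) = fun ω => (b ^ 2 + n * v + 2 * b * f ω + f ω ^ 2) / a ^ 2 := by
        funext ω
        ring
      rw [this]
      fun_prop
    rw [← ofReal_integral_eq_lintegral_ofReal hint (Eventually.of_forall fun ω => by positivity)]
    refine ENNReal.ofReal_le_ofReal ?_
    have e : (fun ω => ((b + f ω) ^ 2 + n * v) / a ^ 2) = fun ω => ((b ^ 2 + n * v) + 2 * b * f ω + f ω ^ 2) / a ^ 2 := by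
      funext ω
      ring
    rw [e, integral_div, integral_add (by fun_prop) hi2, integral_add (by fun_prop) (by fun_prop), integral_const_mul, h0,
      integral_const]
    refine div_le_div_of_nonneg_right ?_ ha2.le
    simp only [measureReal_def, hP, ENNReal.toReal_one, smul_eq_mul, one_mul, mul_zero, add_zero]
    push_cast
    linarith

end Lst

end ZB
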