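import Pool.Agent.ZB.Basic
import Pool.Agent.ZB.ListA

/-!
# ZB, row D0: many straight bridges
-/

open MeasureTheory Set Filter
open scoped ENNReal Topology

namespace ZB

open Lst

theorem pr_IL (hEq : PrEq) (n : ℕ) (A : Set (List Wd)) : pr P n A = pr P n (A ∩ IL n) := by
  rw [hEq n A, hEq n (A ∩ IL n), inter_assoc, inter_self]

theorem one_le_pr_add (hP : Prob) (n : ℕ) (A : Set (List Wd)) :
    1 ≤ pr P n A + pr P n Aᶜ := by
  rw [← pr_univ hP n, ← union_compl_self A]
  exact pr_union n A Aᶜ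

theorem sm_Hf (l : List Wd) : sm Hf l = (Y l.flatten : ℝ) := by
  induction l with
  | nil => simp [sm]
  | cons a l ih => rw [sm_cons, ih]; simp [Hf]
theorem sm_Df (l : List Wd) : sm Df l = (X l.flatten : ℝ) := by
  induction l with
  | nil => simp [sm]
  | cons a l ih => rw [sm_cons, ih]; simp [Df]

/-- prefixes of a concatenation of pieces -/
theorem prefix_flatten {v : Wd} {l : List Wd} (h : v <+: l.flatten) :
    v = [] ∨ ∃ l1 g p, (l1 ++ [g]) <+: l ∧ p <+: g ∧ v = l1.flatten ++ p := by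
  induction l generalizing v with
  | nil => left; simpa using h
  | cons a l ih =>
    rw [List.flatten_cons] at h
    rcases prefix_append_cases h with h | ⟨y, hy, h', rfl⟩
    · right; exact ⟨[], a, v, ⟨l, by simp⟩, h, by simp⟩
    · right
      rcases ih h' with rfl | ⟨l1, g, p, ⟨t, ht⟩, hp, rfl⟩
      · exact absurd rfl hy
      · exact ⟨a :: l1, g, p, ⟨t, by simpa using ht⟩, hp, by simp⟩

/-- the good lists of `n` pieces -/
def GV (eta t R : ℝ) : Set (List Wd) :=
  {l | R / 40 ≤ sm Hf l ∧ sm Hf l ≤ 100 * R ∧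
    ∀ l1 g, (l1 ++ [g]) <+: l → |sm Df l1| + Wf g ≤ eta * max t (sm Hf l1) ∧
      |sm Df l1| + Wf g ≤ eta * R}

theorem GV_VS {eta t R : ℝ} (h0 : 0 < eta) (ht : 0 ≤ t) (hR : 0 ≤ R) {n : ℕ} {l : List Wd}
    (hl : l ∈ GV eta t R) (hI : l ∈ IL n) : l.flatten ∈ VS eta t R := by
  obtain ⟨a1, a2, a3⟩ := hl
  have hbr : Br l.flatten := Br.flatten fun g hg => (hI.2 g hg).br
  refine ⟨hbr, ?_, ?_, ?_⟩
  · rw [← sm_Hf]; exact a1
  · rw [← sm_Hf]; exact a2
  · intro v hv
    rcases prefix_flatten hv with rfl | ⟨l1, g, p, h1, hp, rfl⟩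
    · simp only [X_nil, Int.cast_zero, abs_zero]
      constructor <;> positivity
    · obtain ⟨b1, b2⟩ := a3 l1 g h1
      have hg : g ∈ l := h1.subset (by simp)
      have hXp : |(X p : ℝ)| ≤ Wf g := by
        have := abs_le_wid hp.isInfix
        unfold Wf; exact_mod_cast this
      have hYp : (0 : ℝ) ≤ Y p := by exact_mod_cast (hI.2 g hg).br.2.1.nonneg hp
      have e1 : |(X (l1.flatten ++ p) : ℝ)| ≤ |sm Df l1| + Wf g := by
        rw [X_append, sm_Df]; push_cast
        exact (abs_add_le _ _).trans (by linarith)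
      have e2 : sm Hf l1 ≤ (Y (l1.flatten ++ p) : ℝ) := by
        rw [Y_append, sm_Hf]; push_cast; linarith
      refine ⟨e1.trans (b1.trans ?_), e1.trans b2⟩
      exact mul_le_mul_of_nonneg_left (max_le_max le_rfl e2) h0.le

theorem sm_Hf_take {l : List Wd} (h : ∀ g ∈ l, Ir g) (n : ℕ) :
    sm Hf (l.take n) ≤ sm Hf l := by
  have h1 : l = l.take n ++ l.drop n := (List.take_append_drop n l).symm
  have h2 : sm Hf l = sm Hf (l.take n) + sm Hf (l.drop n) := by
    conv_lhs => rw [h1]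
    exact sm_append _ _ _
  have h3 : 0 ≤ sm Hf (l.drop n) := by
    rw [sm_Hf]
    have : Br (l.drop n).flatten := Br.flatten fun g hg => (h g (List.mem_of_mem_drop hg)).br
    exact_mod_cast this.Y_nonneg
  linarith

theorem pr_GV (hEq : PrEq) (hP : Prob) {eta t R : ℝ} {n N : ℕ} (hn : n ≤ N)
    (hn7 : 7 * N ≤ 10 * n)
    (h : pr P N (GoodR Hf Wf Df eta t R N)ᶜ ≤ ENNReal.ofReal 0.01) :
    ENNReal.ofReal 0.99 ≤ Ms 0 (List.flatten '' (GV eta t R ∩ IL n)) := by
  rw [← hEq n, ← pr_take hP hn]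
  have h1 : pr P N (GoodR Hf Wf Df eta t R N) ≤ pr P N {l | l.take n ∈ GV eta t R} := by
    rw [pr_IL hEq]
    refine pr_mono fun l hl hA => ?_
    obtain ⟨⟨b1, b2, b3⟩, hI⟩ := hA
    have htl : (l.take n).length = n := by rw [List.length_take]; omega
    refine ⟨b2 _ (List.take_prefix n l) (by rw [htl]; exact hn7), ?_, ?_⟩
    · exact (sm_Hf_take hI.2 n).trans b1
    · intro l1 g hg
      exact b3 l1 g (hg.trans (List.take_prefix n l))
  have h2 := one_le_pr_add hP N (GoodR Hf Wf Df eta t R N)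
  have h3 : (1 : ℝ≥0∞) ≤ pr P N {l | l.take n ∈ GV eta t R} + ENNReal.ofReal 0.01 :=
    h2.trans (add_le_add h1 h)
  have h4 : ENNReal.ofReal 0.99 + ENNReal.ofReal 0.01 = 1 := by
    rw [← ENNReal.ofReal_add (by norm_num) (by norm_num)]; norm_num
  rw [← h4] at h3
  exact (ENNReal.add_le_add_iff_right ENNReal.ofReal_ne_top).1 h3

theorem massV_of (hEq : PrEq) (hP : Prob) (hu : Uniq) : MassV := by
  intro eta t R N h0 ht hR hN h
  classical
  set S := (Finset.range (N + 1)).filter fun n => 7 * N ≤ 10 * n with hS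
  have hdis : Pairwise (Function.onFun Disjoint fun n : S =>
      List.flatten '' (GV eta t R ∩ IL n.1)) := by
    intro n n' hne
    refine disjoint_left.2 ?_
    rintro w ⟨l, hl, rfl⟩ ⟨l', hl', he⟩
    have := hu n'.1 n.1 l' hl'.2 l hl.2 he
    subst this
    exact hne (Subtype.ext (hl.2.1.symm.trans hl'.2.1))
  have h1 : (⋃ n : S, List.flatten '' (GV eta t R ∩ IL n.1)) ⊆ VS eta t R := by
    refine iUnion_subset fun n => ?_
    rintro w ⟨l, hl, rfl⟩
    exact GV_VS h0 ht hR hl.1 hl.2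
  have h2 := Ms_mono 0 h1
  rw [Ms_iUnion 0 _ hdis, tsum_fintype] at h2
  refine le_trans ?_ h2
  have h3 : ∀ n : S, ENNReal.ofReal 0.99 ≤ Ms 0 (List.flatten '' (GV eta t R ∩ IL n.1)) := by
    intro n
    have hn := n.2
    simp only [hS, Finset.mem_filter, Finset.mem_range] at hn
    exact pr_GV hEq hP (by omega) hn.2 h
  have hcard : 3 * N ≤ 10 * S.card := by
    have h4 : Finset.Icc ((7 * N + 9) / 10) N ⊆ S := by
      intro n hn
      rw [Finset.mem_Icc] at hn
      rw [hS, Finset.mem_filter, Finset.mem_range]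
      constructor
      · omega
      · omega
    have h5 := Finset.card_le_card h4
    rw [Nat.card_Icc] at h5
    omega
  calc ENNReal.ofReal (N / 4) ≤ ENNReal.ofReal (S.card * 0.99) := by
        refine ENNReal.ofReal_le_ofReal ?_
        have : (3 : ℝ) * N ≤ 10 * S.card := by exact_mod_cast hcard
        nlinarith
    _ = ∑ _ : S, ENNReal.ofReal 0.99 := by
        rw [Finset.sum_const, ENNReal.ofReal_mul (by positivity), nsmul_eq_mul,
          ENNReal.ofReal_natCast]
        simp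
    _ ≤ _ := Finset.sum_le_sum fun n _ => h3 n

end ZB
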