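import Pool.Agent.ZB.Pub
import Pool.Agent.ZB.FinalU

/-!
# ZB: the public statement for the square lattice, with the uniform large deviation bound
-/

set_option autoImplicit false
open scoped Classical
open Set

namespace ZB.Pub

theorem tailU_of (hF : FinalU) : ∃ C : ℝ, 0 < C ∧ ∀ f : ℕ → Fin 4 → ℂ,
    (∀ i a, f i a = Complex.I ^ (a : ℕ)) → ∀ v : ℝ, 0 < v → v ≤ 1 → ∀ n : ℕ,
      ((far f n (v * n)).card : ℝ) ≤
        C * Real.exp (- (n * Real.exp (- (C * v ^ (- C))))) * ((saw f n).card : ℝ) := by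
  obtain ⟨C, hC, h⟩ := hF
  refine ⟨C * 2 ^ C, by positivity, fun f hf v hv hv1 n => ?_⟩
  have h2C : (1 : ℝ) ≤ 2 ^ C := Real.one_le_rpow (by norm_num) hC.le
  have h1 := h (v / 2) (by positivity) (by linarith) n
  have h2 : (far f n (v * n)).card ≤ cFar n (v / 2 * n) := by
    have := far_card f hf n (v * n)
    rwa [show v * n / 2 = v / 2 * n by ring] at this
  have h3 : C * (v / 2) ^ (- C) ≤ C * 2 ^ C * v ^ (- (C * 2 ^ C)) := by
    have h4 : (v / 2) ^ (- C) = 2 ^ C * v ^ (- C) := by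
      rw [Real.div_rpow hv.le (by norm_num), Real.rpow_neg (by norm_num : (0:ℝ) ≤ 2)]
      field_simp
    rw [h4, ← mul_assoc]
    have h5 : v ^ (- C) ≤ v ^ (- (C * 2 ^ C)) :=
      Real.rpow_le_rpow_of_exponent_ge hv hv1 (by nlinarith)
    gcongr
  have hn0 : (0 : ℝ) ≤ n := Nat.cast_nonneg _
  rw [saw_card f hf]
  calc ((far f n (v * n)).card : ℝ) ≤ (cFar n (v / 2 * n) : ℝ) := by exact_mod_cast h2
    _ ≤ C * Real.exp (- (n * Real.exp (- (C * (v / 2) ^ (- C))))) * c n := h1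
    _ ≤ _ := by
      gcongr
      nlinarith

end ZB.Pub
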