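import Pool.Agent.ZB.Basic

/-!
# ZB, assembly: the rate for the inverse correlation length
-/

open MeasureTheory Set Filter
open scoped ENNReal Topology

namespace ZB

theorem rj_ge_one (hlo : MLo) (j : ℕ) : 1 ≤ rj j := by
  have h := hlo (lj j) (by unfold lj; positivity)
  unfold rj mj
  calc (1 : ℝ) = 2 ^ j * lj j := by unfold lj; rw [← mul_pow]; norm_num
    _ ≤ _ := by gcongr

theorem rj_mono (hdbl : MDbl) : Monotone rj := by
  refine monotone_nat_of_le_succ fun j => ?_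
  have h := hdbl (lj j) (by unfold lj; positivity)
  rw [show lj j / 2 = lj (j + 1) by unfold lj; rw [pow_succ]; ring] at h
  unfold rj mj
  rw [pow_succ]
  nlinarith [show (0:ℝ) < 2 ^ j by positivity]

/-- no straight scale, far out -/
theorem no_out (hV : MassV) (hF : MassF) (hL : MassL) (hG : Glue) :
    ∃ s : ℝ, ¬ Out P Hf Wf Df (1 / 10 ^ 5) s := by
  obtain ⟨C1, hC1, hL⟩ := hL
  obtain ⟨C2, hC2, hG⟩ := hG
  set K : ℝ := (112 * C1) ^ 2 * C2 with hK
  have hK0 : 0 < K := by positivity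
  refine ⟨max 100 ((K + 1) ^ 2), ?_⟩
  rintro ⟨t, R, n, N, hs, hR, hN, h1, h2⟩
  have ht100 : (100 : ℝ) ≤ t := (le_max_left _ _).trans hs
  have htK : (K + 1) ^ 2 ≤ t := (le_max_right _ _).trans hs
  have ht0 : 0 < t := by linarith
  have htR : t ≤ R := by
    refine le_trans ?_ hR
    calc t = t ^ 1 := (pow_one t).symm
      _ ≤ t ^ 10 := pow_le_pow_right₀ (by linarith) (by norm_num)
  have hR0 : 0 < R := by linarith
  have hN1 : t ^ 9 ≤ (N : ℝ) := by
    refine le_trans ?_ hN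
    have := Real.rpow_le_rpow (by positivity) hR (show (0:ℝ) ≤ 9 / 10 by norm_num)
    refine le_trans (le_of_eq ?_) this
    rw [← Real.rpow_natCast t 10, ← Real.rpow_mul ht0.le, ← Real.rpow_natCast]
    norm_num
  have hN100 : 100 ≤ N := by
    have : (100 : ℝ) ≤ N := by
      refine le_trans ?_ hN1
      calc (100 : ℝ) ≤ t ^ 1 := by simpa using ht100
        _ ≤ t ^ 9 := pow_le_pow_right₀ (by linarith) (by norm_num)
    exact_mod_cast this
  have hv := hV (1 / 10 ^ 5) t R N (by norm_num) ht0.le hR0.le hN100 h2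
  have hf := hF (1 / 10 ^ 5) t n (by norm_num) ht0 h1
  have hl := hL (1 / 10 ^ 5) t R (by norm_num) le_rfl ht100 hR
  have hg := hG (1 / 10 ^ 5) t R (by norm_num) le_rfl ht100 hR
  set L := Ms 0 (LS (1 / 10 ^ 5) t R) with hLd
  have hLtop : L ≠ ⊤ := by
    intro h
    rw [h] at hg
    simp at hg
  -- to the reals
  have h3 : ENNReal.ofReal ((N / 4) ^ 2 * (1 / 7)) ≤ ENNReal.ofReal (C1 * t ^ 4) * L := by
    refine le_trans ?_ hl
    rw [ENNReal.ofReal_mul (by positivity), ENNReal.ofReal_pow (by positivity)]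
    gcongr
  have h4 : (N / 4 : ℝ) ^ 2 * (1 / 7) ≤ C1 * t ^ 4 * L.toReal := by
    rw [← ENNReal.ofReal_toReal hLtop, ← ENNReal.ofReal_mul (by positivity)] at h3
    exact (ENNReal.ofReal_le_ofReal_iff (by positivity)).1 h3
  have h5 : L.toReal ^ 2 ≤ C2 * R ^ 2 := by
    rw [← ENNReal.ofReal_toReal hLtop, ← ENNReal.ofReal_pow (by positivity)] at hg
    exact (ENNReal.ofReal_le_ofReal_iff (by positivity)).1 hg
  have h6 : (N : ℝ) ^ 4 ≤ K * t ^ 8 * R ^ 2 := by
    have h7 : (N : ℝ) ^ 2 ≤ 112 * C1 * t ^ 4 * L.toReal := by nlinarith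
    calc (N : ℝ) ^ 4 = ((N : ℝ) ^ 2) ^ 2 := by ring
      _ ≤ (112 * C1 * t ^ 4 * L.toReal) ^ 2 := by gcongr
      _ = (112 * C1) ^ 2 * t ^ 8 * L.toReal ^ 2 := by ring
      _ ≤ (112 * C1) ^ 2 * t ^ 8 * (C2 * R ^ 2) := by gcongr
      _ = _ := by rw [hK]; ring
  -- R ^ 3.6 <= N ^ 4
  have h8 : R ^ (18 / 5 : ℝ) ≤ (N : ℝ) ^ 4 := by
    have h9 : (R ^ (9 / 10 : ℝ)) ^ 4 ≤ (N : ℝ) ^ 4 := by gcongr
    refine le_trans (le_of_eq ?_) h9
    rw [← Real.rpow_natCast (R ^ (9 / 10 : ℝ)), ← Real.rpow_mul hR0.le]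
    norm_num
  have h10 : R ^ (18 / 5 : ℝ) = R ^ (4 / 5 : ℝ) * R ^ (4 / 5 : ℝ) * R ^ 2 := by
    rw [← Real.rpow_natCast R 2, ← Real.rpow_add hR0, ← Real.rpow_add hR0]
    norm_num
  have h11 : t ^ 8 ≤ R ^ (4 / 5 : ℝ) := by
    have := Real.rpow_le_rpow (by positivity) hR (show (0:ℝ) ≤ 4 / 5 by norm_num)
    refine le_trans (le_of_eq ?_) this
    rw [← Real.rpow_natCast t 10, ← Real.rpow_mul ht0.le, ← Real.rpow_natCast]
    norm_num
  have h12 : R ^ (4 / 5 : ℝ) ≤ K := by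
    have h13 : R ^ (4 / 5 : ℝ) * (t ^ 8 * R ^ 2) ≤ K * (t ^ 8 * R ^ 2) := by
      calc R ^ (4 / 5 : ℝ) * (t ^ 8 * R ^ 2) ≤ R ^ (4 / 5 : ℝ) * (R ^ (4 / 5 : ℝ) * R ^ 2) := by
            gcongr
        _ = R ^ (18 / 5 : ℝ) := by rw [h10]; ring
        _ ≤ K * t ^ 8 * R ^ 2 := h8.trans h6
        _ = _ := by ring
    exact le_of_mul_le_mul_right h13 (by positivity)
  have h14 : K + 1 ≤ R ^ (4 / 5 : ℝ) := by
    have h15 : (K + 1) ^ 2 ≤ R := htK.trans htR
    have h16 := Real.rpow_le_rpow (by positivity) h15 (show (0:ℝ) ≤ 4 / 5 by norm_num)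
    refine le_trans ?_ h16
    rw [← Real.rpow_natCast (K + 1) 2, ← Real.rpow_mul (by positivity)]
    calc K + 1 = (K + 1) ^ (1 : ℝ) := (Real.rpow_one _).symm
      _ ≤ _ := Real.rpow_le_rpow_of_exponent_le (by linarith) (by norm_num)
  linarith

/-- growth along a geometric sequence of scales -/
theorem growth {r : ℕ → ℝ} (hm : Monotone r) (h1 : ∀ j, 1 ≤ r j) {d : ℝ} (hd : 0 < d) {C K0 : ℕ}
    (h : ∀ k, K0 ≤ k → (1 + d) * r k ≤ r (C * k) ∨ (2 : ℝ) ^ ((k : ℝ) / 20) ≤ r (C * k)) :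
    ∃ e B : ℝ, 0 < e ∧ 0 < B ∧ ∀ j : ℕ, 1 ≤ j → B * (j : ℝ) ^ e ≤ r j := by
  -- a larger C
  set D : ℕ := max C 2 with hD
  have hD2 : 2 ≤ D := le_max_right _ _
  have h' : ∀ k, K0 ≤ k → (1 + d) * r k ≤ r (D * k) ∨ (2 : ℝ) ^ ((k : ℝ) / 20) ≤ r (D * k) := by
    intro k hk
    have hmon : r (C * k) ≤ r (D * k) := hm (Nat.mul_le_mul_right k (le_max_left C 2))
    rcases h k hk with h2 | h2
    · exact Or.inl (h2.trans hmon)
    · exact Or.inr (h2.trans hmon)
  set K1 : ℕ := max K0 1 with hK1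
  have hK11 : 1 ≤ K1 := le_max_right _ _
  have hDr : (2 : ℝ) ≤ D := by exact_mod_cast hD2
  -- the exponent
  set e : ℝ := min 1 (Real.log (1 + d) / Real.log (2 * D)) with he
  have hlog : 0 < Real.log (2 * D) := Real.log_pos (by linarith)
  have hlogd : 0 < Real.log (1 + d) := Real.log_pos (by linarith)
  have he0 : 0 < e := lt_min one_pos (div_pos hlogd hlog)
  have he1 : e ≤ 1 := min_le_left _ _
  have hed : (2 * (D : ℝ)) ^ e ≤ 1 + d := by
    have h3 : e * Real.log (2 * D) ≤ Real.log (1 + d) := by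
      have := min_le_right (1 : ℝ) (Real.log (1 + d) / Real.log (2 * D))
      rw [← he] at this
      rwa [le_div_iff₀ hlog] at this
    rw [Real.rpow_def_of_pos (by linarith)]
    calc Real.exp (Real.log (2 * D) * e) ≤ Real.exp (Real.log (1 + d)) :=
          Real.exp_le_exp.2 (by linarith)
      _ = 1 + d := Real.exp_log (by linarith)
  set B : ℝ := 1 / (80 * D * K1) with hB
  have hK1r : (1 : ℝ) ≤ K1 := by exact_mod_cast hK11
  have hB0 : 0 < B := by positivity
  refine ⟨e, B, he0, hB0, fun j hj => ?_⟩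
  induction j using Nat.strong_induction_on with
  | _ j ih =>
    have hjr : (1 : ℝ) ≤ j := by exact_mod_cast hj
    by_cases hsmall : j < D * K1
    · have h4 : (j : ℝ) ^ e ≤ j := by
        calc (j : ℝ) ^ e ≤ (j : ℝ) ^ (1 : ℝ) := Real.rpow_le_rpow_of_exponent_le hjr he1
          _ = j := Real.rpow_one _
      have h5 : (j : ℝ) ≤ D * K1 := by exact_mod_cast hsmall.le
      calc B * (j : ℝ) ^ e ≤ B * (D * K1) := by gcongr; exact h4.trans h5
        _ ≤ 1 := by rw [hB]; field_simp; norm_num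
        _ ≤ r j := h1 j
    · push Not at hsmall
      set k := j / D with hk
      have hk1 : K1 ≤ k := by
        rw [hk, Nat.le_div_iff_mul_le (by omega)]; rw [mul_comm]; exact hsmall
      have hkpos : 1 ≤ k := hK11.trans hk1
      have hkj : D * k ≤ j := by rw [hk]; exact Nat.mul_div_le j D
      have hklt : k < j := by nlinarith
      have hj2 : j ≤ 2 * D * k := by
        have h6 : j < D * (k + 1) := by
          rw [hk]; exact Nat.lt_mul_div_succ j (by omega)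
        nlinarith
      have hkr : (1 : ℝ) ≤ k := by exact_mod_cast hkpos
      have hj2r : (j : ℝ) ≤ 2 * D * k := by exact_mod_cast hj2
      have hmon : r (D * k) ≤ r j := hm hkj
      have hje : (j : ℝ) ^ e ≤ (2 * D) ^ e * (k : ℝ) ^ e := by
        rw [← Real.mul_rpow (by positivity) (by positivity)]
        exact Real.rpow_le_rpow (by positivity) hj2r he0.le
      rcases h' k ((le_max_left _ _).trans hk1) with h7 | h7
      · have h8 := ih k hklt hkpos
        calc B * (j : ℝ) ^ e ≤ B * ((2 * D) ^ e * (k : ℝ) ^ e) := by gcongr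
          _ = (2 * D) ^ e * (B * (k : ℝ) ^ e) := by ring
          _ ≤ (1 + d) * (B * (k : ℝ) ^ e) := by gcongr
          _ ≤ (1 + d) * r k := by gcongr
          _ ≤ r (D * k) := h7
          _ ≤ r j := hmon
      · have h9 : (k : ℝ) / 40 ≤ (2 : ℝ) ^ ((k : ℝ) / 20) := by
          rw [Real.rpow_def_of_pos (by norm_num)]
          have h10 := Real.add_one_le_exp (Real.log 2 * ((k : ℝ) / 20))
          have h11 := Real.log_two_gt_d9
          nlinarith
        have h12 : (k : ℝ) ^ e ≤ k := by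
          calc (k : ℝ) ^ e ≤ (k : ℝ) ^ (1 : ℝ) := Real.rpow_le_rpow_of_exponent_le hkr he1
            _ = k := Real.rpow_one _
        have h13 : (2 * (D : ℝ)) ^ e ≤ 2 * D := by
          calc (2 * (D : ℝ)) ^ e ≤ (2 * (D : ℝ)) ^ (1 : ℝ) :=
                Real.rpow_le_rpow_of_exponent_le (by linarith) he1
            _ = 2 * D := Real.rpow_one _
        calc B * (j : ℝ) ^ e ≤ B * ((2 * D) ^ e * (k : ℝ) ^ e) := by gcongr
          _ ≤ B * ((2 * D) * k) := by gcongr
          _ ≤ (k : ℝ) / 40 := by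
            rw [hB, div_mul_eq_mul_div, div_le_div_iff₀ (by positivity) (by norm_num)]
            nlinarith [mul_nonneg (show (0:ℝ) ≤ D by positivity) (show (0:ℝ) ≤ k by positivity)]
          _ ≤ (2 : ℝ) ^ ((k : ℝ) / 20) := h9
          _ ≤ r (D * k) := h7
          _ ≤ r j := hmon

/-- the rate -/
theorem rate_of (hA : AnOut) (hB : BaseP) (hlo : MLo) (hdbl : MDbl) (hV : MassV) (hF : MassF)
    (hL : MassL) (hG : Glue) : Rate := by
  obtain ⟨s, hs⟩ := no_out hV hF hL hG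
  obtain ⟨d, hd, C, h⟩ := hA P Hf Lf Wf Df mj hB (1 / 10 ^ 5) (by norm_num) (by norm_num)
  obtain ⟨K0, hK0⟩ := (h s).exists_forall_of_atTop
  refine growth (rj_mono hdbl) (rj_ge_one hlo) hd (C := C) (K0 := K0) fun k hk => ?_
  rcases hK0 k hk with h1 | h1 | h1
  · exact absurd h1 hs
  · exact Or.inl h1
  · exact Or.inr h1

end ZB
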