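import Pool.Agent.ZB.A1
import Pool.Agent.ZB.A3
import Pool.Agent.ZB.A3P
import Pool.Agent.ZB.HW
import Pool.Agent.ZB.MFun
import Pool.Agent.ZB.F1
import Pool.Agent.ZB.FoldS
import Pool.Agent.ZB.TRow
import Pool.Agent.ZB.BaseP
import Pool.Agent.ZB.MassV
import Pool.Agent.ZB.MassF
import Pool.Agent.ZB.MassL
import Pool.Agent.ZB.Glue
import Pool.Agent.ZB.Rate
import Pool.Agent.ZB.Final
import Pool.Agent.ZB.PubU
import Pool.Agent.ZB.EZ

/-!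
# ZB: everything together
-/

namespace ZB

theorem hw1 : HW1 := HW.hw1 muLe
theorem hw2 : HW2 := HW.hw2 muLe uLe1
theorem prob : Prob := prob_of uLe1 hw1
theorem mU : MU := MF.mU uLe1
theorem mLo : MLo := MF.mLo uLe1
theorem tRow : TRow := tRow_of (f1 ren) F2_of mU mLo (MF.short_row uLe1)
theorem eZ : EZ := eZ_of ren mU (MF.mBest uLe1 uSup) mLo hw2
theorem baseP_all : BaseP :=
  baseP pInt prob mLo (MF.mMono uLe1) (MF.mDbl uLe1) (MF.mLim uLe1 hw1) (MF.m0 uLe1 hw1) eZ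
    tRow hw2
theorem rate_all (hA : AnOut) : Rate :=
  rate_of hA baseP_all mLo (MF.mDbl uLe1) (massV_of prEq prob uniq)
    (massF_of prob prEq uniq) massL (glue_of muLe uLe1)
theorem final_all (hA : AnOut) : Final := FN.final_of muLe mLo hw2 (rate_all hA)
theorem finalU_all (hA : AnOut) : FinalU := FN.finalU_of muLe mLo hw2 (rate_all hA)

open Pub in
/-- the public theorem for the square lattice -/
theorem pub_sq (hA : AnOut) : ∃ C e : ℝ, 0 < C ∧ 0 < e ∧ ∀ f : ℕ → Fin 4 → ℂ,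
    (∀ i a, f i a = Complex.I ^ (a : ℕ)) →
    (∀ v : ℝ, 0 < v → v ≤ 1 → ∀ n : ℕ, ((far f n (v * n)).card : ℝ) ≤
      C * Real.exp (- (n * Real.exp (- (C * v ^ (- C))))) * ((saw f n).card : ℝ)) ∧
    (∀ ε : ℝ, 0 < ε → ∃ B : ℝ, ∀ n : ℕ, 2 ≤ n →
      ((far f n (n / (Real.log n) ^ e)).card : ℝ) ≤
        B * Real.exp (- (n : ℝ) ^ (1 - ε)) * ((saw f n).card : ℝ)) ∧
    ∃ B : ℝ, ∀ n : ℕ, 2 ≤ n →
      mean f n (fun s => Re f s) ≤ B * (n : ℝ) ^ 2 / (Real.log n) ^ (2 * e) ∧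
      mean f n (fun s => Rg f s) ≤ B * (n : ℝ) ^ 2 / (Real.log n) ^ (2 * e) ∧
      mean f n (fun s => Rm f s) ≤ B * (n : ℝ) ^ 2 / (Real.log n) ^ (2 * e) := by
  obtain ⟨e, he, h⟩ := main_sq (final_all hA)
  obtain ⟨C, hC, h'⟩ := tailU_of (finalU_all hA)
  exact ⟨C, e, hC, he, fun f hf => ⟨h' f hf, (h f hf).1, (h f hf).2⟩⟩

end ZB
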