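import Pool.Agent.ZB.FoldU

/-!
# F1 for finite sums: few big folds are unlikely

* `ode_sum`: a quadratic differential inequality;
* `Hy`: the weights; `small_le`: `∑ F w * sm r w ≤ r (r+1)² exp (2 r s) (∑ F w)²` by the unfolding of
  one small fold;
* `f1_fin`: **mass of the irreducible bridges of height `S` with `Bs r w < (1-ε)(S-1)`**.
-/

set_option autoImplicit false

namespace ZBF

/-- **a quadratic differential inequality** -/
theorem ode_sum {ι : Type*} (F : Finset ι) (a u v : ι → ℝ) (ha : ∀ i ∈ F, 0 ≤ a i) {C s1 : ℝ}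
    (hs1 : 0 ≤ s1) (hCs : C * s1 ≤ 1 / 2) (h0 : ∑ i ∈ F, a i * Real.exp (-v i) ≤ 1)
    (hd : ∀ s, 0 ≤ s → s ≤ s1 → ∑ i ∈ F, a i * u i * Real.exp (s * u i - v i) ≤
      C * (∑ i ∈ F, a i * Real.exp (s * u i - v i)) ^ 2) :
    ∑ i ∈ F, a i * Real.exp (s1 * u i - v i) ≤ 2 := by
  classical
  by_cases hz : ∀ i ∈ F, a i = 0
  · rw [Finset.sum_eq_zero fun i hi => by rw [hz i hi, zero_mul]]
    norm_num
  push Not at hz
  obtain ⟨i0, hi0, hne⟩ := hz
  have hpos : ∀ s : ℝ, 0 < ∑ i ∈ F, a i * Real.exp (s * u i - v i) := fun s => by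
    refine Finset.sum_pos' (fun i hi => mul_nonneg (ha i hi) (Real.exp_pos _).le) ⟨i0, hi0, ?_⟩
    exact mul_pos (lt_of_le_of_ne (ha i0 hi0) (Ne.symm hne)) (Real.exp_pos _)
  set G : ℝ → ℝ := fun s => ∑ i ∈ F, a i * Real.exp (s * u i - v i) with hG
  have hder : ∀ s, HasDerivAt G (∑ i ∈ F, a i * u i * Real.exp (s * u i - v i)) s := by
    intro s
    have h1 : ∀ i ∈ F, HasDerivAt (fun s => a i * Real.exp (s * u i - v i))
        (a i * u i * Real.exp (s * u i - v i)) s := by
      intro i _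
      have h2 : HasDerivAt (fun s : ℝ => s * u i - v i) (u i) s := by
        simpa using ((hasDerivAt_id s).mul_const (u i)).sub_const (v i)
      have h3 := (h2.exp).const_mul (a i)
      refine h3.congr_deriv ?_
      ring
    have := HasDerivAt.fun_sum h1
    exact this
  set φ : ℝ → ℝ := fun s => -(G s)⁻¹ - C * s with hφ
  have hφd : ∀ s, HasDerivAt φ
      ((∑ i ∈ F, a i * u i * Real.exp (s * u i - v i)) / G s ^ 2 - C) s := by
    intro s
    have h1 := ((hder s).inv (hpos s).ne').neg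
    have h2 : HasDerivAt (fun s : ℝ => C * s) C s := by
      simpa using (hasDerivAt_id s).const_mul C
    refine (h1.sub h2).congr_deriv ?_
    ring
  have hanti : AntitoneOn φ (Set.Icc 0 s1) := by
    refine antitoneOn_of_deriv_nonpos (convex_Icc 0 s1)
      (fun s _ => (hφd s).continuousAt.continuousWithinAt)
      (fun s _ => (hφd s).differentiableAt.differentiableWithinAt) fun s hs => ?_
    rw [interior_Icc] at hs
    rw [(hφd s).deriv]
    have h1 := hd s hs.1.le hs.2.le
    have h2 : 0 < G s ^ 2 := pow_pos (hpos s) 2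
    rw [sub_nonpos, div_le_iff₀ h2]
    exact h1
  have h1 := hanti (Set.left_mem_Icc.2 hs1) (Set.right_mem_Icc.2 hs1) hs1
  have h2 : G 0 ≤ 1 := by
    have : G 0 = ∑ i ∈ F, a i * Real.exp (-v i) := by
      simp only [hG]
      refine Finset.sum_congr rfl fun i _ => ?_
      rw [zero_mul, zero_sub]
    rw [this]
    exact h0
  have h3 : 1 ≤ (G 0)⁻¹ := (one_le_inv₀ (hpos 0)).2 h2
  have h4 : 1 / 2 ≤ (G s1)⁻¹ := by
    simp only [hφ] at h1
    linarith
  have h5 := inv_anti₀ (by norm_num : (0 : ℝ) < 1 / 2) h4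
  rw [inv_inv] at h5
  have h6 : (1 / 2 : ℝ)⁻¹ = 2 := by norm_num
  rw [h6] at h5
  exact h5

/-- comparison of two finite sums by a left inverse -/
theorem sum_le_of_inv {α β : Type*} (S : Finset α) (T : Finset β) (F : α → ℝ) (G : β → ℝ)
    (ψ : β → α) (hG : ∀ y ∈ T, 0 ≤ G y) (h : ∀ x ∈ S, ∃ y ∈ T, ψ y = x ∧ F x ≤ G y) :
    ∑ x ∈ S, F x ≤ ∑ y ∈ T, G y := by
  classical
  rcases S.eq_empty_or_nonempty with hS | ⟨x0, hx0⟩
  · rw [hS, Finset.sum_empty]
    exact Finset.sum_nonneg hG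
  obtain ⟨y0, -⟩ := h x0 hx0
  have : Nonempty β := ⟨y0⟩
  choose! φ h1 h2 h3 using h
  refine (Finset.sum_le_sum h3).trans ?_
  rw [← Finset.sum_image (f := G) (g := φ) (fun x hx y hy h => by rw [← h2 x hx, ← h2 y hy, h])]
  refine Finset.sum_le_sum_of_subset_of_nonneg (fun y hy => ?_) fun y hy _ => hG y hy
  obtain ⟨x, hx, rfl⟩ := Finset.mem_image.1 hy
  exact h1 x hx

section

variable {σ : Type*} [Fintype σ]

/-- the words of length at most `N` -/
noncomputable def WN (σ : Type*) [Fintype σ] (N : ℕ) : Finset (List σ) :=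
  (List.finite_length_le σ N).toFinset

theorem mem_WN {N : ℕ} {w : List σ} : w ∈ WN σ N ↔ w.length ≤ N := by
  unfold WN
  rw [Set.Finite.mem_toFinset]
  exact Iff.rfl

variable (h : σ → ℤ) (rf : σ → σ)

open Classical in
/-- irreducible bridges of length at most `N` -/
noncomputable def IrN (N : ℕ) : Finset (List σ) := (WN σ N).filter (Irr h)

open Classical in
/-- bridges of height `k` and length at most `N` -/
noncomputable def BrN (N : ℕ) (k : ℕ) : Finset (List σ) :=
  (WN σ N).filter fun w => BrH h w ∧ hh h w = k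

/-- the weights -/
structure Hy (wt : List σ → ℝ) (M : ℝ) : Prop where
  hrf : ∀ s, h (rf s) = -h s
  inj : Function.Injective rf
  one : ∀ s, h s ≤ 1
  nn : ∀ w, 0 ≤ wt w
  mul : ∀ a b, wt (a ++ b) ≤ wt a * wt b
  flip : ∀ w, wt w ≤ wt (w.map rf)
  M0 : 0 ≤ M
  br : ∀ N k, ∑ w ∈ BrN h N k, wt w ≤ Real.exp (-(M * k))
  ir : ∀ N, ∑ w ∈ IrN h N, wt w * Real.exp (M * hh h w) ≤ 1

/-- the tilted weight -/
noncomputable def Fw (wt : List σ → ℝ) (M s c : ℝ) (r : ℕ) (w : List σ) : ℝ :=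
  wt w * Real.exp (M * hh h w) * Real.exp (s * (hh h w - 1) - c * Bs h r w)

variable {h rf} {wt : List σ → ℝ} {M : ℝ}

theorem Fw_nonneg (hy : Hy h rf wt M) (s c : ℝ) (r : ℕ) (w : List σ) :
    0 ≤ Fw h wt M s c r w := by
  have := hy.nn w
  unfold Fw
  positivity

open Classical in
/-- mass of the bridges of height at most `r` -/
theorem sum_br (hy : Hy h rf wt M) (N r : ℕ) :
    ∑ w ∈ (WN σ N).filter (fun w => BrH h w ∧ hh h w ≤ r), wt w * Real.exp (M * hh h w) ≤
      r + 1 := by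
  rw [← Finset.sum_fiberwise_of_maps_to (g := fun w => (hh h w).toNat) (t := Finset.range (r + 1))
    (fun w hw => by
      rw [Finset.mem_filter] at hw
      rw [Finset.mem_range]
      have := hw.2.2
      omega)]
  have h1 : ∀ k ∈ Finset.range (r + 1), ∑ w ∈ ((WN σ N).filter
      (fun w => BrH h w ∧ hh h w ≤ r)).filter (fun w => (hh h w).toNat = k),
      wt w * Real.exp (M * hh h w) ≤ 1 := by
    intro k _
    have h2 : ∀ w ∈ ((WN σ N).filter (fun w => BrH h w ∧ hh h w ≤ r)).filter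
        (fun w => (hh h w).toNat = k), w ∈ BrN h N k ∧ wt w * Real.exp (M * hh h w) =
        wt w * Real.exp (M * k) := by
      intro w hw
      rw [Finset.mem_filter, Finset.mem_filter] at hw
      have h3 := hw.1.2.1.nonneg
      have h4 : hh h w = (k : ℤ) := by have := hw.2; omega
      refine ⟨Finset.mem_filter.2 ⟨hw.1.1, hw.1.2.1, h4⟩, ?_⟩
      rw [h4, Int.cast_natCast]
    rw [Finset.sum_congr rfl fun w hw => (h2 w hw).2, ← Finset.sum_mul]
    have h5 := (Finset.sum_le_sum_of_subset_of_nonneg (fun w hw => (h2 w hw).1)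
      fun w _ _ => hy.nn w).trans (hy.br N k)
    calc _ ≤ Real.exp (-(M * k)) * Real.exp (M * k) :=
          mul_le_mul_of_nonneg_right h5 (Real.exp_pos _).le
      _ = 1 := by rw [← Real.exp_add, neg_add_cancel, Real.exp_zero]
  refine (Finset.sum_le_sum h1).trans (le_of_eq ?_)
  rw [Finset.sum_const, Finset.card_range, nsmul_eq_mul, mul_one]
  push_cast
  ring

open Classical in
/-- mass of the reflected bridges of height at most `r` -/
theorem sum_dn (hy : Hy h rf wt M) (N r : ℕ) :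
    ∑ w ∈ (WN σ N).filter (fun w => BrH h (w.map rf) ∧ 0 < hh h (w.map rf) ∧
      hh h (w.map rf) ≤ r), wt w * Real.exp (M * hh h w) ≤ r := by
  have hmap : ∀ w : List σ, hh h w = -hh h (w.map rf) := fun w => by
    rw [hh_map hy.hrf]
    ring
  have h0 : ∑ w ∈ (WN σ N).filter (fun w => BrH h (w.map rf) ∧ 0 < hh h (w.map rf) ∧
      hh h (w.map rf) ≤ r), wt w * Real.exp (M * hh h w) ≤
      ∑ w ∈ (WN σ N).filter (fun w => BrH h w ∧ 0 < hh h w ∧ hh h w ≤ r),
        wt w * Real.exp (-(M * hh h w)) := by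
    have e1 : ∀ w ∈ (WN σ N).filter (fun w => BrH h (w.map rf) ∧ 0 < hh h (w.map rf) ∧
        hh h (w.map rf) ≤ r), wt w * Real.exp (M * hh h w) ≤
        (fun q => wt q * Real.exp (-(M * hh h q))) (w.map rf) := by
      intro w _
      simp only
      rw [hmap w]
      push_cast
      rw [mul_neg]
      exact mul_le_mul_of_nonneg_right (hy.flip w) (Real.exp_pos _).le
    refine (Finset.sum_le_sum e1).trans ?_
    rw [← Finset.sum_image (f := fun q => wt q * Real.exp (-(M * hh h q))) (g := fun w => w.map rf)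
      (fun a _ b _ hab => List.map_injective_iff.2 hy.inj hab)]
    refine Finset.sum_le_sum_of_subset_of_nonneg (fun q hq => ?_) fun q _ _ =>
      mul_nonneg (hy.nn q) (Real.exp_pos _).le
    obtain ⟨w, hw, rfl⟩ := Finset.mem_image.1 hq
    rw [Finset.mem_filter] at hw ⊢
    refine ⟨?_, hw.2⟩
    rw [mem_WN] at hw ⊢
    rw [List.length_map]
    exact hw.1
  refine h0.trans ?_
  rw [← Finset.sum_fiberwise_of_maps_to (g := fun w => (hh h w).toNat) (t := Finset.Icc 1 r)
    (fun w hw => by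
      rw [Finset.mem_filter] at hw
      rw [Finset.mem_Icc]
      have := hw.2.2
      omega)]
  have h1 : ∀ k ∈ Finset.Icc 1 r, ∑ w ∈ ((WN σ N).filter
      (fun w => BrH h w ∧ 0 < hh h w ∧ hh h w ≤ r)).filter (fun w => (hh h w).toNat = k),
      wt w * Real.exp (-(M * hh h w)) ≤ 1 := by
    intro k _
    have h2 : ∀ w ∈ ((WN σ N).filter (fun w => BrH h w ∧ 0 < hh h w ∧ hh h w ≤ r)).filter
        (fun w => (hh h w).toNat = k), w ∈ BrN h N k ∧ wt w * Real.exp (-(M * hh h w)) =
        wt w * Real.exp (-(M * k)) := by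
      intro w hw
      rw [Finset.mem_filter, Finset.mem_filter] at hw
      have h3 := hw.1.2.1.nonneg
      have h4 : hh h w = (k : ℤ) := by have := hw.2; omega
      refine ⟨Finset.mem_filter.2 ⟨hw.1.1, hw.1.2.1, h4⟩, ?_⟩
      rw [h4, Int.cast_natCast]
    rw [Finset.sum_congr rfl fun w hw => (h2 w hw).2, ← Finset.sum_mul]
    have h5 := (Finset.sum_le_sum_of_subset_of_nonneg (fun w hw => (h2 w hw).1)
      fun w _ _ => hy.nn w).trans (hy.br N k)
    have h6 : Real.exp (-(M * k)) ≤ 1 := by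
      rw [Real.exp_le_one_iff]
      have := mul_nonneg hy.M0 (Nat.cast_nonneg (α := ℝ) k)
      linarith
    calc _ ≤ Real.exp (-(M * k)) * Real.exp (-(M * k)) :=
          mul_le_mul_of_nonneg_right h5 (Real.exp_pos _).le
      _ ≤ 1 := mul_le_one₀ h6 (Real.exp_pos _).le h6
  refine (Finset.sum_le_sum h1).trans (le_of_eq ?_)
  rw [Finset.sum_const, Nat.card_Icc, nsmul_eq_mul, mul_one]
  simp

/-- **the inequality of the unfolding** -/
theorem small_le (hy : Hy h rf wt M) (N r : ℕ) {s c : ℝ} (hs : 0 ≤ s) (hc : 0 ≤ c) :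
    ∑ w ∈ IrN h N, Fw h wt M s c r w * sm h r w ≤
      r * (r + 1) ^ 2 * Real.exp (2 * r * s) * (∑ w ∈ IrN h N, Fw h wt M s c r w) ^ 2 := by
  classical
  -- the left side as a sum over words with a marked small fold
  have hL : ∑ w ∈ IrN h N, Fw h wt M s c r w * sm h r w =
      ∑ x ∈ (IrN h N).sigma (fun w => (folds h w).filter fun p => fsz h w p ≤ r),
        Fw h wt M s c r x.1 := by
    rw [Finset.sum_sigma]
    refine Finset.sum_congr rfl fun w _ => ?_
    show _ = ∑ _p ∈ (folds h w).filter (fun p => fsz h w p ≤ r), Fw h wt M s c r w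
    rw [Finset.sum_const, nsmul_eq_mul, mul_comm]
    rfl
  set JS := (WN σ N).filter (fun w => BrH h w ∧ hh h w ≤ r) with hJS
  set QS := (WN σ N).filter (fun w => BrH h (w.map rf) ∧ 0 < hh h (w.map rf) ∧
      hh h (w.map rf) ≤ r) with hQS
  set g : List σ → ℝ := fun w => wt w * Real.exp (M * hh h w) with hg
  have hg0 : ∀ w, 0 ≤ g w := fun w => mul_nonneg (hy.nn w) (Real.exp_pos _).le
  have hF0 := Fw_nonneg hy s c r
  have hR : ∑ y ∈ IrN h N ×ˢ JS ×ˢ QS ×ˢ JS ×ˢ IrN h N,
      Fw h wt M s c r y.1 * g y.2.1 * g y.2.2.1 * g y.2.2.2.1 * Fw h wt M s c r y.2.2.2.2 *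
        Real.exp (2 * r * s) =
      (∑ w ∈ IrN h N, Fw h wt M s c r w) * (∑ w ∈ JS, g w) * (∑ w ∈ QS, g w) * (∑ w ∈ JS, g w) *
        (∑ w ∈ IrN h N, Fw h wt M s c r w) * Real.exp (2 * r * s) := by
    rw [← Finset.sum_mul]
    congr 1
    simp only [Finset.sum_product]
    simp only [← Finset.mul_sum, ← Finset.sum_mul]
  rw [hL]
  refine (sum_le_of_inv _ (IrN h N ×ˢ JS ×ˢ QS ×ˢ JS ×ˢ IrN h N) _
    (fun y => Fw h wt M s c r y.1 * g y.2.1 * g y.2.2.1 * g y.2.2.2.1 *
      Fw h wt M s c r y.2.2.2.2 * Real.exp (2 * r * s))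
    (fun y => ⟨y.1 ++ y.2.1 ++ y.2.2.1 ++ y.2.2.2.1 ++ y.2.2.2.2,
      ((y.1 ++ y.2.1).length, (y.1 ++ y.2.1).length + y.2.2.1.length)⟩) ?_ ?_).trans ?_
  · intro y _
    have := hF0 y.1
    have := hF0 y.2.2.2.2
    have := hg0 y.2.1
    have := hg0 y.2.2.1
    have := hg0 y.2.2.2.1
    positivity
  · rintro ⟨w, p⟩ hx
    rw [Finset.mem_sigma, Finset.mem_filter] at hx
    obtain ⟨hw, hp, hpr⟩ := hx
    simp only at hw hp hpr
    have hw2 := Finset.mem_filter.1 hw
    have hf : IsFold h w p.1 p.2 := mem_folds.1 hp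
    obtain ⟨p1, q1, m, q2, p2, e, l1, l2, i1, i2, b1, b2, b3, k1, k2, k3, k4, k5, k6, k7, k8⟩ :=
      unfold_one h hy.hrf hw2.2 hf (r := r) hpr
    have hlen : p1.length + q1.length + m.length + q2.length + p2.length ≤ N := by
      have h1 := mem_WN.1 hw2.1
      rw [← e] at h1
      simpa [add_assoc] using h1
    refine ⟨(p1, q1, m, q2, p2), ?_, ?_, ?_⟩
    · simp only [Finset.mem_product]
      refine ⟨Finset.mem_filter.2 ⟨mem_WN.2 (by omega), i1⟩,
        Finset.mem_filter.2 ⟨mem_WN.2 (by omega), b1, k1⟩,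
        Finset.mem_filter.2 ⟨mem_WN.2 (by omega), b3, k3, k4⟩,
        Finset.mem_filter.2 ⟨mem_WN.2 (by omega), b2, k2⟩,
        Finset.mem_filter.2 ⟨mem_WN.2 (by omega), i2⟩⟩
    · simp only
      have hlt := hf.lt
      rw [e, l1, l2]
      congr
      omega
    · simp only
      have hm : hh h m = -hh h (m.map rf) := by
        rw [hh_map hy.hrf]
        ring
      have h1 : wt w ≤ wt p1 * wt q1 * wt m * wt q2 * wt p2 := by
        rw [← e]
        refine (hy.mul _ _).trans ?_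
        refine mul_le_mul_of_nonneg_right ?_ (hy.nn _)
        refine (hy.mul _ _).trans ?_
        refine mul_le_mul_of_nonneg_right ?_ (hy.nn _)
        refine (hy.mul _ _).trans ?_
        refine mul_le_mul_of_nonneg_right ?_ (hy.nn _)
        exact hy.mul _ _
      have h2 : (hh h w : ℝ) = hh h p1 + hh h q1 + hh h m + hh h q2 + hh h p2 := by
        have : hh h w = hh h p1 + hh h q1 + hh h m + hh h q2 + hh h p2 := by
          rw [hm]
          linarith
        exact_mod_cast this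
      have h3 : Real.exp (M * hh h w) = Real.exp (M * hh h p1) * Real.exp (M * hh h q1) *
          Real.exp (M * hh h m) * Real.exp (M * hh h q2) * Real.exp (M * hh h p2) := by
        rw [← Real.exp_add, ← Real.exp_add, ← Real.exp_add, ← Real.exp_add, h2]
        congr 1
        ring
      have h4 : s * ((hh h w : ℝ) - 1) - c * Bs h r w ≤
          (s * ((hh h p1 : ℝ) - 1) - c * Bs h r p1) + (s * ((hh h p2 : ℝ) - 1) - c * Bs h r p2) +
            2 * r * s := by
        have e1 : (hh h q1 : ℝ) ≤ r := by exact_mod_cast k1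
        have e2 : (hh h q2 : ℝ) ≤ r := by exact_mod_cast k2
        have e3 : (1 : ℝ) ≤ -hh h m := by
          have : (1 : ℤ) ≤ -hh h m := by omega
          exact_mod_cast this
        have e4 : (Bs h r p1 : ℝ) + Bs h r p2 ≤ Bs h r w := by exact_mod_cast k8
        have e5 := mul_le_mul_of_nonneg_left e4 hc
        have e6 : s * ((hh h q1 : ℝ) + hh h q2 + hh h m + 1) ≤ s * (2 * r) :=
          mul_le_mul_of_nonneg_left (by linarith) hs
        rw [h2]
        nlinarith
      have h5 : Real.exp (s * ((hh h w : ℝ) - 1) - c * Bs h r w) ≤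
          Real.exp (s * ((hh h p1 : ℝ) - 1) - c * Bs h r p1) *
          Real.exp (s * ((hh h p2 : ℝ) - 1) - c * Bs h r p2) * Real.exp (2 * r * s) := by
        rw [← Real.exp_add, ← Real.exp_add]
        exact Real.exp_le_exp.2 h4
      unfold Fw
      simp only [hg]
      calc wt w * Real.exp (M * hh h w) * Real.exp (s * ((hh h w : ℝ) - 1) - c * Bs h r w)
          ≤ (wt p1 * wt q1 * wt m * wt q2 * wt p2) * Real.exp (M * hh h w) *
            (Real.exp (s * ((hh h p1 : ℝ) - 1) - c * Bs h r p1) *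
              Real.exp (s * ((hh h p2 : ℝ) - 1) - c * Bs h r p2) * Real.exp (2 * r * s)) := by
            refine mul_le_mul (mul_le_mul_of_nonneg_right h1 (Real.exp_pos _).le) h5
              (Real.exp_pos _).le ?_
            have := hy.nn p1
            have := hy.nn q1
            have := hy.nn m
            have := hy.nn q2
            have := hy.nn p2
            positivity
        _ = _ := by
            rw [h3]
            ring
  · rw [hR]
    have s1 := sum_br hy N r
    have s2 := sum_dn hy N r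
    have g1 : 0 ≤ ∑ w ∈ IrN h N, Fw h wt M s c r w := Finset.sum_nonneg fun w _ => hF0 w
    have g2 : 0 ≤ ∑ w ∈ JS, g w := Finset.sum_nonneg fun w _ => hg0 w
    have g3 : 0 ≤ ∑ w ∈ QS, g w := Finset.sum_nonneg fun w _ => hg0 w
    have hr0 : (0 : ℝ) ≤ r := Nat.cast_nonneg r
    calc _ = ((∑ w ∈ JS, g w) * (∑ w ∈ QS, g w) * (∑ w ∈ JS, g w)) * (Real.exp (2 * r * s) *
          (∑ w ∈ IrN h N, Fw h wt M s c r w) ^ 2) := by ring
      _ ≤ ((r + 1) * r * (r + 1)) * (Real.exp (2 * r * s) *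
          (∑ w ∈ IrN h N, Fw h wt M s c r w) ^ 2) := by
          refine mul_le_mul_of_nonneg_right ?_ (by positivity)
          refine mul_le_mul (mul_le_mul s1 s2 g3 (by positivity)) s1 g2 (by positivity)
      _ = _ := by ring

open Classical in
/-- **F1 for finite sums** -/
theorem f1_fin (hy : Hy h rf wt M) (N : ℕ) {r : ℕ} (hr : 1 ≤ r) {eps : ℝ} (h0 : 0 < eps)
    (S : ℕ) :
    ∑ w ∈ (IrN h N).filter (fun w => hh h w = S ∧ (Bs h r w : ℝ) < (1 - eps) * ((S : ℝ) - 1)),
      wt w * Real.exp (M * hh h w) ≤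
      2 * Real.exp (-(eps ^ 2 * ((S : ℝ) - 1) / (40 * (r : ℝ) ^ 4))) := by
  have hr1 : (1 : ℝ) ≤ r := by exact_mod_cast hr
  have hr4 : 0 < (r : ℝ) ^ 4 := by positivity
  obtain ⟨s1, hs1⟩ : ∃ s1 : ℝ, s1 = 1 / (40 * (r : ℝ) ^ 4) := ⟨_, rfl⟩
  have hs10 : 0 < s1 := by rw [hs1]; positivity
  have hs1r : 2 * r * s1 ≤ 1 / 20 := by
    rw [hs1]
    rw [mul_one_div, div_le_div_iff₀ (by positivity) (by norm_num)]
    have : (r : ℝ) ≤ (r : ℝ) ^ 4 := le_self_pow₀ hr1 (by norm_num)
    linarith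
  obtain ⟨C, hC⟩ : ∃ C : ℝ, C = (r : ℝ) ^ 2 * (r + 1) ^ 2 * Real.exp (1 / 20) := ⟨_, rfl⟩
  have hCs : C * s1 ≤ 1 / 2 := by
    have e1 : Real.exp (1 / 20) ≤ 2 := by
      have e2 : (1 : ℝ) / 20 ≤ Real.log 2 := by
        have := Real.log_two_gt_d9
        linarith
      have := Real.exp_le_exp.2 e2
      rwa [Real.exp_log (by norm_num)] at this
    have e3 : (r : ℝ) ^ 2 * (r + 1) ^ 2 ≤ 4 * (r : ℝ) ^ 4 := by
      have : ((r : ℝ) + 1) ^ 2 ≤ (2 * r) ^ 2 := pow_le_pow_left₀ (by positivity) (by linarith) 2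
      nlinarith [sq_nonneg (r : ℝ)]
    have e4 : C ≤ 8 * (r : ℝ) ^ 4 := by
      rw [hC]
      have : 0 < Real.exp (1 / 20) := Real.exp_pos _
      nlinarith
    calc C * s1 ≤ 8 * (r : ℝ) ^ 4 * s1 := mul_le_mul_of_nonneg_right e4 hs10.le
      _ = 1 / 5 := by rw [hs1]; field_simp; norm_num
      _ ≤ 1 / 2 := by norm_num
  have key := ode_sum (IrN h N) (fun w => wt w * Real.exp (M * hh h w))
    (fun w => (hh h w : ℝ) - 1 - Bs h r w) (fun w => eps * s1 * Bs h r w)
    (fun w _ => mul_nonneg (hy.nn w) (Real.exp_pos _).le) (C := C) hs10.le hCs ?_ ?_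
  · -- conclusion
    have e1 : ∀ w ∈ (IrN h N).filter (fun w => hh h w = S ∧
        (Bs h r w : ℝ) < (1 - eps) * ((S : ℝ) - 1)), wt w * Real.exp (M * hh h w) ≤
        Real.exp (-(eps ^ 2 * ((S : ℝ) - 1) / (40 * (r : ℝ) ^ 4))) *
        (wt w * Real.exp (M * hh h w) * Real.exp (s1 * ((hh h w : ℝ) - 1 - Bs h r w) -
          eps * s1 * Bs h r w)) := by
      intro w hw
      rw [Finset.mem_filter] at hw
      obtain ⟨-, hS, hB⟩ := hw
      have hS' : (hh h w : ℝ) = S := by rw [hS]; simp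
      have e2 : 0 ≤ -(eps ^ 2 * ((S : ℝ) - 1) / (40 * (r : ℝ) ^ 4)) +
          (s1 * ((hh h w : ℝ) - 1 - Bs h r w) - eps * s1 * Bs h r w) := by
        have e3 : eps ^ 2 * ((S : ℝ) - 1) / (40 * (r : ℝ) ^ 4) = s1 * (eps ^ 2 * ((S : ℝ) - 1)) := by
          rw [hs1]
          ring
        rw [e3, hS']
        have e4 : (1 + eps) * (Bs h r w : ℝ) ≤ (1 + eps) * ((1 - eps) * ((S : ℝ) - 1)) :=
          mul_le_mul_of_nonneg_left hB.le (by linarith)
        have e5 : 0 ≤ s1 * ((1 + eps) * ((1 - eps) * ((S : ℝ) - 1)) - (1 + eps) * (Bs h r w : ℝ)) :=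
          mul_nonneg hs10.le (by linarith)
        nlinarith
      have e6 : (1 : ℝ) ≤ Real.exp (-(eps ^ 2 * ((S : ℝ) - 1) / (40 * (r : ℝ) ^ 4))) *
          Real.exp (s1 * ((hh h w : ℝ) - 1 - Bs h r w) - eps * s1 * Bs h r w) := by
        rw [← Real.exp_add]
        exact Real.one_le_exp e2
      have e7 : 0 ≤ wt w * Real.exp (M * hh h w) := mul_nonneg (hy.nn w) (Real.exp_pos _).le
      calc wt w * Real.exp (M * hh h w) = wt w * Real.exp (M * hh h w) * 1 := (mul_one _).symm
        _ ≤ wt w * Real.exp (M * hh h w) *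
            (Real.exp (-(eps ^ 2 * ((S : ℝ) - 1) / (40 * (r : ℝ) ^ 4))) *
            Real.exp (s1 * ((hh h w : ℝ) - 1 - Bs h r w) - eps * s1 * Bs h r w)) :=
            mul_le_mul_of_nonneg_left e6 e7
        _ = _ := by ring
    refine (Finset.sum_le_sum e1).trans ?_
    rw [← Finset.mul_sum, mul_comm (2 : ℝ)]
    refine mul_le_mul_of_nonneg_left ?_ (Real.exp_pos _).le
    refine le_trans (Finset.sum_le_sum_of_subset_of_nonneg (Finset.filter_subset _ _)
      fun w _ _ => ?_) key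
    have := hy.nn w
    positivity
  · -- at zero
    refine le_trans (Finset.sum_le_sum fun w _ => ?_) (hy.ir N)
    have e1 : Real.exp (-(eps * s1 * Bs h r w)) ≤ 1 := by
      rw [Real.exp_le_one_iff]
      have : 0 ≤ eps * s1 * (Bs h r w : ℝ) := by positivity
      linarith
    exact mul_le_of_le_one_right (mul_nonneg (hy.nn w) (Real.exp_pos _).le) e1
  · -- the differential inequality
    intro s hs hs2
    have e1 : ∀ w ∈ IrN h N, wt w * Real.exp (M * hh h w) * ((hh h w : ℝ) - 1 - Bs h r w) *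
        Real.exp (s * ((hh h w : ℝ) - 1 - Bs h r w) - eps * s1 * Bs h r w) ≤
        r * (Fw h wt M s (s + eps * s1) r w * sm h r w) := by
      intro w hw
      have hw2 := (Finset.mem_filter.1 hw).2
      have e2 := hw2.cover_card hy.one r
      have e3 : (hh h w : ℝ) - 1 - Bs h r w ≤ r * sm h r w := by
        have : (hh h w : ℝ) - 1 ≤ Bs h r w + r * sm h r w := by exact_mod_cast e2
        linarith
      have e4 : s * ((hh h w : ℝ) - 1 - Bs h r w) - eps * s1 * Bs h r w =
          s * ((hh h w : ℝ) - 1) - (s + eps * s1) * Bs h r w := by ring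
      rw [e4]
      have e5 := Fw_nonneg hy s (s + eps * s1) r w
      calc _ = Fw h wt M s (s + eps * s1) r w * ((hh h w : ℝ) - 1 - Bs h r w) := by
            unfold Fw
            ring
        _ ≤ Fw h wt M s (s + eps * s1) r w * (r * sm h r w) := mul_le_mul_of_nonneg_left e3 e5
        _ = _ := by ring
    refine (Finset.sum_le_sum e1).trans ?_
    rw [← Finset.mul_sum]
    have e6 := small_le hy N r hs (c := s + eps * s1) (by positivity)
    have e7 : ∑ w ∈ IrN h N, wt w * Real.exp (M * hh h w) *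
        Real.exp (s * ((hh h w : ℝ) - 1 - Bs h r w) - eps * s1 * Bs h r w) =
        ∑ w ∈ IrN h N, Fw h wt M s (s + eps * s1) r w := by
      refine Finset.sum_congr rfl fun w _ => ?_
      unfold Fw
      congr 2
      ring
    rw [e7]
    have e8 : Real.exp (2 * r * s) ≤ Real.exp (1 / 20) := by
      refine Real.exp_le_exp.2 (le_trans ?_ hs1r)
      exact mul_le_mul_of_nonneg_left hs2 (by positivity)
    have e9 : 0 ≤ (∑ w ∈ IrN h N, Fw h wt M s (s + eps * s1) r w) ^ 2 := sq_nonneg _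
    calc (r : ℝ) * ∑ w ∈ IrN h N, Fw h wt M s (s + eps * s1) r w * sm h r w
        ≤ r * (r * (r + 1) ^ 2 * Real.exp (2 * r * s) *
          (∑ w ∈ IrN h N, Fw h wt M s (s + eps * s1) r w) ^ 2) :=
          mul_le_mul_of_nonneg_left e6 (by positivity)
      _ ≤ r * (r * (r + 1) ^ 2 * Real.exp (1 / 20) *
          (∑ w ∈ IrN h N, Fw h wt M s (s + eps * s1) r w) ^ 2) := by
          refine mul_le_mul_of_nonneg_left ?_ (by positivity)
          exact mul_le_mul_of_nonneg_right (mul_le_mul_of_nonneg_left e8 (by positivity)) e9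
      _ = _ := by
          rw [hC]
          ring

end

end ZBF
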