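import Pool.Agent.ZB.WinG

/-!
# ZB, row C: `anOut : AnOut`
-/

set_option autoImplicit false

noncomputable section

namespace ZBW

open MeasureTheory Real ZB Filter
open scoped ENNReal Topology

/-- the bound of the exceptional sets -/
def ej (mm : ℕ → ℝ) (η : ℝ) (j : ℕ) : ℝ := 4 * 2 ^ j * exp (-(η / mm j) ^ (1 / 40 : ℝ))

lemma ej0 (mm : ℕ → ℝ) (η : ℝ) (j : ℕ) : 0 ≤ ej mm η j := by unfold ej; positivity

/-- a stretched exponential beats the cube -/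
lemma thr {η : ℝ} (hη : 0 < η) : ∃ X0 : ℝ, 1 ≤ X0 ∧ ∀ ξ : ℝ, X0 ≤ ξ → 4 * ξ ^ 3 * exp (-(η * ξ) ^ (1 / 40 : ℝ)) ≤ 1 := by
  have h1 := tendsto_rpow_mul_exp_neg_mul_atTop_nhds_zero 120 1 one_pos
  have h2 : ∀ᶠ y : ℝ in atTop, y ^ (120 : ℝ) * exp (-1 * y) ≤ η ^ 3 / 4 :=
    (h1.eventually_lt_const (show (0 : ℝ) < η ^ 3 / 4 by positivity)).mono fun y hy => hy.le
  have h3 : Tendsto (fun ξ : ℝ => (η * ξ) ^ (1 / 40 : ℝ)) atTop atTop :=
    (tendsto_rpow_atTop (by norm_num)).comp (tendsto_id.const_mul_atTop hη)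
  obtain ⟨X1, hX1⟩ := eventually_atTop.1 (h3.eventually h2)
  refine ⟨max 1 X1, le_max_left _ _, fun ξ hξ => ?_⟩
  have h4 := hX1 ξ ((le_max_right _ _).trans hξ)
  have hξ1 : 1 ≤ ξ := (le_max_left _ _).trans hξ
  have hp : 0 < η * ξ := by positivity
  rw [← rpow_mul hp.le, show (1 / 40 * 120 : ℝ) = ((3 : ℕ) : ℝ) by norm_num, rpow_natCast, mul_pow] at h4
  have e1 : -1 * (η * ξ) ^ (1 / 40 : ℝ) = -(η * ξ) ^ (1 / 40 : ℝ) := by ring
  rw [e1] at h4
  have h5 : 0 < η ^ 3 := by positivity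
  have h6 : η ^ 3 * (4 * ξ ^ 3 * exp (-(η * ξ) ^ (1 / 40 : ℝ))) ≤ η ^ 3 * 1 := by nlinarith
  exact le_of_mul_le_mul_left h6 h5

variable {Ω : Type} [MeasurableSpace Ω] {P : Measure Ω} {H L W D : Ω → ℝ} {mm : ℕ → ℝ}

/-- what the window of base `k` needs of `X = 2 ^ (k / 20)` -/
structure Big (η d s X : ℝ) (mm : ℕ → ℝ) (k : ℕ) : Prop where
  k1 : 1 ≤ k
  X1 : 1 ≤ X
  Xk : X ^ 20 = 2 ^ k
  c1 : 4 / d ≤ X
  c2 : 1 / η ≤ X
  c3 : 10 ^ 11 / η ^ 2 ≤ X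
  c4 : ∀ ξ : ℝ, X ≤ ξ → 4 * ξ ^ 3 * exp (-(η * ξ) ^ (1 / 40 : ℝ)) ≤ 1
  c5 : (1 / 5 : ℝ) ^ k ≤ 1 / 10 ^ 11
  c6 : ∀ j, k ≤ j → mm j ≤ 1 ∧ s ≤ 1 / mm j
  c7 : 5 ≤ X

/-- what is known on the window -/
structure Know (η d X : ℝ) (mm : ℕ → ℝ) (k : ℕ) : Prop where
  d0 : 0 < d
  d1 : d ≤ 1 / 10 ^ 11
  inv : ∀ j, 8 * k ≤ j → j ≤ 400 * k → X ^ 159 ≤ 1 / mm j
  up : ∀ j, j ≤ 400 * k → mm j ≤ (1 / 2) ^ j * X
  hm : ∀ j, 8 * k ≤ j → j ≤ 400 * k → mm j ≤ d / 2 * mm k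
  h7 : ∀ j, 8 * k ≤ j → j ≤ 400 * k → (1 / mm k) ^ 7 ≤ η / mm j
  le1 : ∀ j, 8 * k ≤ j → j ≤ 400 * k → mm j ≤ η
  le5 : ∀ j, 8 * k ≤ j → j ≤ 400 * k → mm j ≤ 1 / 5
  ee : ∀ j, 8 * k ≤ j → j ≤ 400 * k → ej mm η j ≤ mm j

lemma pw {X : ℝ} {k : ℕ} (h : X ^ 20 = 2 ^ k) (c : ℕ) : (2 : ℝ) ^ (c * k) = X ^ (20 * c) := by
  rw [mul_comm c k, pow_mul, ← h, ← pow_mul]

lemma know (h : BE P H L W D mm) {η d s X : ℝ} (hη : 0 < η) (hη1 : η ≤ 1 / 50) (hd : d = η ^ 4 / 10 ^ 11) {k : ℕ}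
    (hB : Big η d s X mm k) (h1 : rr mm (400 * k) < (1 + d) * rr mm k) (h2 : rr mm (400 * k) < X) :
    Know η d X mm k := by
  have hX := hB.X1
  have hk := hB.k1
  have X0 : 0 < X := by linarith
  have d0 : 0 < d := by rw [hd]; positivity
  have d1 : d ≤ 1 / 10 ^ 11 := by
    rw [hd]
    have : η ^ 4 ≤ 1 := pow_le_one₀ hη.le (by linarith)
    exact div_le_div_of_nonneg_right this (by positivity)
  have up : ∀ j, j ≤ 400 * k → mm j ≤ (1 / 2) ^ j * X := fun j hj => by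
    rw [BE.mm_eq mm j]
    exact mul_le_mul_of_nonneg_left ((h.r_mono hj).trans h2.le) (by positivity)
  have half : ∀ j, 8 * k ≤ j → (1 / 2 : ℝ) ^ j * X ^ 160 ≤ 1 := fun j hj => by
    have g1 : (1 / 2 : ℝ) ^ j ≤ (1 / 2) ^ (8 * k) := pow_le_pow_of_le_one (by norm_num) (by norm_num) hj
    have g2 := pw hB.Xk 8
    norm_num only at g2
    rw [← g2]
    calc (1 / 2 : ℝ) ^ j * 2 ^ (8 * k) ≤ (1 / 2) ^ (8 * k) * 2 ^ (8 * k) :=
          mul_le_mul_of_nonneg_right g1 (by positivity)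
      _ = 1 := by rw [← mul_pow]; norm_num
  have inv : ∀ j, 8 * k ≤ j → j ≤ 400 * k → X ^ 159 ≤ 1 / mm j := fun j hj hj' => by
    rw [le_div_iff₀ (h.m0 j)]
    have g1 := up j hj'
    have g2 := half j hj
    calc X ^ 159 * mm j ≤ X ^ 159 * ((1 / 2) ^ j * X) := mul_le_mul_of_nonneg_left g1 (by positivity)
      _ = (1 / 2) ^ j * X ^ 160 := by ring
      _ ≤ 1 := g2
  have invX : ∀ j, 8 * k ≤ j → j ≤ 400 * k → X ≤ 1 / mm j := fun j hj hj' =>
    (le_self_pow₀ hX (by norm_num)).trans (inv j hj hj')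
  have hm : ∀ j, 8 * k ≤ j → j ≤ 400 * k → mm j ≤ d / 2 * mm k := fun j hj hj' => by
    have g0 := h.m0 k
    have g1 : rr mm j ≤ 2 * rr mm k := by
      have := (h.r_mono hj').trans h1.le
      have := h.r0 k
      nlinarith
    have g2 : (1 / 2 : ℝ) ^ j ≤ (1 / 2) ^ (8 * k) := pow_le_pow_of_le_one (by norm_num) (by norm_num) hj
    have g3 : (1 / 2 : ℝ) ^ (8 * k) = (1 / 2) ^ (7 * k) * (1 / 2) ^ k := by rw [← pow_add]; congr 1; omega
    have g4 : (1 / 2 : ℝ) ^ (7 * k) * X ^ 140 = 1 := by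
      have := pw hB.Xk 7
      norm_num only at this
      rw [← this, ← mul_pow]
      norm_num
    have g5 : X ≤ X ^ 140 := le_self_pow₀ hX (by norm_num)
    have g6 : 4 ≤ d * X ^ 140 := by
      have := (div_le_iff₀ d0).1 (hB.c1.trans g5)
      linarith
    have g7 : (1 / 2 : ℝ) ^ (7 * k) * 4 ≤ d := by
      calc (1 / 2 : ℝ) ^ (7 * k) * 4 ≤ (1 / 2) ^ (7 * k) * (d * X ^ 140) :=
            mul_le_mul_of_nonneg_left g6 (by positivity)
        _ = d * ((1 / 2) ^ (7 * k) * X ^ 140) := by ring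
        _ = d := by rw [g4, mul_one]
    calc mm j = (1 / 2) ^ j * rr mm j := BE.mm_eq mm j
      _ ≤ (1 / 2) ^ (8 * k) * (2 * rr mm k) := mul_le_mul g2 g1 (h.r0 j).le (by positivity)
      _ = (1 / 2) ^ (7 * k) * 4 / 2 * ((1 / 2) ^ k * rr mm k) := by rw [g3]; ring
      _ = (1 / 2) ^ (7 * k) * 4 / 2 * mm k := by rw [← BE.mm_eq mm k]
      _ ≤ d / 2 * mm k := mul_le_mul_of_nonneg_right (by linarith) g0.le
  have hX1 : 1 ≤ η * X := by
    have := (div_le_iff₀ hη).1 hB.c2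
    linarith
  have h7 : ∀ j, 8 * k ≤ j → j ≤ 400 * k → (1 / mm k) ^ 7 ≤ η / mm j := fun j hj hj' => by
    have g0 := h.m0 k
    have g1 : 1 / mm k ≤ 2 ^ k := by
      rw [div_le_iff₀ g0]
      exact h.one_le_r k
    have g2 : (1 / mm k) ^ 7 ≤ X ^ 140 := by
      calc (1 / mm k) ^ 7 ≤ (2 ^ k) ^ 7 := pow_le_pow_left₀ (by positivity) g1 7
        _ = 2 ^ (7 * k) := by rw [← pow_mul, mul_comm]
        _ = X ^ 140 := pw hB.Xk 7
    have g3 := inv j hj hj'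
    refine g2.trans ?_
    calc X ^ 140 = X ^ 140 * 1 := by ring
      _ ≤ X ^ 140 * (η * X) := mul_le_mul_of_nonneg_left hX1 (by positivity)
      _ = η * X ^ 141 := by ring
      _ ≤ η * X ^ 159 := mul_le_mul_of_nonneg_left (pow_le_pow_right₀ hX (by norm_num)) hη.le
      _ ≤ η * (1 / mm j) := mul_le_mul_of_nonneg_left g3 hη.le
      _ = η / mm j := by ring
  have le1 : ∀ j, 8 * k ≤ j → j ≤ 400 * k → mm j ≤ η := fun j hj hj' => by
    have g0 := h.m0 j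
    have g1 := invX j hj hj'
    rw [le_div_iff₀ g0] at g1
    nlinarith
  have le5 : ∀ j, 8 * k ≤ j → j ≤ 400 * k → mm j ≤ 1 / 5 := fun j hj hj' => by
    have := le1 j hj hj'
    linarith
  refine ⟨d0, d1, inv, up, hm, h7, le1, le5, fun j hj hj' => ?_⟩
  have g0 := h.m0 j
  have g1 := invX j hj hj'
  obtain ⟨ξ, hξ⟩ : ∃ ξ : ℝ, ξ = 1 / mm j := ⟨_, rfl⟩
  have ξ0 : 0 < ξ := by rw [hξ]; positivity
  have em : mm j = 1 / ξ := by rw [hξ]; field_simp
  rw [← hξ] at g1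
  have g2 : (2 : ℝ) ^ j ≤ ξ ^ 2 := by
    have g3 := (h.r_mono hj').trans h2.le
    unfold rr at g3
    rw [em, mul_one_div, div_le_iff₀ ξ0] at g3
    nlinarith
  have g4 := hB.c4 ξ g1
  unfold ej
  have e1 : η / mm j = η * ξ := by rw [hξ]; ring
  rw [e1, em, le_div_iff₀ ξ0]
  refine le_trans ?_ g4
  calc 4 * 2 ^ j * exp (-(η * ξ) ^ (1 / 40 : ℝ)) * ξ = 2 ^ j * (4 * exp (-(η * ξ) ^ (1 / 40 : ℝ)) * ξ) := by ring
    _ ≤ ξ ^ 2 * (4 * exp (-(η * ξ) ^ (1 / 40 : ℝ)) * ξ) := mul_le_mul_of_nonneg_right g2 (by positivity)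
    _ = _ := by ring

lemma wn [IsProbabilityMeasure P] (h : BE P H L W D mm)
    {η d s X : ℝ} (hη : 0 < η) (hη1 : η ≤ 1 / 50) (hd : d = η ^ 4 / 10 ^ 11) {k : ℕ} (hT : BT P H L mm d k)
    (hW : BW P L W mm d k) (hB : Big η d s X mm k) (h1 : rr mm (400 * k) < (1 + d) * rr mm k)
    (h2 : rr mm (400 * k) < X) : Wn P H L W D mm η (ej mm η) (8 * k) (392 * k) (η ^ 2 / 10 ^ 9) := by
  have hK := know h hη hη1 hd hB h1 h2
  have hX := hB.X1
  have hk := hB.k1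
  have X0 : 0 < X := by linarith
  have d0 := hK.d0
  have d1 := hK.d1
  have e400 : 8 * k + 392 * k = 400 * k := by omega
  have hr : rr mm (8 * k + 392 * k) ≤ (1 + d) * rr mm (8 * k) := by
    rw [e400]
    refine h1.le.trans (mul_le_mul_of_nonneg_left (h.r_mono (by omega)) (by linarith))
  have η2 : 0 < η ^ 2 := by positivity
  have η21 : η ^ 2 ≤ 1 := pow_le_one₀ hη.le (by linarith)
  refine ⟨h, ej0 mm η, hη, hη1, ?_, ?_, ?_, ?_⟩
  · intro j hj hj'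
    have g8 : (8 * k : ℕ) ≤ j := hj
    have j1 : j + 1 ≤ 400 * k := by omega
    have j2 : j ≤ 400 * k := by omega
    have m0 := h.m0 j
    have m1 := h.m0 (j + 1)
    have el := kap_lower (P := P) h.hL h.L1 (show (0 : ℝ) ≤ (1 / 2) ^ j by positivity)
      (pow_le_one₀ (by norm_num) (by norm_num))
    have el' := kap_lower (P := P) h.hL h.L1 (show (0 : ℝ) ≤ (1 / 2) ^ (j + 1) by positivity)
      (pow_le_one₀ (by norm_num) (by norm_num))
    have hp : (2 : ℝ) ^ j * (1 / 2) ^ j = 1 := by rw [← mul_pow]; norm_num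
    refine h.sc d0 (by linarith) hη (by linarith) hT hW (by omega) ?_ (hK.hm j hj j2) (hK.le1 j hj j2)
      (hK.h7 j hj j2) (hB.c6 k le_rfl).1 ?_ ?_
    · exact (h.r_mono j1).trans h1.le
    · have g1 := mul_le_mul_of_nonneg_left el (ej0 mm η j)
      refine le_trans (le_of_eq ?_) g1
      unfold ej
      calc 2 * exp (-(η / mm j) ^ (1 / 40 : ℝ)) = 2 * exp (-(η / mm j) ^ (1 / 40 : ℝ)) * 1 := by ring
        _ = 2 * exp (-(η / mm j) ^ (1 / 40 : ℝ)) * (2 ^ j * (1 / 2) ^ j) := by rw [hp]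
        _ = _ := by ring
    · have g1 : exp (-(1 / mm (j + 1)) ^ (1 / 40 : ℝ)) ≤ exp (-(η / mm j) ^ (1 / 40 : ℝ)) := by
        refine exp_le_exp.2 (neg_le_neg (rpow_le_rpow (by positivity) ?_ (by norm_num)))
        rw [div_le_div_iff₀ m0 m1]
        have := h.m_dec j
        nlinarith
      have g2 := (hK.ee j hj j2).trans (hK.le5 j hj j2)
      unfold ej at g2
      have g3 : (1 / 2 : ℝ) ^ j * (4 * 2 ^ j * exp (-(η / mm j) ^ (1 / 40 : ℝ))) ≤ (1 / 2) ^ j * (1 / 5) :=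
        mul_le_mul_of_nonneg_left g2 (by positivity)
      have g4 : (1 / 2 : ℝ) ^ j * (4 * 2 ^ j * exp (-(η / mm j) ^ (1 / 40 : ℝ))) =
          4 * exp (-(η / mm j) ^ (1 / 40 : ℝ)) := by
        calc (1 / 2 : ℝ) ^ j * (4 * 2 ^ j * exp (-(η / mm j) ^ (1 / 40 : ℝ))) =
            4 * exp (-(η / mm j) ^ (1 / 40 : ℝ)) * (2 ^ j * (1 / 2) ^ j) := by ring
          _ = _ := by rw [hp, mul_one]
      have g5 : (1 / 2 : ℝ) ^ (j + 1) = (1 / 2) ^ j / 2 := by rw [pow_succ]; ring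
      rw [g5] at el' ⊢
      linarith
  · intro j hj hj'
    have g1 := dd_le_sum h d0 hr (i := j - 8 * k) (by omega)
    have e1 : 8 * k + (j - 8 * k) = j := by omega
    rw [e1] at g1
    linarith
  · have g1 := h.sum_dd d0 hr
    have g2 : ∑ i ∈ Finset.range (392 * k), ej mm η (8 * k + i) ≤ 2 / X := by
      have g3 : ∀ i ∈ Finset.range (392 * k), ej mm η (8 * k + i) ≤ (1 / 2) ^ (8 * k) * X * (1 / 2) ^ i := by
        intro i hi
        rw [Finset.mem_range] at hi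
        refine (hK.ee (8 * k + i) (by omega) (by omega)).trans ((hK.up (8 * k + i) (by omega)).trans (le_of_eq ?_))
        rw [pow_add]
        ring
      refine (Finset.sum_le_sum g3).trans ?_
      rw [← Finset.mul_sum]
      have g4 : ∑ i ∈ Finset.range (392 * k), (1 / 2 : ℝ) ^ i ≤ 2 := by
        rw [geom_sum_eq (by norm_num), div_le_iff_of_neg (by norm_num)]
        have : 0 < (1 / 2 : ℝ) ^ (392 * k) := by positivity
        linarith
      have g5 : (1 / 2 : ℝ) ^ (8 * k) * X ^ 160 = 1 := by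
        have := pw hB.Xk 8
        norm_num only at this
        rw [← this, ← mul_pow]
        norm_num
      have g6 : (1 / 2 : ℝ) ^ (8 * k) * X ≤ 1 / X := by
        rw [le_div_iff₀ X0]
        calc (1 / 2 : ℝ) ^ (8 * k) * X * X = (1 / 2) ^ (8 * k) * X ^ 2 := by ring
          _ ≤ (1 / 2) ^ (8 * k) * X ^ 160 :=
            mul_le_mul_of_nonneg_left (pow_le_pow_right₀ hX (by norm_num)) (by positivity)
          _ = 1 := g5
      calc (1 / 2 : ℝ) ^ (8 * k) * X * ∑ i ∈ Finset.range (392 * k), (1 / 2 : ℝ) ^ i ≤ 1 / X * 2 :=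
            mul_le_mul g6 g4 (Finset.sum_nonneg fun i _ => by positivity) (by positivity)
        _ = 2 / X := by ring
    have g7 : 1 / X ≤ η ^ 2 / 10 ^ 11 := by
      rw [div_le_div_iff₀ X0 (by positivity)]
      have := (div_le_iff₀ η2).1 hB.c3
      linarith
    have g8 : 28 * d / η ^ 2 = 28 * (η ^ 2 / 10 ^ 11) := by
      rw [hd]
      field_simp
    have e1 : ∑ i ∈ Finset.range (392 * k), sd (mm (8 * k + i)) (mm (8 * k + i + 1)) (ej mm η (8 * k + i)) η =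
        28 / η ^ 2 * ∑ i ∈ Finset.range (392 * k), dd (mm (8 * k + i)) (mm (8 * k + i + 1)) +
          2 * ∑ i ∈ Finset.range (392 * k), ej mm η (8 * k + i) := by
      rw [Finset.mul_sum, Finset.mul_sum, ← Finset.sum_add_distrib]
      refine Finset.sum_congr rfl fun i _ => ?_
      unfold sd
      ring
    rw [e1]
    have g9 : 28 / η ^ 2 * ∑ i ∈ Finset.range (392 * k), dd (mm (8 * k + i)) (mm (8 * k + i + 1)) ≤
        28 * (η ^ 2 / 10 ^ 11) := by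
      rw [← g8]
      calc 28 / η ^ 2 * ∑ i ∈ Finset.range (392 * k), dd (mm (8 * k + i)) (mm (8 * k + i + 1)) ≤ 28 / η ^ 2 * d :=
            mul_le_mul_of_nonneg_left g1 (by positivity)
        _ = _ := by ring
    have g10 : 2 / X = 2 * (1 / X) := by ring
    rw [g10] at g2
    linarith
  · linarith

/-- **one window** -/
theorem window [IsProbabilityMeasure P] (h : BE P H L W D mm) (hsym : ∀ s : ℝ, ∫ ω in {ω | W ω < s}, D ω ∂P = 0)
    {η d s X : ℝ} (hη : 0 < η) (hη1 : η ≤ 1 / 50) (hd : d = η ^ 4 / 10 ^ 11) {k : ℕ} (hT : BT P H L mm d k)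
    (hW : BW P L W mm d k) (hB : Big η d s X mm k) (h1 : rr mm (400 * k) < (1 + d) * rr mm k)
    (h2 : rr mm (400 * k) < X) :
    Scal P H W D η (η ^ 2 / 10 ^ 6) (380 * k) (fun i => 1 / mm (20 * k + i)) (fun i => nj P L (20 * k + i))
      (fun i => 2 * sj mm (ej mm η) η (20 * k + i) + 3 * Wn.vj P H L W D mm η (20 * k + i)) ∧
    s ≤ 1 / mm (20 * k) ∧ (1 / mm (20 * k)) ^ 10 ≤ 1 / mm (400 * k) ∧
    (1 / mm (400 * k)) ^ (9 / 10 : ℝ) ≤ nj P L (400 * k) := by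
  have hw := wn h hη hη1 hd hT hW hB h1 h2
  have hX := hB.X1
  have hk := hB.k1
  have X0 : 0 < X := by linarith
  have η2 : 0 < η ^ 2 := by positivity
  have η21 : η ^ 2 ≤ 1 := pow_le_one₀ hη.le (by linarith)
  have hinv : ∀ j, 1 / mm j ≤ 2 ^ j := fun j => by
    rw [div_le_iff₀ (h.m0 j)]
    exact h.one_le_r j
  have inv0 : ∀ j, 0 < 1 / mm j := fun j => by
    have := h.m0 j
    positivity
  refine ⟨?_, (hB.c6 (20 * k) (by omega)).2, ?_, ?_⟩
  · have e1 : 392 * k - 12 * k = 380 * k := by omega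
    have e2 : 8 * k + 12 * k = 20 * k := by omega
    have g := hw.scal (b := 12 * k) (by omega) hsym (q := η ^ 2 / 10 ^ 6) ?_ ?_
    · rw [e1, e2] at g
      exact g
    · refine (hw.kgeo (i := 12 * k) (by omega)).trans ?_
      calc (103 / 200 : ℝ) ^ (12 * k) ≤ (103 / 200) ^ 2 :=
            pow_le_pow_of_le_one (by norm_num) (by norm_num) (by omega)
        _ ≤ 7 / 20 := by norm_num
    · have g1 : (11 / 20 : ℝ) ^ (12 * k) * 2 ^ (8 * k) ≤ 1 / 10 ^ 11 := by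
        refine le_trans ?_ hB.c5
        rw [pow_mul, pow_mul, ← mul_pow]
        exact pow_le_pow_left₀ (by norm_num) (by norm_num) k
      have g2 : (11 / 20 : ℝ) ^ (12 * k) * (34 * η ^ 2 * 2 ^ (8 * k)) =
          34 * η ^ 2 * ((11 / 20) ^ (12 * k) * 2 ^ (8 * k)) := by ring
      rw [g2]
      have g3 : 34 * η ^ 2 * ((11 / 20 : ℝ) ^ (12 * k) * 2 ^ (8 * k)) ≤ 34 * η ^ 2 * (1 / 10 ^ 11) :=
        mul_le_mul_of_nonneg_left g1 (by positivity)
      have g4 : 34 * η ^ 2 * (η ^ 2 / 10 ^ 9) ≤ 34 * 1 * (η ^ 2 / 10 ^ 9) :=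
        mul_le_mul_of_nonneg_right (by linarith) (by positivity)
      linarith
  · have g1 : (1 / mm (20 * k)) ^ 10 ≤ X ^ 4000 := by
      calc (1 / mm (20 * k)) ^ 10 ≤ (2 ^ (20 * k)) ^ 10 := pow_le_pow_left₀ (inv0 _).le (hinv _) 10
        _ = (X ^ (20 * 20)) ^ 10 := by rw [pw hB.Xk 20]
        _ = X ^ 4000 := by rw [← pow_mul]
    refine g1.trans ?_
    have g2 := (know h hη hη1 hd hB h1 h2).up (400 * k) le_rfl
    rw [le_div_iff₀ (h.m0 _)]
    have g3 : (1 / 2 : ℝ) ^ (400 * k) * X ^ 8000 = 1 := by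
      have := pw hB.Xk 400
      norm_num only at this
      rw [← this, ← mul_pow]
      norm_num
    calc X ^ 4000 * mm (400 * k) ≤ X ^ 4000 * ((1 / 2) ^ (400 * k) * X) :=
          mul_le_mul_of_nonneg_left g2 (by positivity)
      _ = (1 / 2) ^ (400 * k) * X ^ 4001 := by ring
      _ ≤ (1 / 2) ^ (400 * k) * X ^ 8000 :=
          mul_le_mul_of_nonneg_left (pow_le_pow_right₀ hX (by norm_num)) (by positivity)
      _ = 1 := g3
  · have e400 : 8 * k + 392 * k = 400 * k := by omega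
    have g1 := hw.kdec
    rw [e400] at g1
    have g0 := hw.kpos (400 * k)
    refine le_trans ?_ (hw.nj_ge (400 * k))
    rw [le_div_iff₀ g0]
    have g2 : (1 / mm (400 * k)) ^ (9 / 10 : ℝ) ≤ 2 ^ (360 * k) := by
      calc (1 / mm (400 * k)) ^ (9 / 10 : ℝ) ≤ (2 ^ (400 * k)) ^ (9 / 10 : ℝ) :=
            rpow_le_rpow (inv0 _).le (hinv _) (by norm_num)
        _ = 2 ^ (360 * k) := by
          have e1 : (2 : ℝ) ^ (400 * k) = (2 ^ (40 * k)) ^ 10 := by rw [← pow_mul]; congr 1; omega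
          have e2 : (2 : ℝ) ^ (360 * k) = (2 ^ (40 * k)) ^ 9 := by rw [← pow_mul]; congr 1; omega
          have hy : (0 : ℝ) < 2 ^ (40 * k) := by positivity
          rw [e1, e2]
          generalize (2 : ℝ) ^ (40 * k) = y at hy
          rw [← rpow_natCast, ← rpow_mul hy.le, ← rpow_natCast]
          norm_num
    have g3 : exp (((392 * k : ℕ) : ℝ) * η + η ^ 2 / 10 ^ 9) ≤ 2 ^ (32 * k) := by
      have hk' : (1 : ℝ) ≤ k := by exact_mod_cast hk
      have g4 : ((392 * k : ℕ) : ℝ) * η + η ^ 2 / 10 ^ 9 ≤ ((8 * k : ℕ) : ℝ) * 1 := by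
        push_cast
        nlinarith
      have g5 : exp 1 ≤ 16 := by
        have := exp_one_lt_d9
        linarith
      calc exp (((392 * k : ℕ) : ℝ) * η + η ^ 2 / 10 ^ 9) ≤ exp (((8 * k : ℕ) : ℝ) * 1) := exp_le_exp.2 g4
        _ = exp 1 ^ (8 * k) := exp_nat_mul 1 _
        _ ≤ 16 ^ (8 * k) := pow_le_pow_left₀ (exp_pos _).le g5 _
        _ = 2 ^ (32 * k) := by
          rw [show (16 : ℝ) = 2 ^ 4 by norm_num, ← pow_mul]
          congr 1
          omega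
    calc (1 / mm (400 * k)) ^ (9 / 10 : ℝ) * kj P L (400 * k)
        ≤ 2 ^ (360 * k) * ((1 / 2) ^ (392 * k) * exp (((392 * k : ℕ) : ℝ) * η + η ^ 2 / 10 ^ 9)) :=
          mul_le_mul g2 g1 g0.le (by positivity)
      _ ≤ 2 ^ (360 * k) * ((1 / 2) ^ (392 * k) * 2 ^ (32 * k)) :=
          mul_le_mul_of_nonneg_left (mul_le_mul_of_nonneg_left g3 (by positivity)) (by positivity)
      _ = (1 / 2) ^ (392 * k) * 2 ^ (392 * k) := by
          have e1 : (2 : ℝ) ^ (392 * k) = 2 ^ (360 * k) * 2 ^ (32 * k) := by rw [← pow_add]; congr 1; omega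
          rw [e1]
          ring
      _ = 1 := by rw [← mul_pow]; norm_num

/-- **row C** -/
theorem anOut : AnOut := by
  intro Ω _ _ _ P H L W D mm hB eta he he1
  have : IsProbabilityMeasure P := ⟨hB.prob⟩
  obtain ⟨H', L', W', D', aH, aW, aD, be, sym', tt⟩ := fix hB
  obtain ⟨η, hη'⟩ : ∃ η : ℝ, η = eta / 50 := ⟨_, rfl⟩
  have hη : 0 < η := by rw [hη']; positivity
  have hη1 : η ≤ 1 / 50 := by rw [hη']; linarith
  obtain ⟨d, hd⟩ : ∃ d : ℝ, d = η ^ 4 / 10 ^ 11 := ⟨_, rfl⟩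
  have d0 : 0 < d := by rw [hd]; positivity
  have d1 : d ≤ 1 / 10 ^ 11 := by
    rw [hd]
    have : η ^ 4 ≤ 1 := pow_le_one₀ hη.le (by linarith)
    exact div_le_div_of_nonneg_right this (by positivity)
  refine ⟨d, d0, 400, fun s => ?_⟩
  obtain ⟨k0, hk0⟩ := tt d d0 (by linarith)
  obtain ⟨X0, hX0, hthr⟩ := thr hη
  -- all that has to be large
  have tX : Tendsto (fun k : ℕ => (2 : ℝ) ^ ((k : ℝ) / 20)) atTop atTop := by
    have h1 : Tendsto (fun k : ℕ => (k : ℝ) / 20) atTop atTop :=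
      tendsto_natCast_atTop_atTop.atTop_div_const (by norm_num)
    have h2 : Tendsto (fun y : ℝ => (2 : ℝ) ^ y) atTop atTop := tendsto_rpow_atTop_of_base_gt_one 2 (by norm_num)
    exact h2.comp h1
  have t5 : Tendsto (fun k : ℕ => (1 / 5 : ℝ) ^ k) atTop (𝓝 0) :=
    tendsto_pow_atTop_nhds_zero_of_lt_one (by norm_num) (by norm_num)
  have tm : ∀ᶠ j in atTop, mm j ≤ 1 ∧ s ≤ 1 / mm j := by
    have h1 : ∀ᶠ j in atTop, mm j < 1 := hB.m_lim.eventually_lt_const one_pos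
    have h2 : ∀ᶠ j in atTop, mm j < 1 / (|s| + 1) := hB.m_lim.eventually_lt_const (by positivity)
    filter_upwards [h1, h2] with j g1 g2
    have m0 := be.m0 j
    refine ⟨g1.le, ?_⟩
    rw [le_div_iff₀ m0]
    rw [lt_div_iff₀ (by positivity)] at g2
    nlinarith [le_abs_self s]
  obtain ⟨k1, hk1⟩ := eventually_atTop.1 tm
  filter_upwards [tX.eventually_ge_atTop X0, tX.eventually_ge_atTop (4 / d), tX.eventually_ge_atTop (1 / η),
    tX.eventually_ge_atTop (10 ^ 11 / η ^ 2), tX.eventually_ge_atTop 5, t5.eventually_lt_const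
    (show (0 : ℝ) < 1 / 10 ^ 11 by positivity), eventually_ge_atTop k0, eventually_ge_atTop k1,
    eventually_ge_atTop 1] with k a1 a2 a3 a4 a5 a6 a7 a8 a9
  by_cases c1 : (1 + d) * (2 ^ k * mm k) ≤ 2 ^ (400 * k) * mm (400 * k)
  · exact Or.inr (Or.inl c1)
  by_cases c2 : (2 : ℝ) ^ ((k : ℝ) / 20) ≤ 2 ^ (400 * k) * mm (400 * k)
  · exact Or.inr (Or.inr c2)
  left
  rw [not_le] at c1 c2
  have hBig : Big η d s ((2 : ℝ) ^ ((k : ℝ) / 20)) mm k := by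
    refine ⟨a9, hX0.trans a1, ?_, a2, a3, a4, fun ξ hξ => hthr ξ (a1.trans hξ), a6.le,
      fun j hj => hk1 j (a8.trans hj), a5⟩
    rw [← rpow_natCast, ← rpow_mul (by norm_num)]
    rw [show (k : ℝ) / 20 * ((20 : ℕ) : ℝ) = (k : ℝ) by push_cast; ring, rpow_natCast]
  obtain ⟨w1, w2, w3, w4⟩ := window be sym' hη hη1 hd (hk0 k a7).1 (hk0 k a7).2 hBig c1 c2
  have w5 := scal_congr aH aW aD w1
  obtain ⟨l1, l2⟩ := Lst.listRow P H W D η (η ^ 2 / 10 ^ 6) (380 * k) _ _ _ hη (by linarith) le_rfl w5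
  have e1 : 50 * η = eta := by rw [hη']; ring
  have e2 : 20 * k + 380 * k = 400 * k := by omega
  rw [e1] at l1 l2
  simp only [add_zero, e2] at l1 l2
  exact ⟨1 / mm (20 * k), 1 / mm (400 * k), nj P L' (20 * k), nj P L' (400 * k), w2, w3, w4, l1, l2⟩

end ZBW

end
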