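import Pool.Agent.ZB.All
import Pool.Agent.ZB.WinH

/-!
# ZB: the theorem for the square lattice, without hypotheses
-/

namespace ZB

theorem anOut : AnOut := ZBW.anOut
theorem final : Final := final_all anOut
theorem finalU : FinalU := finalU_all anOut
theorem rate : Rate := rate_all anOut

end ZB
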