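import Pool.Agent.ZB.ListD

/-!
# ZB, row C3 (helper73), part 3: `listRow : ListRow`
-/

open MeasureTheory Set Filter
open scoped ENNReal Topology

set_option linter.unusedSectionVars false

namespace ZB

namespace Lst

variable {Ω : Type} [MeasurableSpace Ω] [DiscreteMeasurableSpace Ω] {P : Measure Ω}

/-- deviation of a sum -/
theorem cheb (hP : P Set.univ = 1) {f : Ω → ℝ} {v : ℝ} (hv : 0 ≤ v) (h2 : ∫⁻ ω, ENNReal.ofReal (f ω ^ 2) ∂P ≤ ENNReal.ofReal v)
    {a : ℝ} (ha : 0 < a) (n : ℕ) :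
    pr P n {l | a ≤ |sm f l - n * ∫ ω, f ω ∂P|} ≤ ENNReal.ofReal (n * v / a ^ 2) := by
  have : IsProbabilityMeasure P := ⟨hP⟩
  have hm : ∀ F : Ω → ℝ, AEStronglyMeasurable F P := fun F => (Measurable.of_discrete).aestronglyMeasurable
  have hi2 : Integrable (fun ω => f ω ^ 2) P := by
    refine ⟨hm _, ?_⟩
    rw [hasFiniteIntegral_iff_ofReal (Eventually.of_forall fun ω => by positivity)]
    exact lt_of_le_of_lt h2 ENNReal.ofReal_lt_top
  have hi1 : Integrable f P := by
    refine Integrable.mono' (g := fun ω => 1 + f ω ^ 2) (by fun_prop) (hm _) (Eventually.of_forall fun ω => ?_)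
    rw [Real.norm_eq_abs]
    nlinarith [sq_abs (f ω), sq_nonneg (|f ω| - 1), abs_nonneg (f ω)]
  have hsq : ∫ ω, f ω ^ 2 ∂P ≤ v := by
    rw [integral_eq_lintegral_of_nonneg_ae (Eventually.of_forall fun ω => by positivity) (hm _)]
    exact ENNReal.toReal_le_of_le_ofReal hv h2
  obtain ⟨μ, hμ⟩ : ∃ μ : ℝ, μ = ∫ ω, f ω ∂P := ⟨_, rfl⟩
  rw [← hμ]
  have h3 : ∫ ω, (f ω - μ) ∂P = 0 := by
    rw [integral_sub hi1 (by fun_prop), integral_const, ← hμ]
    simp [measureReal_def, hP]
  have h4 : ∫⁻ ω, ENNReal.ofReal ((f ω - μ) ^ 2) ∂P ≤ ENNReal.ofReal v := by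
    have e : (fun ω => (f ω - μ) ^ 2) = fun ω => f ω ^ 2 - 2 * μ * f ω + μ ^ 2 := by
      funext ω
      ring
    have hint : Integrable (fun ω => (f ω - μ) ^ 2) P := by
      rw [e]
      fun_prop
    rw [← ofReal_integral_eq_lintegral_ofReal hint (Eventually.of_forall fun ω => by positivity)]
    refine ENNReal.ofReal_le_ofReal ?_
    rw [e, integral_add (by fun_prop) (by fun_prop), integral_sub hi2 (by fun_prop), integral_const_mul, ← hμ, integral_const]
    simp only [measureReal_def, hP, ENNReal.toReal_one, smul_eq_mul, one_mul]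
    nlinarith [sq_nonneg μ]
  have h5 := kolm hP hv h4 h3 ha n 0
  refine (pr_mono ?_).trans (h5.trans (le_of_eq (by ring_nf)))
  intro l hl h
  refine ⟨l, List.prefix_rfl, ?_⟩
  have h6 : sm (fun ω => f ω - μ) l = sm f l - l.length * μ := by
    clear hl h
    induction l with
    | nil => simp [sm_nil]
    | cons g l ih =>
      rw [sm_cons, sm_cons, ih, List.length_cons]
      push_cast
      ring
  rw [zero_add, h6, hl]
  exact h

/-- sums of truncations -/
lemma sm_ind {f : Ω → ℝ} {A : Set Ω} {l : List Ω} (h : ∀ g ∈ l, g ∈ A) : sm (A.indicator f) l = sm f l := by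
  induction l with
  | nil => rfl
  | cons g l ih =>
    rw [sm_cons, sm_cons, ih fun g' hg' => h g' (List.mem_cons_of_mem _ hg'), Set.indicator_of_mem (h g List.mem_cons_self)]

lemma sm_nonneg {f : Ω → ℝ} {l : List Ω} (h : ∀ g ∈ l, 0 ≤ f g) : 0 ≤ sm f l := by
  induction l with
  | nil => exact le_rfl
  | cons g l ih =>
    rw [sm_cons]
    have := ih fun g' hg' => h g' (List.mem_cons_of_mem _ hg')
    have := h g List.mem_cons_self
    linarith

lemma sm_prefix {f : Ω → ℝ} {l l1 : List Ω} (h : ∀ g ∈ l, 0 ≤ f g) (h1 : l1 <+: l) : sm f l1 ≤ sm f l := by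
  obtain ⟨t, rfl⟩ := h1
  rw [sm_append]
  have := sm_nonneg (f := f) (l := t) fun g hg => h g (List.mem_append_right _ hg)
  linarith

variable {H W D : Ω → ℝ} {e q : ℝ} {K : ℕ} {x : ℕ → ℝ} {n : ℕ → ℕ} {s : ℕ → ℝ}

/-- the good event of one scale, lists of length m ≤ n (i + 1) -/
structure Gd (H W D : Ω → ℝ) (e : ℝ) (x μ : ℝ) (l : List Ω) : Prop where
  a : ∀ g ∈ l, H g < e * x ∧ W g < 4 * e * x
  b : ∀ l1, l1 <+: l → |sm D l1| < e * x
  c : |sm H l - l.length * μ| < x / 10

lemma n_pos (h : Scal P H W D e q K x n s) {i : ℕ} (hi : i < K) : 1 ≤ n i := by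
  by_contra hcon
  have h1 := h.lo i hi
  rw [show n i = 0 by omega, Nat.cast_zero, zero_mul] at h1
  have h2 := h.xpos i hi
  have h3 : 0 < ENNReal.ofReal (x i / 5) := ENNReal.ofReal_pos.2 (by linarith)
  exact absurd (h1.trans_lt h3) (lt_irrefl _)

/-- **one scale** -/
theorem one_scale (h : Scal P H W D e q K x n s) (he : 0 < e) (he1 : e ≤ 1) {i : ℕ} (hi : i < K) {m : ℕ} (hm : m ≤ n (i + 1)) :
    pr P m {l | ¬ Gd H W D e (x i) (∫ ω in {ω | H ω < e * x i}, H ω ∂P) l} ≤ ENNReal.ofReal (102 / e ^ 2 * s i) := by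
  have hP := h.prob
  have hx := h.xpos i hi
  have hs := h.s0 i hi
  have hn1 : 1 ≤ n (i + 1) := by
    have := n_pos h hi
    have := h.ndbl i hi
    omega
  have hn0 : (0 : ℝ) < n (i + 1) := by exact_mod_cast hn1
  have hex : 0 < e * x i := by positivity
  have hmn : (m : ℝ) ≤ n (i + 1) := by exact_mod_cast hm
  have hmnE : (m : ℝ≥0∞) ≤ n (i + 1) := by exact_mod_cast hm
  have hnE0 : (n (i + 1) : ℝ≥0∞) ≠ 0 := by
    have : (n (i + 1) : ℝ≥0∞) = ((n (i + 1) : ℕ) : ℝ≥0∞) := rfl
    rw [this, Ne, Nat.cast_eq_zero]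
    omega
  have conv : ∀ y : ℝ≥0∞, (n (i + 1) : ℝ≥0∞) * y ≤ ENNReal.ofReal (s i * x i ^ 2) →
      y ≤ ENNReal.ofReal (s i * x i ^ 2 / n (i + 1)) := by
    intro y hy
    rw [ENNReal.ofReal_div_of_pos hn0, ENNReal.ofReal_natCast, ENNReal.le_div_iff_mul_le (Or.inl hnE0)
      (Or.inl (ENNReal.natCast_ne_top _)), mul_comm]
    exact hy
  -- the three events
  have k1 : pr P m {l | ∃ g ∈ l, g ∈ {ω | e * x i ≤ H ω ∨ 4 * e * x i ≤ W ω}} ≤ ENNReal.ofReal (s i) :=
    (pr_mem hP m _).trans ((mul_le_mul_left hmnE _).trans (h.exc i hi))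
  have k2 : pr P m {l | ∃ l1, l1 <+: l ∧ e * x i ≤ |0 + sm ({ω | W ω < 4 * e * x i}.indicator D) l1|} ≤
      ENNReal.ofReal (s i / e ^ 2) := by
    have h1 := h.dd i hi
    rw [← lintegral_indicator (MeasurableSet.of_discrete)] at h1
    have h2 : ∫⁻ ω, ENNReal.ofReal (({ω | W ω < 4 * e * x i}.indicator D ω) ^ 2) ∂P ≤
        ENNReal.ofReal (s i * x i ^ 2 / n (i + 1)) := by
      refine conv _ (le_trans (le_of_eq ?_) h1)
      congr 1
      refine lintegral_congr fun ω => ?_
      by_cases hω : ω ∈ {ω | W ω < 4 * e * x i}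
      · rw [Set.indicator_of_mem hω, Set.indicator_of_mem hω]
      · rw [Set.indicator_of_notMem hω, Set.indicator_of_notMem hω]
        simp
    have h3 : ∫ ω, {ω | W ω < 4 * e * x i}.indicator D ω ∂P = 0 := by
      rw [integral_indicator (MeasurableSet.of_discrete)]
      exact h.sym i hi
    refine (kolm hP (by positivity) h2 h3 hex m 0).trans (ENNReal.ofReal_le_ofReal ?_)
    have h4 : (m : ℝ) * (s i * x i ^ 2 / n (i + 1)) ≤ s i * x i ^ 2 := by
      calc (m : ℝ) * (s i * x i ^ 2 / n (i + 1)) ≤ n (i + 1) * (s i * x i ^ 2 / n (i + 1)) :=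
            mul_le_mul_of_nonneg_right hmn (by positivity)
        _ = _ := by field_simp
    calc ((0 : ℝ) ^ 2 + m * (s i * x i ^ 2 / n (i + 1))) / (e * x i) ^ 2 ≤ (s i * x i ^ 2) / (e * x i) ^ 2 := by
          refine div_le_div_of_nonneg_right ?_ (by positivity)
          linarith
      _ = s i / e ^ 2 := by
          field_simp
  have k3 : pr P m {l | x i / 10 ≤ |sm ({ω | H ω < e * x i}.indicator H) l - m * ∫ ω, {ω | H ω < e * x i}.indicator H ω ∂P|} ≤
      ENNReal.ofReal (100 * s i) := by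
    have h1 := h.hh i hi
    rw [← lintegral_indicator (MeasurableSet.of_discrete)] at h1
    have h2 : ∫⁻ ω, ENNReal.ofReal (({ω | H ω < e * x i}.indicator H ω) ^ 2) ∂P ≤
        ENNReal.ofReal (s i * x i ^ 2 / n (i + 1)) := by
      refine conv _ (le_trans (le_of_eq ?_) h1)
      congr 1
      refine lintegral_congr fun ω => ?_
      by_cases hω : ω ∈ {ω | H ω < e * x i}
      · rw [Set.indicator_of_mem hω, Set.indicator_of_mem hω]
      · rw [Set.indicator_of_notMem hω, Set.indicator_of_notMem hω]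
        simp
    refine (cheb hP (by positivity) h2 (by positivity) m).trans (ENNReal.ofReal_le_ofReal ?_)
    have h4 : (m : ℝ) * (s i * x i ^ 2 / n (i + 1)) ≤ s i * x i ^ 2 := by
      calc (m : ℝ) * (s i * x i ^ 2 / n (i + 1)) ≤ n (i + 1) * (s i * x i ^ 2 / n (i + 1)) :=
            mul_le_mul_of_nonneg_right hmn (by positivity)
        _ = _ := by field_simp
    calc (m * (s i * x i ^ 2 / n (i + 1))) / (x i / 10) ^ 2 ≤ (s i * x i ^ 2) / (x i / 10) ^ 2 :=
          div_le_div_of_nonneg_right h4 (by positivity)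
      _ = 100 * s i := by
          field_simp
          norm_num
  -- the union
  have hsub : ∀ l : List Ω, l.length = m → l ∈ {l | ¬ Gd H W D e (x i) (∫ ω in {ω | H ω < e * x i}, H ω ∂P) l} →
      l ∈ {l : List Ω | ∃ g ∈ l, g ∈ {ω | e * x i ≤ H ω ∨ 4 * e * x i ≤ W ω}} ∪
        ({l | ∃ l1, l1 <+: l ∧ e * x i ≤ |0 + sm ({ω | W ω < 4 * e * x i}.indicator D) l1|} ∪
        {l | x i / 10 ≤ |sm ({ω | H ω < e * x i}.indicator H) l - m * ∫ ω, {ω | H ω < e * x i}.indicator H ω ∂P|}) := by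
    intro l hl hbad
    by_contra hcon
    apply hbad
    have c1 : ∀ g ∈ l, H g < e * x i ∧ W g < 4 * e * x i := by
      intro g hg
      by_contra h1
      refine hcon (Or.inl ⟨g, hg, ?_⟩)
      show e * x i ≤ H g ∨ 4 * e * x i ≤ W g
      by_contra h2
      rw [not_or, not_le, not_le] at h2
      exact h1 h2
    refine ⟨c1, fun l1 hl1 => ?_, ?_⟩
    · by_contra h1
      refine hcon (Or.inr (Or.inl ⟨l1, hl1, ?_⟩))
      rw [zero_add, sm_ind (A := {ω | W ω < 4 * e * x i}) fun g hg => (c1 g (hl1.subset hg)).2]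
      exact not_lt.1 h1
    · by_contra h1
      refine hcon (Or.inr (Or.inr ?_))
      show x i / 10 ≤ _
      rw [sm_ind (A := {ω | H ω < e * x i}) fun g hg => (c1 g hg).1, integral_indicator (MeasurableSet.of_discrete)]
      rw [hl] at h1
      exact not_lt.1 h1
  refine (pr_mono hsub).trans ((pr_union _ _ _).trans ((add_le_add k1 ((pr_union _ _ _).trans (add_le_add k2 k3))).trans ?_))
  rw [← ENNReal.ofReal_add (by positivity) (by positivity), ← ENNReal.ofReal_add (by positivity) (by positivity)]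
  refine ENNReal.ofReal_le_ofReal ?_
  have e2 : 1 ≤ 1 / e ^ 2 := by
    rw [le_div_iff₀ (by positivity), one_mul]
    exact pow_le_one₀ he.le he1
  have e3 : s i * 1 ≤ s i * (1 / e ^ 2) := mul_le_mul_of_nonneg_left e2 hs
  have e4 : 102 / e ^ 2 * s i = 102 * (s i * (1 / e ^ 2)) := by ring
  have e5 : s i / e ^ 2 = s i * (1 / e ^ 2) := by ring
  rw [e4, e5]
  linarith

/-- the truncated mean -/
lemma mean_bd (h : Scal P H W D e q K x n s) {i : ℕ} (hi : i < K) :
    x i / 5 ≤ n i * ∫ ω in {ω | H ω < e * x i}, H ω ∂P ∧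
      n (i + 1) * ∫ ω in {ω | H ω < e * x i}, H ω ∂P ≤ 20 * x i := by
  have hx := h.xpos i hi
  have hn : 1 ≤ n (i + 1) := by
    have := n_pos h hi
    have := h.ndbl i hi
    omega
  have e1 : ∫ ω in {ω | H ω < e * x i}, H ω ∂P = (∫⁻ ω in {ω | H ω < e * x i}, ENNReal.ofReal (H ω) ∂P).toReal := by
    refine integral_eq_lintegral_of_nonneg_ae ?_ (Measurable.of_discrete).aestronglyMeasurable
    refine ae_restrict_of_ae ?_
    filter_upwards [h.h1] with ω hω
    show (0 : ℝ) ≤ H ω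
    linarith
  have hup := h.up i hi
  have hlo := h.lo i hi
  have hfin : (∫⁻ ω in {ω | H ω < e * x i}, ENNReal.ofReal (H ω) ∂P) ≠ ⊤ := by
    intro htop
    rw [htop, ENNReal.mul_top (by rw [Ne, Nat.cast_eq_zero]; omega)] at hup
    exact ENNReal.ofReal_ne_top (top_le_iff.1 hup)
  rw [e1]
  constructor
  · have := ENNReal.toReal_mono (ENNReal.mul_ne_top (ENNReal.natCast_ne_top _) hfin) hlo
    rwa [ENNReal.toReal_mul, ENNReal.toReal_natCast, ENNReal.toReal_ofReal (by positivity)] at this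
  · have := ENNReal.toReal_mono ENNReal.ofReal_ne_top hup
    rwa [ENNReal.toReal_mul, ENNReal.toReal_natCast, ENNReal.toReal_ofReal (by positivity)] at this

/-- all pieces have a positive height -/
lemma pr_pos (h : Scal P H W D e q K x n s) (m : ℕ) : pr P m {l | ∃ g ∈ l, g ∈ {ω | ¬ 1 ≤ H ω}} ≤ ENNReal.ofReal 0 := by
  refine (pr_mem h.prob m _).trans ?_
  have : P {ω | ¬ 1 ≤ H ω} = 0 := h.h1
  rw [this, mul_zero]
  exact zero_le

lemma x_mono (h : Scal P H W D e q K x n s) {i j : ℕ} (hij : i ≤ j) (hj : j ≤ K) : x i ≤ x j := by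
  induction j with
  | zero =>
    rw [show i = 0 by omega]
  | succ j ih =>
    rcases Nat.lt_or_ge i (j + 1) with h1 | h1
    · exact (ih (by omega) (by omega)).trans (h.xinc j (by omega))
    · rw [show i = j + 1 by omega]

lemma n_mono (h : Scal P H W D e q K x n s) {i j : ℕ} (hij : i ≤ j) (hj : j ≤ K) : n i ≤ n j := by
  induction j with
  | zero =>
    rw [show i = 0 by omega]
  | succ j ih =>
    rcases Nat.lt_or_ge i (j + 1) with h1 | h1
    · have := h.ndbl j (by omega)
      exact (ih (by omega) (by omega)).trans (by omega)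
    · rw [show i = j + 1 by omega]

lemma s_le (h : Scal P H W D e q K x n s) {i : ℕ} (hi : i < K) : s i ≤ q :=
  (Finset.single_le_sum (fun j hj => h.s0 j (Finset.mem_range.1 hj)) (Finset.mem_range.2 hi)).trans h.sum

/-- **the short list** -/
theorem listT (h : Scal P H W D e q K x n s) (he : 0 < e) (he1 : e ≤ 1) (hq : q ≤ e ^ 2 / 10 ^ 6) :
    pr P (n 0) (GoodT H W D (50 * e) (x 0))ᶜ ≤ ENNReal.ofReal 0.001 := by
  have hK := h.K1
  have hn01 : n 0 ≤ n (0 + 1) := n_mono h (by omega) (by omega)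
  have hx := h.xpos 0 (by omega)
  obtain ⟨g1, g2⟩ := mean_bd h (i := 0) (by omega)
  have hsub : ∀ l : List Ω, l.length = n 0 → l ∈ (GoodT H W D (50 * e) (x 0))ᶜ →
      l ∈ {l | ¬ Gd H W D e (x 0) (∫ ω in {ω | H ω < e * x 0}, H ω ∂P) l} ∪ {l | ∃ g ∈ l, g ∈ {ω | ¬ 1 ≤ H ω}} := by
    intro l hl hbad
    by_contra hcon
    apply hbad
    have c1 : Gd H W D e (x 0) (∫ ω in {ω | H ω < e * x 0}, H ω ∂P) l := by
      by_contra h1
      exact hcon (Or.inl h1)
    have c2 : ∀ g ∈ l, 1 ≤ H g := by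
      intro g hg
      by_contra h1
      exact hcon (Or.inr ⟨g, hg, h1⟩)
    have c3 := c1.c
    rw [hl, abs_lt] at c3
    have hμ0 : 0 ≤ ∫ ω in {ω | H ω < e * x 0}, H ω ∂P := by
      by_contra hneg
      have : (0 : ℝ) ≤ n 0 := Nat.cast_nonneg _
      nlinarith
    have c4 : (n 0 : ℝ) * ∫ ω in {ω | H ω < e * x 0}, H ω ∂P ≤ n (0 + 1) * ∫ ω in {ω | H ω < e * x 0}, H ω ∂P :=
      mul_le_mul_of_nonneg_right (by exact_mod_cast hn01) hμ0
    refine ⟨by linarith, by linarith, fun l1 g hlg => ?_⟩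
    have d1 := c1.b l1 ((List.prefix_append l1 [g]).trans hlg)
    have d2 := (c1.a g (hlg.subset (by simp))).2
    nlinarith
  refine (pr_mono hsub).trans ((pr_union _ _ _).trans ((add_le_add (one_scale h he he1 (by omega) hn01) (pr_pos h _)).trans ?_))
  have hs := s_le h (i := 0) (by omega)
  have hs0 := h.s0 0 (by omega)
  rw [← ENNReal.ofReal_add (by positivity) le_rfl]
  refine ENNReal.ofReal_le_ofReal ?_
  have e1 : 102 / e ^ 2 * s 0 ≤ 102 / e ^ 2 * (e ^ 2 / 10 ^ 6) := mul_le_mul_of_nonneg_left (hs.trans hq) (by positivity)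
  have e2 : 102 / e ^ 2 * (e ^ 2 / 10 ^ 6) = 102 / 10 ^ 6 := by field_simp
  rw [e2] at e1
  norm_num at e1 ⊢
  linarith

/-- **the long list** -/
theorem listR (h : Scal P H W D e q K x n s) (he : 0 < e) (he1 : e ≤ 1) (hq : q ≤ e ^ 2 / 10 ^ 6) :
    pr P (n K) (GoodR H W D (50 * e) (x 0) (x K) (n K))ᶜ ≤ ENNReal.ofReal 0.01 := by
  have hK := h.K1
  obtain ⟨μ, hμ⟩ : ∃ μ : ℕ → ℝ, μ = fun i => ∫ ω in {ω | H ω < e * x i}, H ω ∂P := ⟨_, rfl⟩
  have hmean : ∀ i, i < K → x i / 5 ≤ n i * μ i ∧ n (i + 1) * μ i ≤ 20 * x i := by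
    intro i hi
    rw [hμ]
    exact mean_bd h hi
  have hone : ∀ i, i < K → ∀ m, m ≤ n (i + 1) → pr P m {l | ¬ Gd H W D e (x i) (μ i) l} ≤ ENNReal.ofReal (102 / e ^ 2 * s i) := by
    intro i hi m hm
    rw [hμ]
    exact one_scale h he he1 hi hm
  -- the bad events
  obtain ⟨A, hA⟩ : ∃ A : ℕ → Set (List Ω), A = fun i => {l | l.take (n (i + 1)) ∈ {l | ¬ Gd H W D e (x i) (μ i) l}} ∪
    {l | l.take (n i) ∈ {l | ¬ Gd H W D e (x i) (μ i) l}} := ⟨_, rfl⟩
  have hAle : ∀ i, i < K → pr P (n K) (A i) ≤ ENNReal.ofReal (204 / e ^ 2 * s i) := by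
    intro i hi
    have hs := h.s0 i hi
    have h1 : n (i + 1) ≤ n K := n_mono h (by omega) le_rfl
    have h2 : n i ≤ n (i + 1) := n_mono h (by omega) (by omega)
    rw [hA]
    refine (pr_union _ _ _).trans ?_
    rw [pr_take h.prob h1, pr_take h.prob (h2.trans h1)]
    refine (add_le_add (hone i hi _ le_rfl) (hone i hi _ h2)).trans ?_
    rw [← ENNReal.ofReal_add (by positivity) (by positivity)]
    exact ENNReal.ofReal_le_ofReal (by ring_nf; rfl)
  have hsub : ∀ l : List Ω, l.length = n K → l ∈ (GoodR H W D (50 * e) (x 0) (x K) (n K))ᶜ →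
      l ∈ {l | ∃ i, i < K ∧ l ∈ A i} ∪ {l | ∃ g ∈ l, g ∈ {ω | ¬ 1 ≤ H ω}} := by
    intro l hl hbad
    by_contra hcon
    apply hbad
    have c2 : ∀ g ∈ l, 0 ≤ H g := by
      intro g hg
      by_contra h1
      refine hcon (Or.inr ⟨g, hg, ?_⟩)
      show ¬ 1 ≤ H g
      intro h2
      exact h1 (by linarith)
    have c1 : ∀ i, i < K → Gd H W D e (x i) (μ i) (l.take (n (i + 1))) ∧ Gd H W D e (x i) (μ i) (l.take (n i)) := by
      intro i hi
      constructor
      · by_contra h1
        refine hcon (Or.inl ⟨i, hi, ?_⟩)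
        rw [hA]
        exact Or.inl h1
      · by_contra h1
        refine hcon (Or.inl ⟨i, hi, ?_⟩)
        rw [hA]
        exact Or.inr h1
    have hlo : ∀ i, i < K → x i / 10 ≤ sm H (l.take (n i)) := by
      intro i hi
      have h1 := (c1 i hi).2.c
      have h2 : (l.take (n i)).length = n i := by
        rw [List.length_take, hl]
        exact min_eq_left (n_mono h hi.le le_rfl)
      rw [h2, abs_lt] at h1
      have h3 := (hmean i hi).1
      linarith
    have hpre : ∀ l1, l1 <+: l → ∀ i, i < K → n i ≤ l1.length → x i / 10 ≤ sm H l1 := by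
      intro l1 hl1 i hi hn
      refine (hlo i hi).trans ?_
      have h1 : l.take (n i) <+: l1 := List.prefix_of_prefix_length_le (List.take_prefix _ _) hl1 (by
        rw [List.length_take]
        omega)
      exact sm_prefix (fun g hg => c2 g (hl1.subset hg)) h1
    obtain ⟨K', rfl⟩ : ∃ K', K = K' + 1 := ⟨K - 1, by omega⟩
    have hxd := h.xdbl K' (by omega)
    have hxp := h.xpos K' (by omega)
    refine ⟨?_, fun l1 hl1 h7 => ?_, fun l1 g hlg => ?_⟩
    · have h1 := (c1 K' (by omega)).1.c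
      have h2 : l.take (n (K' + 1)) = l := by
        rw [← hl, List.take_length]
      rw [h2, hl, abs_lt] at h1
      have h3 := (hmean K' (by omega)).2
      have h4 := h.xinc K' (by omega)
      linarith
    · have h1 := h.ndbl K' (by omega)
      have h2 := hpre l1 hl1 K' (by omega) (by omega)
      linarith
    · have hlen : l1.length < n (K' + 1) := by
        have := hlg.length_le
        rw [List.length_append, List.length_singleton, hl] at this
        omega
      -- the scale of l1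
      obtain ⟨i, hi, hi1, hi2⟩ : ∃ i, i < K' + 1 ∧ l1.length < n (i + 1) ∧ (i = 0 ∨ n i ≤ l1.length) := by
        classical
        have hex : ∃ i, l1.length < n (i + 1) := ⟨K', hlen⟩
        refine ⟨Nat.find hex, ?_, Nat.find_spec hex, ?_⟩
        · have := Nat.find_min' hex (m := K') hlen
          omega
        · rcases Nat.eq_zero_or_pos (Nat.find hex) with h1 | h1
          · exact Or.inl h1
          · right
            have := Nat.find_min hex (show Nat.find hex - 1 < Nat.find hex by omega)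
            rw [show Nat.find hex - 1 + 1 = Nat.find hex by omega] at this
            omega
      have hxi := h.xpos i hi
      have hpt : l1 ++ [g] <+: l.take (n (i + 1)) := List.prefix_of_prefix_length_le hlg (List.take_prefix _ _) (by
        have h1 := n_mono h (show i + 1 ≤ K' + 1 by omega) le_rfl
        rw [List.length_take, hl, List.length_append, List.length_singleton]
        omega)
      have d1 := (c1 i hi).1.b l1 ((List.prefix_append l1 [g]).trans hpt)
      have d2 := ((c1 i hi).1.a g (hpt.subset (by simp))).2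
      have d3 : x i / 10 ≤ max (x 0) (sm H l1) := by
        rcases hi2 with rfl | h1
        · refine le_trans ?_ (le_max_left _ _)
          linarith
        · exact (hpre l1 ((List.prefix_append l1 [g]).trans hlg) i hi h1).trans (le_max_right _ _)
      have d4 : x i ≤ x (K' + 1) := x_mono h (by omega) le_rfl
      constructor <;> nlinarith
  refine (pr_mono hsub).trans ((pr_union _ _ _).trans ((add_le_add ((pr_biUnion _ _ _).trans
    (Finset.sum_le_sum fun i hi => hAle i (Finset.mem_range.1 hi))) (pr_pos h _)).trans ?_))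
  rw [← ENNReal.ofReal_sum_of_nonneg fun i hi => by
    have := h.s0 i (Finset.mem_range.1 hi)
    positivity, ← Finset.mul_sum, ENNReal.ofReal_zero, add_zero]
  refine ENNReal.ofReal_le_ofReal ?_
  have e1 : 204 / e ^ 2 * ∑ i ∈ Finset.range K, s i ≤ 204 / e ^ 2 * (e ^ 2 / 10 ^ 6) :=
    mul_le_mul_of_nonneg_left (h.sum.trans hq) (by positivity)
  have e2 : 204 / e ^ 2 * (e ^ 2 / 10 ^ 6) = 204 / 10 ^ 6 := by field_simp
  rw [e2] at e1
  norm_num at e1 ⊢
  linarith

/-- **row C3** -/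
theorem listRow : ListRow := by
  intro Ω _ _ P H W D e q K x n s he he1 hq h
  exact ⟨listT h he he1 hq, listR h he he1 hq⟩

end Lst

end ZB
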