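import Pool.Agent.ZB.ListA

/-!
# ZB, row C3 (helper73), part 2: the input `Scal` of the lists: scales `x i`, numbers of pieces `n i`, `i ≤ K`
-/

open MeasureTheory Set Filter
open scoped ENNReal Topology

namespace ZB

/-- the input of the row C3: at the scale `x i` (`i < K`) the `n (i + 1)` pieces are small (`H < e x`, `W < 4 e x`),
up to the probability `s i`; the truncated second moments are small; the truncated mean of `H` is of the order `x i / n i` -/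
structure Scal {Ω : Type} [MeasurableSpace Ω] (P : Measure Ω) (H W D : Ω → ℝ) (e q : ℝ) (K : ℕ) (x : ℕ → ℝ)
    (n : ℕ → ℕ) (s : ℕ → ℝ) : Prop where
  prob : P Set.univ = 1
  h1 : ∀ᵐ ω ∂P, 1 ≤ H ω
  K1 : 1 ≤ K
  xpos : ∀ i, i < K → 0 < x i
  xinc : ∀ i, i < K → x i ≤ x (i + 1)
  xdbl : ∀ i, i < K → x (i + 1) ≤ 2 * x i
  ndbl : ∀ i, i < K → 10 * n i ≤ 7 * n (i + 1)
  s0 : ∀ i, i < K → 0 ≤ s i
  sum : ∑ i ∈ Finset.range K, s i ≤ q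
  sym : ∀ i, i < K → ∫ ω in {ω | W ω < 4 * e * x i}, D ω ∂P = 0
  exc : ∀ i, i < K → (n (i + 1) : ℝ≥0∞) * P {ω | e * x i ≤ H ω ∨ 4 * e * x i ≤ W ω} ≤ ENNReal.ofReal (s i)
  dd : ∀ i, i < K → (n (i + 1) : ℝ≥0∞) * ∫⁻ ω in {ω | W ω < 4 * e * x i}, ENNReal.ofReal (D ω ^ 2) ∂P ≤
    ENNReal.ofReal (s i * x i ^ 2)
  hh : ∀ i, i < K → (n (i + 1) : ℝ≥0∞) * ∫⁻ ω in {ω | H ω < e * x i}, ENNReal.ofReal (H ω ^ 2) ∂P ≤
    ENNReal.ofReal (s i * x i ^ 2)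
  lo : ∀ i, i < K → ENNReal.ofReal (x i / 5) ≤ (n i : ℝ≥0∞) * ∫⁻ ω in {ω | H ω < e * x i}, ENNReal.ofReal (H ω) ∂P
  up : ∀ i, i < K → (n (i + 1) : ℝ≥0∞) * ∫⁻ ω in {ω | H ω < e * x i}, ENNReal.ofReal (H ω) ∂P ≤
    ENNReal.ofReal (20 * x i)

/-- **the literal of the row C3** -/
def ListRow : Prop := ∀ {Ω : Type} [MeasurableSpace Ω] [DiscreteMeasurableSpace Ω] (P : Measure Ω) (H W D : Ω → ℝ)
  (e q : ℝ) (K : ℕ) (x : ℕ → ℝ) (n : ℕ → ℕ) (s : ℕ → ℝ), 0 < e → e ≤ 1 → q ≤ e ^ 2 / 10 ^ 6 → Scal P H W D e q K x n s →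
  pr P (n 0) (GoodT H W D (50 * e) (x 0))ᶜ ≤ ENNReal.ofReal 0.001 ∧
    pr P (n K) (GoodR H W D (50 * e) (x 0) (x K) (n K))ᶜ ≤ ENNReal.ofReal 0.01

end ZB
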