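import Pool.Agent.ZB.ListC

/-!
# ZB (helper73): the outputs with the extra property that all pieces of the short list are low (for the triangular lattice)
-/

open MeasureTheory Set Filter
open scoped ENNReal Topology

set_option linter.unusedSectionVars false

namespace ZB

/-- a short list of pieces at scale `t`, all pieces low -/
def GoodT2 {Ω : Type} (H W D : Ω → ℝ) (eta t : ℝ) : Set (List Ω) :=
  {l | l ∈ GoodT H W D eta t ∧ ∀ g ∈ l, H g ≤ eta * t}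

/-- there is a straight scale -/
def Out2 {Ω : Type} [MeasurableSpace Ω] (P : Measure Ω) (H W D : Ω → ℝ) (eta s : ℝ) : Prop :=
  ∃ (t R : ℝ) (n N : ℕ), s ≤ t ∧ t ^ 10 ≤ R ∧ R ^ (9 / 10 : ℝ) ≤ N ∧
    pr P n (GoodT2 H W D eta t)ᶜ ≤ ENNReal.ofReal 0.001 ∧
    pr P N (GoodR H W D eta t R N)ᶜ ≤ ENNReal.ofReal 0.01

/-- `AnOut` with `Out2` -/
def AnOut2 : Prop := ∀ {Ω : Type} [Countable Ω] [MeasurableSpace Ω] [DiscreteMeasurableSpace Ω]
  (P : Measure Ω) (H L W D : Ω → ℝ) (mm : ℕ → ℝ), Base P H L W D mm →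
  ∀ eta : ℝ, 0 < eta → eta ≤ 1 → ∃ d : ℝ, 0 < d ∧ ∃ C : ℕ, ∀ s : ℝ, ∀ᶠ k : ℕ in atTop,
    Out2 P H W D eta s ∨
    (1 + d) * (2 ^ k * mm k) ≤ 2 ^ (C * k) * mm (C * k) ∨
    (2 : ℝ) ^ ((k : ℝ) / 20) ≤ 2 ^ (C * k) * mm (C * k)

namespace Lst

variable {Ω : Type} [MeasurableSpace Ω] [DiscreteMeasurableSpace Ω] {P : Measure Ω}
variable {H W D : Ω → ℝ} {e q : ℝ} {K : ℕ} {x : ℕ → ℝ} {n : ℕ → ℕ} {s : ℕ → ℝ}

/-- **the short list**, all pieces low -/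
theorem listT2 (h : Scal P H W D e q K x n s) (he : 0 < e) (he1 : e ≤ 1) (hq : q ≤ e ^ 2 / 10 ^ 6) :
    pr P (n 0) (GoodT2 H W D (50 * e) (x 0))ᶜ ≤ ENNReal.ofReal 0.001 := by
  have hK := h.K1
  have hn01 : n 0 ≤ n (0 + 1) := n_mono h (by omega) (by omega)
  have hx := h.xpos 0 (by omega)
  obtain ⟨g1, g2⟩ := mean_bd h (i := 0) (by omega)
  have hsub : ∀ l : List Ω, l.length = n 0 → l ∈ (GoodT2 H W D (50 * e) (x 0))ᶜ →
      l ∈ {l | ¬ Gd H W D e (x 0) (∫ ω in {ω | H ω < e * x 0}, H ω ∂P) l} ∪ {l | ∃ g ∈ l, g ∈ {ω | ¬ 1 ≤ H ω}} := by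
    intro l hl hbad
    by_contra hcon
    apply hbad
    have c1 : Gd H W D e (x 0) (∫ ω in {ω | H ω < e * x 0}, H ω ∂P) l := by
      by_contra h1
      exact hcon (Or.inl h1)
    have c2 : ∀ g ∈ l, 1 ≤ H g := by
      intro g hg
      by_contra h1
      exact hcon (Or.inr ⟨g, hg, h1⟩)
    have c3 := c1.c
    rw [hl, abs_lt] at c3
    have hμ0 : 0 ≤ ∫ ω in {ω | H ω < e * x 0}, H ω ∂P := by
      by_contra hneg
      have : (0 : ℝ) ≤ n 0 := Nat.cast_nonneg _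
      nlinarith
    have c4 : (n 0 : ℝ) * ∫ ω in {ω | H ω < e * x 0}, H ω ∂P ≤ n (0 + 1) * ∫ ω in {ω | H ω < e * x 0}, H ω ∂P :=
      mul_le_mul_of_nonneg_right (by exact_mod_cast hn01) hμ0
    refine ⟨⟨by linarith, by linarith, fun l1 g hlg => ?_⟩, fun g hg => ?_⟩
    · have d1 := c1.b l1 ((List.prefix_append l1 [g]).trans hlg)
      have d2 := (c1.a g (hlg.subset (by simp))).2
      nlinarith
    · have d1 := (c1.a g hg).1
      nlinarith
  refine (pr_mono hsub).trans ((pr_union _ _ _).trans ((add_le_add (one_scale h he he1 (by omega) hn01) (pr_pos h _)).trans ?_))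
  have hs := s_le h (i := 0) (by omega)
  have hs0 := h.s0 0 (by omega)
  rw [← ENNReal.ofReal_add (by positivity) le_rfl]
  refine ENNReal.ofReal_le_ofReal ?_
  have e1 : 102 / e ^ 2 * s 0 ≤ 102 / e ^ 2 * (e ^ 2 / 10 ^ 6) := mul_le_mul_of_nonneg_left (hs.trans hq) (by positivity)
  have e2 : 102 / e ^ 2 * (e ^ 2 / 10 ^ 6) = 102 / 10 ^ 6 := by field_simp
  rw [e2] at e1
  norm_num at e1 ⊢
  linarith

end Lst

end ZB
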