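import Mathlib

/-!
# ZB, the public statement: definitions (encoding of frozen statement S19713) and the passage from
the diameter to the three sizes
-/

set_option autoImplicit false
open scoped Classical

namespace ZB.Pub

variable {k : ℕ}

/-- position after `j` steps of the walk with the directions `s` -/
noncomputable def pos (f : ℕ → Fin k → ℂ) {n : ℕ} (s : Fin n → Fin k) (j : ℕ) : ℂ :=
  ∑ i ∈ Finset.univ.filter (fun i : Fin n => (i : ℕ) < j), f (i : ℕ) (s i)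

/-- the self-avoiding walks with `n` steps -/
noncomputable def saw (f : ℕ → Fin k → ℂ) (n : ℕ) : Finset (Fin n → Fin k) :=
  Finset.univ.filter (fun s => ∀ i j : ℕ, i ≤ n → j ≤ n → pos f s i = pos f s j → i = j)

/-- the walks of diameter `≥ D` -/
noncomputable def far (f : ℕ → Fin k → ℂ) (n : ℕ) (D : ℝ) : Finset (Fin n → Fin k) :=
  (saw f n).filter (fun s => ∃ i j : ℕ, i ≤ n ∧ j ≤ n ∧ D ≤ ‖pos f s i - pos f s j‖)

/-- mean over the self-avoiding walks with `n` steps -/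
noncomputable def mean (f : ℕ → Fin k → ℂ) (n : ℕ) (R : (Fin n → Fin k) → ℝ) : ℝ :=
  (∑ s ∈ saw f n, R s) / ((saw f n).card : ℝ)

/-- squared end-to-end distance -/
noncomputable def Re (f : ℕ → Fin k → ℂ) {n : ℕ} (s : Fin n → Fin k) : ℝ := ‖pos f s n‖ ^ 2

/-- squared radius of gyration -/
noncomputable def Rg (f : ℕ → Fin k → ℂ) {n : ℕ} (s : Fin n → Fin k) : ℝ :=
  1 / (2 * ((n : ℝ) + 1) ^ 2) *
    ∑ i ∈ Finset.range (n + 1), ∑ j ∈ Finset.range (n + 1), ‖pos f s i - pos f s j‖ ^ 2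

/-- squared monomer-endpoint distance -/
noncomputable def Rm (f : ℕ → Fin k → ℂ) {n : ℕ} (s : Fin n → Fin k) : ℝ :=
  1 / (2 * ((n : ℝ) + 1)) *
    ∑ i ∈ Finset.range (n + 1), (‖pos f s i‖ ^ 2 + ‖pos f s i - pos f s n‖ ^ 2)

/-- the tail bound -/
def Tail (f : ℕ → Fin k → ℂ) (e : ℝ) : Prop :=
  ∀ ε : ℝ, 0 < ε → ∃ C : ℝ, ∀ n : ℕ, 2 ≤ n →
    ((far f n (n / (Real.log n) ^ e)).card : ℝ) ≤
      C * Real.exp (- (n : ℝ) ^ (1 - ε)) * ((saw f n).card : ℝ)

theorem pos_zero (f : ℕ → Fin k → ℂ) {n : ℕ} (s : Fin n → Fin k) : pos f s 0 = 0 := by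
  unfold pos; simp

theorem pos_succ (f : ℕ → Fin k → ℂ) {n : ℕ} (s : Fin n → Fin k) {j : ℕ} (hj : j < n) :
    pos f s (j + 1) = pos f s j + f j (s ⟨j, hj⟩) := by
  unfold pos
  have h1 : Finset.univ.filter (fun i : Fin n => (i : ℕ) < j + 1) =
      insert ⟨j, hj⟩ (Finset.univ.filter (fun i : Fin n => (i : ℕ) < j)) := by
    ext i
    simp only [Finset.mem_filter, Finset.mem_univ, true_and, Finset.mem_insert, Fin.ext_iff]
    omega
  rw [h1, Finset.sum_insert (by simp)]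
  ring

/-- distances inside a walk of unit steps -/
theorem pos_dist (f : ℕ → Fin k → ℂ) (hf : ∀ i a, ‖f i a‖ ≤ 1) {n : ℕ} (s : Fin n → Fin k)
    {i j : ℕ} (hi : i ≤ n) (hj : j ≤ n) : ‖pos f s i - pos f s j‖ ≤ n := by
  have key : ∀ d i : ℕ, i + d ≤ n → ‖pos f s (i + d) - pos f s i‖ ≤ d := by
    intro d
    induction d with
    | zero => intro i _; simp
    | succ d ih =>
      intro i h
      have h1 := ih i (by omega)
      rw [← add_assoc, pos_succ f s (show i + d < n by omega)]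
      calc ‖pos f s (i + d) + f (i + d) (s ⟨i + d, by omega⟩) - pos f s i‖
          = ‖(pos f s (i + d) - pos f s i) + f (i + d) (s ⟨i + d, by omega⟩)‖ := by ring_nf
        _ ≤ ‖pos f s (i + d) - pos f s i‖ + ‖f (i + d) (s ⟨i + d, by omega⟩)‖ := norm_add_le _ _
        _ ≤ d + 1 := add_le_add h1 (hf _ _)
        _ = ((d + 1 : ℕ) : ℝ) := by push_cast; ring
  rcases le_total i j with h | h
  · obtain ⟨d, rfl⟩ := Nat.exists_eq_add_of_le h
    rw [norm_sub_rev]
    exact (key d i hj).trans (by exact_mod_cast (by omega : d ≤ n))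
  · obtain ⟨d, rfl⟩ := Nat.exists_eq_add_of_le h
    exact (key d j hi).trans (by exact_mod_cast (by omega : d ≤ n))

/-- a size below the squared diameter -/
def SubD (f : ℕ → Fin k → ℂ) (R : ∀ {n : ℕ}, (Fin n → Fin k) → ℝ) : Prop :=
  ∀ (n : ℕ) (s : Fin n → Fin k) (D : ℝ), 0 ≤ D →
    (∀ i j : ℕ, i ≤ n → j ≤ n → ‖pos f s i - pos f s j‖ ≤ D) → R s ≤ D ^ 2

theorem subD_Re (f : ℕ → Fin k → ℂ) : SubD f (fun s => Re f s) := by
  intro n s D hD h
  have h1 := h n 0 le_rfl (Nat.zero_le n)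
  rw [pos_zero, sub_zero] at h1
  unfold Re
  exact pow_le_pow_left₀ (norm_nonneg _) h1 2

theorem subD_Rg (f : ℕ → Fin k → ℂ) : SubD f (fun s => Rg f s) := by
  intro n s D hD h
  unfold Rg
  have h1 : ∑ i ∈ Finset.range (n + 1), ∑ j ∈ Finset.range (n + 1),
      ‖pos f s i - pos f s j‖ ^ 2 ≤ ∑ i ∈ Finset.range (n + 1), ∑ j ∈ Finset.range (n + 1),
        D ^ 2 := by
    refine Finset.sum_le_sum fun i hi => Finset.sum_le_sum fun j hj => ?_
    rw [Finset.mem_range] at hi hj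
    have := h i j (by omega) (by omega)
    gcongr
  have h2 : ∑ i ∈ Finset.range (n + 1), ∑ j ∈ Finset.range (n + 1), D ^ 2 =
      ((n : ℝ) + 1) ^ 2 * D ^ 2 := by
    simp [Finset.sum_const, nsmul_eq_mul]; ring
  rw [h2] at h1
  calc 1 / (2 * ((n : ℝ) + 1) ^ 2) * ∑ i ∈ Finset.range (n + 1), ∑ j ∈ Finset.range (n + 1),
        ‖pos f s i - pos f s j‖ ^ 2
      ≤ 1 / (2 * ((n : ℝ) + 1) ^ 2) * (((n : ℝ) + 1) ^ 2 * D ^ 2) := by gcongr
    _ = D ^ 2 / 2 := by field_simp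
    _ ≤ D ^ 2 := by nlinarith [sq_nonneg D]

theorem subD_Rm (f : ℕ → Fin k → ℂ) : SubD f (fun s => Rm f s) := by
  intro n s D hD h
  unfold Rm
  have h1 : ∑ i ∈ Finset.range (n + 1), (‖pos f s i‖ ^ 2 + ‖pos f s i - pos f s n‖ ^ 2) ≤
      ∑ i ∈ Finset.range (n + 1), (D ^ 2 + D ^ 2) := by
    refine Finset.sum_le_sum fun i hi => ?_
    rw [Finset.mem_range] at hi
    have h2 := h i n (by omega) le_rfl
    have h3 := h i 0 (by omega) (Nat.zero_le n)
    rw [pos_zero, sub_zero] at h3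
    gcongr
  have h2 : ∑ i ∈ Finset.range (n + 1), (D ^ 2 + D ^ 2) = ((n : ℝ) + 1) * (2 * D ^ 2) := by
    simp [Finset.sum_const, nsmul_eq_mul]; ring
  rw [h2] at h1
  calc 1 / (2 * ((n : ℝ) + 1)) * ∑ i ∈ Finset.range (n + 1),
        (‖pos f s i‖ ^ 2 + ‖pos f s i - pos f s n‖ ^ 2)
      ≤ 1 / (2 * ((n : ℝ) + 1)) * (((n : ℝ) + 1) * (2 * D ^ 2)) := by gcongr
    _ = D ^ 2 := by field_simp

/-- a stretched exponential beats powers of the logarithm -/
theorem exp_log_bound (e : ℝ) (he : 0 < e) : ∃ B : ℝ, 0 < B ∧ ∀ n : ℕ, 2 ≤ n →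
    Real.exp (- (n : ℝ) ^ (1 - (1 / 2 : ℝ))) ≤ B / (Real.log n) ^ (2 * e) := by
  have h1 : Filter.Tendsto (fun x : ℝ => x ^ (2 * e) * Real.exp (- x)) Filter.atTop (nhds 0) := by
    have := tendsto_rpow_mul_exp_neg_mul_atTop_nhds_zero (2 * e) 1 one_pos
    simpa using this
  obtain ⟨x0, hx0⟩ := (h1.eventually_lt_const (show (0:ℝ) < 1 by norm_num)).exists_forall_of_atTop
  -- log n <= 2 sqrt n
  set x1 := max x0 1 with hx1
  refine ⟨max (2 ^ (2 * e)) ((2 * x1) ^ (2 * e)), by positivity, fun n hn => ?_⟩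
  have hn2 : (2 : ℝ) ≤ n := by exact_mod_cast hn
  have hlog : 0 < Real.log n := Real.log_pos (by linarith)
  have hs0 : 0 < Real.sqrt n := Real.sqrt_pos.2 (by linarith)
  have hsq : (n : ℝ) ^ (1 - (1 / 2 : ℝ)) = Real.sqrt n := by
    rw [Real.sqrt_eq_rpow]; norm_num
  rw [hsq]
  have hlogle : Real.log n ≤ 2 * Real.sqrt n := by
    have h2 : Real.log n = 2 * Real.log (Real.sqrt n) := by
      rw [Real.log_sqrt (by linarith)]; ring
    have h3 := Real.log_le_sub_one_of_pos hs0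
    rw [h2]; linarith
  rw [le_div_iff₀ (Real.rpow_pos_of_pos hlog _)]
  have h4 : (Real.log n) ^ (2 * e) ≤ (2 * Real.sqrt n) ^ (2 * e) :=
    Real.rpow_le_rpow hlog.le hlogle (by positivity)
  rcases le_total x1 (Real.sqrt n) with h5 | h5
  · have h6 := hx0 _ ((le_max_left _ _).trans h5)
    calc Real.exp (- Real.sqrt n) * (Real.log n) ^ (2 * e)
        ≤ Real.exp (- Real.sqrt n) * (2 * Real.sqrt n) ^ (2 * e) := by gcongr
      _ = 2 ^ (2 * e) * ((Real.sqrt n) ^ (2 * e) * Real.exp (- Real.sqrt n)) := by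
          rw [Real.mul_rpow (by norm_num) hs0.le]; ring
      _ ≤ 2 ^ (2 * e) * 1 := by gcongr
      _ ≤ _ := by rw [mul_one]; exact le_max_left _ _
  · have hx1p : 0 < x1 := lt_of_lt_of_le one_pos (le_max_right _ _)
    calc Real.exp (- Real.sqrt n) * (Real.log n) ^ (2 * e)
        ≤ 1 * (2 * x1) ^ (2 * e) := by
          gcongr
          · exact Real.exp_le_one_iff.2 (by linarith)
          · exact hlogle.trans (by linarith)
      _ ≤ _ := by rw [one_mul]; exact le_max_right _ _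

/-- from the tail of the diameter to the means -/
theorem mean_le (f : ℕ → Fin k → ℂ) (hf : ∀ i a, ‖f i a‖ ≤ 1) {e : ℝ} (he : 0 < e)
    (hT : Tail f e) (R : ∀ {n : ℕ}, (Fin n → Fin k) → ℝ) (hR : SubD f R) :
    ∃ C : ℝ, ∀ n : ℕ, 2 ≤ n → mean f n R ≤ C * (n : ℝ) ^ 2 / (Real.log n) ^ (2 * e) := by
  obtain ⟨C, hC⟩ := hT (1 / 2) (by norm_num)
  obtain ⟨B, hB, hB2⟩ := exp_log_bound e he
  refine ⟨1 + max C 0 * B, fun n hn => ?_⟩
  have hn2 : (2 : ℝ) ≤ n := by exact_mod_cast hn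
  have hlog : 0 < Real.log n := Real.log_pos (by linarith)
  set D : ℝ := n / (Real.log n) ^ e with hD
  have hD0 : 0 ≤ D := by positivity
  have hD2 : D ^ 2 = (n : ℝ) ^ 2 / (Real.log n) ^ (2 * e) := by
    rw [hD, div_pow, ← Real.rpow_natCast ((Real.log n) ^ e), ← Real.rpow_mul hlog.le]
    congr 2
    push_cast; ring
  by_cases hcard : (saw f n).card = 0
  · have : mean f n R = 0 := by unfold mean; rw [hcard]; simp
    rw [this]
    have : 0 < (Real.log n) ^ (2 * e) := Real.rpow_pos_of_pos hlog _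
    positivity
  have hc0 : (0 : ℝ) < ((saw f n).card : ℝ) := by exact_mod_cast Nat.pos_of_ne_zero hcard
  have h1 : ∑ s ∈ saw f n, R s ≤ ∑ s ∈ saw f n, D ^ 2 +
      ∑ s ∈ far f n D, (n : ℝ) ^ 2 := by
    have h2 : ∑ s ∈ far f n D, (n : ℝ) ^ 2 =
        ∑ s ∈ saw f n, if s ∈ far f n D then (n : ℝ) ^ 2 else 0 := by
      rw [← Finset.sum_filter]
      congr 1
      ext s
      simp only [Finset.mem_filter]
      exact ⟨fun h => ⟨(Finset.mem_filter.1 h).1, h⟩, fun h => h.2⟩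
    rw [h2, ← Finset.sum_add_distrib]
    refine Finset.sum_le_sum fun s hs => ?_
    split_ifs with h3
    · have := hR n s n (by positivity) (fun i j hi hj => pos_dist f hf s hi hj)
      have := sq_nonneg D
      linarith
    · rw [add_zero]
      refine hR n s D hD0 fun i j hi hj => ?_
      by_contra h4
      push Not at h4
      exact h3 (Finset.mem_filter.2 ⟨hs, i, j, hi, hj, h4.le⟩)
  rw [Finset.sum_const, Finset.sum_const, nsmul_eq_mul, nsmul_eq_mul] at h1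
  have h5 : ((far f n D).card : ℝ) ≤ max C 0 * (B / (Real.log n) ^ (2 * e)) *
      ((saw f n).card : ℝ) := by
    refine (hC n hn).trans ?_
    gcongr
    · exact le_max_left _ _
    · exact hB2 n hn
  unfold mean
  rw [div_le_iff₀ hc0]
  calc ∑ s ∈ saw f n, R s ≤ ((saw f n).card : ℝ) * D ^ 2 + ((far f n D).card : ℝ) * (n : ℝ) ^ 2 := h1
    _ ≤ ((saw f n).card : ℝ) * D ^ 2 + (max C 0 * (B / (Real.log n) ^ (2 * e)) *
      ((saw f n).card : ℝ)) * (n : ℝ) ^ 2 := by gcongr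
    _ = _ := by rw [hD2]; ring

end ZB.Pub
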