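import Pool.Agent.ZB.Basic
import Pool.Agent.ZB.PubDefs

/-!
# ZB, row E2: the public statement for the square lattice
-/

set_option autoImplicit false
open scoped Classical
open Set

namespace ZB.Pub

/-- direction `a` as a letter -/
def lt : Fin 4 → St := ![St.R, St.U, St.L, St.D]
def tl : St → Fin 4
  | .R => 0 | .U => 1 | .L => 2 | .D => 3
theorem tl_lt (a : Fin 4) : tl (lt a) = a := by fin_cases a <;> rfl
theorem lt_tl (s : St) : lt (tl s) = s := by cases s <;> rfl
theorem lt_inj : Function.Injective lt := fun a b h => by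
  have := congrArg tl h; rwa [tl_lt, tl_lt] at this

/-- the word of a walk -/
def wd {n : ℕ} (s : Fin n → Fin 4) : Wd := List.ofFn fun i => lt (s i)
@[simp] theorem wd_length {n : ℕ} (s : Fin n → Fin 4) : (wd s).length = n := by simp [wd]
theorem wd_inj {n : ℕ} : Function.Injective (wd : (Fin n → Fin 4) → Wd) := by
  intro s s' h
  have h1 := List.ofFn_injective h
  funext i
  exact lt_inj (congrFun h1 i)
theorem wd_surj {n : ℕ} (w : Wd) (h : w.length = n) : ∃ s : Fin n → Fin 4, wd s = w := by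
  subst h
  refine ⟨fun i => tl (w.get i), ?_⟩
  unfold wd
  simp only [lt_tl]
  exact List.ofFn_get w

theorem f_eq (f : ℕ → Fin 4 → ℂ) (hf : ∀ i a, f i a = Complex.I ^ (a : ℕ)) (i : ℕ) (a : Fin 4) :
    f i a = (dx (lt a) : ℂ) + (dy (lt a) : ℂ) * Complex.I := by
  rw [hf]
  fin_cases a <;> simp [lt, dx, dy]

theorem pos_eq (f : ℕ → Fin 4 → ℂ) (hf : ∀ i a, f i a = Complex.I ^ (a : ℕ)) {n : ℕ}
    (s : Fin n → Fin 4) (j : ℕ) (hj : j ≤ n) :
    pos f s j = (X ((wd s).take j) : ℂ) + (Y ((wd s).take j) : ℂ) * Complex.I := by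
  induction j with
  | zero => rw [pos_zero]; simp
  | succ j ih =>
    rw [pos_succ f s (show j < n by omega), ih (by omega), f_eq f hf]
    have h1 : (wd s).take (j + 1) = (wd s).take j ++ [lt (s ⟨j, by omega⟩)] := by
      rw [List.take_add_one]
      congr 1
      unfold wd
      rw [List.getElem?_ofFn, dif_pos (show j < n by omega)]
      rfl
    rw [h1]
    simp only [X_append, Y_append, X_cons, Y_cons, X_nil, Y_nil, add_zero]
    push_cast
    ring

/-- an infix between two times -/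
theorem XY_slice (w : Wd) {i j : ℕ} (h : i ≤ j) :
    X ((w.take j).drop i) = X (w.take j) - X (w.take i) ∧
    Y ((w.take j).drop i) = Y (w.take j) - Y (w.take i) := by
  have h1 : w.take j = w.take i ++ (w.take j).drop i := by
    conv_lhs => rw [← List.take_append_drop i (w.take j)]
    rw [List.take_take, min_eq_left h]
  have h2 := congrArg X h1
  have h3 := congrArg Y h1
  simp only [X_append, Y_append] at h2 h3
  constructor <;> omega

theorem slice_infix (w : Wd) (i j : ℕ) : (w.take j).drop i <:+: w :=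
  (List.drop_suffix _ _).isInfix.trans (List.take_prefix _ _).isInfix

theorem infix_slice {v w : Wd} (h : v <:+: w) : ∃ i j, i ≤ j ∧ j ≤ w.length ∧
    v = (w.take j).drop i ∧ j = i + v.length := by
  obtain ⟨a, b, rfl⟩ := h
  refine ⟨a.length, (a ++ v).length, by simp, by simp, ?_, by simp⟩
  rw [List.take_left, List.drop_left]

theorem eq_iff (f : ℕ → Fin 4 → ℂ) (hf : ∀ i a, f i a = Complex.I ^ (a : ℕ)) {n : ℕ}
    (s : Fin n → Fin 4) {i j : ℕ} (hi : i ≤ n) (hj : j ≤ n) :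
    pos f s i = pos f s j ↔ X ((wd s).take i) = X ((wd s).take j) ∧
      Y ((wd s).take i) = Y ((wd s).take j) := by
  rw [pos_eq f hf s i hi, pos_eq f hf s j hj, Complex.ext_iff]
  simp

theorem saw_iff (f : ℕ → Fin 4 → ℂ) (hf : ∀ i a, f i a = Complex.I ^ (a : ℕ)) {n : ℕ}
    (s : Fin n → Fin 4) : s ∈ saw f n ↔ SA (wd s) := by
  unfold saw
  rw [Finset.mem_filter]
  constructor
  · rintro ⟨-, h⟩ v hv h0 ⟨h1, h2⟩
    obtain ⟨i, j, hij, hj, rfl, hl⟩ := infix_slice hv
    rw [wd_length] at hj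
    obtain ⟨h3, h4⟩ := XY_slice (wd s) hij
    have h5 := h i j (by omega) hj ((eq_iff f hf s (by omega) hj).2 ⟨by omega, by omega⟩)
    apply h0
    apply List.length_eq_zero_iff.1
    omega
  · intro h
    refine ⟨Finset.mem_univ _, fun i j hi hj he => ?_⟩
    rw [eq_iff f hf s hi hj] at he
    by_contra hne
    wlog hlt : i < j generalizing i j
    · exact this j i hj hi ⟨he.1.symm, he.2.symm⟩ (Ne.symm hne) (by omega)
    obtain ⟨h3, h4⟩ := XY_slice (wd s) hlt.le
    refine h _ (slice_infix (wd s) i j) ?_ ⟨by omega, by omega⟩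
    intro h5
    have := congrArg List.length h5
    simp at this
    omega

theorem saw_card (f : ℕ → Fin 4 → ℂ) (hf : ∀ i a, f i a = Complex.I ^ (a : ℕ)) (n : ℕ) :
    (saw f n).card = c n := by
  unfold c
  have h1 : {w : Wd | w.length = n ∧ SA w} = wd '' (saw f n : Set (Fin n → Fin 4)) := by
    ext w
    constructor
    · rintro ⟨h1, h2⟩
      obtain ⟨s, rfl⟩ := wd_surj w h1
      exact ⟨s, (saw_iff f hf s).2 h2, rfl⟩
    · rintro ⟨s, hs, rfl⟩
      exact ⟨wd_length s, (saw_iff f hf s).1 hs⟩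
  rw [h1, Set.ncard_image_of_injective _ wd_inj, Set.ncard_coe_finset]

theorem finite_len (n : ℕ) : {w : Wd | w.length = n}.Finite := by
  have : {w : Wd | w.length = n} ⊆ wd '' (Set.univ : Set (Fin n → Fin 4)) := by
    intro w hw
    obtain ⟨s, hs⟩ := wd_surj w hw
    exact ⟨s, mem_univ _, hs⟩
  exact (Set.finite_univ.image _).subset this

theorem far_card (f : ℕ → Fin 4 → ℂ) (hf : ∀ i a, f i a = Complex.I ^ (a : ℕ)) (n : ℕ) (D : ℝ) :
    (far f n D).card ≤ cFar n (D / 2) := by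
  unfold cFar
  have h1 : wd '' (far f n D : Set (Fin n → Fin 4)) ⊆ {w : Wd | w.length = n ∧ SA w ∧
      ∃ v, v <:+: w ∧ (D / 2 ≤ |(X v : ℝ)| ∨ D / 2 ≤ |(Y v : ℝ)|)} := by
    rintro w ⟨s, hs, rfl⟩
    obtain ⟨hs1, i, j, hi, hj, hD⟩ := Finset.mem_filter.1 hs
    refine ⟨wd_length s, (saw_iff f hf s).1 hs1, ?_⟩
    wlog hij : i ≤ j generalizing i j
    · exact this j i hj hi (by rwa [norm_sub_rev]) (by omega)
    obtain ⟨h3, h4⟩ := XY_slice (wd s) hij
    refine ⟨((wd s).take j).drop i, slice_infix _ _ _, ?_⟩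
    by_contra hcon
    push Not at hcon
    obtain ⟨a1, a2⟩ := hcon
    rw [pos_eq f hf s i hi, pos_eq f hf s j hj] at hD
    have h5 : ((X ((wd s).take i) : ℂ) + (Y ((wd s).take i) : ℂ) * Complex.I -
        ((X ((wd s).take j) : ℂ) + (Y ((wd s).take j) : ℂ) * Complex.I)) =
        ((-(X (((wd s).take j).drop i) : ℝ) : ℝ) : ℂ) +
          ((-(Y (((wd s).take j).drop i) : ℝ) : ℝ) : ℂ) * Complex.I := by
      rw [h3, h4]; push_cast; ring
    rw [h5] at hD
    have h6 : ‖((-(X (((wd s).take j).drop i) : ℝ) : ℝ) : ℂ) +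
          ((-(Y (((wd s).take j).drop i) : ℝ) : ℝ) : ℂ) * Complex.I‖ ≤
        |(X (((wd s).take j).drop i) : ℝ)| + |(Y (((wd s).take j).drop i) : ℝ)| := by
      refine (norm_add_le _ _).trans ?_
      rw [norm_mul, Complex.norm_I, mul_one, Complex.norm_real, Complex.norm_real,
        Real.norm_eq_abs, Real.norm_eq_abs, abs_neg, abs_neg]
    linarith
  rw [← Set.ncard_coe_finset (far f n D), ← Set.ncard_image_of_injective _ wd_inj]
  refine Set.ncard_le_ncard h1 ?_
  exact (finite_len n).subset fun w hw => hw.1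

theorem cFar_anti (n : ℕ) {s s' : ℝ} (h : s ≤ s') : cFar n s' ≤ cFar n s := by
  unfold cFar
  refine Set.ncard_le_ncard ?_ ((finite_len n).subset fun w hw => hw.1)
  rintro w ⟨h1, h2, v, hv, h3⟩
  exact ⟨h1, h2, v, hv, h3.imp (fun h4 => h.trans h4) fun h4 => h.trans h4⟩

theorem tail_of (hF : Final) : ∃ e : ℝ, 0 < e ∧ ∀ f : ℕ → Fin 4 → ℂ,
    (∀ i a, f i a = Complex.I ^ (a : ℕ)) → Tail f e := by
  obtain ⟨e, he, hF⟩ := hF
  refine ⟨e / 2, by positivity, fun f hf ε hε => ?_⟩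
  obtain ⟨C, hC, hF⟩ := hF ε hε
  have h1 : Filter.Tendsto (fun n : ℕ => (Real.log n) ^ (e / 2)) Filter.atTop Filter.atTop :=
    (tendsto_rpow_atTop (by positivity)).comp
      (Real.tendsto_log_atTop.comp tendsto_natCast_atTop_atTop)
  obtain ⟨n0, hn0⟩ := (h1.eventually_ge_atTop 2).exists_forall_of_atTop
  refine ⟨max C (∑ n ∈ Finset.range n0, Real.exp ((n : ℝ) ^ (1 - ε))), fun n hn => ?_⟩
  have hn2 : (2 : ℝ) ≤ n := by exact_mod_cast hn
  have hlog : 0 < Real.log n := Real.log_pos (by linarith)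
  by_cases h : n0 ≤ n
  · have h2 := hn0 n h
    have h3 : (n : ℝ) / (Real.log n) ^ e ≤ (n : ℝ) / (Real.log n) ^ (e / 2) / 2 := by
      have h4 : (Real.log n) ^ e = (Real.log n) ^ (e / 2) * (Real.log n) ^ (e / 2) := by
        rw [← Real.rpow_add hlog]; congr 1; ring
      have hp : 0 < (Real.log n) ^ (e / 2) := Real.rpow_pos_of_pos hlog _
      rw [h4, div_div, div_le_div_iff₀ (by positivity) (by positivity)]
      gcongr
    have h5 := (far_card f hf n ((n : ℝ) / (Real.log n) ^ (e / 2))).trans (cFar_anti n h3)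
    calc ((far f n ((n : ℝ) / (Real.log n) ^ (e / 2))).card : ℝ)
        ≤ (cFar n ((n : ℝ) / (Real.log n) ^ e) : ℝ) := by exact_mod_cast h5
      _ ≤ C * Real.exp (- (n : ℝ) ^ (1 - ε)) * c n := hF n hn
      _ ≤ _ := by
        rw [saw_card f hf]
        gcongr
        exact le_max_left _ _
  · have h2 : (far f n ((n : ℝ) / (Real.log n) ^ (e / 2))).card ≤ (saw f n).card :=
      Finset.card_le_card (Finset.filter_subset _ _)
    have h3 : Real.exp ((n : ℝ) ^ (1 - ε)) ≤
        ∑ n ∈ Finset.range n0, Real.exp ((n : ℝ) ^ (1 - ε)) :=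
      Finset.single_le_sum (f := fun n : ℕ => Real.exp ((n : ℝ) ^ (1 - ε)))
        (fun i _ => (Real.exp_pos _).le) (Finset.mem_range.2 (by omega))
    have h4 : (1 : ℝ) ≤ max C (∑ n ∈ Finset.range n0, Real.exp ((n : ℝ) ^ (1 - ε))) *
        Real.exp (- (n : ℝ) ^ (1 - ε)) := by
      calc (1 : ℝ) = Real.exp ((n : ℝ) ^ (1 - ε)) * Real.exp (- (n : ℝ) ^ (1 - ε)) := by
            rw [← Real.exp_add]; simp
        _ ≤ _ := by gcongr; exact h3.trans (le_max_right _ _)
    calc ((far f n ((n : ℝ) / (Real.log n) ^ (e / 2))).card : ℝ) ≤ 1 * ((saw f n).card : ℝ) := by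
          rw [one_mul]; exact_mod_cast h2
      _ ≤ _ := by gcongr

/-- the public statement for the square lattice -/
theorem main_sq (hF : Final) : ∃ e : ℝ, 0 < e ∧ ∀ f : ℕ → Fin 4 → ℂ,
    (∀ i a, f i a = Complex.I ^ (a : ℕ)) → Tail f e ∧
    ∃ C : ℝ, ∀ n : ℕ, 2 ≤ n →
      mean f n (fun s => Re f s) ≤ C * (n : ℝ) ^ 2 / (Real.log n) ^ (2 * e) ∧
      mean f n (fun s => Rg f s) ≤ C * (n : ℝ) ^ 2 / (Real.log n) ^ (2 * e) ∧
      mean f n (fun s => Rm f s) ≤ C * (n : ℝ) ^ 2 / (Real.log n) ^ (2 * e) := by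
  obtain ⟨e, he, h⟩ := tail_of hF
  refine ⟨e, he, fun f hf => ⟨h f hf, ?_⟩⟩
  have hf1 : ∀ i a, ‖f i a‖ ≤ 1 := fun i a => by rw [hf]; simp
  obtain ⟨C1, h1⟩ := mean_le f hf1 he (h f hf) (fun s => Re f s) (subD_Re f)
  obtain ⟨C2, h2⟩ := mean_le f hf1 he (h f hf) (fun s => Rg f s) (subD_Rg f)
  obtain ⟨C3, h3⟩ := mean_le f hf1 he (h f hf) (fun s => Rm f s) (subD_Rm f)
  have key : ∀ C' ≤ max C1 (max C2 C3), ∀ n : ℕ, 2 ≤ n →
      C' * (n : ℝ) ^ 2 / (Real.log n) ^ (2 * e) ≤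
        max C1 (max C2 C3) * (n : ℝ) ^ 2 / (Real.log n) ^ (2 * e) := by
    intro C' hC' n hn
    have hn2 : (2 : ℝ) ≤ n := by exact_mod_cast hn
    have hlog : 0 < Real.log n := Real.log_pos (by linarith)
    have : 0 < (Real.log n) ^ (2 * e) := Real.rpow_pos_of_pos hlog _
    gcongr
  exact ⟨max C1 (max C2 C3), fun n hn => ⟨(h1 n hn).trans (key _ (le_max_left _ _) n hn),
    (h2 n hn).trans (key _ ((le_max_left _ _).trans (le_max_right _ _)) n hn),
    (h3 n hn).trans (key _ ((le_max_right _ _).trans (le_max_right _ _)) n hn)⟩⟩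

end ZB.Pub
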