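import Mathlib

/-!
# ZB: the good window, analysis on an abstract probability space (one scale)

`H` height, `L` length, `W` width of an irreducible bridge, `P` the critical law, `Z = m H - lam L`,
`kap = E (1 - exp (-lam L))`.

* `eqH`: `E (m H exp Z) <= (9/5) kap + (the bad part)`;
* `sq_le`: `E (exp (Z/2) - 1)^2 <= 2 (m' - m/2) E (H exp Z')`, `Z' = m' H - (lam/2) L`;
* `bad_le`: `P (m H >= eta or m W >= 4 eta or |Z| >= eta)` is small.
-/

set_option autoImplicit false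

noncomputable section

namespace ZBW

open MeasureTheory Real

variable {Ω : Type*} [MeasurableSpace Ω] {P : Measure Ω} {H L W : Ω → ℝ}

/-- the exponent of the tilt -/
def ZZ (H L : Ω → ℝ) (m lam : ℝ) (ω : Ω) : ℝ := m * H ω - lam * L ω

/-- one minus the Laplace transform of the length -/
def kap (P : Measure Ω) (L : Ω → ℝ) (lam : ℝ) : ℝ := ∫ ω, (1 - exp (-(lam * L ω))) ∂P

lemma meas_ZZ (hH : Measurable H) (hL : Measurable L) (m lam : ℝ) : Measurable (ZZ H L m lam) :=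
  (hH.const_mul m).sub (hL.const_mul lam)

lemma int_lap [IsProbabilityMeasure P] (hL : Measurable L) (h0 : ∀ ω, 0 ≤ L ω) {lam : ℝ} (hl : 0 ≤ lam) :
    Integrable (fun ω => exp (-(lam * L ω))) P := by
  refine Integrable.of_bound (C := 1) ((hL.const_mul lam).neg.exp).aestronglyMeasurable ?_
  refine Filter.Eventually.of_forall fun ω => ?_
  rw [norm_of_nonneg (exp_pos _).le]
  exact exp_le_one_iff.2 (neg_nonpos.2 (mul_nonneg hl (h0 ω)))

lemma int_one_sub [IsProbabilityMeasure P] (hL : Measurable L) (h0 : ∀ ω, 0 ≤ L ω) {lam : ℝ} (hl : 0 ≤ lam) :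
    Integrable (fun ω => 1 - exp (-(lam * L ω))) P :=
  (integrable_const 1).sub (int_lap hL h0 hl)

omit [MeasurableSpace Ω] in
lemma one_sub_nonneg (h0 : ∀ ω, 0 ≤ L ω) {lam : ℝ} (hl : 0 ≤ lam) (ω : Ω) : 0 ≤ 1 - exp (-(lam * L ω)) :=
  sub_nonneg.2 (exp_le_one_iff.2 (neg_nonpos.2 (mul_nonneg hl (h0 ω))))

lemma kap_nonneg (h0 : ∀ ω, 0 ≤ L ω) {lam : ℝ} (hl : 0 ≤ lam) : 0 ≤ kap P L lam :=
  integral_nonneg (one_sub_nonneg h0 hl)

lemma kap_le_one [IsProbabilityMeasure P] (hL : Measurable L) (h0 : ∀ ω, 0 ≤ L ω) {lam : ℝ} (hl : 0 ≤ lam) :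
    kap P L lam ≤ 1 := by
  have := integral_mono (μ := P) (int_one_sub hL h0 hl) (integrable_const 1) fun ω => by
    show 1 - exp (-(lam * L ω)) ≤ 1
    linarith [exp_pos (-(lam * L ω))]
  simpa [kap] using this

/-- lengths are at least one: a lower bound -/
lemma kap_lower [IsProbabilityMeasure P] (hL : Measurable L) (h1 : ∀ ω, 1 ≤ L ω) {lam : ℝ} (hl : 0 ≤ lam)
    (hl1 : lam ≤ 1) : lam / 2 ≤ kap P L lam := by
  have h0 : ∀ ω, 0 ≤ L ω := fun ω => zero_le_one.trans (h1 ω)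
  have := integral_mono (μ := P) (integrable_const (lam / 2)) (int_one_sub hL h0 hl) fun ω => by
    show lam / 2 ≤ 1 - exp (-(lam * L ω))
    have h2 : exp (-(lam * L ω)) ≤ exp (-lam) := exp_le_exp.2 (by nlinarith [h1 ω])
    have h3 : exp (-lam) ≤ 1 - lam / 2 := by
      have h4 : 1 + lam ≤ exp lam := by linarith [add_one_le_exp lam]
      have h5 : exp (-lam) ≤ (1 + lam)⁻¹ := by
        rw [exp_neg]
        exact inv_anti₀ (by linarith) h4
      refine h5.trans ?_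
      rw [inv_le_iff_one_le_mul₀ (by linarith)]
      nlinarith
    linarith
  simpa [kap] using this

lemma kap_mono [IsProbabilityMeasure P] (hL : Measurable L) (h0 : ∀ ω, 0 ≤ L ω) {a b : ℝ} (ha : 0 ≤ a)
    (hab : a ≤ b) : kap P L a ≤ kap P L b :=
  integral_mono (int_one_sub hL h0 ha) (int_one_sub hL h0 (ha.trans hab)) fun ω => by
    show 1 - exp (-(a * L ω)) ≤ 1 - exp (-(b * L ω))
    have : exp (-(b * L ω)) ≤ exp (-(a * L ω)) := exp_le_exp.2 (by nlinarith [h0 ω])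
    linarith

lemma kap_half [IsProbabilityMeasure P] (hL : Measurable L) (h0 : ∀ ω, 0 ≤ L ω) {lam : ℝ} (hl : 0 ≤ lam) :
    kap P L lam / 2 ≤ kap P L (lam / 2) := by
  have h2 : 0 ≤ lam / 2 := by linarith
  rw [kap, kap, ← integral_div]
  refine integral_mono ((int_one_sub hL h0 hl).div_const 2) (int_one_sub hL h0 h2) fun ω => ?_
  show (1 - exp (-(lam * L ω))) / 2 ≤ 1 - exp (-(lam / 2 * L ω))
  have e : exp (-(lam * L ω)) = exp (-(lam / 2 * L ω)) * exp (-(lam / 2 * L ω)) := by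
    rw [← exp_add]
    congr 1
    ring
  rw [e]
  nlinarith [sq_nonneg (1 - exp (-(lam / 2 * L ω)))]

/-- the exact formula for the next scale -/
lemma kap_split [IsProbabilityMeasure P] (hL : Measurable L) (h0 : ∀ ω, 0 ≤ L ω) {lam : ℝ} (hl : 0 ≤ lam) :
    kap P L (lam / 2) = kap P L lam / 2 + (∫ ω, (1 - exp (-(lam / 2 * L ω))) ^ 2 ∂P) / 2 := by
  have h2 : 0 ≤ lam / 2 := by linarith
  have hi : Integrable (fun ω => (1 - exp (-(lam / 2 * L ω))) ^ 2) P := by
    refine Integrable.of_bound (C := 1) ?_ ?_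
    · exact ((measurable_const.sub ((hL.const_mul _).neg.exp)).pow_const 2).aestronglyMeasurable
    · refine Filter.Eventually.of_forall fun ω => ?_
      have h3 := one_sub_nonneg h0 h2 ω
      rw [norm_of_nonneg (sq_nonneg _)]
      have h4 : 1 - exp (-(lam / 2 * L ω)) ≤ 1 := by linarith [exp_pos (-(lam / 2 * L ω))]
      nlinarith
  rw [kap, kap, ← integral_div, ← integral_div, ← integral_add ((int_one_sub hL h0 hl).div_const 2) (hi.div_const 2)]
  refine integral_congr_ae (Filter.Eventually.of_forall fun ω => ?_)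
  show 1 - exp (-(lam / 2 * L ω)) = (1 - exp (-(lam * L ω))) / 2 + (1 - exp (-(lam / 2 * L ω))) ^ 2 / 2
  have e : exp (-(lam * L ω)) = exp (-(lam / 2 * L ω)) * exp (-(lam / 2 * L ω)) := by
    rw [← exp_add]
    congr 1
    ring
  rw [e]
  ring

/-- `kap` under the tilted law -/
lemma kap_exact [IsProbabilityMeasure P] (hL : Measurable L) (h0 : ∀ ω, 0 ≤ L ω) {m lam : ℝ} (hl : 0 ≤ lam)
    (hi : Integrable (fun ω => exp (ZZ H L m lam ω)) P) (h1 : ∫ ω, exp (ZZ H L m lam ω) ∂P = 1) :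
    ∫ ω, exp (ZZ H L m lam ω) * (1 - exp (-(m * H ω))) ∂P = kap P L lam := by
  have e : (fun ω => exp (ZZ H L m lam ω) * (1 - exp (-(m * H ω)))) =
      fun ω => exp (ZZ H L m lam ω) - exp (-(lam * L ω)) := by
    funext ω
    rw [mul_sub, mul_one, ← exp_add, ZZ]
    congr 2
    ring
  rw [e, integral_sub hi (int_lap hL h0 hl), h1, kap, integral_sub (integrable_const 1) (int_lap hL h0 hl)]
  simp

lemma x_le {x : ℝ} (h0 : 0 ≤ x) (h1 : x ≤ 1) : x ≤ 8 / 5 * (1 - exp (-x)) := by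
  have h2 := convexOn_exp.2 (Set.mem_univ (0 : ℝ)) (Set.mem_univ (-1 : ℝ)) (sub_nonneg.2 h1) h0 (by ring)
  simp only [smul_eq_mul, mul_zero, zero_add, exp_zero, mul_one] at h2
  have h3 : exp (-1) ≤ 3 / 8 := by
    rw [exp_neg]
    have := exp_one_gt_d9
    rw [inv_le_comm₀ (exp_pos 1) (by norm_num)]
    linarith
  have e : x * (-1) = -x := by ring
  rw [e] at h2
  nlinarith

lemma one_sub_exp_ge {y : ℝ} (h : 27 / 10 ≤ y) : 93 / 100 ≤ 1 - exp (-y) := by
  have h1 : exp (-y) ≤ exp (-(27 / 10)) := exp_le_exp.2 (by linarith)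
  have h2 : exp (-(27 / 10)) ≤ 7 / 100 := by
    rw [exp_neg, inv_le_comm₀ (exp_pos _) (by norm_num)]
    have h3 : exp (27 / 10) = exp 1 ^ 2 * exp (7 / 10) := by
      rw [← exp_nat_mul, ← exp_add]
      norm_num
    have h4 : 1 + 7 / 10 + (7 / 10) ^ 2 / 2 + (7 / 10) ^ 3 / 6 ≤ exp (7 / 10 : ℝ) := by
      have := Real.sum_le_exp_of_nonneg (show (0 : ℝ) ≤ 7 / 10 by norm_num) 4
      simp [Finset.sum_range_succ, Nat.factorial] at this
      linarith
    have h5 := exp_one_gt_d9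
    rw [h3]
    have h6 : (27 / 10) ^ 2 ≤ exp 1 ^ 2 := pow_le_pow_left₀ (by norm_num) (by linarith) 2
    nlinarith [exp_pos (1 : ℝ), exp_pos (7 / 10 : ℝ)]
  linarith

/-- `x exp (-17/10 x)` beyond one -/
lemma x_exp_le {x : ℝ} (h : 1 ≤ x) : x * exp (-(17 / 10 * x)) ≤ 93 / 500 := by
  -- exp (17/10 x) >= exp (17/10) (1 + 17/10 (x-1)) >= exp (17/10) x
  have h1 : 1 + 17 / 10 * (x - 1) ≤ exp (17 / 10 * (x - 1)) := by linarith [add_one_le_exp (17 / 10 * (x - 1))]
  have h2 : x ≤ exp (17 / 10 * (x - 1)) := by linarith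
  have h3 : x * exp (-(17 / 10 * x)) ≤ exp (17 / 10 * (x - 1)) * exp (-(17 / 10 * x)) :=
    mul_le_mul_of_nonneg_right h2 (exp_pos _).le
  rw [← exp_add] at h3
  have e : 17 / 10 * (x - 1) + -(17 / 10 * x) = -(17 / 10) := by ring
  rw [e] at h3
  refine h3.trans ?_
  rw [exp_neg, inv_le_comm₀ (exp_pos _) (by norm_num)]
  have h4 : exp (17 / 10 : ℝ) = exp 1 * exp (7 / 10) := by
    rw [← exp_add]
    norm_num
  have h5 : 1 + 7 / 10 + (7 / 10) ^ 2 / 2 + (7 / 10) ^ 3 / 6 ≤ exp (7 / 10 : ℝ) := by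
    have := Real.sum_le_exp_of_nonneg (show (0 : ℝ) ≤ 7 / 10 by norm_num) 4
    simp [Finset.sum_range_succ, Nat.factorial] at this
    linarith
  have h6 := exp_one_gt_d9
  rw [h4]
  nlinarith

/-- the first moment of the height under the tilted law -/
theorem eqH [IsProbabilityMeasure P] (hH : Measurable H) (hL : Measurable L) (hH0 : ∀ ω, 0 ≤ H ω) (h0 : ∀ ω, 0 ≤ L ω)
    {m lam : ℝ} (hm : 0 ≤ m) (hl : 0 ≤ lam)
    (hi : Integrable (fun ω => exp (ZZ H L m lam ω)) P) (h1 : ∫ ω, exp (ZZ H L m lam ω) ∂P = 1)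
    {B : Set Ω} (hB : MeasurableSet B) (hoff : ∀ ω, ω ∉ B → 1 ≤ m * H ω → 27 / 10 * (m * H ω) ≤ lam * L ω)
    (hBi : IntegrableOn (fun ω => m * H ω * exp (ZZ H L m lam ω)) B P) :
    Integrable (fun ω => m * H ω * exp (ZZ H L m lam ω)) P ∧
    ∫ ω, m * H ω * exp (ZZ H L m lam ω) ∂P ≤
      9 / 5 * kap P L lam + ∫ ω in B, m * H ω * exp (ZZ H L m lam ω) ∂P := by
  obtain ⟨f, hf⟩ : ∃ f : Ω → ℝ, f = fun ω => m * H ω * exp (ZZ H L m lam ω) := ⟨_, rfl⟩
  have hf0 : ∀ ω, 0 ≤ f ω := fun ω => by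
    rw [hf]
    exact mul_nonneg (mul_nonneg hm (hH0 ω)) (exp_pos _).le
  have hfm : Measurable f := by
    rw [hf]
    exact (hH.const_mul m).mul (meas_ZZ hH hL m lam).exp
  -- the dominating function
  obtain ⟨g, hg⟩ : ∃ g : Ω → ℝ, g = fun ω => 8 / 5 * (exp (ZZ H L m lam ω) * (1 - exp (-(m * H ω)))) +
    1 / 5 * (1 - exp (-(lam * L ω))) + B.indicator f ω := ⟨_, rfl⟩
  have hi2 : Integrable (fun ω => exp (ZZ H L m lam ω) * (1 - exp (-(m * H ω)))) P := by
    refine hi.mono (((meas_ZZ hH hL m lam).exp.mul (measurable_const.sub (hH.const_mul m).neg.exp)).aestronglyMeasurable)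
      (Filter.Eventually.of_forall fun ω => ?_)
    have h3 := one_sub_nonneg hH0 hm ω
    have h4 : 1 - exp (-(m * H ω)) ≤ 1 := by linarith [exp_pos (-(m * H ω))]
    rw [norm_of_nonneg (mul_nonneg (exp_pos _).le h3), norm_of_nonneg (exp_pos _).le]
    exact mul_le_of_le_one_right (exp_pos _).le h4
  have hBf : IntegrableOn f B P := by rw [hf]; exact hBi
  have hgi : Integrable g P := by
    rw [hg]
    exact ((hi2.const_mul _).add ((int_one_sub hL h0 hl).const_mul _)).add (hBf.integrable_indicator hB)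
  have hle : ∀ ω, f ω ≤ g ω := by
    intro ω
    rw [hg]
    have a1 : 0 ≤ exp (ZZ H L m lam ω) * (1 - exp (-(m * H ω))) :=
      mul_nonneg (exp_pos _).le (one_sub_nonneg hH0 hm ω)
    have a2 := one_sub_nonneg h0 hl ω
    show f ω ≤ 8 / 5 * (exp (ZZ H L m lam ω) * (1 - exp (-(m * H ω)))) +
      1 / 5 * (1 - exp (-(lam * L ω))) + B.indicator f ω
    by_cases hb : ω ∈ B
    · rw [Set.indicator_of_mem hb]
      linarith
    · rw [Set.indicator_of_notMem hb, add_zero]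
      rcases le_or_gt (m * H ω) 1 with h | h
      · have h5 := x_le (mul_nonneg hm (hH0 ω)) h
        have h6 : f ω ≤ 8 / 5 * (exp (ZZ H L m lam ω) * (1 - exp (-(m * H ω)))) := by
          rw [hf]
          show m * H ω * exp (ZZ H L m lam ω) ≤ _
          nlinarith [exp_pos (ZZ H L m lam ω)]
        linarith
      · have h5 := hoff ω hb h.le
        have h6 : 27 / 10 ≤ lam * L ω := by linarith
        have h7 := one_sub_exp_ge h6
        have h8 : f ω ≤ 93 / 500 := by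
          rw [hf]
          show m * H ω * exp (ZZ H L m lam ω) ≤ _
          have h9 : exp (ZZ H L m lam ω) ≤ exp (-(17 / 10 * (m * H ω))) := exp_le_exp.2 (by
            rw [ZZ]
            linarith)
          exact (mul_le_mul_of_nonneg_left h9 (mul_nonneg hm (hH0 ω))).trans (x_exp_le h.le)
        linarith
  have hfi : Integrable f P := hgi.mono hfm.aestronglyMeasurable (Filter.Eventually.of_forall fun ω => by
    rw [norm_of_nonneg (hf0 ω), norm_of_nonneg ((hf0 ω).trans (hle ω))]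
    exact hle ω)
  refine ⟨by rw [← hf]; exact hfi, ?_⟩
  have h9 := integral_mono hfi hgi hle
  have h10 : ∫ ω, g ω ∂P = 8 / 5 * kap P L lam + 1 / 5 * kap P L lam + ∫ ω in B, f ω ∂P := by
    have b1 : ∫ ω, g ω ∂P = (∫ ω, 8 / 5 * (exp (ZZ H L m lam ω) * (1 - exp (-(m * H ω)))) ∂P +
        ∫ ω, 1 / 5 * (1 - exp (-(lam * L ω))) ∂P) + ∫ ω, B.indicator f ω ∂P := by
      rw [hg]
      exact (integral_add ((hi2.const_mul _).add ((int_one_sub hL h0 hl).const_mul _))
        (hBf.integrable_indicator hB)).trans (congrArg₂ (· + ·)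
          (integral_add (hi2.const_mul _) ((int_one_sub hL h0 hl).const_mul _)) rfl)
    rw [b1, integral_const_mul, integral_const_mul, kap_exact hL h0 hl hi h1, integral_indicator hB]
    rfl
  rw [h10] at h9
  rw [← hf]
  show ∫ ω, f ω ∂P ≤ 9 / 5 * kap P L lam + ∫ ω in B, f ω ∂P
  linarith

/-- 10's good window: the second moment of `exp (Z / 2) - 1` -/
theorem sq_le [IsProbabilityMeasure P] (hH : Measurable H) (hL : Measurable L) {m m' lam : ℝ}
    (hi : Integrable (fun ω => exp (ZZ H L m lam ω)) P) (h1 : ∫ ω, exp (ZZ H L m lam ω) ∂P = 1)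
    (hi' : Integrable (fun ω => exp (ZZ H L m' (lam / 2) ω)) P) (h1' : ∫ ω, exp (ZZ H L m' (lam / 2) ω) ∂P = 1)
    (hHi : Integrable (fun ω => H ω * exp (ZZ H L m' (lam / 2) ω)) P) :
    Integrable (fun ω => (exp (ZZ H L m lam ω / 2) - 1) ^ 2) P ∧
    ∫ ω, (exp (ZZ H L m lam ω / 2) - 1) ^ 2 ∂P ≤ 2 * (m' - m / 2) * ∫ ω, H ω * exp (ZZ H L m' (lam / 2) ω) ∂P := by
  have hZm := meas_ZZ hH hL m lam
  have e0 : ∀ ω, exp (ZZ H L m lam ω / 2) * exp (ZZ H L m lam ω / 2) = exp (ZZ H L m lam ω) := fun ω => by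
    rw [← exp_add]
    congr 1
    ring
  have hh : Integrable (fun ω => exp (ZZ H L m lam ω / 2)) P := by
    refine (hi.add (integrable_const 1)).mono ((hZm.div_const 2).exp).aestronglyMeasurable
      (Filter.Eventually.of_forall fun ω => ?_)
    have h2 := e0 ω
    have h3 := exp_pos (ZZ H L m lam ω / 2)
    have h4 := exp_pos (ZZ H L m lam ω)
    rw [norm_of_nonneg h3.le]
    show exp (ZZ H L m lam ω / 2) ≤ ‖exp (ZZ H L m lam ω) + 1‖
    rw [norm_of_nonneg (by linarith)]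
    nlinarith [sq_nonneg (exp (ZZ H L m lam ω / 2) - 1)]
  have e1 : (fun ω => (exp (ZZ H L m lam ω / 2) - 1) ^ 2) =
      fun ω => exp (ZZ H L m lam ω) - 2 * exp (ZZ H L m lam ω / 2) + 1 := by
    funext ω
    rw [← e0 ω]
    ring
  have hint : Integrable (fun ω => (exp (ZZ H L m lam ω / 2) - 1) ^ 2) P := by
    rw [e1]
    exact (hi.sub (hh.const_mul 2)).add (integrable_const 1)
  refine ⟨hint, ?_⟩
  have e2 : ∫ ω, (exp (ZZ H L m lam ω / 2) - 1) ^ 2 ∂P = 2 - 2 * ∫ ω, exp (ZZ H L m lam ω / 2) ∂P := by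
    have b1 : ∫ ω, (exp (ZZ H L m lam ω) - 2 * exp (ZZ H L m lam ω / 2) + 1) ∂P =
        (∫ ω, exp (ZZ H L m lam ω) ∂P - ∫ ω, 2 * exp (ZZ H L m lam ω / 2) ∂P) + ∫ _ω, (1 : ℝ) ∂P :=
      (integral_add (hi.sub (hh.const_mul 2)) (integrable_const 1)).trans
        (congrArg₂ (· + ·) (integral_sub hi (hh.const_mul 2)) rfl)
    rw [e1, b1, h1, integral_const_mul]
    simp
    ring
  have h5 : ∫ ω, (exp (ZZ H L m' (lam / 2) ω) - (m' - m / 2) * (H ω * exp (ZZ H L m' (lam / 2) ω))) ∂P ≤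
      ∫ ω, exp (ZZ H L m lam ω / 2) ∂P := by
    refine integral_mono (hi'.sub (hHi.const_mul _)) hh fun ω => ?_
    show exp (ZZ H L m' (lam / 2) ω) - (m' - m / 2) * (H ω * exp (ZZ H L m' (lam / 2) ω)) ≤ exp (ZZ H L m lam ω / 2)
    have e3 : ZZ H L m lam ω / 2 = ZZ H L m' (lam / 2) ω + -((m' - m / 2) * H ω) := by
      rw [ZZ, ZZ]
      ring
    rw [e3, exp_add]
    have h6 := add_one_le_exp (-((m' - m / 2) * H ω))
    nlinarith [exp_pos (ZZ H L m' (lam / 2) ω)]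
  rw [integral_sub hi' (hHi.const_mul _), integral_const_mul, h1'] at h5
  rw [e2]
  linarith

lemma sq_ge {η z : ℝ} (hη : 0 ≤ η) (hη1 : η ≤ 1) (hz : η ≤ |z|) : η ^ 2 / 7 ≤ (exp (z / 2) - 1) ^ 2 := by
  rcases le_total 0 z with h | h
  · rw [abs_of_nonneg h] at hz
    have h1 := add_one_le_exp (z / 2)
    nlinarith
  · rw [abs_of_nonpos h] at hz
    have h1 : exp (z / 2) ≤ exp (-(η / 2)) := exp_le_exp.2 (by linarith)
    have h2 := convexOn_exp.2 (Set.mem_univ (0 : ℝ)) (Set.mem_univ (-(1 / 2) : ℝ)) (sub_nonneg.2 hη1) hη (by ring)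
    simp only [smul_eq_mul, mul_zero, zero_add, exp_zero, mul_one] at h2
    have e : η * (-(1 / 2)) = -(η / 2) := by ring
    rw [e] at h2
    have h3 : exp (-(1 / 2) : ℝ) ≤ 31 / 50 := by
      rw [exp_neg, inv_le_comm₀ (exp_pos _) (by norm_num)]
      have := Real.sum_le_exp_of_nonneg (show (0 : ℝ) ≤ 1 / 2 by norm_num) 4
      simp [Finset.sum_range_succ, Nat.factorial] at this
      linarith
    have h4 : 19 / 50 * η ≤ 1 - exp (z / 2) := by nlinarith
    nlinarith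

end ZBW

end
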