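import Pool.Agent.ZB.WinA

/-!
# ZB: the good window, one scale

`Sc P H L W m m' lam e B η`: the hypotheses of one scale (`m = m_j`, `m' = m_(j+1)`).
`Gd`: the good event `m H < η`, `m W < 4 η`, `|Z| < η`.

* `Sc.bad`: `P (not Gd) <= kap' * s`, `s = 28 d / η^2 + 2 e`, `d = 1 - m / (2 m')`;
* `Sc.kap_rec`: `kap' <= kap / 2 * (1 + η + s)`;
* `Sc.meanH`: `kap (1 - 3 s) <= E (m H; m H < η) <= kap (1 + 2 η + 3 s)`.
-/

set_option autoImplicit false

noncomputable section

namespace ZBW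

open MeasureTheory Real

variable {Ω : Type*} [MeasurableSpace Ω]

/-- the hypotheses of one scale -/
structure Sc (P : Measure Ω) (H L W : Ω → ℝ) (m m' lam e : ℝ) (B : Set Ω) (η : ℝ) : Prop where
  hH : Measurable H
  hL : Measurable L
  hW : Measurable W
  H0 : ∀ ω, 0 ≤ H ω
  L0 : ∀ ω, 0 ≤ L ω
  m0 : 0 < m
  mm : m / 2 ≤ m'
  lam0 : 0 < lam
  i1 : Integrable (fun ω => exp (ZZ H L m lam ω)) P
  e1 : ∫ ω, exp (ZZ H L m lam ω) ∂P = 1
  i2 : Integrable (fun ω => exp (ZZ H L m' (lam / 2) ω)) P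
  e2 : ∫ ω, exp (ZZ H L m' (lam / 2) ω) ∂P = 1
  /-- the first moment at the next scale -/
  i3 : Integrable (fun ω => m' * H ω * exp (ZZ H L m' (lam / 2) ω)) P
  e3 : ∫ ω, m' * H ω * exp (ZZ H L m' (lam / 2) ω) ∂P ≤ 2 * kap P L (lam / 2)
  hB : MeasurableSet B
  PB : P.real B ≤ e * kap P L lam
  offH : ∀ ω, ω ∉ B → η ≤ m * H ω → 27 / 10 * (m * H ω) ≤ lam * L ω
  offW : ∀ ω, ω ∉ B → 4 * η ≤ m * W ω → 18 / 5 * η ≤ lam * L ω

/-- the good event -/
def Gd (H L W : Ω → ℝ) (m lam η : ℝ) : Set Ω := {ω | m * H ω < η ∧ m * W ω < 4 * η ∧ |ZZ H L m lam ω| < η}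

variable {P : Measure Ω} {H L W : Ω → ℝ} {m m' lam e η : ℝ} {B : Set Ω}

/-- the defect of the scale -/
def dd (m m' : ℝ) : ℝ := 1 - m / (2 * m')

/-- the total defect of the scale -/
def sd (m m' e η : ℝ) : ℝ := 28 * dd m m' / η ^ 2 + 2 * e

lemma Sc.m'0 (h : Sc P H L W m m' lam e B η) : 0 < m' := by
  have := h.m0
  have := h.mm
  linarith

lemma Sc.dd0 (h : Sc P H L W m m' lam e B η) : 0 ≤ dd m m' := by
  rw [dd, sub_nonneg, div_le_one (by linarith [h.m'0])]
  linarith [h.mm]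

lemma Sc.dd_eq (h : Sc P H L W m m' lam e B η) : m' - m / 2 = dd m m' * m' := by
  have := h.m'0
  rw [dd]
  field_simp

lemma meas_Gd (hH : Measurable H) (hL : Measurable L) (hW : Measurable W) : MeasurableSet (Gd H L W m lam η) := by
  have h1 : MeasurableSet {ω | m * H ω < η} := measurableSet_lt (hH.const_mul m) measurable_const
  have h2 : MeasurableSet {ω | m * W ω < 4 * η} := measurableSet_lt (hW.const_mul m) measurable_const
  have h3 : MeasurableSet {ω | |ZZ H L m lam ω| < η} := measurableSet_lt (meas_ZZ hH hL m lam).abs measurable_const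
  exact h1.inter (h2.inter h3)

/-- the second moment of `exp (Z/2) - 1` -/
lemma Sc.sq [IsProbabilityMeasure P] (h : Sc P H L W m m' lam e B η) :
    Integrable (fun ω => (exp (ZZ H L m lam ω / 2) - 1) ^ 2) P ∧
    ∫ ω, (exp (ZZ H L m lam ω / 2) - 1) ^ 2 ∂P ≤ 4 * dd m m' * kap P L (lam / 2) := by
  have hm := h.m'0
  have hHi : Integrable (fun ω => H ω * exp (ZZ H L m' (lam / 2) ω)) P := by
    have := h.i3.const_mul m'⁻¹
    refine this.congr (Filter.Eventually.of_forall fun ω => ?_)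
    show m'⁻¹ * (m' * H ω * exp (ZZ H L m' (lam / 2) ω)) = _
    field_simp
  obtain ⟨a1, a2⟩ := sq_le h.hH h.hL h.i1 h.e1 h.i2 h.e2 hHi
  refine ⟨a1, a2.trans ?_⟩
  have e4 : ∫ ω, m' * H ω * exp (ZZ H L m' (lam / 2) ω) ∂P = m' * ∫ ω, H ω * exp (ZZ H L m' (lam / 2) ω) ∂P := by
    rw [← integral_const_mul]
    refine integral_congr_ae (Filter.Eventually.of_forall fun ω => ?_)
    show m' * H ω * exp (ZZ H L m' (lam / 2) ω) = m' * (H ω * exp (ZZ H L m' (lam / 2) ω))
    ring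
  have e5 := h.e3
  rw [e4] at e5
  rw [h.dd_eq]
  have := h.dd0
  calc 2 * (dd m m' * m') * ∫ ω, H ω * exp (ZZ H L m' (lam / 2) ω) ∂P
      = 2 * dd m m' * (m' * ∫ ω, H ω * exp (ZZ H L m' (lam / 2) ω) ∂P) := by ring
    _ ≤ 2 * dd m m' * (2 * kap P L (lam / 2)) := by gcongr
    _ = _ := by ring

lemma Sc.kk [IsProbabilityMeasure P] (h : Sc P H L W m m' lam e B η) : kap P L lam ≤ 2 * kap P L (lam / 2) := by
  have := kap_half (P := P) h.hL h.L0 h.lam0.le
  linarith

lemma Sc.k0 (h : Sc P H L W m m' lam e B η) : 0 ≤ kap P L lam := kap_nonneg h.L0 h.lam0.le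

lemma Sc.k1 (h : Sc P H L W m m' lam e B η) : 0 ≤ kap P L (lam / 2) := kap_nonneg h.L0 (by linarith [h.lam0])

lemma Sc.kle [IsProbabilityMeasure P] (h : Sc P H L W m m' lam e B η) : kap P L (lam / 2) ≤ kap P L lam :=
  kap_mono h.hL h.L0 (by linarith [h.lam0]) (by linarith [h.lam0])

/-- the bad event is rare -/
theorem Sc.bad [IsProbabilityMeasure P] (h : Sc P H L W m m' lam e B η) (hη : 0 < η) (hη1 : η ≤ 1) (he : 0 ≤ e) :
    P.real (Gd H L W m lam η)ᶜ ≤ kap P L (lam / 2) * sd m m' e η := by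
  obtain ⟨a1, a2⟩ := h.sq
  have hsub : (Gd H L W m lam η)ᶜ ⊆ {ω | η ^ 2 / 7 ≤ (exp (ZZ H L m lam ω / 2) - 1) ^ 2} ∪ B := by
    intro ω hω
    by_cases hb : ω ∈ B
    · exact Or.inr hb
    left
    show η ^ 2 / 7 ≤ (exp (ZZ H L m lam ω / 2) - 1) ^ 2
    refine sq_ge hη.le hη1 ?_
    by_contra hlt
    rw [not_le] at hlt
    apply hω
    have hz := abs_lt.1 hlt
    rw [ZZ] at hz
    have c1 : m * H ω < η := by
      by_contra hc
      rw [not_lt] at hc
      have := h.offH ω hb hc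
      linarith
    refine ⟨c1, ?_, hlt⟩
    by_contra hc
    rw [not_lt] at hc
    have := h.offW ω hb hc
    linarith
  have hmark : P.real {ω | η ^ 2 / 7 ≤ (exp (ZZ H L m lam ω / 2) - 1) ^ 2} ≤
      28 * dd m m' / η ^ 2 * kap P L (lam / 2) := by
    have b := mul_meas_ge_le_integral_of_nonneg (μ := P) (f := fun ω => (exp (ZZ H L m lam ω / 2) - 1) ^ 2)
      (Filter.Eventually.of_forall fun ω => sq_nonneg _) a1 (η ^ 2 / 7)
    have b2 : η ^ 2 / 7 * P.real {ω | η ^ 2 / 7 ≤ (exp (ZZ H L m lam ω / 2) - 1) ^ 2} ≤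
      4 * dd m m' * kap P L (lam / 2) := b.trans a2
    have b3 : 0 < η ^ 2 / 7 := by positivity
    have e6 : 28 * dd m m' / η ^ 2 * kap P L (lam / 2) = 4 * dd m m' * kap P L (lam / 2) / (η ^ 2 / 7) := by
      field_simp
      ring
    rw [e6, le_div_iff₀ b3, mul_comm]
    exact b2
  calc P.real (Gd H L W m lam η)ᶜ ≤ P.real ({ω | η ^ 2 / 7 ≤ (exp (ZZ H L m lam ω / 2) - 1) ^ 2} ∪ B) :=
        measureReal_mono hsub
    _ ≤ P.real {ω | η ^ 2 / 7 ≤ (exp (ZZ H L m lam ω / 2) - 1) ^ 2} + P.real B := measureReal_union_le _ _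
    _ ≤ 28 * dd m m' / η ^ 2 * kap P L (lam / 2) + e * (2 * kap P L (lam / 2)) := by
        refine add_le_add hmark (h.PB.trans ?_)
        exact mul_le_mul_of_nonneg_left h.kk he
    _ = _ := by
        rw [sd]
        ring

/-- the decay of `kap` -/
theorem Sc.kap_rec [IsProbabilityMeasure P] (h : Sc P H L W m m' lam e B η) (hη : 0 < η) (hη1 : η ≤ 1)
    (he : 0 ≤ e) : kap P L (lam / 2) ≤ kap P L lam / 2 * (1 + η + sd m m' e η) := by
  have hb := h.bad hη hη1 he
  have hG := meas_Gd (m := m) (lam := lam) (η := η) h.hH h.hL h.hW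
  have hl2 : 0 ≤ lam / 2 := by linarith [h.lam0]
  have hsd : 0 ≤ sd m m' e η := by
    rw [sd]
    have := h.dd0
    positivity
  rw [kap_split h.hL h.L0 h.lam0.le]
  have key : ∫ ω, (1 - exp (-(lam / 2 * L ω))) ^ 2 ∂P ≤ η * kap P L lam + P.real (Gd H L W m lam η)ᶜ := by
    have hi : Integrable (fun ω => η * (1 - exp (-(lam * L ω))) + (Gd H L W m lam η)ᶜ.indicator (fun _ => (1 : ℝ)) ω) P :=
      ((int_one_sub h.hL h.L0 h.lam0.le).const_mul η).add ((integrable_const 1).indicator hG.compl)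
    have h2 : ∫ ω, (1 - exp (-(lam / 2 * L ω))) ^ 2 ∂P ≤
        ∫ ω, (η * (1 - exp (-(lam * L ω))) + (Gd H L W m lam η)ᶜ.indicator (fun _ => (1 : ℝ)) ω) ∂P := by
      refine integral_mono_of_nonneg (Filter.Eventually.of_forall fun ω => sq_nonneg _) hi
        (Filter.Eventually.of_forall fun ω => ?_)
      show (1 - exp (-(lam / 2 * L ω))) ^ 2 ≤ η * (1 - exp (-(lam * L ω))) + (Gd H L W m lam η)ᶜ.indicator (fun _ => (1 : ℝ)) ω
      have g1 := one_sub_nonneg h.L0 hl2 ω
      have g2 : exp (-(lam * L ω)) ≤ exp (-(lam / 2 * L ω)) := exp_le_exp.2 (by nlinarith [h.L0 ω, h.lam0])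
      have g3 := exp_pos (-(lam / 2 * L ω))
      have g4 := one_sub_nonneg h.L0 h.lam0.le ω
      by_cases hg : ω ∈ Gd H L W m lam η
      · rw [Set.indicator_of_notMem (Set.notMem_compl_iff.2 hg), add_zero]
        obtain ⟨q1, q2, q3⟩ := hg
        have hz := (abs_lt.1 q3).1
        rw [ZZ] at hz
        have g5 : lam / 2 * L ω ≤ η := by linarith
        have g6 : 1 - exp (-(lam / 2 * L ω)) ≤ η := by
          have := add_one_le_exp (-(lam / 2 * L ω))
          linarith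
        nlinarith
      · rw [Set.indicator_of_mem hg]
        have : (1 - exp (-(lam / 2 * L ω))) ^ 2 ≤ 1 := by nlinarith
        have : 0 ≤ η * (1 - exp (-(lam * L ω))) := by positivity
        linarith
    refine h2.trans (le_of_eq ?_)
    have b1 : ∫ ω, (η * (1 - exp (-(lam * L ω))) + (Gd H L W m lam η)ᶜ.indicator (fun _ => (1 : ℝ)) ω) ∂P =
        ∫ ω, η * (1 - exp (-(lam * L ω))) ∂P + ∫ ω, (Gd H L W m lam η)ᶜ.indicator (fun _ => (1 : ℝ)) ω ∂P :=
      integral_add ((int_one_sub h.hL h.L0 h.lam0.le).const_mul η) ((integrable_const 1).indicator hG.compl)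
    rw [b1, integral_const_mul, integral_indicator hG.compl]
    simp [kap, Measure.real]
  have hk := h.kle
  have hk0 := h.k0
  have : kap P L (lam / 2) * sd m m' e η ≤ kap P L lam * sd m m' e η := mul_le_mul_of_nonneg_right hk hsd
  linarith

lemma exp_sub_le {z : ℝ} (h : |z| ≤ 1) : |z - (exp z - 1)| ≤ z ^ 2 := by
  have h1 := Real.abs_exp_sub_one_sub_id_le h
  have e : z - (exp z - 1) = -(exp z - 1 - z) := by ring
  rw [e, abs_neg]
  exact h1

lemma exp_sub_one_le (z : ℝ) : |exp z - 1| ≤ 2 * (exp (z / 2) - 1) ^ 2 + 1 := by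
  have e : exp z = exp (z / 2) * exp (z / 2) := by
    rw [← exp_add]
    congr 1
    ring
  rw [e, abs_le]
  constructor
  · nlinarith [exp_pos (z / 2), sq_nonneg (exp (z / 2) - 1)]
  · nlinarith [exp_pos (z / 2), sq_nonneg (exp (z / 2) - 2)]

/-- the truncated exponent has a small mean -/
lemma Sc.meanZ [IsProbabilityMeasure P] (h : Sc P H L W m m' lam e B η) (hη : 0 < η) (hη1 : η ≤ 1) (he : 0 ≤ e) :
    Integrable ((Gd H L W m lam η).indicator (ZZ H L m lam)) P ∧
    |∫ ω, (Gd H L W m lam η).indicator (ZZ H L m lam) ω ∂P| ≤ 2 * sd m m' e η * kap P L (lam / 2) := by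
  obtain ⟨a1, a2⟩ := h.sq
  have hb := h.bad hη hη1 he
  have hG := meas_Gd (m := m) (lam := lam) (η := η) h.hH h.hL h.hW
  have hZm := meas_ZZ h.hH h.hL m lam
  have hI : Integrable ((Gd H L W m lam η).indicator (ZZ H L m lam)) P := by
    refine Integrable.of_bound (C := η) (hZm.indicator hG).aestronglyMeasurable (Filter.Eventually.of_forall fun ω => ?_)
    by_cases hg : ω ∈ Gd H L W m lam η
    · rw [Set.indicator_of_mem hg]
      exact hg.2.2.le
    · rw [Set.indicator_of_notMem hg, norm_zero]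
      exact hη.le
  refine ⟨hI, ?_⟩
  have hE : Integrable (fun ω => exp (ZZ H L m lam ω) - 1) P := h.i1.sub (integrable_const 1)
  have hE0 : ∫ ω, (exp (ZZ H L m lam ω) - 1) ∂P = 0 := by
    rw [integral_sub h.i1 (integrable_const 1), h.e1]
    simp
  have hd : Integrable (fun ω => 7 * (exp (ZZ H L m lam ω / 2) - 1) ^ 2 +
      (Gd H L W m lam η)ᶜ.indicator (fun _ => (1 : ℝ)) ω) P :=
    (a1.const_mul 7).add ((integrable_const 1).indicator hG.compl)
  have e1 : ∫ ω, (Gd H L W m lam η).indicator (ZZ H L m lam) ω ∂P =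
      ∫ ω, ((Gd H L W m lam η).indicator (ZZ H L m lam) ω - (exp (ZZ H L m lam ω) - 1)) ∂P := by
    rw [integral_sub hI hE, hE0, sub_zero]
  rw [e1]
  have h3 := norm_integral_le_of_norm_le hd (f := fun ω => (Gd H L W m lam η).indicator (ZZ H L m lam) ω -
    (exp (ZZ H L m lam ω) - 1)) (Filter.Eventually.of_forall fun ω => by
      by_cases hg : ω ∈ Gd H L W m lam η
      · rw [Set.indicator_of_mem hg, Set.indicator_of_notMem (Set.notMem_compl_iff.2 hg), add_zero, norm_eq_abs]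
        have g1 : |ZZ H L m lam ω| ≤ 1 := hg.2.2.le.trans hη1
        have g2 := exp_sub_le g1
        have g3 := sq_ge (abs_nonneg _) g1 (le_refl |ZZ H L m lam ω|)
        rw [sq_abs] at g3
        linarith
      · rw [Set.indicator_of_notMem hg, Set.indicator_of_mem (show ω ∈ (Gd H L W m lam η)ᶜ from hg), norm_eq_abs,
          zero_sub, abs_neg]
        have g2 := exp_sub_one_le (ZZ H L m lam ω)
        have g3 := sq_nonneg (exp (ZZ H L m lam ω / 2) - 1)
        linarith)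
  rw [norm_eq_abs] at h3
  refine h3.trans ?_
  have b1 : ∫ ω, (7 * (exp (ZZ H L m lam ω / 2) - 1) ^ 2 + (Gd H L W m lam η)ᶜ.indicator (fun _ => (1 : ℝ)) ω) ∂P =
      ∫ ω, 7 * (exp (ZZ H L m lam ω / 2) - 1) ^ 2 ∂P + ∫ ω, (Gd H L W m lam η)ᶜ.indicator (fun _ => (1 : ℝ)) ω ∂P :=
    integral_add (a1.const_mul 7) ((integrable_const 1).indicator hG.compl)
  have b2 : ∫ ω, (Gd H L W m lam η)ᶜ.indicator (fun _ => (1 : ℝ)) ω ∂P = P.real (Gd H L W m lam η)ᶜ := by
    rw [integral_indicator hG.compl]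
    simp [Measure.real]
  rw [b1, b2, integral_const_mul]
  have hd0 := h.dd0
  have hk := h.k1
  have g4 : 28 * dd m m' ≤ sd m m' e η := by
    rw [sd]
    have : 28 * dd m m' ≤ 28 * dd m m' / η ^ 2 := by
      rw [le_div_iff₀ (by positivity)]
      have : η ^ 2 ≤ 1 := pow_le_one₀ hη.le hη1
      nlinarith
    linarith
  have g5 : 28 * dd m m' * kap P L (lam / 2) ≤ sd m m' e η * kap P L (lam / 2) := mul_le_mul_of_nonneg_right g4 hk
  linarith

/-- the truncated mean of the height, both sides -/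
theorem Sc.meanH [IsProbabilityMeasure P] (h : Sc P H L W m m' lam e B η) (hη : 0 < η) (hη1 : η ≤ 1) (he : 0 ≤ e) :
    kap P L lam * (1 - 3 * sd m m' e η) ≤ ∫ ω in {ω | m * H ω < η}, m * H ω ∂P ∧
    ∫ ω in {ω | m * H ω < η}, m * H ω ∂P ≤ kap P L lam * (1 + 2 * η + 3 * sd m m' e η) := by
  obtain ⟨a1, a2⟩ := h.meanZ hη hη1 he
  have hb := h.bad hη hη1 he
  have hG := meas_Gd (m := m) (lam := lam) (η := η) h.hH h.hL h.hW
  have hK : MeasurableSet {ω | m * H ω < η} := measurableSet_lt (h.hH.const_mul m) measurable_const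
  have hsd : 0 ≤ sd m m' e η := by
    rw [sd]
    have := h.dd0
    positivity
  have hk0 := h.k0
  have hk1 := h.k1
  have hkle := h.kle
  have hks : kap P L (lam / 2) * sd m m' e η ≤ kap P L lam * sd m m' e η := mul_le_mul_of_nonneg_right hkle hsd
  rw [← integral_indicator hK]
  have hI0 : Integrable ({ω | m * H ω < η}.indicator fun ω => m * H ω) P := by
    refine Integrable.of_bound (C := η) ((h.hH.const_mul m).indicator hK).aestronglyMeasurable
      (Filter.Eventually.of_forall fun ω => ?_)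
    by_cases hg : ω ∈ {ω | m * H ω < η}
    · rw [Set.indicator_of_mem hg, norm_of_nonneg (mul_nonneg h.m0.le (h.H0 ω))]
      exact le_of_lt hg
    · rw [Set.indicator_of_notMem hg, norm_zero]
      exact hη.le
  have hI1 := int_one_sub (P := P) h.hL h.L0 h.lam0.le
  have hI2 : Integrable ((Gd H L W m lam η)ᶜ.indicator fun _ => (1 : ℝ)) P := (integrable_const 1).indicator hG.compl
  have b2 : ∫ ω, (Gd H L W m lam η)ᶜ.indicator (fun _ => (1 : ℝ)) ω ∂P = P.real (Gd H L W m lam η)ᶜ := by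
    rw [integral_indicator hG.compl]
    simp [Measure.real]
  constructor
  · have h1 : ∫ ω, (((Gd H L W m lam η).indicator (ZZ H L m lam) ω + (1 - exp (-(lam * L ω)))) -
        (Gd H L W m lam η)ᶜ.indicator (fun _ => (1 : ℝ)) ω) ∂P ≤
        ∫ ω, ({ω | m * H ω < η}.indicator fun ω => m * H ω) ω ∂P := by
      refine integral_mono ((a1.add hI1).sub hI2) hI0 fun ω => ?_
      show ((Gd H L W m lam η).indicator (ZZ H L m lam) ω + (1 - exp (-(lam * L ω)))) -
        (Gd H L W m lam η)ᶜ.indicator (fun _ => (1 : ℝ)) ω ≤ ({ω | m * H ω < η}.indicator fun ω => m * H ω) ω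
      by_cases hg : ω ∈ Gd H L W m lam η
      · rw [Set.indicator_of_mem hg, Set.indicator_of_notMem (Set.notMem_compl_iff.2 hg), sub_zero,
          Set.indicator_of_mem (show ω ∈ {ω | m * H ω < η} from hg.1), ZZ]
        have := add_one_le_exp (-(lam * L ω))
        linarith
      · rw [Set.indicator_of_notMem hg, Set.indicator_of_mem (show ω ∈ (Gd H L W m lam η)ᶜ from hg)]
        have g1 := exp_pos (-(lam * L ω))
        have g2 : 0 ≤ ({ω | m * H ω < η}.indicator fun ω => m * H ω) ω :=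
          Set.indicator_nonneg (fun ω _ => mul_nonneg h.m0.le (h.H0 ω)) ω
        linarith
    have b1 : ∫ ω, (((Gd H L W m lam η).indicator (ZZ H L m lam) ω + (1 - exp (-(lam * L ω)))) -
        (Gd H L W m lam η)ᶜ.indicator (fun _ => (1 : ℝ)) ω) ∂P =
        (∫ ω, (Gd H L W m lam η).indicator (ZZ H L m lam) ω ∂P + ∫ ω, (1 - exp (-(lam * L ω))) ∂P) -
        ∫ ω, (Gd H L W m lam η)ᶜ.indicator (fun _ => (1 : ℝ)) ω ∂P :=
      (integral_sub (a1.add hI1) hI2).trans (congrArg₂ (· - ·) (integral_add a1 hI1) rfl)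
    rw [b1, b2] at h1
    have h2 := (abs_le.1 a2).1
    have e7 : ∫ ω, (1 - exp (-(lam * L ω))) ∂P = kap P L lam := rfl
    rw [e7] at h1
    linarith
  · have h1 : ∫ ω, ({ω | m * H ω < η}.indicator fun ω => m * H ω) ω ∂P ≤
        ∫ ω, (((Gd H L W m lam η).indicator (ZZ H L m lam) ω + (1 + 2 * η) * (1 - exp (-(lam * L ω)))) +
        (Gd H L W m lam η)ᶜ.indicator (fun _ => (1 : ℝ)) ω) ∂P := by
      refine integral_mono hI0 ((a1.add (hI1.const_mul _)).add hI2) fun ω => ?_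
      show ({ω | m * H ω < η}.indicator fun ω => m * H ω) ω ≤
        ((Gd H L W m lam η).indicator (ZZ H L m lam) ω + (1 + 2 * η) * (1 - exp (-(lam * L ω)))) +
        (Gd H L W m lam η)ᶜ.indicator (fun _ => (1 : ℝ)) ω
      have g0 := one_sub_nonneg h.L0 h.lam0.le ω
      by_cases hg : ω ∈ Gd H L W m lam η
      · rw [Set.indicator_of_mem hg, Set.indicator_of_notMem (Set.notMem_compl_iff.2 hg), add_zero,
          Set.indicator_of_mem (show ω ∈ {ω | m * H ω < η} from hg.1), ZZ]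
        obtain ⟨q1, q2, q3⟩ := hg
        have hz := (abs_lt.1 q3).1
        rw [ZZ] at hz
        have g5 : lam * L ω ≤ 2 * η := by linarith
        have g7 : 0 ≤ lam * L ω := mul_nonneg h.lam0.le (h.L0 ω)
        -- x <= (1 + x) (1 - exp (-x))
        have g6 : exp (-(lam * L ω)) ≤ (1 + lam * L ω)⁻¹ := by
          rw [exp_neg]
          exact inv_anti₀ (by linarith) (by linarith [add_one_le_exp (lam * L ω)])
        have g8 : (1 + lam * L ω) * exp (-(lam * L ω)) ≤ 1 := by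
          have := mul_le_mul_of_nonneg_left g6 (show 0 ≤ 1 + lam * L ω by linarith)
          rwa [mul_inv_cancel₀ (by linarith)] at this
        nlinarith
      · rw [Set.indicator_of_notMem hg, Set.indicator_of_mem (show ω ∈ (Gd H L W m lam η)ᶜ from hg)]
        have g2 : ({ω | m * H ω < η}.indicator fun ω => m * H ω) ω ≤ η :=
          Set.indicator_apply_le' (fun hh => le_of_lt hh) (fun _ => hη.le)
        have : 0 ≤ (1 + 2 * η) * (1 - exp (-(lam * L ω))) := by positivity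
        linarith
    have b1 : ∫ ω, (((Gd H L W m lam η).indicator (ZZ H L m lam) ω + (1 + 2 * η) * (1 - exp (-(lam * L ω)))) +
        (Gd H L W m lam η)ᶜ.indicator (fun _ => (1 : ℝ)) ω) ∂P =
        (∫ ω, (Gd H L W m lam η).indicator (ZZ H L m lam) ω ∂P + ∫ ω, (1 + 2 * η) * (1 - exp (-(lam * L ω))) ∂P) +
        ∫ ω, (Gd H L W m lam η)ᶜ.indicator (fun _ => (1 : ℝ)) ω ∂P :=
      (integral_add (a1.add (hI1.const_mul _)) hI2).trans (congrArg₂ (· + ·) (integral_add a1 (hI1.const_mul _)) rfl)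
    rw [b1, b2, integral_const_mul] at h1
    have h2 := (abs_le.1 a2).2
    have e7 : ∫ ω, (1 - exp (-(lam * L ω))) ∂P = kap P L lam := rfl
    rw [e7] at h1
    linarith

/-- events outside the good one -/
lemma Sc.bad' [IsProbabilityMeasure P] (h : Sc P H L W m m' lam e B η) (hη : 0 < η) (hη1 : η ≤ 1) (he : 0 ≤ e) :
    P.real ({ω | η ≤ m * H ω} ∪ {ω | 4 * η ≤ m * W ω}) ≤ kap P L (lam / 2) * sd m m' e η := by
  refine (measureReal_mono ?_).trans (h.bad hη hη1 he)
  rintro ω (h1 | h1) ⟨h2, h3, _⟩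
  · exact absurd h2 (not_lt.2 h1)
  · exact absurd h3 (not_lt.2 h1)

end ZBW

end
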