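import Pool.Agent.ZB.WinB
import Pool.Agent.ZB.Defs

/-!
# ZB: from the base to one scale

`BE`: `Base` with the almost sure statements everywhere; `BE.sc`: the hypotheses `Sc` of one scale of the
window of base `k`.
-/

set_option autoImplicit false

noncomputable section

namespace ZBW

open MeasureTheory Real ZB

/-- the base, everywhere -/
structure BE {Ω : Type} [MeasurableSpace Ω] (P : Measure Ω) (H L W D : Ω → ℝ) (mm : ℕ → ℝ) : Prop where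
  hH : Measurable H
  hL : Measurable L
  hW : Measurable W
  hD : Measurable D
  al : ∀ ω, 1 ≤ H ω ∧ H ω ≤ L ω ∧ |D ω| ≤ W ω ∧ W ω ≤ L ω
  m_lo : ∀ j, (1 / 2 : ℝ) ^ j ≤ mm j
  m_dec : ∀ j, mm (j + 1) ≤ mm j
  m_dbl : ∀ j, mm j ≤ 2 * mm (j + 1)
  eZ : ∀ j, ∫⁻ ω, ENNReal.ofReal (Real.exp (mm j * H ω - (1 / 2) ^ j * L ω)) ∂P = 1

/-- the bound (T) at the base `k` of the window -/
def BT {Ω : Type} [MeasurableSpace Ω] (P : Measure Ω) (H L : Ω → ℝ) (mm : ℕ → ℝ) (d : ℝ) (k : ℕ) : Prop :=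
  ∀ s : ℝ, (1 / mm k) ^ 7 ≤ s →
    ∀ M lam : ℝ, (M = 0 ∧ lam = 0 ∨ ∃ j, M = mm j ∧ lam = (1 / 2) ^ j ∧ mm j ≤ d / 2 * mm k) →
    ∫⁻ ω in {ω | s ≤ H ω ∧ L ω < 2.9 * (2 ^ k * mm k) * H ω},
      ENNReal.ofReal (H ω * Real.exp (M * H ω - lam * L ω)) ∂P ≤
      ENNReal.ofReal (Real.exp (- s ^ (1 / 40 : ℝ)))

/-- the bound (W) at the base `k` of the window -/
def BW {Ω : Type} [MeasurableSpace Ω] (P : Measure Ω) (L W : Ω → ℝ) (mm : ℕ → ℝ) (d : ℝ) (k : ℕ) : Prop :=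
  ∀ s : ℝ, (1 / mm k) ^ 4 ≤ s → P {ω | s ≤ W ω ∧ L ω < (1 - d) * (2 ^ k * mm k) * s} ≤
      ENNReal.ofReal (Real.exp (- s ^ (1 / 2 : ℝ)))

lemma toInt {Ω : Type*} [MeasurableSpace Ω] {ν : Measure Ω} {f : Ω → ℝ} (hf : Measurable f) (h0 : ∀ ω, 0 ≤ f ω)
    {E : ℝ} (hE : 0 ≤ E) (h : ∫⁻ ω, ENNReal.ofReal (f ω) ∂ν ≤ ENNReal.ofReal E) :
    Integrable f ν ∧ ∫ ω, f ω ∂ν ≤ E := by
  constructor
  · refine (lintegral_ofReal_ne_top_iff_integrable hf.aestronglyMeasurable (Filter.Eventually.of_forall h0)).1 ?_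
    exact ne_top_of_le_ne_top ENNReal.ofReal_ne_top h
  · rw [integral_eq_lintegral_of_nonneg_ae (Filter.Eventually.of_forall h0) hf.aestronglyMeasurable]
    exact ENNReal.toReal_le_of_le_ofReal hE h

variable {Ω : Type} [MeasurableSpace Ω] {P : Measure Ω} {H L W D : Ω → ℝ} {mm : ℕ → ℝ}

/-- length per height -/
def rr (mm : ℕ → ℝ) (j : ℕ) : ℝ := 2 ^ j * mm j

namespace BE

lemma H0 (h : BE P H L W D mm) (ω : Ω) : 0 ≤ H ω := zero_le_one.trans (h.al ω).1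
lemma L1 (h : BE P H L W D mm) (ω : Ω) : 1 ≤ L ω := (h.al ω).1.trans (h.al ω).2.1
lemma L0 (h : BE P H L W D mm) (ω : Ω) : 0 ≤ L ω := zero_le_one.trans (h.L1 ω)
lemma m0 (h : BE P H L W D mm) (j : ℕ) : 0 < mm j := lt_of_lt_of_le (by positivity) (h.m_lo j)

lemma r0 (h : BE P H L W D mm) (j : ℕ) : 0 < rr mm j := by
  have := h.m0 j
  unfold rr
  positivity

lemma r_succ (h : BE P H L W D mm) (j : ℕ) : rr mm j ≤ rr mm (j + 1) := by
  unfold rr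
  rw [pow_succ, mul_assoc]
  exact mul_le_mul_of_nonneg_left (h.m_dbl j) (by positivity)

lemma r_mono (h : BE P H L W D mm) : Monotone (rr mm) := monotone_nat_of_le_succ h.r_succ

lemma one_le_r (h : BE P H L W D mm) (j : ℕ) : 1 ≤ rr mm j := by
  have h1 := h.m_lo j
  unfold rr
  calc (1 : ℝ) = 2 ^ j * (1 / 2) ^ j := by
        rw [← mul_pow]
        norm_num
    _ ≤ _ := mul_le_mul_of_nonneg_left h1 (by positivity)

lemma mm_eq (mm : ℕ → ℝ) (j : ℕ) : mm j = (1 / 2) ^ j * rr mm j := by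
  unfold rr
  rw [← mul_assoc, ← mul_pow]
  norm_num

lemma hZ (h : BE P H L W D mm) (j : ℕ) :
    Integrable (fun ω => exp (ZZ H L (mm j) ((1 / 2) ^ j) ω)) P ∧
      ∫ ω, exp (ZZ H L (mm j) ((1 / 2) ^ j) ω) ∂P = 1 := by
  have hm := (meas_ZZ h.hH h.hL (mm j) ((1 / 2) ^ j)).exp
  have h1 := h.eZ j
  have h2 := toInt (ν := P) hm (fun ω => (exp_pos _).le) (E := 1) zero_le_one (by
    rw [ENNReal.ofReal_one]
    exact h1.le)
  refine ⟨h2.1, ?_⟩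
  rw [integral_eq_lintegral_of_nonneg_ae (Filter.Eventually.of_forall fun ω => (exp_pos _).le) hm.aestronglyMeasurable]
  have h3 : ∫⁻ ω, ENNReal.ofReal (exp (ZZ H L (mm j) ((1 / 2) ^ j) ω)) ∂P = 1 := h1
  rw [h3]
  simp

/-- **one scale of the window** -/
theorem sc [IsProbabilityMeasure P] (h : BE P H L W D mm) {d η : ℝ} (hd : 0 < d) (hd1 : d ≤ 1 / 100) (hη : 0 < η)
    (hη1 : η ≤ 1) {k : ℕ} (hT : BT P H L mm d k) (hW : BW P L W mm d k) {j : ℕ} (hkj : k ≤ j)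
    (hr : rr mm (j + 1) ≤ (1 + d) * rr mm k) (hm : mm j ≤ d / 2 * mm k) (h1 : mm j ≤ η)
    (h7 : (1 / mm k) ^ 7 ≤ η / mm j) (hk1 : mm k ≤ 1)
    {e : ℝ} (he : 2 * exp (-(η / mm j) ^ (1 / 40 : ℝ)) ≤ e * kap P L ((1 / 2) ^ j))
    (he' : exp (-(1 / mm (j + 1)) ^ (1 / 40 : ℝ)) ≤ kap P L ((1 / 2) ^ (j + 1)) / 5) :
    ∃ B, Sc P H L W (mm j) (mm (j + 1)) ((1 / 2) ^ j) e B η := by
  have hmj := h.m0 j
  have hmj1 := h.m0 (j + 1)
  have hmk := h.m0 k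
  have hrk := h.r0 k
  have hrj : rr mm j ≤ (1 + d) * rr mm k := (h.r_succ j).trans hr
  have hp : ∀ i : ℕ, 0 < (1 / 2 : ℝ) ^ i := fun i => by positivity
  have l2 : (1 / 2 : ℝ) ^ (j + 1) = (1 / 2) ^ j / 2 := by rw [pow_succ]; ring
  -- long pieces are seen
  have key : ∀ (i : ℕ), rr mm i ≤ (1 + d) * rr mm k → ∀ ω, ¬ (L ω < 2.9 * (2 ^ k * mm k) * H ω) →
      27 / 10 * (mm i * H ω) ≤ (1 / 2) ^ i * L ω := by
    intro i hi ω hω
    rw [not_lt] at hω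
    have h3 : mm i ≤ (1 / 2) ^ i * ((1 + d) * rr mm k) := by
      rw [mm_eq mm i]
      exact mul_le_mul_of_nonneg_left hi (hp i).le
    have hω' : 29 / 10 * rr mm k * H ω ≤ L ω := by
      unfold rr
      norm_num at hω ⊢
      exact hω
    have h4 : (1 / 2 : ℝ) ^ i * (29 / 10 * rr mm k * H ω) ≤ (1 / 2) ^ i * L ω :=
      mul_le_mul_of_nonneg_left hω' (hp i).le
    have h5 : mm i * H ω ≤ (1 / 2) ^ i * ((1 + d) * rr mm k) * H ω := mul_le_mul_of_nonneg_right h3 (h.H0 ω)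
    obtain ⟨q, hq⟩ : ∃ q : ℝ, q = (1 / 2) ^ i * rr mm k * H ω := ⟨_, rfl⟩
    have hq0 : 0 ≤ q := by
      rw [hq]
      have := h.H0 ω
      have := hp i
      positivity
    have h6 : (1 / 2 : ℝ) ^ i * (29 / 10 * rr mm k * H ω) = 29 / 10 * q := by rw [hq]; ring
    have h8 : (1 / 2 : ℝ) ^ i * ((1 + d) * rr mm k) * H ω = (1 + d) * q := by rw [hq]; ring
    rw [h6] at h4
    rw [h8] at h5
    nlinarith
  have s7 : (1 / mm k) ^ 7 ≤ 1 / mm (j + 1) := by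
    refine h7.trans ?_
    rw [div_le_div_iff₀ hmj hmj1]
    have := h.m_dec j
    nlinarith
  -- the first moment at the next scale
  obtain ⟨B', hB'⟩ : ∃ B' : Set Ω, B' = {ω | 1 / mm (j + 1) ≤ H ω ∧ L ω < 2.9 * (2 ^ k * mm k) * H ω} := ⟨_, rfl⟩
  have mB' : MeasurableSet B' := by
    rw [hB']
    exact (measurableSet_le measurable_const h.hH).inter (measurableSet_lt h.hL (h.hH.const_mul _))
  have tB' := hT (1 / mm (j + 1)) s7 (mm (j + 1)) ((1 / 2) ^ (j + 1)) (Or.inr ⟨j + 1, rfl, rfl, (h.m_dec j).trans hm⟩)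
  rw [← hB'] at tB'
  have mf : Measurable fun ω => H ω * exp (mm (j + 1) * H ω - (1 / 2) ^ (j + 1) * L ω) :=
    h.hH.mul ((h.hH.const_mul _).sub (h.hL.const_mul _)).exp
  obtain ⟨b1, b2⟩ := toInt (ν := P.restrict B') mf (fun ω => mul_nonneg (h.H0 ω) (exp_pos _).le) (exp_pos _).le tB'
  obtain ⟨z1, z2⟩ := h.hZ (j + 1)
  have hI : IntegrableOn (fun ω => mm (j + 1) * H ω * exp (ZZ H L (mm (j + 1)) ((1 / 2) ^ (j + 1)) ω)) B' P := by
    refine (b1.const_mul (mm (j + 1))).congr (Filter.Eventually.of_forall fun ω => ?_)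
    show mm (j + 1) * (H ω * exp (mm (j + 1) * H ω - (1 / 2) ^ (j + 1) * L ω)) =
      mm (j + 1) * H ω * exp (ZZ H L (mm (j + 1)) ((1 / 2) ^ (j + 1)) ω)
    rw [ZZ]
    ring
  obtain ⟨c1, c2⟩ := eqH h.hH h.hL h.H0 h.L0 hmj1.le (hp (j + 1)).le z1 z2 mB' (fun ω hω h1' => by
    refine key (j + 1) hr ω fun hc => hω ?_
    rw [hB']
    refine ⟨?_, hc⟩
    rw [div_le_iff₀ hmj1, mul_comm]
    exact h1') hI
  have c3 : ∫ ω in B', mm (j + 1) * H ω * exp (ZZ H L (mm (j + 1)) ((1 / 2) ^ (j + 1)) ω) ∂P ≤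
      kap P L ((1 / 2) ^ (j + 1)) / 5 := by
    have e1 : ∫ ω in B', mm (j + 1) * H ω * exp (ZZ H L (mm (j + 1)) ((1 / 2) ^ (j + 1)) ω) ∂P =
        mm (j + 1) * ∫ ω in B', H ω * exp (mm (j + 1) * H ω - (1 / 2) ^ (j + 1) * L ω) ∂P := by
      rw [← integral_const_mul]
      refine integral_congr_ae (Filter.Eventually.of_forall fun ω => ?_)
      show mm (j + 1) * H ω * exp (ZZ H L (mm (j + 1)) ((1 / 2) ^ (j + 1)) ω) =
        mm (j + 1) * (H ω * exp (mm (j + 1) * H ω - (1 / 2) ^ (j + 1) * L ω))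
      rw [ZZ]
      ring
    rw [e1]
    have g1 : mm (j + 1) ≤ 1 := (h.m_dec j).trans (h1.trans hη1)
    have g2 : 0 ≤ ∫ ω in B', H ω * exp (mm (j + 1) * H ω - (1 / 2) ^ (j + 1) * L ω) ∂P :=
      integral_nonneg fun ω => mul_nonneg (h.H0 ω) (exp_pos _).le
    calc mm (j + 1) * ∫ ω in B', H ω * exp (mm (j + 1) * H ω - (1 / 2) ^ (j + 1) * L ω) ∂P
        ≤ 1 * ∫ ω in B', H ω * exp (mm (j + 1) * H ω - (1 / 2) ^ (j + 1) * L ω) ∂P :=
          mul_le_mul_of_nonneg_right g1 g2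
      _ ≤ _ := by rw [one_mul]; exact b2.trans he'
  -- the exceptional set
  have t1 : 1 ≤ η / mm j := by rwa [le_div_iff₀ hmj, one_mul]
  obtain ⟨B1, hB1⟩ : ∃ B1 : Set Ω, B1 = {ω | η / mm j ≤ H ω ∧ L ω < 2.9 * (2 ^ k * mm k) * H ω} := ⟨_, rfl⟩
  obtain ⟨B2, hB2⟩ : ∃ B2 : Set Ω, B2 = {ω | 4 * η / mm j ≤ W ω ∧ L ω < (1 - d) * (2 ^ k * mm k) * (4 * η / mm j)} :=
    ⟨_, rfl⟩
  have mB1 : MeasurableSet B1 := by
    rw [hB1]
    exact (measurableSet_le measurable_const h.hH).inter (measurableSet_lt h.hL (h.hH.const_mul _))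
  have mB2 : MeasurableSet B2 := by
    rw [hB2]
    exact (measurableSet_le measurable_const h.hW).inter (measurableSet_lt h.hL measurable_const)
  have pB1 : P.real B1 ≤ exp (-(η / mm j) ^ (1 / 40 : ℝ)) := by
    have q1 := hT (η / mm j) h7 0 0 (Or.inl ⟨rfl, rfl⟩)
    rw [← hB1] at q1
    have q2 : P B1 ≤ ENNReal.ofReal (exp (-(η / mm j) ^ (1 / 40 : ℝ))) := by
      refine le_trans ?_ q1
      calc P B1 = ∫⁻ _ω in B1, 1 ∂P := by simp
        _ ≤ _ := by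
          refine lintegral_mono fun ω => ?_
          rw [← ENNReal.ofReal_one]
          refine ENNReal.ofReal_le_ofReal ?_
          have := (h.al ω).1
          simpa using this
    exact ENNReal.toReal_le_of_le_ofReal (exp_pos _).le q2
  have pB2 : P.real B2 ≤ exp (-(η / mm j) ^ (1 / 40 : ℝ)) := by
    have s4 : (1 / mm k) ^ 4 ≤ 4 * η / mm j := by
      have u1 : 1 ≤ 1 / mm k := by rwa [le_div_iff₀ hmk, one_mul]
      have u2 : (1 / mm k) ^ 4 ≤ (1 / mm k) ^ 7 := pow_le_pow_right₀ u1 (by norm_num)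
      have u3 : η / mm j ≤ 4 * η / mm j := by
        rw [div_le_div_iff_of_pos_right hmj]
        linarith
      linarith
    have q1 := hW (4 * η / mm j) s4
    rw [← hB2] at q1
    have q2 := ENNReal.toReal_le_of_le_ofReal (exp_pos _).le q1
    refine q2.trans (exp_le_exp.2 (neg_le_neg ?_))
    have v1 : (η / mm j) ^ (1 / 40 : ℝ) ≤ (η / mm j) ^ (1 / 2 : ℝ) := rpow_le_rpow_of_exponent_le t1 (by norm_num)
    refine v1.trans (rpow_le_rpow (by positivity) ?_ (by norm_num))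
    rw [div_le_div_iff_of_pos_right hmj]
    linarith
  refine ⟨B1 ∪ B2, ?_⟩
  refine ⟨h.hH, h.hL, h.hW, h.H0, h.L0, hmj, by linarith [h.m_dbl j], hp j, (h.hZ j).1, (h.hZ j).2, ?_, ?_, ?_, ?_,
    mB1.union mB2, ?_, ?_, ?_⟩
  · rw [← l2]; exact z1
  · rw [← l2]; exact z2
  · rw [← l2]; exact c1
  · rw [← l2]
    linarith
  · refine (measureReal_union_le _ _).trans ?_
    linarith
  · intro ω hω hh
    refine key j hrj ω fun hc => hω (Or.inl ?_)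
    rw [hB1]
    refine ⟨?_, hc⟩
    rw [div_le_iff₀ hmj, mul_comm]
    exact hh
  · intro ω hω hh
    have h2 : ω ∉ B2 := fun hc => hω (Or.inr hc)
    rw [hB2] at h2
    have h3 : ¬ (L ω < (1 - d) * (2 ^ k * mm k) * (4 * η / mm j)) := fun hc => h2 ⟨by
      rw [div_le_iff₀ hmj]
      linarith, hc⟩
    rw [not_lt] at h3
    have h4 : (1 / 2 : ℝ) ^ j * ((1 - d) * (2 ^ k * mm k) * (4 * η / mm j)) ≤ (1 / 2) ^ j * L ω :=
      mul_le_mul_of_nonneg_left h3 (hp j).le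
    refine le_trans ?_ h4
    have h5 : mm j ≤ (1 / 2) ^ j * ((1 + d) * rr mm k) := by
      rw [mm_eq mm j]
      exact mul_le_mul_of_nonneg_left hrj (hp j).le
    obtain ⟨q, hq⟩ : ∃ q : ℝ, q = (1 / 2) ^ j * rr mm k := ⟨_, rfl⟩
    have h6 : mm j ≤ (1 + d) * q := by rw [hq]; linarith
    have e2 : (1 / 2 : ℝ) ^ j * ((1 - d) * (2 ^ k * mm k) * (4 * η / mm j)) = (1 - d) * q * (4 * η) / mm j := by
      rw [hq]
      unfold rr
      ring
    rw [e2, le_div_iff₀ hmj]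
    have hq0 : 0 < q := by
      rw [hq]
      have := hp j
      positivity
    have h9 : 18 / 5 * η * mm j ≤ 18 / 5 * η * ((1 + d) * q) := mul_le_mul_of_nonneg_left h6 (by positivity)
    have h10 : 18 / 5 * ((1 + d) * q) ≤ (1 - d) * q * 4 := by nlinarith
    nlinarith

end BE

end ZBW

end
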