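import Pool.Agent.ZB.WinC

/-!
# ZB: recursions over the scales of the window

* `Sc.sec`: second moments; `geo_sum`: sums of a recursion; `sum_dd`: the defects sum to at most `d`;
  `kap_decay`.
-/

set_option autoImplicit false

noncomputable section

namespace ZBW

open MeasureTheory Real ZB

/-- truncated second moment, divided by `kap` -/
def q2 {Ω : Type*} [MeasurableSpace Ω] (P : Measure Ω) (L F G : Ω → ℝ) (c m lam : ℝ) : ℝ :=
  (∫ ω in {ω | m * G ω < c}, (m * F ω) ^ 2 ∂P) / kap P L lam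

section

variable {Ω : Type*} [MeasurableSpace Ω] {P : Measure Ω} {H L W F G : Ω → ℝ} {m m' lam e η c : ℝ} {B : Set Ω}

lemma q2_nonneg (h0 : ∀ ω, 0 ≤ L ω) (hl : 0 ≤ lam) : 0 ≤ q2 P L F G c m lam :=
  div_nonneg (integral_nonneg fun _ => sq_nonneg _) (kap_nonneg h0 hl)

omit [MeasurableSpace Ω] in
lemma sq_bd (hFG : ∀ ω, |F ω| ≤ G ω) (hm : 0 ≤ m) (ω : Ω) :
    ({ω | m * G ω < c}.indicator fun ω => (m * F ω) ^ 2) ω ≤ c ^ 2 := by
  refine Set.indicator_apply_le' (fun hh => ?_) (fun _ => sq_nonneg _)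
  have h1 : |m * F ω| ≤ c := by
    rw [abs_mul, abs_of_nonneg hm]
    exact (mul_le_mul_of_nonneg_left (hFG ω) hm).trans (le_of_lt hh)
  calc (m * F ω) ^ 2 = |m * F ω| ^ 2 := (sq_abs _).symm
    _ ≤ c ^ 2 := pow_le_pow_left₀ (abs_nonneg _) h1 2

lemma sq_int [IsFiniteMeasure P] (hF : Measurable F) (hG : Measurable G) (hFG : ∀ ω, |F ω| ≤ G ω) (hm : 0 ≤ m)
    (hc : 0 ≤ c) : Integrable ({ω | m * G ω < c}.indicator fun ω => (m * F ω) ^ 2) P := by
  have hK : MeasurableSet {ω | m * G ω < c} := measurableSet_lt (hG.const_mul m) measurable_const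
  refine Integrable.of_bound (C := c ^ 2) (((hF.const_mul m).pow_const 2).indicator hK).aestronglyMeasurable
    (Filter.Eventually.of_forall fun ω => ?_)
  rw [norm_of_nonneg (Set.indicator_nonneg (fun _ _ => sq_nonneg _) ω)]
  exact sq_bd hFG hm ω

/-- the recursion of the second moments -/
theorem Sc.sec [IsProbabilityMeasure P] (h : Sc P H L W m m' lam e B η) (hk : 0 < kap P L lam)
    (hF : Measurable F) (hG : Measurable G) (hFG : ∀ ω, |F ω| ≤ G ω) (hc : 0 ≤ c) (hdd : dd m m' ≤ 1 / 25)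
    {σ : ℝ} (hb : P.real {ω | c ≤ m * G ω} ≤ kap P L (lam / 2) * σ) :
    q2 P L F G c m' (lam / 2) ≤ 11 / 20 * q2 P L F G c m lam + c ^ 2 * σ := by
  have hm := h.m0
  have hm' := h.m'0
  have hk' : 0 < kap P L (lam / 2) := by have := h.kk; linarith
  have hK : MeasurableSet {ω | m * G ω < c} := measurableSet_lt (hG.const_mul m) measurable_const
  have hK' : MeasurableSet {ω | m' * G ω < c} := measurableSet_lt (hG.const_mul m') measurable_const
  have hKc : MeasurableSet {ω | c ≤ m * G ω} := measurableSet_le measurable_const (hG.const_mul m)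
  obtain ⟨A, hA⟩ : ∃ A : ℝ, A = ∫ ω in {ω | m * G ω < c}, (m * F ω) ^ 2 ∂P := ⟨_, rfl⟩
  have hA0 : 0 ≤ A := by rw [hA]; exact integral_nonneg fun _ => sq_nonneg _
  have key : ∫ ω in {ω | m' * G ω < c}, (m' * F ω) ^ 2 ∂P ≤ (m' / m) ^ 2 * A + c ^ 2 * P.real {ω | c ≤ m * G ω} := by
    rw [hA, ← integral_indicator hK, ← integral_indicator hK']
    have hi1 := (sq_int (P := P) (c := c) hF hG hFG hm.le hc).const_mul ((m' / m) ^ 2)
    have hi2 : Integrable ({ω | c ≤ m * G ω}.indicator fun _ => c ^ 2) P := (integrable_const _).indicator hKc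
    have h1 : ∫ ω, ({ω | m' * G ω < c}.indicator fun ω => (m' * F ω) ^ 2) ω ∂P ≤
        ∫ ω, ((m' / m) ^ 2 * ({ω | m * G ω < c}.indicator fun ω => (m * F ω) ^ 2) ω +
          {ω | c ≤ m * G ω}.indicator (fun _ => c ^ 2) ω) ∂P := by
      refine integral_mono (sq_int hF hG hFG hm'.le hc) (hi1.add hi2) fun ω => ?_
      show ({ω | m' * G ω < c}.indicator fun ω => (m' * F ω) ^ 2) ω ≤
        (m' / m) ^ 2 * ({ω | m * G ω < c}.indicator fun ω => (m * F ω) ^ 2) ω +
          {ω | c ≤ m * G ω}.indicator (fun _ => c ^ 2) ω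
      by_cases hg : m * G ω < c
      · rw [Set.indicator_of_mem (show ω ∈ {ω | m * G ω < c} from hg),
          Set.indicator_of_notMem (show ω ∉ {ω | c ≤ m * G ω} from not_le.2 hg), add_zero]
        refine (Set.indicator_apply_le' (fun _ => ?_) (fun _ => by positivity))
        apply le_of_eq
        field_simp
      · rw [Set.indicator_of_notMem (show ω ∉ {ω | m * G ω < c} from hg),
          Set.indicator_of_mem (show ω ∈ {ω | c ≤ m * G ω} from not_lt.1 hg), mul_zero, zero_add]
        exact sq_bd hFG hm'.le ω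
    refine h1.trans (le_of_eq ?_)
    have b1 := integral_add hi1 hi2
    rw [b1, integral_const_mul, integral_indicator hKc]
    simp only [integral_const, MeasurableSet.univ, measureReal_restrict_apply, Set.univ_inter, smul_eq_mul]
    ring
  unfold q2
  rw [← hA]
  have hdd0 := h.dd0
  have e1 : m' / m = 1 / (2 * (1 - dd m m')) := by
    have e0 : 1 - dd m m' = m / (2 * m') := by unfold dd; ring
    rw [e0]
    field_simp
  have e2 : (m' / m) ^ 2 ≤ 11 / 40 := by
    rw [e1, div_pow, one_pow, div_le_iff₀ (by nlinarith)]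
    nlinarith
  have h3 : A / kap P L (lam / 2) ≤ 2 * (A / kap P L lam) := by
    rw [← mul_div_assoc, div_le_div_iff₀ hk' hk]
    have := h.kk
    nlinarith
  calc (∫ ω in {ω | m' * G ω < c}, (m' * F ω) ^ 2 ∂P) / kap P L (lam / 2)
      ≤ ((m' / m) ^ 2 * A + c ^ 2 * P.real {ω | c ≤ m * G ω}) / kap P L (lam / 2) := by gcongr
    _ = (m' / m) ^ 2 * (A / kap P L (lam / 2)) + c ^ 2 * (P.real {ω | c ≤ m * G ω} / kap P L (lam / 2)) := by
        ring
    _ ≤ 11 / 40 * (2 * (A / kap P L lam)) + c ^ 2 * σ := by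
        refine add_le_add (mul_le_mul e2 h3 (by positivity) (by norm_num)) ?_
        refine mul_le_mul_of_nonneg_left ?_ (sq_nonneg _)
        rw [div_le_iff₀ hk', mul_comm]
        exact hb
    _ = _ := by ring

end

lemma geo_sum (x a : ℕ → ℝ) (hx : ∀ i, 0 ≤ x i) (n : ℕ) (h : ∀ i < n, x (i + 1) ≤ 11 / 20 * x i + a i) :
    ∑ i ∈ Finset.range n, x i ≤ 20 / 9 * (x 0 + ∑ i ∈ Finset.range n, a i) := by
  have key : ∀ k ≤ n, 9 / 20 * ∑ i ∈ Finset.range k, x i ≤ x 0 - x k + ∑ i ∈ Finset.range k, a i := by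
    intro k hk
    induction k with
    | zero => simp
    | succ k ih =>
      rw [Finset.sum_range_succ, Finset.sum_range_succ]
      have h1 := ih (by omega)
      have h2 := h k (by omega)
      linarith
  have h1 := key n le_rfl
  have h2 := hx n
  linarith

lemma geo_last (x a : ℕ → ℝ) (ha : ∀ i, 0 ≤ a i) (n : ℕ) (h : ∀ i < n, x (i + 1) ≤ 11 / 20 * x i + a i) :
    x n ≤ (11 / 20) ^ n * x 0 + ∑ i ∈ Finset.range n, a i := by
  have key : ∀ k ≤ n, x k ≤ (11 / 20) ^ k * x 0 + ∑ i ∈ Finset.range k, a i := by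
    intro k hk
    induction k with
    | zero => simp
    | succ k ih =>
      rw [Finset.sum_range_succ, pow_succ]
      have h1 := ih (by omega)
      have h2 := h k (by omega)
      have h3 : 0 ≤ ∑ i ∈ Finset.range k, a i := Finset.sum_nonneg fun i _ => ha i
      linarith
  exact key n le_rfl

section

variable {Ω : Type} [MeasurableSpace Ω] {P : Measure Ω} {H L W D : Ω → ℝ} {mm : ℕ → ℝ}

/-- the defects of the window -/
lemma BE.sum_dd (h : BE P H L W D mm) {a n : ℕ} {d : ℝ} (hd : 0 < d) (hr : rr mm (a + n) ≤ (1 + d) * rr mm a) :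
    ∑ i ∈ Finset.range n, dd (mm (a + i)) (mm (a + i + 1)) ≤ d := by
  have key : ∀ k, ∑ i ∈ Finset.range k, dd (mm (a + i)) (mm (a + i + 1)) ≤
      Real.log (rr mm (a + k)) - Real.log (rr mm a) := by
    intro k
    induction k with
    | zero => simp
    | succ k ih =>
      rw [Finset.sum_range_succ]
      have r1 := h.r0 (a + k)
      have r2 := h.r0 (a + k + 1)
      have h1 := Real.one_sub_inv_le_log_of_pos (div_pos r2 r1)
      rw [Real.log_div r2.ne' r1.ne'] at h1
      have e : dd (mm (a + k)) (mm (a + k + 1)) = 1 - (rr mm (a + k + 1) / rr mm (a + k))⁻¹ := by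
        have m1 := h.m0 (a + k)
        have m2 := h.m0 (a + k + 1)
        unfold dd rr
        rw [pow_succ]
        field_simp
      rw [e]
      have e2 : a + (k + 1) = a + k + 1 := by omega
      rw [e2]
      linarith
  refine (key n).trans ?_
  have r1 := h.r0 a
  have h2 : Real.log (rr mm (a + n)) ≤ Real.log ((1 + d) * rr mm a) := Real.log_le_log (h.r0 _) hr
  rw [Real.log_mul (by linarith) r1.ne'] at h2
  have h3 := Real.log_le_sub_one_of_pos (show 0 < 1 + d by linarith)
  linarith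

lemma dd_le_sum (h : BE P H L W D mm) {a n : ℕ} {d : ℝ} (hd : 0 < d) (hr : rr mm (a + n) ≤ (1 + d) * rr mm a)
    {i : ℕ} (hi : i < n) : dd (mm (a + i)) (mm (a + i + 1)) ≤ d := by
  refine le_trans ?_ (h.sum_dd hd hr)
  refine Finset.single_le_sum (f := fun i => dd (mm (a + i)) (mm (a + i + 1))) (fun j _ => ?_) (Finset.mem_range.2 hi)
  have := h.m0 (a + j)
  have := h.m0 (a + j + 1)
  have := h.m_dbl (a + j)
  show 0 ≤ dd (mm (a + j)) (mm (a + j + 1))
  unfold dd
  rw [sub_nonneg, div_le_one (by linarith)]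
  exact this

end

/-- decay of a sequence with `k (i + 1) <= k i / 2 * (1 + η + s i)` -/
lemma kap_decay (κ s : ℕ → ℝ) (η : ℝ) (h0 : ∀ i, 0 ≤ κ i) (n : ℕ)
    (h : ∀ i < n, κ (i + 1) ≤ κ i / 2 * (1 + η + s i)) :
    κ n ≤ κ 0 * (1 / 2) ^ n * Real.exp (n * η + ∑ i ∈ Finset.range n, s i) := by
  have key : ∀ k ≤ n, κ k ≤ κ 0 * (1 / 2) ^ k * Real.exp (k * η + ∑ i ∈ Finset.range k, s i) := by
    intro k hk
    induction k with
    | zero => simp
    | succ k ih =>
      have h1 := ih (by omega)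
      have h2 := h k (by omega)
      have h3 : 1 + η + s k ≤ Real.exp (η + s k) := by linarith [Real.add_one_le_exp (η + s k)]
      rw [Finset.sum_range_succ, pow_succ]
      calc κ (k + 1) ≤ κ k / 2 * (1 + η + s k) := h2
        _ ≤ κ k / 2 * Real.exp (η + s k) := mul_le_mul_of_nonneg_left h3 (by linarith [h0 k])
        _ ≤ κ 0 * (1 / 2) ^ k * Real.exp (k * η + ∑ i ∈ Finset.range k, s i) / 2 * Real.exp (η + s k) := by
            have := Real.exp_pos (η + s k)
            gcongr
        _ = κ 0 * ((1 / 2) ^ k * (1 / 2)) * (Real.exp (k * η + ∑ i ∈ Finset.range k, s i) * Real.exp (η + s k)) := by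
            ring
        _ = _ := by
            rw [← Real.exp_add]
            congr 2
            push_cast
            ring
  exact key n le_rfl

end ZBW

end
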