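import Pool.Agent.ZB.WinD
import Pool.Agent.ZB.ListC

/-!
# ZB: one window: the input `Scal` of the lists

`Wn`: a window `[a, a + n]` of scales with `Sc` at each of them; `Wn.kdec`, `Wn.sum2`: decay of `kap`, sum of the
second moments; `Wn.scal`: `Scal` from the scale `a + b` on.
-/

set_option autoImplicit false

noncomputable section

namespace ZBW

open MeasureTheory Real ZB

/-- `kap` at the scale `j` -/
def kj {Ω : Type} [MeasurableSpace Ω] (P : Measure Ω) (L : Ω → ℝ) (j : ℕ) : ℝ := kap P L ((1 / 2) ^ j)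

/-- a window of scales -/
structure Wn {Ω : Type} [MeasurableSpace Ω] (P : Measure Ω) (H L W D : Ω → ℝ) (mm : ℕ → ℝ) (η : ℝ) (e : ℕ → ℝ)
    (a n : ℕ) (σ : ℝ) : Prop where
  be : BE P H L W D mm
  e0 : ∀ j, 0 ≤ e j
  η0 : 0 < η
  η1 : η ≤ 1 / 50
  sc : ∀ j, a ≤ j → j < a + n → ∃ B, Sc P H L W (mm j) (mm (j + 1)) ((1 / 2) ^ j) (e j) B η
  dd1 : ∀ j, a ≤ j → j < a + n → dd (mm j) (mm (j + 1)) ≤ 1 / 25
  sum : ∑ i ∈ Finset.range n, sd (mm (a + i)) (mm (a + i + 1)) (e (a + i)) η ≤ σ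
  σ1 : σ ≤ 1 / 100

variable {Ω : Type} [MeasurableSpace Ω] {P : Measure Ω} {H L W D : Ω → ℝ} {mm : ℕ → ℝ} {η : ℝ} {e : ℕ → ℝ}
  {a n : ℕ} {σ : ℝ}

/-- the defect at the scale `j` -/
def sj (mm : ℕ → ℝ) (e : ℕ → ℝ) (η : ℝ) (j : ℕ) : ℝ := sd (mm j) (mm (j + 1)) (e j) η

lemma l2 (j : ℕ) : (1 / 2 : ℝ) ^ j / 2 = (1 / 2) ^ (j + 1) := by rw [pow_succ]; ring

namespace Wn

lemma sj0 (h : Wn P H L W D mm η e a n σ) (j : ℕ) : 0 ≤ sj mm e η j := by
  have h1 := h.be.m0 j
  have h2 := h.be.m0 (j + 1)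
  have h3 := h.be.m_dbl j
  have h4 := h.e0 j
  have h5 := h.η0
  unfold sj sd
  have : 0 ≤ dd (mm j) (mm (j + 1)) := by
    unfold dd
    rw [sub_nonneg, div_le_one (by linarith)]
    exact h3
  positivity

lemma sj_le (h : Wn P H L W D mm η e a n σ) {j : ℕ} (h1 : a ≤ j) (h2 : j < a + n) : sj mm e η j ≤ σ := by
  refine le_trans ?_ h.sum
  have h3 := Finset.single_le_sum (f := fun i => sj mm e η (a + i)) (s := Finset.range n) (fun i _ => h.sj0 _)
    (Finset.mem_range.2 (show j - a < n by omega))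
  have e1 : a + (j - a) = j := by omega
  simp only [e1] at h3
  exact h3

lemma k0 [IsProbabilityMeasure P] (h : Wn P H L W D mm η e a n σ) (j : ℕ) : (1 / 2) ^ j / 2 ≤ kj P L j :=
  kap_lower h.be.hL h.be.L1 (by positivity) (pow_le_one₀ (by norm_num) (by norm_num))

lemma kpos [IsProbabilityMeasure P] (h : Wn P H L W D mm η e a n σ) (j : ℕ) : 0 < kj P L j :=
  lt_of_lt_of_le (by positivity) (h.k0 j)

lemma kle1 [IsProbabilityMeasure P] (h : Wn P H L W D mm η e a n σ) (j : ℕ) : kj P L j ≤ 1 :=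
  kap_le_one h.be.hL h.be.L0 (by positivity)

lemma kstep [IsProbabilityMeasure P] (h : Wn P H L W D mm η e a n σ) {j : ℕ} (h1 : a ≤ j) (h2 : j < a + n) :
    kj P L (j + 1) ≤ kj P L j / 2 * (1 + η + sj mm e η j) := by
  obtain ⟨B, hS⟩ := h.sc j h1 h2
  have := hS.kap_rec h.η0 (by linarith [h.η1]) (h.e0 j)
  rw [l2] at this
  exact this

lemma khalf [IsProbabilityMeasure P] (h : Wn P H L W D mm η e a n σ) (j : ℕ) : kj P L j ≤ 2 * kj P L (j + 1) := by
  have := kap_half (P := P) h.be.hL h.be.L0 (show (0 : ℝ) ≤ (1 / 2) ^ j by positivity)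
  rw [l2] at this
  unfold kj
  linarith

lemma kstep' [IsProbabilityMeasure P] (h : Wn P H L W D mm η e a n σ) {j : ℕ} (h1 : a ≤ j) (h2 : j < a + n) :
    kj P L (j + 1) ≤ 103 / 200 * kj P L j := by
  have h3 := h.kstep h1 h2
  have h4 := h.sj_le h1 h2
  have h5 := h.σ1
  have h6 := h.η1
  have h7 := h.kpos j
  nlinarith

lemma kgeo [IsProbabilityMeasure P] (h : Wn P H L W D mm η e a n σ) {i : ℕ} (hi : i ≤ n) :
    kj P L (a + i) ≤ (103 / 200) ^ i := by
  induction i with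
  | zero => simpa using h.kle1 a
  | succ i ih =>
    have h1 := ih (by omega)
    have h2 := h.kstep' (j := a + i) (by omega) (by omega)
    rw [pow_succ]
    have e1 : a + (i + 1) = a + i + 1 := by omega
    rw [e1]
    linarith

lemma kdec [IsProbabilityMeasure P] (h : Wn P H L W D mm η e a n σ) :
    kj P L (a + n) ≤ (1 / 2) ^ n * Real.exp (n * η + σ) := by
  have h1 := kap_decay (fun i => kj P L (a + i)) (fun i => sj mm e η (a + i)) η (fun i => (h.kpos _).le) n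
    (fun i hi => h.kstep (j := a + i) (by omega) (by omega))
  refine h1.trans ?_
  have h2 := h.kle1 (a + 0)
  have h3 := h.kpos (a + 0)
  have h4 : Real.exp (n * η + ∑ i ∈ Finset.range n, sj mm e η (a + i)) ≤ Real.exp (n * η + σ) :=
    Real.exp_le_exp.2 (by linarith [show ∑ i ∈ Finset.range n, sj mm e η (a + i) ≤ σ from h.sum])
  calc kj P L (a + 0) * (1 / 2) ^ n * Real.exp (n * η + ∑ i ∈ Finset.range n, sj mm e η (a + i))
      ≤ 1 * (1 / 2) ^ n * Real.exp (n * η + σ) := by gcongr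
    _ = _ := by ring

/-- second moments of `H` and `D` at the scale `j` -/
def vj (P : Measure Ω) (H L W D : Ω → ℝ) (mm : ℕ → ℝ) (η : ℝ) (j : ℕ) : ℝ :=
  q2 P L D W (4 * η) (mm j) ((1 / 2) ^ j) + q2 P L H H η (mm j) ((1 / 2) ^ j)

lemma vj0 (h : Wn P H L W D mm η e a n σ) (j : ℕ) : 0 ≤ vj P H L W D mm η j :=
  add_nonneg (q2_nonneg h.be.L0 (by positivity)) (q2_nonneg h.be.L0 (by positivity))

lemma absH (h : Wn P H L W D mm η e a n σ) (ω : Ω) : |H ω| ≤ H ω := by rw [abs_of_nonneg (h.be.H0 ω)]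

lemma absD (h : Wn P H L W D mm η e a n σ) (ω : Ω) : |D ω| ≤ W ω := (h.be.al ω).2.2.1

lemma vstep [IsProbabilityMeasure P] (h : Wn P H L W D mm η e a n σ) {j : ℕ} (h1 : a ≤ j) (h2 : j < a + n) :
    vj P H L W D mm η (j + 1) ≤ 11 / 20 * vj P H L W D mm η j + 17 * η ^ 2 * sj mm e η j := by
  obtain ⟨B, hS⟩ := h.sc j h1 h2
  have hη := h.η0
  have hb := hS.bad' hη (by linarith [h.η1]) (h.e0 j)
  have hk : 0 < kap P L ((1 / 2) ^ j) := h.kpos j
  have g1 := hS.sec (F := D) (G := W) (c := 4 * η) hk h.be.hD h.be.hW h.absD (by linarith) (h.dd1 j h1 h2)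
    (σ := sj mm e η j) ((measureReal_mono Set.subset_union_right).trans hb)
  have g2 := hS.sec (F := H) (G := H) (c := η) hk h.be.hH h.be.hH h.absH (by linarith) (h.dd1 j h1 h2)
    (σ := sj mm e η j) ((measureReal_mono Set.subset_union_left).trans hb)
  rw [l2] at g1 g2
  unfold vj
  linarith

lemma vstart [IsProbabilityMeasure P] (h : Wn P H L W D mm η e a n σ) (j : ℕ) :
    vj P H L W D mm η j ≤ 34 * η ^ 2 * 2 ^ j := by
  have hη := h.η0
  have hk := h.kpos j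
  have hk1 := h.k0 j
  have hm := h.be.m0 j
  have key : ∀ (F G : Ω → ℝ) (c : ℝ), Measurable F → Measurable G → (∀ ω, |F ω| ≤ G ω) → 0 ≤ c →
      q2 P L F G c (mm j) ((1 / 2) ^ j) ≤ c ^ 2 * 2 * 2 ^ j := by
    intro F G c hF hG hFG hc
    have hK : MeasurableSet {ω | mm j * G ω < c} := measurableSet_lt (hG.const_mul _) measurable_const
    have g1 : ∫ ω in {ω | mm j * G ω < c}, (mm j * F ω) ^ 2 ∂P ≤ c ^ 2 := by
      rw [← integral_indicator hK]
      have := integral_mono (sq_int (P := P) hF hG hFG hm.le hc) (integrable_const (c ^ 2)) fun ω => sq_bd hFG hm.le ω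
      simpa using this
    unfold q2
    rw [div_le_iff₀ (show 0 < kap P L ((1 / 2) ^ j) from hk)]
    refine g1.trans ?_
    have g2 : c ^ 2 * 2 * 2 ^ j * ((1 / 2) ^ j / 2) ≤ c ^ 2 * 2 * 2 ^ j * kap P L ((1 / 2) ^ j) :=
      mul_le_mul_of_nonneg_left hk1 (by positivity)
    refine le_trans (le_of_eq ?_) g2
    have : (2 : ℝ) ^ j * (1 / 2) ^ j = 1 := by rw [← mul_pow]; norm_num
    calc c ^ 2 = c ^ 2 * 1 := by ring
      _ = c ^ 2 * (2 ^ j * (1 / 2) ^ j) := by rw [this]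
      _ = _ := by ring
  have g1 := key D W (4 * η) h.be.hD h.be.hW h.absD (by linarith)
  have g2 := key H H η h.be.hH h.be.hH h.absH hη.le
  unfold vj
  nlinarith [show 0 < (2 : ℝ) ^ j by positivity]

/-- the sum of the second moments from the scale `a + b` on -/
theorem sum2 [IsProbabilityMeasure P] (h : Wn P H L W D mm η e a n σ) {b : ℕ} (hb : b ≤ n) :
    ∑ i ∈ Finset.range (n - b), vj P H L W D mm η (a + b + i) ≤
      20 / 9 * ((11 / 20) ^ b * (34 * η ^ 2 * 2 ^ a) + 34 * η ^ 2 * σ) := by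
  have hη := h.η0
  have g1 := geo_last (fun i => vj P H L W D mm η (a + i)) (fun i => 17 * η ^ 2 * sj mm e η (a + i))
    (fun i => by have := h.sj0 (a + i); positivity) b fun i hi => h.vstep (j := a + i) (by omega) (by omega)
  have g2 := geo_sum (fun i => vj P H L W D mm η (a + b + i)) (fun i => 17 * η ^ 2 * sj mm e η (a + b + i))
    (fun i => h.vj0 _) (n - b) fun i hi => h.vstep (j := a + b + i) (by omega) (by omega)
  have hs := h.sum
  have e1 : ∀ s : Finset ℕ, ∀ c : ℕ, ∑ i ∈ s, 17 * η ^ 2 * sj mm e η (c + i) = 17 * η ^ 2 * ∑ i ∈ s, sj mm e η (c + i) :=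
    fun s c => by rw [Finset.mul_sum]
  rw [e1] at g1 g2
  have g3 : ∑ i ∈ Finset.range b, sj mm e η (a + i) ≤ σ := by
    refine le_trans ?_ hs
    exact Finset.sum_le_sum_of_subset_of_nonneg (Finset.range_mono hb) fun i _ _ => h.sj0 _
  have g4 : ∑ i ∈ Finset.range (n - b), sj mm e η (a + b + i) ≤ σ := by
    refine le_trans ?_ hs
    have e2 : ∑ i ∈ Finset.range (n - b), sj mm e η (a + b + i) = ∑ j ∈ Finset.Ico b n, sj mm e η (a + j) := by
      rw [Finset.sum_Ico_eq_sum_range]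
      refine Finset.sum_congr rfl fun i _ => ?_
      rw [add_assoc]
    rw [e2]
    refine Finset.sum_le_sum_of_subset_of_nonneg (fun j hj => ?_) fun i _ _ => h.sj0 _
    rw [Finset.mem_Ico] at hj
    exact Finset.mem_range.2 hj.2
  have g5 := h.vstart a
  have g6 : (11 / 20 : ℝ) ^ b * vj P H L W D mm η (a + 0) ≤ (11 / 20) ^ b * (34 * η ^ 2 * 2 ^ a) :=
    mul_le_mul_of_nonneg_left g5 (by positivity)
  have g7 : 17 * η ^ 2 * ∑ i ∈ Finset.range b, sj mm e η (a + i) ≤ 17 * η ^ 2 * σ :=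
    mul_le_mul_of_nonneg_left g3 (by positivity)
  have g8 : 17 * η ^ 2 * ∑ i ∈ Finset.range (n - b), sj mm e η (a + b + i) ≤ 17 * η ^ 2 * σ :=
    mul_le_mul_of_nonneg_left g4 (by positivity)
  simp only [add_zero] at g1 g2 g6
  linarith

end Wn

end ZBW

end
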