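import Pool.Agent.ZB.WinE

/-!
# ZB: `Scal` from a window
-/

set_option autoImplicit false

noncomputable section

namespace ZBW

open MeasureTheory Real ZB
open scoped ENNReal

variable {Ω : Type} [MeasurableSpace Ω] {P : Measure Ω} {H L W D F G : Ω → ℝ} {mm : ℕ → ℝ} {η m c : ℝ} {e : ℕ → ℝ}
  {a n : ℕ} {σ : ℝ}

omit [MeasurableSpace Ω] in
lemma set_lt (hm : 0 < m) : {ω | G ω < c * (1 / m)} = {ω | m * G ω < c} := by
  ext ω
  simp only [Set.mem_ofPred_eq]
  rw [mul_one_div, lt_div_iff₀ hm, mul_comm]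

lemma lsq [IsFiniteMeasure P] (hF : Measurable F) (hG : Measurable G) (hFG : ∀ ω, |F ω| ≤ G ω) (hm : 0 < m)
    (hc : 0 ≤ c) : ∫⁻ ω in {ω | G ω < c * (1 / m)}, ENNReal.ofReal (F ω ^ 2) ∂P =
      ENNReal.ofReal ((1 / m) ^ 2 * ∫ ω in {ω | m * G ω < c}, (m * F ω) ^ 2 ∂P) := by
  have hK : MeasurableSet {ω | m * G ω < c} := measurableSet_lt (hG.const_mul m) measurable_const
  rw [set_lt hm, ← integral_const_mul]
  have e1 : (fun ω => (1 / m) ^ 2 * (m * F ω) ^ 2) = fun ω => F ω ^ 2 := by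
    funext ω
    field_simp
  rw [e1, ofReal_integral_eq_lintegral_ofReal]
  · rw [← e1]
    exact ((integrable_indicator_iff hK).1 (sq_int hF hG hFG hm.le hc)).const_mul _
  · exact Filter.Eventually.of_forall fun _ => sq_nonneg _

lemma lin [IsFiniteMeasure P] (hH : Measurable H) (h0 : ∀ ω, 0 ≤ H ω) (hm : 0 < m) (hc : 0 ≤ c) :
    ∫⁻ ω in {ω | H ω < c * (1 / m)}, ENNReal.ofReal (H ω) ∂P =
      ENNReal.ofReal (1 / m * ∫ ω in {ω | m * H ω < c}, m * H ω ∂P) := by
  have hK : MeasurableSet {ω | m * H ω < c} := measurableSet_lt (hH.const_mul m) measurable_const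
  rw [set_lt hm, ← integral_const_mul]
  have e1 : (fun ω => 1 / m * (m * H ω)) = fun ω => H ω := by
    funext ω
    field_simp
  rw [e1, ofReal_integral_eq_lintegral_ofReal]
  · have hI : Integrable (fun ω => 1 / m * (m * H ω)) (P.restrict {ω | m * H ω < c}) := by
      have h3 : Integrable ({ω | m * H ω < c}.indicator fun ω => m * H ω) P := by
        refine Integrable.of_bound (C := c) ((hH.const_mul m).indicator hK).aestronglyMeasurable
          (Filter.Eventually.of_forall fun ω => ?_)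
        rw [norm_of_nonneg (Set.indicator_nonneg (fun ω _ => mul_nonneg hm.le (h0 ω)) ω)]
        exact Set.indicator_apply_le' (fun hh => le_of_lt hh) (fun _ => hc)
      have h2 : IntegrableOn (fun ω => m * H ω) {ω | m * H ω < c} P :=
        (integrable_indicator_iff hK).1 h3
      exact Integrable.const_mul h2 (1 / m)
    rwa [e1] at hI
  · exact Filter.Eventually.of_forall fun ω => h0 ω

/-- number of pieces at the scale `j` -/
def nj (P : Measure Ω) (L : Ω → ℝ) (j : ℕ) : ℕ := ⌈1 / kj P L j⌉₊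

namespace Wn

lemma nj_ge [IsProbabilityMeasure P] (_ : Wn P H L W D mm η e a n σ) (j : ℕ) : 1 / kj P L j ≤ nj P L j :=
  Nat.le_ceil _

lemma nj_le [IsProbabilityMeasure P] (h : Wn P H L W D mm η e a n σ) (j : ℕ) :
    (nj P L j : ℝ) ≤ 1 / kj P L j + 1 := by
  have h1 := h.kpos j
  exact (Nat.ceil_lt_add_one (by positivity)).le

lemma nk [IsProbabilityMeasure P] (h : Wn P H L W D mm η e a n σ) (j : ℕ) :
    (nj P L (j + 1) : ℝ) * kj P L (j + 1) ≤ 2 ∧ (nj P L (j + 1) : ℝ) * kj P L j ≤ 3 := by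
  have h1 := h.kpos j
  have h2 := h.kpos (j + 1)
  have h3 := h.nj_le (j + 1)
  have h4 := h.kle1 (j + 1)
  have h5 := h.khalf j
  have h6 := h.kle1 j
  have e1 : 1 / kj P L (j + 1) * kj P L (j + 1) = 1 := by field_simp
  have e2 : 1 / kj P L (j + 1) * kj P L j ≤ 2 := by
    rw [one_div, inv_mul_le_iff₀ h2]
    linarith
  constructor <;> nlinarith

/-- **the input of the lists** -/
theorem scal [IsProbabilityMeasure P] (h : Wn P H L W D mm η e a n σ) {b : ℕ} (hb : b < n)
    (hsym : ∀ s : ℝ, ∫ ω in {ω | W ω < s}, D ω ∂P = 0) (hk : kj P L (a + b) ≤ 7 / 20) {q : ℝ}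
    (hq : 2 * σ + 3 * (20 / 9 * ((11 / 20) ^ b * (34 * η ^ 2 * 2 ^ a) + 34 * η ^ 2 * σ)) ≤ q) :
    Scal P H W D η q (n - b) (fun i => 1 / mm (a + b + i)) (fun i => nj P L (a + b + i))
      (fun i => 2 * sj mm e η (a + b + i) + 3 * vj P H L W D mm η (a + b + i)) := by
  have hη := h.η0
  have hm : ∀ j, 0 < mm j := h.be.m0
  have gk : ∀ i, i < n - b → kj P L (a + b + i) ≤ 7 / 20 := by
    intro i hi
    induction i with
    | zero => simpa using hk
    | succ i ih =>
      have h1 := ih (by omega)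
      have h2 := h.kstep' (j := a + b + i) (by omega) (by omega)
      have h3 := h.kpos (a + b + i)
      have e1 : a + b + (i + 1) = a + b + i + 1 := by omega
      rw [e1]
      linarith
  have eN : ∀ (N : ℕ) (r : ℝ), (N : ℝ≥0∞) * ENNReal.ofReal r = ENNReal.ofReal (N * r) := by
    intro N r
    rw [ENNReal.ofReal_mul (Nat.cast_nonneg N), ENNReal.ofReal_natCast]
  refine ⟨measure_univ, Filter.Eventually.of_forall fun ω => (h.be.al ω).1, by omega, ?_, ?_, ?_, ?_, ?_, ?_, ?_, ?_, ?_,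
    ?_, ?_, ?_⟩
  · intro i _
    have := hm (a + b + i)
    show 0 < 1 / mm (a + b + i)
    positivity
  · intro i _
    show 1 / mm (a + b + i) ≤ 1 / mm (a + b + (i + 1))
    exact one_div_le_one_div_of_le (hm _) (h.be.m_dec _)
  · intro i _
    show 1 / mm (a + b + i + 1) ≤ 2 * (1 / mm (a + b + i))
    rw [mul_one_div, div_le_div_iff₀ (hm _) (hm _)]
    have := h.be.m_dbl (a + b + i)
    linarith
  · intro i hi
    show 10 * nj P L (a + b + i) ≤ 7 * nj P L (a + b + (i + 1))
    have h1 := h.nj_le (a + b + i)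
    have h2 := h.nj_ge (a + b + i + 1)
    have h3 := h.kstep' (j := a + b + i) (by omega) (by omega)
    have h4 := h.kpos (a + b + i)
    have h5 := h.kpos (a + b + i + 1)
    have h6 := gk i hi
    have h7 : 200 / 103 * (1 / kj P L (a + b + i)) ≤ 1 / kj P L (a + b + i + 1) := by
      rw [mul_one_div, div_le_div_iff₀ h4 h5]
      linarith
    have h8 : 20 / 7 ≤ 1 / kj P L (a + b + i) := by
      rw [div_le_div_iff₀ (by norm_num) h4]
      linarith
    have h9 : (10 : ℝ) * nj P L (a + b + i) ≤ 7 * nj P L (a + b + i + 1) := by linarith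
    exact_mod_cast h9
  · intro i _
    have := h.sj0 (a + b + i)
    have := h.vj0 (a + b + i)
    show 0 ≤ 2 * sj mm e η (a + b + i) + 3 * vj P H L W D mm η (a + b + i)
    positivity
  · rw [Finset.sum_add_distrib, ← Finset.mul_sum, ← Finset.mul_sum]
    have g1 := h.sum2 hb.le
    have g2 : ∑ i ∈ Finset.range (n - b), sj mm e η (a + b + i) ≤ σ := by
      refine le_trans ?_ h.sum
      have e2 : ∑ i ∈ Finset.range (n - b), sj mm e η (a + b + i) = ∑ j ∈ Finset.Ico b n, sj mm e η (a + j) := by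
        rw [Finset.sum_Ico_eq_sum_range]
        refine Finset.sum_congr rfl fun i _ => ?_
        rw [add_assoc]
      rw [e2]
      refine Finset.sum_le_sum_of_subset_of_nonneg (fun j hj => ?_) fun i _ _ => h.sj0 _
      rw [Finset.mem_Ico] at hj
      exact Finset.mem_range.2 hj.2
    linarith
  · intro i _
    exact hsym _
  · intro i hi
    show (nj P L (a + b + (i + 1)) : ℝ≥0∞) *
      P {ω | η * (1 / mm (a + b + i)) ≤ H ω ∨ 4 * η * (1 / mm (a + b + i)) ≤ W ω} ≤ _
    have e1 : {ω | η * (1 / mm (a + b + i)) ≤ H ω ∨ 4 * η * (1 / mm (a + b + i)) ≤ W ω} =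
        {ω | η ≤ mm (a + b + i) * H ω} ∪ {ω | 4 * η ≤ mm (a + b + i) * W ω} := by
      have hh := hm (a + b + i)
      ext ω
      simp only [Set.mem_ofPred_eq, Set.mem_union]
      rw [mul_one_div, mul_one_div, div_le_iff₀ hh, div_le_iff₀ hh, mul_comm (H ω), mul_comm (W ω)]
    obtain ⟨B, hS⟩ := h.sc (a + b + i) (by omega) (by omega)
    have hbd := hS.bad' hη (by linarith [h.η1]) (h.e0 _)
    rw [l2] at hbd
    have h1 := (h.nk (a + b + i)).1
    have h2 := h.sj0 (a + b + i)
    have h3 := h.vj0 (a + b + i)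
    rw [e1, ← ofReal_measureReal, eN]
    refine ENNReal.ofReal_le_ofReal ?_
    have e2 : a + b + (i + 1) = a + b + i + 1 := by omega
    rw [e2]
    have h4 : (nj P L (a + b + i + 1) : ℝ) * P.real ({ω | η ≤ mm (a + b + i) * H ω} ∪ {ω | 4 * η ≤ mm (a + b + i) * W ω})
        ≤ nj P L (a + b + i + 1) * (kj P L (a + b + i + 1) * sj mm e η (a + b + i)) :=
      mul_le_mul_of_nonneg_left hbd (Nat.cast_nonneg _)
    nlinarith
  · intro i hi
    have h0 := h.k0
    rw [lsq h.be.hD h.be.hW h.absD (hm _) (by linarith), eN]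
    refine ENNReal.ofReal_le_ofReal ?_
    have e2 : a + b + (i + 1) = a + b + i + 1 := by omega
    rw [e2]
    have h1 := (h.nk (a + b + i)).2
    have h2 := h.sj0 (a + b + i)
    have hkp := h.kpos (a + b + i)
    have e3 : ∫ ω in {ω | mm (a + b + i) * W ω < 4 * η}, (mm (a + b + i) * D ω) ^ 2 ∂P =
        q2 P L D W (4 * η) (mm (a + b + i)) ((1 / 2) ^ (a + b + i)) * kj P L (a + b + i) := by
      unfold q2 kj
      rw [div_mul_cancel₀ _ (show kap P L ((1 / 2) ^ (a + b + i)) ≠ 0 from hkp.ne')]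
    have h3 : q2 P L D W (4 * η) (mm (a + b + i)) ((1 / 2) ^ (a + b + i)) ≤ vj P H L W D mm η (a + b + i) := by
      unfold vj
      have := q2_nonneg (P := P) (F := H) (G := H) (c := η) (m := mm (a + b + i)) (lam := (1 / 2) ^ (a + b + i))
        h.be.L0 (by positivity)
      linarith
    have h4 : 0 ≤ q2 P L D W (4 * η) (mm (a + b + i)) ((1 / 2) ^ (a + b + i)) := q2_nonneg h.be.L0 (by positivity)
    rw [e3]
    obtain ⟨x, hx⟩ : ∃ x : ℝ, x = (1 / mm (a + b + i)) ^ 2 := ⟨_, rfl⟩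
    rw [← hx]
    have hx0 : 0 ≤ x := by rw [hx]; positivity
    calc (nj P L (a + b + i + 1) : ℝ) * (x * (q2 P L D W (4 * η) (mm (a + b + i)) ((1 / 2) ^ (a + b + i)) * kj P L (a + b + i)))
        = (nj P L (a + b + i + 1) * kj P L (a + b + i)) *
          q2 P L D W (4 * η) (mm (a + b + i)) ((1 / 2) ^ (a + b + i)) * x := by ring
      _ ≤ 3 * vj P H L W D mm η (a + b + i) * x := by gcongr
      _ ≤ _ := mul_le_mul_of_nonneg_right (by linarith) hx0
  · intro i hi
    rw [lsq h.be.hH h.be.hH h.absH (hm _) hη.le, eN]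
    refine ENNReal.ofReal_le_ofReal ?_
    have e2 : a + b + (i + 1) = a + b + i + 1 := by omega
    rw [e2]
    have h1 := (h.nk (a + b + i)).2
    have h2 := h.sj0 (a + b + i)
    have hkp := h.kpos (a + b + i)
    have e3 : ∫ ω in {ω | mm (a + b + i) * H ω < η}, (mm (a + b + i) * H ω) ^ 2 ∂P =
        q2 P L H H η (mm (a + b + i)) ((1 / 2) ^ (a + b + i)) * kj P L (a + b + i) := by
      unfold q2 kj
      rw [div_mul_cancel₀ _ (show kap P L ((1 / 2) ^ (a + b + i)) ≠ 0 from hkp.ne')]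
    have h3 : q2 P L H H η (mm (a + b + i)) ((1 / 2) ^ (a + b + i)) ≤ vj P H L W D mm η (a + b + i) := by
      unfold vj
      have := q2_nonneg (P := P) (F := D) (G := W) (c := 4 * η) (m := mm (a + b + i)) (lam := (1 / 2) ^ (a + b + i))
        h.be.L0 (by positivity)
      linarith
    have h4 : 0 ≤ q2 P L H H η (mm (a + b + i)) ((1 / 2) ^ (a + b + i)) := q2_nonneg h.be.L0 (by positivity)
    rw [e3]
    obtain ⟨x, hx⟩ : ∃ x : ℝ, x = (1 / mm (a + b + i)) ^ 2 := ⟨_, rfl⟩
    rw [← hx]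
    have hx0 : 0 ≤ x := by rw [hx]; positivity
    calc (nj P L (a + b + i + 1) : ℝ) * (x * (q2 P L H H η (mm (a + b + i)) ((1 / 2) ^ (a + b + i)) * kj P L (a + b + i)))
        = (nj P L (a + b + i + 1) * kj P L (a + b + i)) *
          q2 P L H H η (mm (a + b + i)) ((1 / 2) ^ (a + b + i)) * x := by ring
      _ ≤ 3 * vj P H L W D mm η (a + b + i) * x := by gcongr
      _ ≤ _ := mul_le_mul_of_nonneg_right (by linarith) hx0
  · intro i hi
    obtain ⟨B, hS⟩ := h.sc (a + b + i) (by omega) (by omega)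
    have h1 := (hS.meanH hη (by linarith [h.η1]) (h.e0 _)).1
    have h2 := h.nj_ge (a + b + i)
    have h3 := h.kpos (a + b + i)
    have h4 := h.sj_le (j := a + b + i) (by omega) (by omega)
    have h5 := h.σ1
    have hx := hm (a + b + i)
    rw [lin h.be.hH h.be.H0 hx hη.le, eN]
    refine ENNReal.ofReal_le_ofReal ?_
    have h6 : kj P L (a + b + i) * (1 / 5) ≤ ∫ ω in {ω | mm (a + b + i) * H ω < η}, mm (a + b + i) * H ω ∂P := by
      refine le_trans ?_ h1
      show kj P L (a + b + i) * (1 / 5) ≤ kj P L (a + b + i) * (1 - 3 * sj mm e η (a + b + i))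
      exact mul_le_mul_of_nonneg_left (by linarith) h3.le
    calc 1 / mm (a + b + i) / 5 = 1 / kj P L (a + b + i) * (1 / mm (a + b + i) * (kj P L (a + b + i) * (1 / 5))) := by
          field_simp
      _ ≤ _ := by gcongr
  · intro i hi
    obtain ⟨B, hS⟩ := h.sc (a + b + i) (by omega) (by omega)
    have h1 := (hS.meanH hη (by linarith [h.η1]) (h.e0 _)).2
    have h2 := (h.nk (a + b + i)).2
    have h3 := h.kpos (a + b + i)
    have h4 := h.sj_le (j := a + b + i) (by omega) (by omega)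
    have h5 := h.σ1
    have h8 := h.η1
    have hx := hm (a + b + i)
    rw [lin h.be.hH h.be.H0 hx hη.le, eN]
    refine ENNReal.ofReal_le_ofReal ?_
    have e2 : a + b + (i + 1) = a + b + i + 1 := by omega
    rw [e2]
    have h6 : ∫ ω in {ω | mm (a + b + i) * H ω < η}, mm (a + b + i) * H ω ∂P ≤ kj P L (a + b + i) * 2 := by
      refine h1.trans ?_
      show kj P L (a + b + i) * (1 + 2 * η + 3 * sj mm e η (a + b + i)) ≤ kj P L (a + b + i) * 2
      exact mul_le_mul_of_nonneg_left (by linarith) h3.le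
    calc (nj P L (a + b + i + 1) : ℝ) * (1 / mm (a + b + i) *
          ∫ ω in {ω | mm (a + b + i) * H ω < η}, mm (a + b + i) * H ω ∂P)
        ≤ nj P L (a + b + i + 1) * (1 / mm (a + b + i) * (kj P L (a + b + i) * 2)) := by gcongr
      _ = (nj P L (a + b + i + 1) * kj P L (a + b + i)) * (2 * (1 / mm (a + b + i))) := by ring
      _ ≤ 3 * (2 * (1 / mm (a + b + i))) := by gcongr
      _ ≤ _ := by
        have : 0 < 1 / mm (a + b + i) := by positivity
        linarith

end Wn

end ZBW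

end
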