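import Pool.Agent.ZB.WinF

/-!
# ZB: removing the exceptional null set

`Base` holds almost surely; `Base.fix`: functions equal almost surely for which it holds everywhere (`BE`, `BT`, `BW`);
`scal_congr`: `Scal` does not see null sets.
-/

set_option autoImplicit false

noncomputable section

namespace ZBW

open MeasureTheory Real ZB Filter
open scoped ENNReal Topology

variable {Ω : Type} [MeasurableSpace Ω] {P : Measure Ω} {H L W D H' L' W' D' : Ω → ℝ} {mm : ℕ → ℝ}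

lemma setL_congr {S S' : Set Ω} {f f' : Ω → ℝ≥0∞} (hS : ∀ᵐ ω ∂P, (ω ∈ S' ↔ ω ∈ S)) (hf : ∀ᵐ ω ∂P, f' ω = f ω) :
    ∫⁻ ω in S', f' ω ∂P = ∫⁻ ω in S, f ω ∂P := by
  rw [setLIntegral_congr (eventuallyEq_set.2 hS)]
  exact lintegral_congr_ae (ae_restrict_of_ae hf)

lemma setI_congr {S S' : Set Ω} {f f' : Ω → ℝ} (hS : ∀ᵐ ω ∂P, (ω ∈ S' ↔ ω ∈ S)) (hf : ∀ᵐ ω ∂P, f' ω = f ω) :
    ∫ ω in S', f' ω ∂P = ∫ ω in S, f ω ∂P := by
  rw [setIntegral_congr_set (eventuallyEq_set.2 hS)]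
  exact integral_congr_ae (ae_restrict_of_ae hf)

lemma scal_congr (hH : ∀ᵐ ω ∂P, H' ω = H ω) (hW : ∀ᵐ ω ∂P, W' ω = W ω) (hD : ∀ᵐ ω ∂P, D' ω = D ω) {e q : ℝ} {K : ℕ}
    {x : ℕ → ℝ} {n : ℕ → ℕ} {s : ℕ → ℝ} (h : Scal P H' W' D' e q K x n s) : Scal P H W D e q K x n s := by
  have sW : ∀ c : ℝ, ∀ᵐ ω ∂P, (ω ∈ {ω | W' ω < c} ↔ ω ∈ {ω | W ω < c}) := fun c => by
    filter_upwards [hW] with ω h1
    show W' ω < c ↔ W ω < c
    rw [h1]
  have sH : ∀ c : ℝ, ∀ᵐ ω ∂P, (ω ∈ {ω | H' ω < c} ↔ ω ∈ {ω | H ω < c}) := fun c => by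
    filter_upwards [hH] with ω h1
    show H' ω < c ↔ H ω < c
    rw [h1]
  refine ⟨h.prob, ?_, h.K1, h.xpos, h.xinc, h.xdbl, h.ndbl, h.s0, h.sum, ?_, ?_, ?_, ?_, ?_, ?_⟩
  · filter_upwards [hH, h.h1] with ω h1 h2
    rwa [← h1]
  · intro i hi
    rw [← setI_congr (sW _) hD]
    exact h.sym i hi
  · intro i hi
    have e1 : P {ω | e * x i ≤ H' ω ∨ 4 * e * x i ≤ W' ω} = P {ω | e * x i ≤ H ω ∨ 4 * e * x i ≤ W ω} := by
      refine measure_congr (eventuallyEq_set.2 ?_)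
      filter_upwards [hH, hW] with ω h1 h2
      show (e * x i ≤ H' ω ∨ 4 * e * x i ≤ W' ω) ↔ (e * x i ≤ H ω ∨ 4 * e * x i ≤ W ω)
      rw [h1, h2]
    rw [← e1]
    exact h.exc i hi
  · intro i hi
    rw [← setL_congr (sW _) (f' := fun ω => ENNReal.ofReal (D' ω ^ 2)) (hD.mono fun ω h1 => by simp only [h1])]
    exact h.dd i hi
  · intro i hi
    rw [← setL_congr (sH _) (f' := fun ω => ENNReal.ofReal (H' ω ^ 2)) (hH.mono fun ω h1 => by simp only [h1])]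
    exact h.hh i hi
  · intro i hi
    rw [← setL_congr (sH _) (f' := fun ω => ENNReal.ofReal (H' ω)) (hH.mono fun ω h1 => by simp only [h1])]
    exact h.lo i hi
  · intro i hi
    rw [← setL_congr (sH _) (f' := fun ω => ENNReal.ofReal (H' ω)) (hH.mono fun ω h1 => by simp only [h1])]
    exact h.up i hi

/-- **the base, everywhere** -/
theorem fix [Countable Ω] [DiscreteMeasurableSpace Ω] (h : Base P H L W D mm) :
    ∃ H' L' W' D' : Ω → ℝ, (∀ᵐ ω ∂P, H' ω = H ω) ∧ (∀ᵐ ω ∂P, W' ω = W ω) ∧ (∀ᵐ ω ∂P, D' ω = D ω) ∧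
      BE P H' L' W' D' mm ∧ (∀ s : ℝ, ∫ ω in {ω | W' ω < s}, D' ω ∂P = 0) ∧
      ∀ d : ℝ, 0 < d → d ≤ 1 / 100 → ∃ k0 : ℕ, ∀ k, k0 ≤ k → BT P H' L' mm d k ∧ BW P L' W' mm d k := by
  classical
  obtain ⟨G, hG⟩ : ∃ G : Set Ω, G = {ω | 1 ≤ H ω ∧ H ω ≤ L ω ∧ |D ω| ≤ W ω ∧ W ω ≤ L ω} := ⟨_, rfl⟩
  have aG : ∀ᵐ ω ∂P, ω ∈ G := by
    rw [hG]
    exact h.ae
  have gg : ∀ ω ∈ G, 1 ≤ H ω ∧ H ω ≤ L ω ∧ |D ω| ≤ W ω ∧ W ω ≤ L ω := by
    intro ω hω
    rw [hG] at hω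
    exact hω
  have eH : ∀ᵐ ω ∂P, (if ω ∈ G then H ω else 1) = H ω := aG.mono fun ω hω => if_pos hω
  have eL : ∀ᵐ ω ∂P, (if ω ∈ G then L ω else 1) = L ω := aG.mono fun ω hω => if_pos hω
  have eW : ∀ᵐ ω ∂P, (if ω ∈ G then W ω else 1) = W ω := aG.mono fun ω hω => if_pos hω
  have eD : ∀ᵐ ω ∂P, (if ω ∈ G then D ω else 0) = D ω := aG.mono fun ω hω => if_pos hω
  refine ⟨fun ω => if ω ∈ G then H ω else 1, fun ω => if ω ∈ G then L ω else 1, fun ω => if ω ∈ G then W ω else 1,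
    fun ω => if ω ∈ G then D ω else 0, eH, eW, eD, ?_, ?_, ?_⟩
  · refine ⟨Measurable.of_discrete, Measurable.of_discrete, Measurable.of_discrete, Measurable.of_discrete, ?_, h.m_lo,
      h.m_dec, h.m_dbl, ?_⟩
    · intro ω
      show 1 ≤ (if ω ∈ G then H ω else 1) ∧ (if ω ∈ G then H ω else 1) ≤ (if ω ∈ G then L ω else 1) ∧
        |if ω ∈ G then D ω else 0| ≤ (if ω ∈ G then W ω else 1) ∧ (if ω ∈ G then W ω else 1) ≤ (if ω ∈ G then L ω else 1)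
      by_cases hω : ω ∈ G
      · simp only [if_pos hω]
        exact gg ω hω
      · simp only [if_neg hω]
        norm_num
    · intro j
      rw [← h.eZ j]
      refine lintegral_congr_ae ?_
      filter_upwards [eH, eL] with ω h1 h2
      simp only [h1, h2]
  · intro s
    refine Eq.trans (setI_congr (S := {ω | W ω < s}) ?_ eD) (h.sym s)
    filter_upwards [eW] with ω h1
    show (if ω ∈ G then W ω else 1) < s ↔ W ω < s
    rw [h1]
  · intro d hd hd1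
    obtain ⟨k1, h1⟩ := h.tT d hd hd1
    obtain ⟨k2, h2⟩ := h.tW d hd hd1
    refine ⟨max k1 k2, fun k hk => ⟨?_, ?_⟩⟩
    · intro s hs M lam hM
      refine le_trans (le_of_eq ?_) (h1 k ((le_max_left _ _).trans hk) s hs M lam hM)
      refine setL_congr ?_ ?_
      · filter_upwards [eH, eL] with ω h3 h4
        show (s ≤ (if ω ∈ G then H ω else 1) ∧
          (if ω ∈ G then L ω else 1) < 2.9 * (2 ^ k * mm k) * (if ω ∈ G then H ω else 1)) ↔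
          (s ≤ H ω ∧ L ω < 2.9 * (2 ^ k * mm k) * H ω)
        rw [h3, h4]
      · filter_upwards [eH, eL] with ω h3 h4
        simp only [h3, h4]
    · intro s hs
      refine le_trans (le_of_eq ?_) (h2 k ((le_max_right _ _).trans hk) s hs)
      refine measure_congr (eventuallyEq_set.2 ?_)
      filter_upwards [eW, eL] with ω h3 h4
      show (s ≤ (if ω ∈ G then W ω else 1) ∧
        (if ω ∈ G then L ω else 1) < (1 - d) * (2 ^ k * mm k) * s) ↔ (s ≤ W ω ∧ L ω < (1 - d) * (2 ^ k * mm k) * s)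
      rw [h3, h4]

end ZBW

end
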