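import Pool.Agent.ZB.WinH
import Pool.Agent.ZB.ListE

/-!
# ZB, row C with low pieces (for the triangular lattice): `anOut2 : AnOut2` (the proof of helper95's `anOut`)
-/

set_option autoImplicit false

noncomputable section

namespace ZBW

open MeasureTheory Real ZB Filter
open scoped ENNReal Topology

/-- **row C**, all pieces of the short list low -/
theorem anOut2 : AnOut2 := by
  intro Ω _ _ _ P H L W D mm hB eta he he1
  have : IsProbabilityMeasure P := ⟨hB.prob⟩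
  obtain ⟨H', L', W', D', aH, aW, aD, be, sym', tt⟩ := fix hB
  obtain ⟨η, hη'⟩ : ∃ η : ℝ, η = eta / 50 := ⟨_, rfl⟩
  have hη : 0 < η := by rw [hη']; positivity
  have hη1 : η ≤ 1 / 50 := by rw [hη']; linarith
  obtain ⟨d, hd⟩ : ∃ d : ℝ, d = η ^ 4 / 10 ^ 11 := ⟨_, rfl⟩
  have d0 : 0 < d := by rw [hd]; positivity
  have d1 : d ≤ 1 / 10 ^ 11 := by
    rw [hd]
    have : η ^ 4 ≤ 1 := pow_le_one₀ hη.le (by linarith)
    exact div_le_div_of_nonneg_right this (by positivity)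
  refine ⟨d, d0, 400, fun s => ?_⟩
  obtain ⟨k0, hk0⟩ := tt d d0 (by linarith)
  obtain ⟨X0, hX0, hthr⟩ := thr hη
  -- all that has to be large
  have tX : Tendsto (fun k : ℕ => (2 : ℝ) ^ ((k : ℝ) / 20)) atTop atTop := by
    have h1 : Tendsto (fun k : ℕ => (k : ℝ) / 20) atTop atTop :=
      tendsto_natCast_atTop_atTop.atTop_div_const (by norm_num)
    have h2 : Tendsto (fun y : ℝ => (2 : ℝ) ^ y) atTop atTop := tendsto_rpow_atTop_of_base_gt_one 2 (by norm_num)
    exact h2.comp h1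
  have t5 : Tendsto (fun k : ℕ => (1 / 5 : ℝ) ^ k) atTop (𝓝 0) :=
    tendsto_pow_atTop_nhds_zero_of_lt_one (by norm_num) (by norm_num)
  have tm : ∀ᶠ j in atTop, mm j ≤ 1 ∧ s ≤ 1 / mm j := by
    have h1 : ∀ᶠ j in atTop, mm j < 1 := hB.m_lim.eventually_lt_const one_pos
    have h2 : ∀ᶠ j in atTop, mm j < 1 / (|s| + 1) := hB.m_lim.eventually_lt_const (by positivity)
    filter_upwards [h1, h2] with j g1 g2
    have m0 := be.m0 j
    refine ⟨g1.le, ?_⟩
    rw [le_div_iff₀ m0]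
    rw [lt_div_iff₀ (by positivity)] at g2
    nlinarith [le_abs_self s]
  obtain ⟨k1, hk1⟩ := eventually_atTop.1 tm
  filter_upwards [tX.eventually_ge_atTop X0, tX.eventually_ge_atTop (4 / d), tX.eventually_ge_atTop (1 / η),
    tX.eventually_ge_atTop (10 ^ 11 / η ^ 2), tX.eventually_ge_atTop 5, t5.eventually_lt_const
    (show (0 : ℝ) < 1 / 10 ^ 11 by positivity), eventually_ge_atTop k0, eventually_ge_atTop k1,
    eventually_ge_atTop 1] with k a1 a2 a3 a4 a5 a6 a7 a8 a9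
  by_cases c1 : (1 + d) * (2 ^ k * mm k) ≤ 2 ^ (400 * k) * mm (400 * k)
  · exact Or.inr (Or.inl c1)
  by_cases c2 : (2 : ℝ) ^ ((k : ℝ) / 20) ≤ 2 ^ (400 * k) * mm (400 * k)
  · exact Or.inr (Or.inr c2)
  left
  rw [not_le] at c1 c2
  have hBig : Big η d s ((2 : ℝ) ^ ((k : ℝ) / 20)) mm k := by
    refine ⟨a9, hX0.trans a1, ?_, a2, a3, a4, fun ξ hξ => hthr ξ (a1.trans hξ), a6.le,
      fun j hj => hk1 j (a8.trans hj), a5⟩
    rw [← rpow_natCast, ← rpow_mul (by norm_num)]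
    rw [show (k : ℝ) / 20 * ((20 : ℕ) : ℝ) = (k : ℝ) by push_cast; ring, rpow_natCast]
  obtain ⟨w1, w2, w3, w4⟩ := window be sym' hη hη1 hd (hk0 k a7).1 (hk0 k a7).2 hBig c1 c2
  have w5 := scal_congr aH aW aD w1
  have l1 := Lst.listT2 w5 hη (by linarith) le_rfl
  have l2 := Lst.listR w5 hη (by linarith) le_rfl
  have e1 : 50 * η = eta := by rw [hη']; ring
  have e2 : 20 * k + 380 * k = 400 * k := by omega
  rw [e1] at l1 l2
  simp only [add_zero, e2] at l1 l2
  exact ⟨1 / mm (20 * k), 1 / mm (400 * k), nj P L' (20 * k), nj P L' (400 * k), w2, w3, w4, l1, l2⟩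

end ZBW

end
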